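import Mathlib
import Pool.Agent.Lib.MP_04add8_pr.Two.Defs

open MeasureTheory ProbabilityTheory Filter Topology
open scoped ENNReal

set_option linter.unusedSectionVars false

namespace Pool.Agent.Lib.MP_04add8_pr

/-- the `K`-th Taylor polynomial of the moment generating function of the service law -/
noncomputable def momPoly (μ : Measure ℝ) (K : ℕ) (β : ℝ) : ℝ :=
  ∑ j ∈ Finset.range (K + 1), (∫ s, s ^ j ∂μ) * β ^ j / (j.factorial : ℝ)

/-- the Laplace transform of the interarrival law -/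
noncomputable def lap (ν : Measure ℝ) (q : ℝ) : ℝ := ∫ t, Real.exp (-(q * t)) ∂ν

/-- the root of the truncated Cramer equation `momPoly β * lap (β + θ) = 1` -/
noncomputable def cramerRoot (μ ν : Measure ℝ) (K : ℕ) (θ : ℝ) : ℝ :=
  sInf {β : ℝ | 0 ≤ β ∧ 1 ≤ momPoly μ K β * lap ν (β + θ)}

/-- the conjugate point: the solution `X` of `a X ^ (a - 1) = θ` -/
noncomputable def wX (a θ : ℝ) : ℝ := (a / θ) ^ (1 / (1 - a))

/-- `wG a θ = sup_y (y ^ a - θ y)` -/
noncomputable def wG (a θ : ℝ) : ℝ := (1 - a) * (a / θ) ^ (a / (1 - a))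

/-- the rate function with Cramer correction, for a general `β` -/
noncomputable def rateB (a : ℝ) (β : ℝ → ℝ) (x : ℝ) : ℝ :=
  sInf ((fun θ : ℝ => wG a θ + x * (θ + β θ)) '' Set.Ioi 0)

/-- workload of a single server fed with all jobs -/
noncomputable def reflW (r : ℝ) (z : ℕ → ℝ × ℝ) : ℕ → ℝ
  | 0 => r
  | n + 1 => max (reflW r z n + (z n).1 - (z n).2) 0

/-- the first `n` jobs have size at most `B` -/
def allLe (B : ℝ) (n : ℕ) : Set (ℕ → ℝ × ℝ) := {z | ∀ i < n, (z i).1 ≤ B}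

section

variable (μ ν : Measure ℝ) [IsProbabilityMeasure μ] [IsProbabilityMeasure ν]

/-- truncated transform -/
noncomputable def trPhi (B β θ : ℝ) : ℝ≥0∞ :=
  ∫⁻ p, (Set.Iic B).indicator (fun _ => (1 : ℝ≥0∞)) p.1 *
    ENNReal.ofReal (Real.exp (β * (p.1 - p.2) - θ * p.2)) ∂(μ.prod ν)

/-- discounted overshoot over the level `y` -/
noncomputable def lvl (B θ : ℝ) (n : ℕ) (y : ℝ) : ℝ≥0∞ :=
  ∫⁻ z, (allLe B n).indicator (fun z => if y < reflW 0 z n then
    ENNReal.ofReal (Real.exp (θ * (reflW 0 z n - y) - θ * sumA z n)) else 0) z ∂(noise μ ν)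

/-- discounted exponential moment of the workload -/
noncomputable def lvlA (B θ : ℝ) (n : ℕ) : ℝ≥0∞ :=
  ∫⁻ z, (allLe B n).indicator (fun z =>
    ENNReal.ofReal (Real.exp (θ * reflW 0 z n - θ * sumA z n))) z ∂(noise μ ν)

/-- contribution of one big job followed by `n` small ones, from the state `w` -/
noncomputable def mainOne (a x B : ℝ) (n : ℕ) (w : ℝ × ℝ) : ℝ≥0∞ :=
  ∫⁻ z, (allLe B n).indicator (fun z => if x < reflW w.2 z n then
    ENNReal.ofReal (Real.exp (-((max (2 * x + sumA z n - w.1 - reflW w.2 z n) 0) ^ a))) else 0) z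
    ∂(noise μ ν)

/-- exponentially tilted version of `mainOne` -/
noncomputable def tiltOne (x B θ : ℝ) (n : ℕ) (w : ℝ × ℝ) : ℝ≥0∞ :=
  ∫⁻ z, (allLe B n).indicator (fun z => if x < reflW w.2 z n then
    ENNReal.ofReal (Real.exp (-(θ * (2 * x + sumA z n - w.1 - reflW w.2 z n)))) else 0) z
    ∂(noise μ ν)

end

/-- a job of size above `y0` at step `0`, then `n` jobs of size at most `B`, and both servers
have more than `x` at the end -/
def oneBig (x y0 B : ℝ) (n : ℕ) : Set ((ℝ × ℝ) × (ℕ → ℝ × ℝ)) :=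
  {q | y0 < (q.2 0).1 ∧ (∀ i < n, (q.2 (i + 1)).1 ≤ B) ∧ x < (pIter q.1 q.2 (n + 1)).1}

/-- the asymptotic formula in the one-big-job regime -/
noncomputable def fOne (a : ℝ) (μ ν : Measure ℝ) (K : ℕ) (x : ℝ) : ℝ :=
  Real.exp (-(rateB a (cramerRoot μ ν K) x)) /
    ((2 * (∫ t, t ∂ν) - ∫ s, s ∂μ) *
      (a * ((∫ s, s ∂μ) / ((∫ s, s ∂μ) - ∫ t, t ∂ν) * x) ^ (a - 1)))

lemma reflW_zero (r : ℝ) (z : ℕ → ℝ × ℝ) : reflW r z 0 = r := rfl

lemma reflW_succ (r : ℝ) (z : ℕ → ℝ × ℝ) (n : ℕ) :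
    reflW r z (n + 1) = max (reflW r z n + (z n).1 - (z n).2) 0 := rfl

lemma reflW_gcons (r : ℝ) (p : ℝ × ℝ) (z : ℕ → ℝ × ℝ) (n : ℕ) :
    reflW r (gcons p z) (n + 1) = reflW (max (r + p.1 - p.2) 0) z n := by
  induction n with
  | zero => rfl
  | succ n ih => rw [reflW, ih]; rfl

lemma reflW_nonneg {r : ℝ} (hr : 0 ≤ r) (z : ℕ → ℝ × ℝ) (n : ℕ) : 0 ≤ reflW r z n := by
  cases n with
  | zero => exact hr
  | succ n => exact le_max_right _ _

lemma reflW_mono {r r' : ℝ} (h : r ≤ r') (z : ℕ → ℝ × ℝ) (n : ℕ) :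
    reflW r z n ≤ reflW r' z n := by
  induction n with
  | zero => exact h
  | succ n ih => simp only [reflW_succ]; gcongr

lemma reflW_le_add {r : ℝ} (hr : 0 ≤ r) (z : ℕ → ℝ × ℝ) (n : ℕ) :
    reflW r z n ≤ r + reflW 0 z n := by
  induction n with
  | zero => simp [reflW_zero]
  | succ n ih =>
    simp only [reflW_succ]
    apply max_le
    · have := le_max_left (reflW 0 z n + (z n).1 - (z n).2) 0
      linarith
    · have := le_max_right (reflW 0 z n + (z n).1 - (z n).2) 0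
      linarith

lemma measurable_reflW (n : ℕ) :
    Measurable (fun q : ℝ × (ℕ → ℝ × ℝ) => reflW q.1 q.2 n) := by
  induction n with
  | zero => exact measurable_fst
  | succ n ih =>
    have h1 : Measurable (fun q : ℝ × (ℕ → ℝ × ℝ) => (q.2 n).1) := by fun_prop
    have h2 : Measurable (fun q : ℝ × (ℕ → ℝ × ℝ) => (q.2 n).2) := by fun_prop
    exact ((ih.add h1).sub h2).max measurable_const

lemma measurable_reflW_right (r : ℝ) (n : ℕ) :
    Measurable (fun z : ℕ → ℝ × ℝ => reflW r z n) :=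
  (measurable_reflW n).comp (measurable_const.prodMk measurable_id)

lemma measurableSet_allLe (B : ℝ) (n : ℕ) : MeasurableSet (allLe B n) := by
  have : allLe B n = ⋂ i ∈ Finset.range n, {z : ℕ → ℝ × ℝ | (z i).1 ≤ B} := by
    ext z; simp [allLe]
  rw [this]
  exact Finset.measurableSet_biInter _ fun i _ => measurableSet_le (by fun_prop) (by fun_prop)

lemma gcons_mem_allLe (B : ℝ) (n : ℕ) (p : ℝ × ℝ) (z : ℕ → ℝ × ℝ) :
    gcons p z ∈ allLe B (n + 1) ↔ p.1 ≤ B ∧ z ∈ allLe B n := by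
  constructor
  · intro h
    exact ⟨h 0 (Nat.succ_pos _), fun i hi => h (i + 1) (Nat.succ_lt_succ hi)⟩
  · rintro ⟨h0, h⟩ i hi
    cases i with
    | zero => exact h0
    | succ i => exact h i (Nat.lt_of_succ_lt_succ hi)

lemma allLe_mono {B B' : ℝ} (h : B ≤ B') (n : ℕ) : allLe B n ⊆ allLe B' n :=
  fun _ hz i hi => (hz i hi).trans h

lemma sumA_gcons (p : ℝ × ℝ) (z : ℕ → ℝ × ℝ) (n : ℕ) :
    sumA (gcons p z) (n + 1) = p.2 + sumA z n := by
  unfold sumA
  rw [Finset.sum_range_succ', add_comm]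
  rfl

end Pool.Agent.Lib.MP_04add8_pr
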