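import Mathlib
import Pool.Agent.Lib.MP_04add8_pr.One.Defs
import Pool.Agent.Lib.MP_04add8_pr.Two.Excursion
import Pool.Agent.Lib.MP_04add8_pr.Two.MainU

open MeasureTheory ProbabilityTheory Filter Topology
open scoped ENNReal

set_option linter.unusedSectionVars false

namespace Pool.Agent.Lib.MP_04add8_pr

/-- increments of a concave power decrease -/
lemma BadBig_rpow_incr {a q M d : ℝ} (ha0 : 0 < a) (ha1 : a < 1) (hq : 0 ≤ q) (hqM : q ≤ M)
    (hd : 0 ≤ d) : (M + d) ^ a + q ^ a ≤ M ^ a + (q + d) ^ a := by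
  rcases (hqM.trans (le_add_of_nonneg_right hd)).eq_or_lt with h | h
  · have h1 : M = q := le_antisymm (by linarith) hqM
    have h2 : d = 0 := by linarith
    subst h1 h2
    linarith
  · have hc := Real.concaveOn_rpow ha0.le ha1.le
    set D := M + d - q with hD
    have hD0 : 0 < D := by rw [hD]; linarith
    have hl1 : 0 ≤ d / D := by positivity
    have hl2 : 0 ≤ (M - q) / D := div_nonneg (by linarith) hD0.le
    have hl3 : d / D + (M - q) / D = 1 := by
      rw [← add_div, div_eq_one_iff_eq hD0.ne', hD]; ring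
    have hl3' : (M - q) / D + d / D = 1 := by rw [add_comm]; exact hl3
    have hqm : q ∈ Set.Ici (0 : ℝ) := hq
    have hMm : M + d ∈ Set.Ici (0 : ℝ) := by
      change 0 ≤ M + d
      linarith
    have h1 := hc.2 hqm hMm hl1 hl2 hl3
    have h2 := hc.2 hqm hMm hl2 hl1 hl3'
    simp only [smul_eq_mul] at h1 h2
    have e1 : d / D * q + (M - q) / D * (M + d) = M := by
      field_simp
      rw [hD]; ring
    have e2 : (M - q) / D * q + d / D * (M + d) = q + d := by
      field_simp
      rw [hD]; ring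
    rw [e1] at h1
    rw [e2] at h2
    have e3 : d / D * q ^ a + (M - q) / D * (M + d) ^ a + ((M - q) / D * q ^ a +
        d / D * (M + d) ^ a) = (d / D + (M - q) / D) * (q ^ a + (M + d) ^ a) := by ring
    rw [hl3, one_mul] at e3
    linarith

/-- one-job argument: `(M + q / b) ^ a ≤ M ^ a + (θ - 1) q ^ a` -/
lemma BadBig_one {a b q M : ℝ} (ha0 : 0 < a) (ha1 : a < 1) (hb : 0 < b) (hq : 0 ≤ q)
    (hqM : q ≤ M) : (M + q / b) ^ a ≤ M ^ a + ((1 + 1 / b) ^ a - 1) * q ^ a := by
  have h := BadBig_rpow_incr ha0 ha1 hq hqM (d := q / b) (by positivity)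
  have e : (q + q / b) ^ a = (1 + 1 / b) ^ a * q ^ a := by
    rw [← Real.mul_rpow (by positivity) hq]
    congr 1
    ring
  rw [e] at h
  linarith

theorem gain_one {a b R : ℝ} (ha0 : 0 < a) (ha1 : a < 1) (hb : 0 < b) (hb1 : b < 1) (hR : 0 < R)
    (hθ : (1 + 1 / b) ^ a ≤ 2) {w : ℝ × ℝ} (h0 : 0 ≤ w.1) (h1 : w.1 ≤ w.2) {s t : ℝ}
    (hs : 0 ≤ s) (ht : 0 ≤ t) :
    cost a b R (kwStep w s t) ≤ cost a b R w + s ^ a -
      (2 - (1 + 1 / b) ^ a) * (min w.2 s) ^ a + 2 * (R / b) ^ a := by
  have hw2 : 0 ≤ w.2 := h0.trans h1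
  have hib : 1 ≤ 1 / b := by rw [le_div_iff₀ hb]; linarith
  set θ := (1 + 1 / b) ^ a with hθd
  -- step 1
  have hstep := cost_kwStep_le (a := a) (b := b) (R := R) ha0 hb hR w s ht
  have e0 : max (w.1 + s - 0) 0 = w.1 + s := by
    rw [sub_zero]; exact max_eq_left (by linarith)
  have e1 : max (w.2 - 0) 0 = w.2 := by
    rw [sub_zero]; exact max_eq_left hw2
  rw [e0, e1] at hstep
  set mn := min (w.1 + s) w.2 with hmn
  set mx := max (w.1 + s) w.2 with hmx
  have hmn0 : 0 ≤ mn := le_min (by linarith) hw2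
  have hmx0 : 0 ≤ mx := hw2.trans (le_max_right _ _)
  set U := w.2 + w.1 / b with hU
  have hU0 : 0 ≤ U := by rw [hU]; positivity
  have hwU : w.2 ≤ U := by
    rw [hU]
    have : 0 ≤ w.1 / b := by positivity
    linarith
  have hkey : mx + mn / b ≤ max U s + min U s / b := by
    have hdiv : ∀ z : ℝ, z / b = 1 / b * z := fun z => by ring
    rcases le_total (w.1 + s) w.2 with h | h
    · rw [hmx, hmn, max_eq_right h, min_eq_left h]
      have hsU : s ≤ U := by linarith
      rw [max_eq_left hsU, min_eq_right hsU, hU, add_div]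
      linarith
    · rw [hmx, hmn, max_eq_left h, min_eq_right h]
      rcases le_total s U with hsU | hsU
      · rw [max_eq_left hsU, min_eq_right hsU, hU]
        rw [hdiv w.2, hdiv w.1, hdiv s]
        nlinarith
      · rw [max_eq_right hsU, min_eq_left hsU, hU, add_div]
        have h2 : w.1 ≤ w.1 / b / b := by
          rw [hdiv (w.1 / b), hdiv w.1]
          have h3 : w.1 ≤ 1 / b * w.1 := by nlinarith
          nlinarith
        linarith
  have hq0 : 0 ≤ min U s := le_min hU0 hs
  have hqM : min U s ≤ max U s := min_le_max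
  have hM0 : 0 ≤ max U s := hU0.trans (le_max_left _ _)
  -- step 2
  have hcost1 : cost a b R (mn, mx) ≤ (mx + mn / b) ^ a + (R / b) ^ a := by
    unfold cost
    refine (min_le_left _ _).trans ?_
    have h2 : bigA b R (mn, mx) ≤ (mx + mn / b) + R / b := by
      unfold bigA
      have h3 : √(mn ^ 2 + R ^ 2) ≤ mn + R := by
        apply Real.sqrt_le_iff.mpr
        exact ⟨by positivity, by nlinarith⟩
      have h4 : √(mn ^ 2 + R ^ 2) / b ≤ (mn + R) / b := by gcongr
      rw [add_div] at h4
      simp only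
      linarith
    have h5 : 0 ≤ bigA b R (mn, mx) := (bigA_pos hb hR (w := (mn, mx)) hmx0).le
    calc bigA b R (mn, mx) ^ a ≤ ((mx + mn / b) + R / b) ^ a := by gcongr
      _ ≤ _ := rpow_add_le_add ha0 ha1 (by positivity) (by positivity)
  have hcost2 : (mx + mn / b) ^ a ≤ (max U s + min U s / b) ^ a := by
    gcongr
  have hcost3 := BadBig_one ha0 ha1 hb hq0 hqM
  rw [← hθd] at hcost3
  have hsum : (max U s) ^ a + (min U s) ^ a = U ^ a + s ^ a := by
    rcases le_total U s with h | h
    · rw [max_eq_right h, min_eq_left h]; ring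
    · rw [max_eq_left h, min_eq_right h]
  have hmin : (min w.2 s) ^ a ≤ (min U s) ^ a := by
    have : 0 ≤ min w.2 s := le_min hw2 hs
    have h2 : min w.2 s ≤ min U s := min_le_min hwU le_rfl
    gcongr
  have hmin' : (2 - θ) * (min w.2 s) ^ a ≤ (2 - θ) * (min U s) ^ a := by
    have : 0 ≤ 2 - θ := by linarith
    gcongr
  -- step 3
  have hUc : U ^ a ≤ cost a b R w := by
    unfold cost
    apply le_min
    · have h2 : U ≤ bigA b R w := by
        unfold bigA
        have h3 : w.1 ≤ √(w.1 ^ 2 + R ^ 2) := by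
          apply Real.le_sqrt_of_sq_le; nlinarith [sq_nonneg R]
        have h4 : w.1 / b ≤ √(w.1 ^ 2 + R ^ 2) / b := by gcongr
        rw [hU]; linarith
      gcongr
    · have h2 := BadBig_one ha0 ha1 hb h0 h1
      rw [← hθd] at h2
      have h3 : (θ - 1) * w.1 ^ a ≤ 1 * w.1 ^ a := by
        have : 0 ≤ w.1 ^ a := by positivity
        gcongr
        linarith
      rw [hU]
      linarith
  have hRb : 0 ≤ (R / b) ^ a := by positivity
  nlinarith [hstep, hcost1, hcost2, hcost3, hsum, hmin', hUc, hRb]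

section stoch

variable {a : ℝ} {μ ν : Measure ℝ} [IsProbabilityMeasure μ] [IsProbabilityMeasure ν]

/-- iteration of a drift inequality -/
lemma BadBig_iter {H : ℝ × ℝ → ℝ≥0∞} (hH : Measurable H) {K : ℝ≥0∞}
    (hd : ∀ w : ℝ × ℝ, 0 ≤ w.1 → w.1 ≤ w.2 →
      ∫⁻ p, H (kwStep w p.1 p.2) ∂(μ.prod ν) ≤ H w + K) (n : ℕ) :
    ∀ w : ℝ × ℝ, 0 ≤ w.1 → w.1 ≤ w.2 →
      ∫⁻ z, H (pIter w z n) ∂(noise μ ν) ≤ H w + n * K := by
  induction n with
  | zero =>
    intro w _ _
    have : IsProbabilityMeasure (noise μ ν) := inferInstance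
    simp [pIter_zero]
  | succ n ih =>
    intro w h0 h1
    have hmeas : Measurable (fun z : ℕ → ℝ × ℝ => H (pIter w z (n + 1))) :=
      hH.comp (measurable_pIter_right w (n + 1))
    rw [lintegral_noise_cons hmeas]
    simp only [pIter_gcons]
    calc ∫⁻ p, ∫⁻ z, H (pIter (kwStep w p.1 p.2) z n) ∂(noise μ ν) ∂(μ.prod ν)
        ≤ ∫⁻ p, (H (kwStep w p.1 p.2) + n * K) ∂(μ.prod ν) :=
          lintegral_mono (fun p => ih _ (kwStep_fst_nonneg _ _ _) (kwStep_fst_le_snd _ _ _))
      _ = ∫⁻ p, H (kwStep w p.1 p.2) ∂(μ.prod ν) + n * K := by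
          rw [lintegral_add_right _ measurable_const, lintegral_const, measure_univ, mul_one]
      _ ≤ (H w + K) + n * K := by
          gcongr
          exact hd w h0 h1
      _ = H w + (n + 1 : ℕ) * K := by
          push_cast; ring

/-- exponential moment of the cost under a stationary law -/
lemma BadBig_mean (ha0 : 0 < a) (ha1 : a < 1) {b R k : ℝ} (hb : 0 < b) (hR : 0 < R) (hk : 0 < k)
    (hdr : ∀ lam : ℝ, 1 / 2 ≤ lam → lam < 1 → ∃ L K : ℝ, 0 < L ∧ 0 ≤ K ∧
      ∀ w : ℝ × ℝ, 0 ≤ w.1 → w.1 ≤ w.2 →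
        ∫⁻ p, ENNReal.ofReal (Real.exp (lam * cost a b R (kwStep w p.1 p.2))) ∂(μ.prod ν) +
          (if L ≤ w.2 then
            ENNReal.ofReal (k * w.2 ^ (a - 1) * Real.exp (lam * cost a b R w)) else 0) ≤
          ENNReal.ofReal (Real.exp (lam * cost a b R w)) +
            (if L ≤ w.2 then 0 else ENNReal.ofReal K))
    {lam : ℝ} (hl2 : 1 / 2 ≤ lam) (hl1 : lam < 1) :
    ∃ C : ℝ, 0 ≤ C ∧ ∀ π : Measure (ℝ × ℝ), IsStationaryKW μ ν π →
      ∫⁻ w, ENNReal.ofReal (Real.exp (lam * cost a b R w)) ∂π ≤ ENNReal.ofReal C := by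
  have hl0 : 0 < lam := by linarith
  set lam' := (1 + lam) / 2 with hlam
  have hl2' : 1 / 2 ≤ lam' := by rw [hlam]; linarith
  have hl1' : lam' < 1 := by rw [hlam]; linarith
  set δ := lam' - lam with hδ
  have hδ0 : 0 < δ := by rw [hδ, hlam]; linarith
  obtain ⟨L, K, hL, hK, hd⟩ := hdr lam' hl2' hl1'
  set p := (1 - a) / a with hp
  have hp0 : 0 < p := by
    have : 0 < 1 - a := by linarith
    positivity
  set c' := ((p / δ) ^ p)⁻¹ with hc'
  have hc'0 : 0 < c' := by positivity
  have hpoly : ∀ y : ℝ, 0 < y → c' ≤ y ^ (a - 1) * Real.exp (δ * y ^ a) := by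
    intro y hy
    have h1 := rpow_le_exp (p := p) (c := δ) (u := y ^ a) hp0 hδ0 (by positivity)
    have h2 : (y ^ a) ^ p = y ^ (1 - a) := by
      rw [← Real.rpow_mul hy.le]; congr 1; rw [hp]; field_simp
    rw [h2] at h1
    have h3 : y ^ (a - 1) = (y ^ (1 - a))⁻¹ := by
      rw [← Real.rpow_neg hy.le]; congr 1; ring
    have h4 : 0 < y ^ (1 - a) := by positivity
    have h5 : 0 < (p / δ) ^ p := by positivity
    rw [h3, hc', inv_mul_eq_div, le_div_iff₀ h4, inv_mul_eq_div, div_le_iff₀ h5]
    linarith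
  set C0 := Real.exp (lam * (2 * L ^ a + 1)) with hC0
  have hC00 : 0 < C0 := Real.exp_pos _
  refine ⟨C0 + 1 / (k * c') * K, by positivity, ?_⟩
  intro π hπ
  have hprob : IsProbabilityMeasure π := hπ.1
  set H : ℝ × ℝ → ℝ≥0∞ := fun w => ENNReal.ofReal (Real.exp (lam' * cost a b R w)) with hH
  set g : ℝ × ℝ → ℝ≥0∞ := fun w => if L ≤ w.2 then
    ENNReal.ofReal (k * w.2 ^ (a - 1) * Real.exp (lam' * cost a b R w)) else 0 with hg
  have hcm := measurable_cost a b R
  have hHm : Measurable H := by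
    rw [hH]; fun_prop
  have hgm : Measurable g := by
    rw [hg]
    apply Measurable.ite (measurableSet_le measurable_const measurable_snd)
    · fun_prop
    · exact measurable_const
  have hmain : ∫⁻ w, g w ∂π ≤ ENNReal.ofReal K := by
    refine hπ.lyapunov hHm hgm (fun w => ENNReal.ofReal_ne_top) (ENNReal.ofReal K) ?_
    intro w h0 h1
    refine (hd w h0 h1).trans ?_
    gcongr
    split_ifs
    · exact zero_le
    · exact le_rfl
  have hpt : ∀ᵐ w ∂π, ENNReal.ofReal (Real.exp (lam * cost a b R w)) ≤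
      ENNReal.ofReal C0 + ENNReal.ofReal (1 / (k * c')) * g w := by
    filter_upwards [hπ.ae_ordered] with w hw
    have hw2 : 0 ≤ w.2 := hw.1.trans hw.2
    by_cases hwL : L ≤ w.2
    · refine le_trans ?_ le_add_self
      have e : g w = ENNReal.ofReal (k * w.2 ^ (a - 1) * Real.exp (lam' * cost a b R w)) := by
        rw [hg]
        simp only
        rw [if_pos hwL]
      rw [e, ← ENNReal.ofReal_mul (by positivity)]
      apply ENNReal.ofReal_le_ofReal
      have hw2' : 0 < w.2 := hL.trans_le hwL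
      have h1 := hpoly w.2 hw2'
      have h2 := snd_rpow_le_cost (R := R) ha0 hb hw.1 hw.2
      have h3 : Real.exp (δ * w.2 ^ a) * Real.exp (lam * cost a b R w) ≤
          Real.exp (lam' * cost a b R w) := by
        rw [← Real.exp_add]
        apply Real.exp_le_exp.mpr
        have h4 : δ * w.2 ^ a ≤ δ * cost a b R w := by gcongr
        have e2 : lam' = lam + δ := by rw [hδ]; ring
        rw [e2, add_mul]
        linarith
      have h5 : 0 < w.2 ^ (a - 1) := by positivity
      calc Real.exp (lam * cost a b R w) = 1 / (k * c') * (k * (c' *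
            Real.exp (lam * cost a b R w))) := by field_simp
        _ ≤ 1 / (k * c') * (k * ((w.2 ^ (a - 1) * Real.exp (δ * w.2 ^ a)) *
            Real.exp (lam * cost a b R w))) := by gcongr
        _ = 1 / (k * c') * (k * (w.2 ^ (a - 1) * (Real.exp (δ * w.2 ^ a) *
            Real.exp (lam * cost a b R w)))) := by ring
        _ ≤ 1 / (k * c') * (k * (w.2 ^ (a - 1) * Real.exp (lam' * cost a b R w))) := by gcongr
        _ = _ := by ring
    · refine le_trans ?_ le_self_add
      apply ENNReal.ofReal_le_ofReal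
      rw [hC0]
      apply Real.exp_le_exp.mpr
      push Not at hwL
      have h1 : w.1 ^ a ≤ L ^ a := by
        have h2 := hw.1
        have : w.1 ≤ L := by linarith [hw.2]
        gcongr
      have h3 : w.2 ^ a ≤ L ^ a := by gcongr
      have h4 : cost a b R w ≤ 2 * L ^ a + 1 := by
        unfold cost
        refine (min_le_right _ _).trans ?_
        linarith
      gcongr
  refine (lintegral_mono_ae hpt).trans ?_
  rw [lintegral_add_left measurable_const, lintegral_const, measure_univ, mul_one,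
    lintegral_const_mul _ hgm]
  calc ENNReal.ofReal C0 + ENNReal.ofReal (1 / (k * c')) * ∫⁻ w, g w ∂π
      ≤ ENNReal.ofReal C0 + ENNReal.ofReal (1 / (k * c')) * ENNReal.ofReal K := by gcongr
    _ = ENNReal.ofReal (C0 + 1 / (k * c') * K) := by
        rw [← ENNReal.ofReal_mul (by positivity), ← ENNReal.ofReal_add hC00.le (by positivity)]

/-- the parameter `b` in the regime of one big job -/
lemma BadBig_exists_b (ha0 : 0 < a) {E m ρ : ℝ} (hm : 0 < m) (hgt : m < E) (hlt : E < 2 * m)
    (hρ : 0 < ρ) :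
    ∃ b : ℝ, 0 < b ∧ b < 1 ∧ E < (1 + b) * m ∧ (E / (E - m)) ^ a - ρ < (1 + 1 / b) ^ a ∧
      (1 + 1 / b) ^ a ≤ (E / (E - m)) ^ a := by
  set r := (E - m) / m with hr
  have hd : 0 < E - m := by linarith
  have hE0 : 0 < E := hm.trans hgt
  have hr0 : 0 < r := by positivity
  have hr1 : r < 1 := by rw [hr, div_lt_one hm]; linarith
  have hr2 : 1 + 1 / r = E / (E - m) := by
    rw [hr]; field_simp; ring
  have hcont : ContinuousAt (fun b : ℝ => (1 + 1 / b) ^ a) r := by
    apply ContinuousAt.rpow_const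
    · fun_prop (disch := exact hr0.ne')
    · right; exact ha0.le
  have hev : ∀ᶠ b in 𝓝[>] r, (E / (E - m)) ^ a - ρ < (1 + 1 / b) ^ a := by
    apply Filter.Eventually.filter_mono nhdsWithin_le_nhds
    apply hcont.eventually
    apply lt_mem_nhds
    change (E / (E - m)) ^ a - ρ < (1 + 1 / r) ^ a
    rw [hr2]
    linarith
  have hev2 : ∀ᶠ b in 𝓝[>] r, b < 1 := by
    apply Filter.Eventually.filter_mono nhdsWithin_le_nhds
    exact gt_mem_nhds hr1
  obtain ⟨b, hbθ, hb1, hbr⟩ := (hev.and (hev2.and self_mem_nhdsWithin)).exists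
  have hbr' : r < b := hbr
  have hb0 : 0 < b := hr0.trans hbr'
  refine ⟨b, hb0, hb1, ?_, hbθ, ?_⟩
  · have : E - m < b * m := by
      rwa [hr, div_lt_iff₀ hm] at hbr'
    linarith
  · rw [← hr2]
    gcongr

lemma BadBig_cost_lower (ha0 : 0 < a) {b R x : ℝ} (hb : 0 < b) (hb2 : (1 + 1 / b) ^ a ≤ 2)
    (hx : 0 < x) {w : ℝ × ℝ} (h1 : w.1 ≤ w.2) (hxw : x < w.1) :
    (1 + 1 / b) ^ a * x ^ a ≤ cost a b R w := by
  have hA : x + x / b ≤ bigA b R w := by
    unfold bigA
    have h3 : w.1 ≤ √(w.1 ^ 2 + R ^ 2) := by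
      apply Real.le_sqrt_of_sq_le; nlinarith [sq_nonneg R]
    have h4 : x / b ≤ √(w.1 ^ 2 + R ^ 2) / b := by
      gcongr
      linarith
    linarith
  unfold cost
  apply le_min
  · calc (1 + 1 / b) ^ a * x ^ a = (x + x / b) ^ a := by
          rw [← Real.mul_rpow (by positivity) hx.le]; congr 1; ring
      _ ≤ bigA b R w ^ a := by gcongr
  · have h3 : x ^ a ≤ w.1 ^ a := by gcongr
    have h4 : x ^ a ≤ w.2 ^ a := by
      have : x ≤ w.2 := by linarith
      gcongr
    have h5 : (1 + 1 / b) ^ a * x ^ a ≤ 2 * x ^ a := by gcongr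
    linarith

theorem bad_big (ha0 : 0 < a) (ha1 : a < 1)
    (hμ : ∀ x, 0 ≤ x → μ (Set.Ioi x) = ENNReal.ofReal (Real.exp (-(x ^ a))))
    (hν : ν (Set.Iio 0) = 0) (hνi : Integrable (fun t : ℝ => t) ν)
    (hm : 0 < ∫ t, t ∂ν)
    (hgt : (∫ t, t ∂ν) < ∫ s, s ∂μ) (hlt : (∫ s, s ∂μ) < 2 * ∫ t, t ∂ν)
    (h2 : ((∫ s, s ∂μ) / ((∫ s, s ∂μ) - ∫ t, t ∂ν)) ^ a < 2)
    {ε' b : ℝ} (hε' : 0 < ε') (hb : 0 < b) :
    ∃ δ : ℝ, 0 < δ ∧ ∀ C : ℝ, ∀ᶠ x : ℝ in atTop, ∀ π : Measure (ℝ × ℝ),
      IsStationaryKW μ ν π → ∀ n : ℕ, (n : ℝ) ≤ C * x →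
        (π.prod (noise μ ν)) {q | ε' * x < q.1.2 ∧ b * x < (q.2 0).1 ∧
          x < (pIter q.1 q.2 (n + 1)).1} ≤
          ENNReal.ofReal (Real.exp (-((1 + δ) *
            ((∫ s, s ∂μ) / ((∫ s, s ∂μ) - ∫ t, t ∂ν) * x) ^ a))) := by
  set E := ∫ s, s ∂μ with hE
  set m := ∫ t, t ∂ν with hmd
  set η := E / (E - m) with hη
  have hd : 0 < E - m := by linarith
  have hE0 : 0 < E := hm.trans hgt
  have hη0 : 0 < η := by positivity
  set g := 2 - η ^ a with hg
  have hg0 : 0 < g := by rw [hg]; linarith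
  set c0 := (min ε' b) ^ a with hc0
  have hmin0 : 0 < min ε' b := lt_min hε' hb
  have hc00 : 0 < c0 := by positivity
  set ρ := min (g * c0) (b ^ a) / 4 with hρ
  have hba : 0 < b ^ a := by positivity
  have hρ0 : 0 < ρ := by
    have : 0 < min (g * c0) (b ^ a) := lt_min (by positivity) hba
    positivity
  have hρ1 : 4 * ρ ≤ g * c0 := by
    have := min_le_left (g * c0) (b ^ a)
    rw [hρ]; linarith
  have hρ2 : 4 * ρ ≤ b ^ a := by
    have := min_le_right (g * c0) (b ^ a)
    rw [hρ]; linarith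
  obtain ⟨b', hb0', hb1', hbm', hθ1, hθ2⟩ := BadBig_exists_b (a := a) ha0 hm hgt hlt hρ0
  rw [← hη] at hθ1 hθ2
  set θ := (1 + 1 / b') ^ a with hθ
  have hθ22 : θ ≤ 2 := by linarith
  obtain ⟨R, k, hR, hk, hdr⟩ := drift_uniform ha0 ha1 hμ hν hνi hgt hb0' hb1' hbm'
  have hηa : 0 < η ^ a := by positivity
  set lam := (η ^ a + 2 * ρ) / (η ^ a + 3 * ρ) with hlam
  have hden : 0 < η ^ a + 3 * ρ := by positivity
  have hl1 : lam < 1 := by rw [hlam, div_lt_one hden]; linarith
  have hl2 : 1 / 2 ≤ lam := by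
    rw [hlam, div_le_div_iff₀ (by norm_num) hden]; linarith
  have hl0 : 0 < lam := by linarith
  have hlmul : lam * (η ^ a + 3 * ρ) = η ^ a + 2 * ρ := by
    rw [hlam]; field_simp
  obtain ⟨CL, hCL, hmean⟩ := BadBig_mean ha0 ha1 hb0' hR hk hdr hl2 hl1
  obtain ⟨L, K, hL, hK, hdd⟩ := hdr lam hl2 hl1
  set H : ℝ × ℝ → ℝ≥0∞ := fun w => ENNReal.ofReal (Real.exp (lam * cost a b' R w)) with hH
  have hcm := measurable_cost a b' R
  have hHm : Measurable H := by rw [hH]; fun_prop
  have hdrift : ∀ w : ℝ × ℝ, 0 ≤ w.1 → w.1 ≤ w.2 →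
      ∫⁻ p, H (kwStep w p.1 p.2) ∂(μ.prod ν) ≤ H w + ENNReal.ofReal K := by
    intro w h0 h1
    refine le_self_add.trans ((hdd w h0 h1).trans ?_)
    gcongr
    split_ifs
    · exact zero_le
    · exact le_rfl
  have hiter := BadBig_iter (μ := μ) (ν := ν) hHm hdrift
  set CR := Real.exp (lam * (2 * (R / b') ^ a)) with hCR
  have hCR0 : 0 < CR := Real.exp_pos _
  have hl1' : 0 < 1 - lam := by linarith
  set C1 := CR * (1 / (1 - lam)) * CL with hC1
  have hC10 : 0 ≤ C1 := by positivity
  refine ⟨ρ / η ^ a, by positivity, ?_⟩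
  intro C
  -- the two exponents
  have hF1 : η ^ a + 2 * ρ ≤ lam * (θ + (2 - θ) * c0) := by
    have h3 : η ^ a + 3 * ρ ≤ θ + (2 - θ) * c0 := by
      have : g * c0 ≤ (2 - θ) * c0 := by
        have : g ≤ 2 - θ := by rw [hg]; linarith
        gcongr
      linarith
    calc η ^ a + 2 * ρ = lam * (η ^ a + 3 * ρ) := hlmul.symm
      _ ≤ _ := by gcongr
  have hF2 : η ^ a + 2 * ρ ≤ lam * θ + b ^ a := by
    have h3 : lam * (η ^ a + 3 * ρ) ≤ lam * (θ + 4 * ρ) :=
      mul_le_mul_of_nonneg_left (by linarith) hl0.le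
    have h4 : lam * (4 * ρ) ≤ 1 * (4 * ρ) := by gcongr
    rw [hlmul, mul_add] at h3
    linarith
  -- eventually the polynomial factor is absorbed
  have hev : ∀ᶠ x : ℝ in atTop, (C1 + C * x * K) * Real.exp (-(ρ * x ^ a)) ≤ 1 := by
    have hxa : Tendsto (fun x : ℝ => x ^ a) atTop atTop := tendsto_rpow_atTop ha0
    have h3 : Tendsto (fun x : ℝ => x * Real.exp (-(ρ * x ^ a))) atTop (𝓝 0) := by
      have h4 : ∀ᶠ x : ℝ in atTop, x * Real.exp (-(ρ * x ^ a)) ≤
          ((1 / a) / (ρ / 2)) ^ (1 / a) * Real.exp (-(ρ / 2 * x ^ a)) := by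
        filter_upwards [eventually_gt_atTop 0] with x hx
        have h5 := rpow_le_exp (p := 1 / a) (c := ρ / 2) (u := x ^ a) (by positivity)
          (by positivity) (by positivity)
        have h6 : (x ^ a) ^ (1 / a) = x := by
          rw [← Real.rpow_mul hx.le]
          rw [mul_one_div_cancel ha0.ne', Real.rpow_one]
        rw [h6] at h5
        calc x * Real.exp (-(ρ * x ^ a)) ≤
            (((1 / a) / (ρ / 2)) ^ (1 / a) * Real.exp (ρ / 2 * x ^ a)) *
              Real.exp (-(ρ * x ^ a)) := by gcongr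
          _ = _ := by
              rw [mul_assoc, ← Real.exp_add]
              congr 2
              ring
      have h7 : Tendsto (fun x : ℝ => ((1 / a) / (ρ / 2)) ^ (1 / a) *
          Real.exp (-(ρ / 2 * x ^ a))) atTop (𝓝 0) := by
        have h8 : Tendsto (fun x : ℝ => Real.exp (-(ρ / 2 * x ^ a))) atTop (𝓝 0) :=
          Real.tendsto_exp_neg_atTop_nhds_zero.comp (hxa.const_mul_atTop (by positivity))
        simpa using h8.const_mul _
      refine tendsto_of_tendsto_of_tendsto_of_le_of_le' tendsto_const_nhds h7 ?_ h4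
      filter_upwards [eventually_gt_atTop 0] with x hx
      positivity
    have h9 : Tendsto (fun x : ℝ => Real.exp (-(ρ * x ^ a))) atTop (𝓝 0) :=
      Real.tendsto_exp_neg_atTop_nhds_zero.comp (hxa.const_mul_atTop hρ0)
    have h10 : Tendsto (fun x : ℝ => C1 * Real.exp (-(ρ * x ^ a)) +
        C * K * (x * Real.exp (-(ρ * x ^ a)))) atTop (𝓝 (C1 * 0 + C * K * 0)) :=
      (h9.const_mul _).add (h3.const_mul _)
    rw [mul_zero, mul_zero, add_zero] at h10
    filter_upwards [h10.eventually (ge_mem_nhds zero_lt_one)] with x hx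
    calc (C1 + C * x * K) * Real.exp (-(ρ * x ^ a)) = C1 * Real.exp (-(ρ * x ^ a)) +
        C * K * (x * Real.exp (-(ρ * x ^ a))) := by ring
      _ ≤ 1 := hx
  filter_upwards [hev, eventually_gt_atTop 0] with x hx hx0
  intro π hπ n hn
  have hprob : IsProbabilityMeasure π := hπ.1
  have hxa0 : 0 < x ^ a := by positivity
  -- measurability of the event
  set B : Set ((ℝ × ℝ) × (ℕ → ℝ × ℝ)) := {q | ε' * x < q.1.2 ∧ b * x < (q.2 0).1 ∧
          x < (pIter q.1 q.2 (n + 1)).1} with hB
  have hm2 : Measurable fun q : (ℝ × ℝ) × (ℕ → ℝ × ℝ) => (q.2 0).1 := by fun_prop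
  have hBm : MeasurableSet B := by
    refine MeasurableSet.inter ?_ (MeasurableSet.inter ?_ ?_)
    · exact measurableSet_lt measurable_const (measurable_snd.comp measurable_fst)
    · exact measurableSet_lt measurable_const hm2
    · exact measurableSet_lt measurable_const (measurable_pIter (n + 1)).fst
  rw [Measure.prod_apply hBm]
  set v := Real.exp (-(lam * θ * x ^ a)) with hv
  have hv0 : 0 < v := Real.exp_pos _
  -- tail of the chain
  have htail : ∀ u : ℝ × ℝ, 0 ≤ u.1 → u.1 ≤ u.2 →
      (noise μ ν) {z | x < (pIter u z n).1} ≤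
        ENNReal.ofReal v * (H u + n * ENNReal.ofReal K) := by
    intro u h0 h1
    have hset : MeasurableSet {z : ℕ → ℝ × ℝ | x < (pIter u z n).1} :=
      measurableSet_lt measurable_const (measurable_pIter_right u n).fst
    have h3 : (noise μ ν) {z | x < (pIter u z n).1} ≤
        ∫⁻ z, ENNReal.ofReal v * H (pIter u z n) ∂(noise μ ν) := by
      rw [← lintegral_indicator_one hset]
      apply lintegral_mono
      intro z
      by_cases hz : z ∈ {z : ℕ → ℝ × ℝ | x < (pIter u z n).1}
      · rw [Set.indicator_of_mem hz]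
        have hz' : x < (pIter u z n).1 := hz
        have h4 := BadBig_cost_lower (R := R) ha0 hb0' hθ22 hx0
          (pIter_ordered h0 h1 z n).2 hz'
        rw [← hθ] at h4
        simp only [Pi.one_apply]
        rw [hH, ← ENNReal.ofReal_mul hv0.le, hv, ← Real.exp_add, ENNReal.one_le_ofReal,
          Real.one_le_exp_iff]
        have h5 : lam * (θ * x ^ a) ≤ lam * cost a b' R (pIter u z n) := by gcongr
        linarith
      · rw [Set.indicator_of_notMem hz]
        exact zero_le
    refine h3.trans ?_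
    have hcomp : Measurable fun z : ℕ → ℝ × ℝ => H (pIter u z n) :=
      hHm.comp (measurable_pIter_right u n)
    rw [lintegral_const_mul _ hcomp]
    gcongr
    exact hiter n u h0 h1
  -- weight of the big job
  set F : ℝ × ℝ → (ℝ × ℝ) → ℝ≥0∞ := fun w p =>
    ENNReal.ofReal (CR * Real.exp (-(lam * ((2 - θ) * c0) * x ^ a))) *
      H w * ENNReal.ofReal (Real.exp (lam * p.1 ^ a)) with hF
  have hpoint : ∀ᵐ w ∂π, (noise μ ν) (Prod.mk w ⁻¹' B) ≤
      ENNReal.ofReal v * (ENNReal.ofReal (CR * Real.exp (-(lam * ((2 - θ) * c0) * x ^ a)) *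
        (1 / (1 - lam))) * H w +
        n * ENNReal.ofReal K * ENNReal.ofReal (Real.exp (-((b * x) ^ a)))) := by
    filter_upwards [hπ.ae_ordered] with w hw
    by_cases hwe : ε' * x < w.2
    · have hpre : MeasurableSet (Prod.mk w ⁻¹' B) := measurable_prodMk_left hBm
      have hind : (noise μ ν) (Prod.mk w ⁻¹' B) =
          ∫⁻ z, (Prod.mk w ⁻¹' B).indicator 1 z ∂(noise μ ν) := by
        rw [lintegral_indicator_one hpre]
      rw [hind, lintegral_noise_cons (measurable_one.indicator hpre)]
      have h3 : ∀ p : ℝ × ℝ, ∫⁻ z, (Prod.mk w ⁻¹' B).indicator (1 : (ℕ → ℝ × ℝ) → ℝ≥0∞)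
          (gcons p z) ∂(noise μ ν) ≤
          (if b * x < p.1 then ENNReal.ofReal v *
            (H (kwStep w p.1 p.2) + n * ENNReal.ofReal K) else 0) := by
        intro p
        by_cases hp : b * x < p.1
        · rw [if_pos hp]
          refine le_trans ?_ (htail (kwStep w p.1 p.2) (kwStep_fst_nonneg _ _ _)
            (kwStep_fst_le_snd _ _ _))
          have hset : MeasurableSet {z : ℕ → ℝ × ℝ | x < (pIter (kwStep w p.1 p.2) z n).1} :=
            measurableSet_lt measurable_const (measurable_pIter_right _ n).fst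
          rw [← lintegral_indicator_one hset]
          apply lintegral_mono
          intro z
          by_cases hz : gcons p z ∈ Prod.mk w ⁻¹' B
          · have hz' : x < (pIter w (gcons p z) (n + 1)).1 := hz.2.2
            rw [pIter_gcons] at hz'
            simp only
            rw [Set.indicator_of_mem hz, Set.indicator_of_mem (show z ∈
              {z : ℕ → ℝ × ℝ | x < (pIter (kwStep w p.1 p.2) z n).1} from hz')]
            simp
          · simp only
            rw [Set.indicator_of_notMem hz]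
            exact zero_le
        · rw [if_neg hp, ← lintegral_zero (μ := noise μ ν)]
          apply lintegral_mono
          intro z
          have hz : gcons p z ∉ Prod.mk w ⁻¹' B := fun h => hp h.2.1
          simp only
          rw [Set.indicator_of_notMem hz]
      refine (lintegral_mono h3).trans ?_
      have h4 : ∀ᵐ p ∂(μ.prod ν), (if b * x < p.1 then ENNReal.ofReal v *
            (H (kwStep w p.1 p.2) + n * ENNReal.ofReal K) else 0) ≤
          ENNReal.ofReal v * (F w p + n * ENNReal.ofReal K *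
            (Set.Ioi (b * x)).indicator 1 p.1) := by
        filter_upwards [MainU.ae_pair ha0 hμ hν] with p hp
        by_cases hpb : b * x < p.1
        · rw [if_pos hpb, Set.indicator_of_mem (show p.1 ∈ Set.Ioi (b * x) from hpb)]
          simp only [Pi.one_apply, mul_one]
          gcongr
          rw [hF, hH]
          simp only
          rw [← ENNReal.ofReal_mul (by positivity), ← ENNReal.ofReal_mul (by positivity)]
          apply ENNReal.ofReal_le_ofReal
          have h5 := gain_one (a := a) (b := b') (R := R) ha0 ha1 hb0' hb1' hR hθ22 hw.1 hw.2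
            hp.1 hp.2
          rw [← hθ] at h5
          have h6 : c0 * x ^ a ≤ (min w.2 p.1) ^ a := by
            rw [hc0, ← Real.mul_rpow hmin0.le hx0.le]
            have h7 : min ε' b * x ≤ min w.2 p.1 := by
              apply le_min
              · have : min ε' b * x ≤ ε' * x := by
                  gcongr; exact min_le_left _ _
                linarith
              · have : min ε' b * x ≤ b * x := by
                  gcongr; exact min_le_right _ _
                linarith
            gcongr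
          have h8 : (2 - θ) * (c0 * x ^ a) ≤ (2 - θ) * (min w.2 p.1) ^ a := by
            have : 0 ≤ 2 - θ := by linarith
            gcongr
          calc Real.exp (lam * cost a b' R (kwStep w p.1 p.2))
              ≤ Real.exp (lam * (2 * (R / b') ^ a) + -(lam * ((2 - θ) * c0) * x ^ a) +
                lam * cost a b' R w + lam * p.1 ^ a) := by
                apply Real.exp_le_exp.mpr
                have h9 : lam * cost a b' R (kwStep w p.1 p.2) ≤
                  lam * (cost a b' R w + p.1 ^ a - (2 - θ) * (c0 * x ^ a) +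
                    2 * (R / b') ^ a) := by
                  gcongr
                  linarith
                refine h9.trans (le_of_eq ?_)
                ring
            _ = _ := by
                rw [Real.exp_add, Real.exp_add, Real.exp_add]
        · rw [if_neg hpb]
          exact zero_le
      refine (lintegral_mono_ae h4).trans ?_
      have hFm : Measurable fun p : ℝ × ℝ => F w p := by
        rw [hF]
        fun_prop
      have him : Measurable fun p : ℝ × ℝ =>
          (Set.Ioi (b * x)).indicator (1 : ℝ → ℝ≥0∞) p.1 :=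
        (measurable_one.indicator measurableSet_Ioi).comp measurable_fst
      have hsm : Measurable fun p : ℝ × ℝ => F w p + n * ENNReal.ofReal K *
            (Set.Ioi (b * x)).indicator (1 : ℝ → ℝ≥0∞) p.1 := hFm.add (him.const_mul _)
      rw [lintegral_const_mul _ hsm, lintegral_add_left hFm,
        lintegral_const_mul _ him]
      gcongr
      · -- first part
        have e1 : ∫⁻ p, F w p ∂(μ.prod ν) =
            ENNReal.ofReal (CR * Real.exp (-(lam * ((2 - θ) * c0) * x ^ a))) * H w *
              ∫⁻ s, ENNReal.ofReal (Real.exp (lam * s ^ a)) ∂μ := by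
          rw [hF]
          simp only
          rw [lintegral_const_mul _ (by fun_prop), lintegral_prod _ (by fun_prop)]
          simp
        rw [e1]
        have h11 := weibull_lintegral_exp ha0 hμ hl0.le hl1
        calc _ ≤ ENNReal.ofReal (CR * Real.exp (-(lam * ((2 - θ) * c0) * x ^ a))) * H w *
              ENNReal.ofReal (1 / (1 - lam)) := by gcongr
          _ = _ := by
              rw [mul_right_comm, ← ENNReal.ofReal_mul (by positivity)]
      · -- second part
        have e2 : ∫⁻ p, (Set.Ioi (b * x)).indicator (1 : ℝ → ℝ≥0∞) p.1 ∂(μ.prod ν) =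
            μ (Set.Ioi (b * x)) := by
          rw [lintegral_prod _ him.aemeasurable]
          simp only [lintegral_const, measure_univ, mul_one]
          rw [lintegral_indicator_one measurableSet_Ioi]
        rw [e2, hμ (b * x) (by positivity)]
    · have hpre : Prod.mk w ⁻¹' B = ∅ := by
        ext z
        simp only [Set.mem_preimage, Set.mem_empty_iff_false, iff_false]
        intro hz
        exact hwe hz.1
      rw [hpre, measure_empty]
      exact zero_le
  refine (lintegral_mono_ae hpoint).trans ?_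
  rw [lintegral_const_mul _ (by fun_prop), lintegral_add_right _ measurable_const,
    lintegral_const_mul _ hHm, lintegral_const, measure_univ, mul_one]
  have hmeanπ := hmean π hπ
  have hnn : (n : ℝ≥0∞) = ENNReal.ofReal n := (ENNReal.ofReal_natCast n).symm
  rw [hnn]
  calc ENNReal.ofReal v * (ENNReal.ofReal (CR * Real.exp (-(lam * ((2 - θ) * c0) * x ^ a)) *
        (1 / (1 - lam))) * ∫⁻ w, H w ∂π +
        ENNReal.ofReal n * ENNReal.ofReal K * ENNReal.ofReal (Real.exp (-((b * x) ^ a))))
      ≤ ENNReal.ofReal v * (ENNReal.ofReal (CR * Real.exp (-(lam * ((2 - θ) * c0) * x ^ a)) *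
        (1 / (1 - lam))) * ENNReal.ofReal CL +
        ENNReal.ofReal n * ENNReal.ofReal K * ENNReal.ofReal (Real.exp (-((b * x) ^ a)))) := by
        gcongr
    _ = ENNReal.ofReal (v * (CR * Real.exp (-(lam * ((2 - θ) * c0) * x ^ a)) *
        (1 / (1 - lam)) * CL + n * K * Real.exp (-((b * x) ^ a)))) := by
        rw [← ENNReal.ofReal_mul (by positivity), ← ENNReal.ofReal_mul (by positivity),
          ← ENNReal.ofReal_mul (by positivity), ← ENNReal.ofReal_add (by positivity)
          (by positivity), ← ENNReal.ofReal_mul hv0.le]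
    _ ≤ _ := by
        apply ENNReal.ofReal_le_ofReal
        have e3 : (b * x) ^ a = b ^ a * x ^ a := Real.mul_rpow hb.le hx0.le
        have e4 : (η * x) ^ a = η ^ a * x ^ a := Real.mul_rpow hη0.le hx0.le
        have e5 : v * Real.exp (-(lam * ((2 - θ) * c0) * x ^ a)) =
            Real.exp (-(lam * (θ + (2 - θ) * c0) * x ^ a)) := by
          rw [hv, ← Real.exp_add]; congr 1; ring
        have e6 : v * Real.exp (-((b * x) ^ a)) = Real.exp (-((lam * θ + b ^ a) * x ^ a)) := by
          rw [hv, e3, ← Real.exp_add]; congr 1; ring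
        have h12 : Real.exp (-(lam * (θ + (2 - θ) * c0) * x ^ a)) ≤
            Real.exp (-((η ^ a + 2 * ρ) * x ^ a)) := by
          apply Real.exp_le_exp.mpr
          have : (η ^ a + 2 * ρ) * x ^ a ≤ lam * (θ + (2 - θ) * c0) * x ^ a := by gcongr
          linarith
        have h13 : Real.exp (-((lam * θ + b ^ a) * x ^ a)) ≤
            Real.exp (-((η ^ a + 2 * ρ) * x ^ a)) := by
          apply Real.exp_le_exp.mpr
          have : (η ^ a + 2 * ρ) * x ^ a ≤ (lam * θ + b ^ a) * x ^ a := by gcongr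
          linarith
        have hCx : 0 ≤ C * x := (Nat.cast_nonneg n).trans hn
        have e7 : Real.exp (-((η ^ a + 2 * ρ) * x ^ a)) = Real.exp (-(ρ * x ^ a)) *
            Real.exp (-((1 + ρ / η ^ a) * (η * x) ^ a)) := by
          rw [← Real.exp_add, e4]
          congr 1
          field_simp
          ring
        calc v * (CR * Real.exp (-(lam * ((2 - θ) * c0) * x ^ a)) *
              (1 / (1 - lam)) * CL + n * K * Real.exp (-((b * x) ^ a)))
            = C1 * (v * Real.exp (-(lam * ((2 - θ) * c0) * x ^ a))) +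
              n * K * (v * Real.exp (-((b * x) ^ a))) := by rw [hC1]; ring
          _ ≤ C1 * Real.exp (-((η ^ a + 2 * ρ) * x ^ a)) +
              C * x * K * Real.exp (-((η ^ a + 2 * ρ) * x ^ a)) := by
              rw [e5, e6]; gcongr
          _ = ((C1 + C * x * K) * Real.exp (-(ρ * x ^ a))) *
              Real.exp (-((1 + ρ / η ^ a) * (η * x) ^ a)) := by rw [e7]; ring
          _ ≤ 1 * Real.exp (-((1 + ρ / η ^ a) * (η * x) ^ a)) := by gcongr
          _ = _ := one_mul _

end stoch

end Pool.Agent.Lib.MP_04add8_pr
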