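import Mathlib
import Pool.Agent.Lib.MP_04add8_pr.One.Defs

open MeasureTheory ProbabilityTheory Filter Topology
open scoped ENNReal

set_option linter.unusedSectionVars false

namespace Pool.Agent.Lib.MP_04add8_pr

namespace BetaAux

/-! ### powers -/

/-- second order Taylor remainder of `x ^ j` -/
lemma pow_taylor (j : ℕ) {x y : ℝ} (hx0 : 0 ≤ x) (hx1 : x ≤ 1) (hy0 : 0 ≤ y) (hy1 : y ≤ 1) :
    0 ≤ x ^ j - y ^ j - j * y ^ (j - 1) * (x - y) ∧
    x ^ j - y ^ j - j * y ^ (j - 1) * (x - y) ≤ (j : ℝ) ^ 2 * (x - y) ^ 2 := by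
  induction j with
  | zero => simp
  | succ j ih =>
    have key : x ^ (j + 1) - y ^ (j + 1) - ((j + 1 : ℕ) : ℝ) * y ^ (j + 1 - 1) * (x - y) =
        x * (x ^ j - y ^ j - j * y ^ (j - 1) * (x - y)) + j * y ^ (j - 1) * (x - y) ^ 2 := by
      rcases j with _ | j
      · simp
      · have e1 : j + 1 + 1 - 1 = j + 1 := by omega
        have e2 : j + 1 - 1 = j := by omega
        rw [e1, e2]
        push_cast
        ring
    rw [key]
    have h1 : 0 ≤ y ^ (j - 1) := by positivity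
    have h2 : y ^ (j - 1) ≤ 1 := pow_le_one₀ hy0 hy1
    have h3 : 0 ≤ (x - y) ^ 2 := by positivity
    have hj : (0 : ℝ) ≤ j := Nat.cast_nonneg j
    constructor
    · have : 0 ≤ x * (x ^ j - y ^ j - j * y ^ (j - 1) * (x - y)) := mul_nonneg hx0 ih.1
      positivity
    · have h4 : x * (x ^ j - y ^ j - j * y ^ (j - 1) * (x - y)) ≤ (j : ℝ) ^ 2 * (x - y) ^ 2 := by
        calc x * (x ^ j - y ^ j - j * y ^ (j - 1) * (x - y))
            ≤ 1 * (x ^ j - y ^ j - j * y ^ (j - 1) * (x - y)) :=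
              mul_le_mul_of_nonneg_right hx1 ih.1
          _ ≤ _ := by rw [one_mul]; exact ih.2
      have h5 : j * y ^ (j - 1) * (x - y) ^ 2 ≤ j * (x - y) ^ 2 := by
        have : (j : ℝ) * y ^ (j - 1) ≤ j * 1 := mul_le_mul_of_nonneg_left h2 hj
        calc j * y ^ (j - 1) * (x - y) ^ 2 ≤ (j * 1) * (x - y) ^ 2 :=
              mul_le_mul_of_nonneg_right this h3
          _ = _ := by ring
      have h6 : ((j + 1 : ℕ) : ℝ) ^ 2 * (x - y) ^ 2 =
          (j : ℝ) ^ 2 * (x - y) ^ 2 + j * (x - y) ^ 2 + (j + 1) * (x - y) ^ 2 := by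
        push_cast; ring
      rw [h6]
      have h7 : 0 ≤ ((j : ℝ) + 1) * (x - y) ^ 2 := by positivity
      linarith

/-! ### the moment polynomial -/

section poly

variable {μ : Measure ℝ} [IsProbabilityMeasure μ]

/-- derivative of the moment polynomial -/
noncomputable def momP1 (μ : Measure ℝ) (K : ℕ) (β : ℝ) : ℝ :=
  ∑ j ∈ Finset.range (K + 1), (∫ s, s ^ j ∂μ) / (j.factorial : ℝ) * (j * β ^ (j - 1))

/-- a constant bounding the second order remainder -/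
noncomputable def momC (μ : Measure ℝ) (K : ℕ) : ℝ :=
  ∑ j ∈ Finset.range (K + 1), (∫ s, s ^ j ∂μ) / (j.factorial : ℝ) * (j : ℝ) ^ 2

lemma mom_nonneg (hμ0 : ∀ᵐ s ∂μ, 0 ≤ s) (j : ℕ) : 0 ≤ ∫ s, s ^ j ∂μ := by
  apply integral_nonneg_of_ae
  filter_upwards [hμ0] with s hs
  simpa using pow_nonneg hs j

lemma momPoly_eq (K : ℕ) (β : ℝ) : momPoly μ K β =
    ∑ j ∈ Finset.range (K + 1), (∫ s, s ^ j ∂μ) / (j.factorial : ℝ) * β ^ j := by
  unfold momPoly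
  apply Finset.sum_congr rfl
  intro j _
  ring

lemma momC_nonneg (hμ0 : ∀ᵐ s ∂μ, 0 ≤ s) (K : ℕ) : 0 ≤ momC μ K := by
  apply Finset.sum_nonneg
  intro j _
  have := mom_nonneg hμ0 j
  positivity

lemma momPoly_zero (K : ℕ) : momPoly μ K 0 = 1 := by
  unfold momPoly
  rw [Finset.sum_eq_single 0]
  · simp
  · intro j _ hj
    simp [hj]
  · simp

lemma continuous_momPoly (K : ℕ) : Continuous (momPoly μ K) := by
  unfold momPoly
  fun_prop

lemma momPoly_taylor (hμ0 : ∀ᵐ s ∂μ, 0 ≤ s) (K : ℕ) {x y : ℝ} (hx0 : 0 ≤ x) (hx1 : x ≤ 1)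
    (hy0 : 0 ≤ y) (hy1 : y ≤ 1) :
    0 ≤ momPoly μ K x - momPoly μ K y - momP1 μ K y * (x - y) ∧
    momPoly μ K x - momPoly μ K y - momP1 μ K y * (x - y) ≤ momC μ K * (x - y) ^ 2 := by
  have key : momPoly μ K x - momPoly μ K y - momP1 μ K y * (x - y) =
      ∑ j ∈ Finset.range (K + 1), (∫ s, s ^ j ∂μ) / (j.factorial : ℝ) *
        (x ^ j - y ^ j - j * y ^ (j - 1) * (x - y)) := by
    rw [momPoly_eq, momPoly_eq, momP1, Finset.sum_mul, ← Finset.sum_sub_distrib,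
      ← Finset.sum_sub_distrib]
    apply Finset.sum_congr rfl
    intro j _
    ring
  rw [key]
  constructor
  · apply Finset.sum_nonneg
    intro j _
    have h1 := mom_nonneg hμ0 j
    have h2 := (pow_taylor j hx0 hx1 hy0 hy1).1
    positivity
  · rw [momC, Finset.sum_mul]
    apply Finset.sum_le_sum
    intro j _
    have h1 := mom_nonneg hμ0 j
    have h2 := (pow_taylor j hx0 hx1 hy0 hy1).2
    have h3 : 0 ≤ (∫ s, s ^ j ∂μ) / (j.factorial : ℝ) := by positivity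
    calc (∫ s, s ^ j ∂μ) / (j.factorial : ℝ) * (x ^ j - y ^ j - j * y ^ (j - 1) * (x - y))
        ≤ (∫ s, s ^ j ∂μ) / (j.factorial : ℝ) * ((j : ℝ) ^ 2 * (x - y) ^ 2) :=
          mul_le_mul_of_nonneg_left h2 h3
      _ = _ := by ring

lemma momP1_ge (hμ0 : ∀ᵐ s ∂μ, 0 ≤ s) {K : ℕ} (hK : 1 ≤ K) {y : ℝ} (hy0 : 0 ≤ y) :
    ∫ s, s ∂μ ≤ momP1 μ K y := by
  unfold momP1
  have h1 : ∫ s, s ∂μ = (∫ s, s ^ 1 ∂μ) / (Nat.factorial 1 : ℝ) * ((1 : ℕ) * y ^ (1 - 1)) := by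
    simp
  rw [h1]
  apply Finset.single_le_sum (f := fun j : ℕ => (∫ s, s ^ j ∂μ) / (j.factorial : ℝ) *
    (j * y ^ (j - 1)))
  · intro j _
    have := mom_nonneg hμ0 j
    positivity
  · simp; omega

lemma momP1_le (hμ0 : ∀ᵐ s ∂μ, 0 ≤ s) (K : ℕ) {y : ℝ} (hy0 : 0 ≤ y) (hy1 : y ≤ 1) :
    momP1 μ K y ≤ momC μ K := by
  unfold momP1 momC
  apply Finset.sum_le_sum
  intro j _
  have h1 := mom_nonneg hμ0 j
  have h3 : 0 ≤ (∫ s, s ^ j ∂μ) / (j.factorial : ℝ) := by positivity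
  apply mul_le_mul_of_nonneg_left _ h3
  have h2 : y ^ (j - 1) ≤ 1 := pow_le_one₀ hy0 hy1
  rcases Nat.eq_zero_or_pos j with h | h
  · subst h; simp
  · have : (1 : ℝ) ≤ j := by exact_mod_cast h
    nlinarith

lemma momP1_zero {K : ℕ} (hK : 1 ≤ K) : momP1 μ K 0 = ∫ s, s ∂μ := by
  unfold momP1
  rw [Finset.sum_eq_single 1]
  · simp
  · intro j _ hj
    rcases Nat.eq_zero_or_pos j with h | h
    · subst h; simp
    · have : j - 1 ≠ 0 := by omega
      simp [this]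
  · intro h
    simp at h
    omega

lemma momPoly_diff_ge (hμ0 : ∀ᵐ s ∂μ, 0 ≤ s) {K : ℕ} (hK : 1 ≤ K) {x y : ℝ} (hy0 : 0 ≤ y)
    (hxy : y ≤ x) (hx1 : x ≤ 1) :
    (∫ s, s ∂μ) * (x - y) ≤ momPoly μ K x - momPoly μ K y := by
  have h1 := (momPoly_taylor hμ0 K (hy0.trans hxy) hx1 hy0 (hxy.trans hx1)).1
  have h2 := momP1_ge hμ0 hK hy0
  have h3 : (∫ s, s ∂μ) * (x - y) ≤ momP1 μ K y * (x - y) :=
    mul_le_mul_of_nonneg_right h2 (by linarith)
  linarith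

lemma momPoly_ge_one (hμ0 : ∀ᵐ s ∂μ, 0 ≤ s) {K : ℕ} {x : ℝ} (hx0 : 0 ≤ x) :
    1 ≤ momPoly μ K x := by
  rw [momPoly_eq]
  have h1 : (1 : ℝ) = (∫ s, s ^ 0 ∂μ) / (Nat.factorial 0 : ℝ) * x ^ 0 := by simp
  rw [h1]
  apply Finset.single_le_sum (f := fun j : ℕ => (∫ s, s ^ j ∂μ) / (j.factorial : ℝ) * x ^ j)
  · intro j _
    have := mom_nonneg hμ0 j
    positivity
  · simp

lemma momPoly_le (hμ0 : ∀ᵐ s ∂μ, 0 ≤ s) {K : ℕ} {x : ℝ} (hx0 : 0 ≤ x)
    (hx1 : x ≤ 1) : momPoly μ K x ≤ 1 + 2 * momC μ K * x := by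
  have h1 := (momPoly_taylor hμ0 K hx0 hx1 le_rfl zero_le_one).2
  have h2 := momP1_le (μ := μ) hμ0 K le_rfl zero_le_one
  rw [momPoly_zero, sub_zero] at h1
  have h3 := momC_nonneg hμ0 K
  nlinarith [mul_nonneg h3 hx0, mul_nonneg (mul_nonneg h3 hx0) (sub_nonneg.2 hx1)]

end poly

/-! ### the Laplace transform -/

section lapl

variable {ν : Measure ℝ} [IsProbabilityMeasure ν]

/-- minus the derivative of the Laplace transform -/
noncomputable def lap1 (ν : Measure ℝ) (q : ℝ) : ℝ := ∫ t, t * Real.exp (-(q * t)) ∂ν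

/-- the second derivative of the Laplace transform -/
noncomputable def lap2 (ν : Measure ℝ) (q : ℝ) : ℝ := ∫ t, t ^ 2 * Real.exp (-(q * t)) ∂ν

lemma ae_nonneg (hν : ν (Set.Iio 0) = 0) : ∀ᵐ t ∂ν, 0 ≤ t := by
  rw [ae_iff]
  simpa [Set.Iio] using hν

lemma integrable_lap (hν0 : ∀ᵐ t ∂ν, 0 ≤ t) {q : ℝ} (hq : 0 ≤ q) :
    Integrable (fun t : ℝ => Real.exp (-(q * t))) ν := by
  apply Integrable.mono' (integrable_const (1 : ℝ)) (by fun_prop)
  filter_upwards [hν0] with t ht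
  rw [Real.norm_eq_abs, Real.abs_exp, Real.exp_le_one_iff]
  have := mul_nonneg hq ht
  linarith

lemma integrable_lap1 (hν0 : ∀ᵐ t ∂ν, 0 ≤ t) (hνi : Integrable (fun t : ℝ => t) ν) {q : ℝ}
    (hq : 0 ≤ q) : Integrable (fun t : ℝ => t * Real.exp (-(q * t))) ν := by
  apply Integrable.mono' hνi (by fun_prop)
  filter_upwards [hν0] with t ht
  rw [Real.norm_eq_abs, abs_mul, Real.abs_exp, abs_of_nonneg ht]
  have : Real.exp (-(q * t)) ≤ 1 := by
    rw [Real.exp_le_one_iff]; have := mul_nonneg hq ht; linarith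
  nlinarith

lemma mul_exp_neg_le {x : ℝ} : x * Real.exp (-x) ≤ 1 := by
  have h1 := Real.add_one_le_exp x
  have h2 : 0 < Real.exp (-x) := Real.exp_pos _
  have h3 : Real.exp x * Real.exp (-x) = 1 := by rw [← Real.exp_add]; simp
  nlinarith

lemma integrable_lap2 (hν0 : ∀ᵐ t ∂ν, 0 ≤ t) (hνi : Integrable (fun t : ℝ => t) ν) {q : ℝ}
    (hq : 0 < q) : Integrable (fun t : ℝ => t ^ 2 * Real.exp (-(q * t))) ν := by
  apply Integrable.mono' (hνi.const_mul (1 / q)) (by fun_prop)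
  filter_upwards [hν0] with t ht
  rw [Real.norm_eq_abs, abs_mul, Real.abs_exp, abs_of_nonneg (by positivity)]
  have h1 : (q * t) * Real.exp (-(q * t)) ≤ 1 := mul_exp_neg_le
  have h2 : t ^ 2 * Real.exp (-(q * t)) = 1 / q * t * ((q * t) * Real.exp (-(q * t))) := by
    field_simp
  rw [h2]
  have h3 : 0 ≤ 1 / q * t := by positivity
  calc 1 / q * t * ((q * t) * Real.exp (-(q * t))) ≤ 1 / q * t * 1 :=
        mul_le_mul_of_nonneg_left h1 h3
    _ = _ := by ring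

lemma lap_zero : lap ν 0 = 1 := by simp [lap]

lemma lap_nonneg (q : ℝ) : 0 ≤ lap ν q := integral_nonneg fun _ => (Real.exp_pos _).le

lemma lap1_nonneg (hν0 : ∀ᵐ t ∂ν, 0 ≤ t) (q : ℝ) : 0 ≤ lap1 ν q := by
  apply integral_nonneg_of_ae
  filter_upwards [hν0] with t ht
  exact mul_nonneg ht (Real.exp_pos _).le

lemma lap2_nonneg (q : ℝ) : 0 ≤ lap2 ν q :=
  integral_nonneg fun t => mul_nonneg (sq_nonneg t) (Real.exp_pos _).le

lemma lap1_le (hν0 : ∀ᵐ t ∂ν, 0 ≤ t) (hνi : Integrable (fun t : ℝ => t) ν) {q : ℝ}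
    (hq : 0 ≤ q) : lap1 ν q ≤ ∫ t, t ∂ν := by
  apply integral_mono_ae (integrable_lap1 hν0 hνi hq) hνi
  filter_upwards [hν0] with t ht
  have : Real.exp (-(q * t)) ≤ 1 := by
    rw [Real.exp_le_one_iff]; have := mul_nonneg hq ht; linarith
  show t * Real.exp (-(q * t)) ≤ t
  nlinarith

lemma lap_sub_le (hν0 : ∀ᵐ t ∂ν, 0 ≤ t) (hνi : Integrable (fun t : ℝ => t) ν) {q q' : ℝ}
    (hq : 0 ≤ q) (hq' : q ≤ q') : lap ν q - lap ν q' ≤ (∫ t, t ∂ν) * (q' - q) := by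
  unfold lap
  rw [← integral_sub (integrable_lap hν0 hq) (integrable_lap hν0 (hq.trans hq')),
    ← integral_mul_const]
  apply integral_mono_ae ((integrable_lap hν0 hq).sub (integrable_lap hν0 (hq.trans hq')))
    (hνi.mul_const _)
  filter_upwards [hν0] with t ht
  show Real.exp (-(q * t)) - Real.exp (-(q' * t)) ≤ t * (q' - q)
  have h1 : Real.exp (-(q * t)) ≤ 1 := by
    rw [Real.exp_le_one_iff]; have := mul_nonneg hq ht; linarith
  have h2 : Real.exp (-(q' * t)) = Real.exp (-(q * t)) * Real.exp (-((q' - q) * t)) := by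
    rw [← Real.exp_add]; ring_nf
  have h3 := Real.add_one_le_exp (-((q' - q) * t))
  have h4 : 0 ≤ (q' - q) * t := mul_nonneg (by linarith) ht
  rw [h2]
  have h5 : 0 < Real.exp (-(q * t)) := Real.exp_pos _
  have h6 : Real.exp (-((q' - q) * t)) ≤ 1 := by rw [Real.exp_le_one_iff]; linarith
  nlinarith

lemma lap_anti (hν0 : ∀ᵐ t ∂ν, 0 ≤ t) {q q' : ℝ}
    (hq : 0 ≤ q) (hq' : q ≤ q') : lap ν q' ≤ lap ν q := by
  unfold lap
  apply integral_mono_ae (integrable_lap hν0 (hq.trans hq')) (integrable_lap hν0 hq)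
  filter_upwards [hν0] with t ht
  apply Real.exp_le_exp.2
  nlinarith

lemma lap_le_one (hν0 : ∀ᵐ t ∂ν, 0 ≤ t) {q : ℝ} (hq : 0 ≤ q) : lap ν q ≤ 1 := by
  have := lap_anti hν0 le_rfl hq
  rwa [lap_zero] at this

lemma lap_ge (hν0 : ∀ᵐ t ∂ν, 0 ≤ t) (hνi : Integrable (fun t : ℝ => t) ν) {q : ℝ}
    (hq : 0 ≤ q) : 1 - (∫ t, t ∂ν) * q ≤ lap ν q := by
  have := lap_sub_le hν0 hνi le_rfl hq
  rw [lap_zero] at this
  linarith

lemma mean_nonneg (hν0 : ∀ᵐ t ∂ν, 0 ≤ t) : 0 ≤ ∫ t, t ∂ν := integral_nonneg_of_ae hν0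

lemma lipschitz_lap (hν0 : ∀ᵐ t ∂ν, 0 ≤ t) (hνi : Integrable (fun t : ℝ => t) ν) {q q' : ℝ}
    (hq : 0 ≤ q) (hq' : 0 ≤ q') : |lap ν q - lap ν q'| ≤ (∫ t, t ∂ν) * |q - q'| := by
  rcases le_total q q' with h | h
  · have h1 := lap_sub_le hν0 hνi hq h
    have h2 := lap_anti hν0 hq h
    rw [abs_of_nonneg (by linarith), abs_of_nonpos (by linarith)]
    linarith
  · have h1 := lap_sub_le hν0 hνi hq' h
    have h2 := lap_anti hν0 hq' h
    rw [abs_of_nonpos (by linarith), abs_of_nonneg (by linarith)]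
    linarith

lemma continuousOn_lap (hν0 : ∀ᵐ t ∂ν, 0 ≤ t) (hνi : Integrable (fun t : ℝ => t) ν) :
    ContinuousOn (lap ν) (Set.Ici 0) := by
  have hm := mean_nonneg hν0
  have : LipschitzOnWith (Real.toNNReal (∫ t, t ∂ν)) (lap ν) (Set.Ici 0) := by
    apply LipschitzOnWith.of_dist_le_mul
    intro q hq q' hq'
    rw [Real.dist_eq, Real.dist_eq, Real.coe_toNNReal _ hm]
    exact lipschitz_lap hν0 hνi hq hq'
  exact this.continuousOn

/-- the right derivative of the Laplace transform at `0` -/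
lemma tendsto_lap (hν0 : ∀ᵐ t ∂ν, 0 ≤ t) (hνi : Integrable (fun t : ℝ => t) ν) :
    Tendsto (fun q => (1 - lap ν q) / q) (𝓝[>] 0) (𝓝 (∫ t, t ∂ν)) := by
  have h1 : Tendsto (fun q : ℝ => ∫ t, (1 - Real.exp (-(q * t))) / q ∂ν) (𝓝[>] 0)
      (𝓝 (∫ t, t ∂ν)) := by
    apply tendsto_integral_filter_of_dominated_convergence (fun t => |t|)
    · filter_upwards with q
      fun_prop
    · filter_upwards [self_mem_nhdsWithin] with q hq
      have hq : 0 < q := hq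
      filter_upwards [hν0] with t ht
      have h3 := Real.add_one_le_exp (-(q * t))
      have h4 : Real.exp (-(q * t)) ≤ 1 := by
        rw [Real.exp_le_one_iff]; have := mul_nonneg hq.le ht; linarith
      rw [Real.norm_eq_abs, abs_of_nonneg (div_nonneg (by linarith) hq.le), abs_of_nonneg ht,
        div_le_iff₀ hq]
      linarith
    · exact hνi.abs
    · filter_upwards with t
      have h5 : HasDerivAt (fun q : ℝ => Real.exp (-(q * t))) (-t) 0 := by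
        have : HasDerivAt (fun q : ℝ => Real.exp (-(q * t))) (Real.exp (-(0 * t)) * (-(1 * t))) 0 :=
          (((hasDerivAt_id (0 : ℝ)).mul_const t).neg).exp
        simpa using this
      have h6 := (h5.tendsto_slope_zero_right).neg
      simp only [neg_neg] at h6
      refine h6.congr' ?_
      filter_upwards [self_mem_nhdsWithin] with q hq
      simp only [zero_add, zero_mul, neg_zero, Real.exp_zero, smul_eq_mul]
      field_simp
      ring
  refine h1.congr' ?_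
  filter_upwards [self_mem_nhdsWithin] with q hq
  have hq : 0 < q := hq
  rw [integral_div, integral_sub (integrable_const _) (integrable_lap hν0 hq.le)]
  simp [lap]

/-- `q * lap2 q → 0` -/
lemma tendsto_lap2 (hν0 : ∀ᵐ t ∂ν, 0 ≤ t) (hνi : Integrable (fun t : ℝ => t) ν) :
    Tendsto (fun q => q * lap2 ν q) (𝓝[>] 0) (𝓝 0) := by
  have h1 : Tendsto (fun q : ℝ => ∫ t, q * (t ^ 2 * Real.exp (-(q * t))) ∂ν) (𝓝[>] 0)
      (𝓝 (∫ t, (0 : ℝ) ∂ν)) := by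
    apply tendsto_integral_filter_of_dominated_convergence (fun t => |t|)
    · filter_upwards with q
      fun_prop
    · filter_upwards [self_mem_nhdsWithin] with q hq
      have hq : 0 < q := hq
      filter_upwards [hν0] with t ht
      have h2 : q * (t ^ 2 * Real.exp (-(q * t))) = t * ((q * t) * Real.exp (-(q * t))) := by
        ring
      have h3 : (q * t) * Real.exp (-(q * t)) ≤ 1 := mul_exp_neg_le
      rw [Real.norm_eq_abs, abs_of_nonneg (by positivity), abs_of_nonneg ht, h2]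
      nlinarith
    · exact hνi.abs
    · filter_upwards with t
      have : Tendsto (fun q : ℝ => q * (t ^ 2 * Real.exp (-(q * t)))) (𝓝 0)
          (𝓝 (0 * (t ^ 2 * Real.exp (-(0 * t))))) := by
        apply Continuous.tendsto
        fun_prop
      rw [zero_mul] at this
      exact this.mono_left nhdsWithin_le_nhds
  simp only [integral_zero] at h1
  refine h1.congr ?_
  intro q
  rw [integral_const_mul, lap2]

end lapl

/-! ### the root -/

section root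

variable {a : ℝ} {μ ν : Measure ℝ} [IsProbabilityMeasure μ] [IsProbabilityMeasure ν]

lemma ae_mu_nonneg (ha0 : 0 < a)
    (hμ : ∀ x, 0 ≤ x → μ (Set.Ioi x) = ENNReal.ofReal (Real.exp (-(x ^ a)))) :
    ∀ᵐ s ∂μ, 0 ≤ s := by
  have h1 := hμ 0 le_rfl
  rw [Real.zero_rpow ha0.ne', neg_zero, Real.exp_zero, ENNReal.ofReal_one] at h1
  have h2 : μ (Set.Ioi 0)ᶜ = 0 := by
    rw [prob_compl_eq_zero_iff measurableSet_Ioi]; exact h1
  rw [ae_iff]
  refine measure_mono_null ?_ h2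
  intro s hs
  simp only [Set.mem_ofPred_eq, not_le] at hs
  simp only [Set.mem_compl_iff, Set.mem_Ioi, not_lt]
  exact hs.le

lemma slope (hμ0 : ∀ᵐ s ∂μ, 0 ≤ s) (hν0 : ∀ᵐ t ∂ν, 0 ≤ t)
    (hνi : Integrable (fun t : ℝ => t) ν)
    (hgt : (∫ t, t ∂ν) < ∫ s, s ∂μ) {K : ℕ} (hK : 1 ≤ K) :
    ∃ β0 : ℝ, 0 < β0 ∧ β0 ≤ 1 / 2 ∧ ∀ θ β β' : ℝ, 0 ≤ θ → θ ≤ β0 → 0 ≤ β → β ≤ β' → β' ≤ β0 →
      ((∫ s, s ∂μ) - ∫ t, t ∂ν) / 2 * (β' - β) ≤
        momPoly μ K β' * lap ν (β' + θ) - momPoly μ K β * lap ν (β + θ) := by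
  set E := ∫ s, s ∂μ with hE
  set m := ∫ t, t ∂ν with hm
  have hm0 : 0 ≤ m := mean_nonneg hν0
  have hE0 : 0 ≤ E := hm0.trans hgt.le
  have hC := momC_nonneg hμ0 K
  set C := momC μ K with hCdef
  set D := 2 * E * m + 2 * C * m + 1 with hD
  have hD0 : 0 < D := by positivity
  have hgt' : 0 < E - m := by linarith
  refine ⟨min (1 / 2) ((E - m) / (2 * D)), by positivity, min_le_left _ _, ?_⟩
  intro θ β β' hθ0 hθ hβ hββ' hβ'
  set β0 := min (1 / 2) ((E - m) / (2 * D)) with hβ0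
  have hb1 : β0 ≤ 1 / 2 := min_le_left _ _
  have hb2 : β0 * (2 * D) ≤ E - m := by
    have : β0 ≤ (E - m) / (2 * D) := min_le_right _ _
    rwa [le_div_iff₀ (by positivity)] at this
  have h1 := momPoly_diff_ge (μ := μ) hμ0 hK hβ hββ' (by linarith)
  have h2 := lap_sub_le hν0 hνi (q := β + θ) (q' := β' + θ) (by linarith) (by linarith)
  have h3 := momPoly_le (μ := μ) (K := K) hμ0 hβ (by linarith)
  have h4 := momPoly_ge_one (μ := μ) (K := K) hμ0 hβ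
  have h5 := lap_ge hν0 hνi (q := β' + θ) (by linarith)
  have h6 := lap_le_one hν0 (q := β' + θ) (by linarith)
  have h7 := lap_nonneg (ν := ν) (β' + θ)
  rw [← hE] at h1
  rw [← hm] at h2 h5
  rw [← hCdef] at h3
  set P := momPoly μ K β
  set P' := momPoly μ K β'
  set L := lap ν (β + θ)
  set L' := lap ν (β' + θ)
  have e : P' * L' - P * L = (P' - P) * L' - P * (L - L') := by ring
  rw [e]
  have hd : 0 ≤ β' - β := by linarith
  have g1 : (E * (β' - β)) * (1 - m * (2 * β0)) ≤ (P' - P) * L' := by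
    have q1 : 1 - m * (2 * β0) ≤ L' := by
      have : m * (β' + θ) ≤ m * (2 * β0) := mul_le_mul_of_nonneg_left (by linarith) hm0
      linarith
    calc (E * (β' - β)) * (1 - m * (2 * β0)) ≤ (E * (β' - β)) * L' :=
          mul_le_mul_of_nonneg_left q1 (by positivity)
      _ ≤ (P' - P) * L' := mul_le_mul_of_nonneg_right h1 h7
  have g2 : P * (L - L') ≤ (1 + 2 * C * β0) * (m * (β' - β)) := by
    have q1 : L - L' ≤ m * (β' - β) := by
      have : β' + θ - (β + θ) = β' - β := by ring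
      rwa [this] at h2
    have q2 : P ≤ 1 + 2 * C * β0 := by
      have : 2 * C * β ≤ 2 * C * β0 := mul_le_mul_of_nonneg_left (by linarith) (by positivity)
      linarith
    calc P * (L - L') ≤ P * (m * (β' - β)) := mul_le_mul_of_nonneg_left q1 (by linarith)
      _ ≤ _ := mul_le_mul_of_nonneg_right q2 (by positivity)
  have g3 : (E * (β' - β)) * (1 - m * (2 * β0)) - (1 + 2 * C * β0) * (m * (β' - β)) =
      (E - m - (2 * E * m + 2 * C * m) * β0) * (β' - β) := by ring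
  have g4 : (E - m) / 2 ≤ E - m - (2 * E * m + 2 * C * m) * β0 := by
    have hb0 : 0 ≤ β0 := by positivity
    have : (2 * E * m + 2 * C * m) * β0 ≤ D * β0 := by
      apply mul_le_mul_of_nonneg_right _ hb0
      linarith
    nlinarith
  have g5 : (E - m) / 2 * (β' - β) ≤
      (E - m - (2 * E * m + 2 * C * m) * β0) * (β' - β) :=
    mul_le_mul_of_nonneg_right g4 hd
  linarith

lemma tendsto_lap_one (hν0 : ∀ᵐ t ∂ν, 0 ≤ t) (hνi : Integrable (fun t : ℝ => t) ν) :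
    Tendsto (lap ν) (𝓝[>] 0) (𝓝 1) := by
  have h := (continuousOn_lap hν0 hνi) 0 (Set.mem_Ici.2 le_rfl)
  have h' : Tendsto (lap ν) (𝓝[≥] 0) (𝓝 (lap ν 0)) := h
  rw [lap_zero] at h'
  exact h'.mono_left (nhdsWithin_mono _ Set.Ioi_subset_Ici_self)

lemma tendsto_mul_right_zero {r : ℝ} (hr : 0 < r) :
    Tendsto (fun θ : ℝ => r * θ) (𝓝[>] 0) (𝓝[>] 0) := by
  apply tendsto_nhdsWithin_iff.2
  constructor
  · have : Tendsto (fun θ : ℝ => r * θ) (𝓝 0) (𝓝 (r * 0)) := by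
      apply Continuous.tendsto; fun_prop
    rw [mul_zero] at this
    exact this.mono_left nhdsWithin_le_nhds
  · filter_upwards [self_mem_nhdsWithin] with θ hθ
    exact mul_pos hr hθ

lemma tendsto_F (hμ0 : ∀ᵐ s ∂μ, 0 ≤ s) (hν0 : ∀ᵐ t ∂ν, 0 ≤ t)
    (hνi : Integrable (fun t : ℝ => t) ν) {K : ℕ} (hK : 1 ≤ K) {r : ℝ} (hr : 0 ≤ r) :
    Tendsto (fun θ => (momPoly μ K (r * θ) * lap ν (r * θ + θ) - 1) / θ) (𝓝[>] 0)
      (𝓝 ((∫ s, s ∂μ) * r - (∫ t, t ∂ν) * (r + 1))) := by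
  set E := ∫ s, s ∂μ with hE
  set m := ∫ t, t ∂ν with hm
  have hC := momC_nonneg hμ0 K
  have hid : Tendsto (fun θ : ℝ => θ) (𝓝[>] (0 : ℝ)) (𝓝 0) :=
    (continuous_id.tendsto 0).mono_left nhdsWithin_le_nhds
  -- polynomial part
  have h1 : Tendsto (fun θ => (momPoly μ K (r * θ) - 1) / θ) (𝓝[>] 0) (𝓝 (E * r)) := by
    have hlow : ∀ᶠ θ in 𝓝[>] (0 : ℝ), E * r ≤ (momPoly μ K (r * θ) - 1) / θ ∧
        (momPoly μ K (r * θ) - 1) / θ ≤ E * r + momC μ K * r ^ 2 * θ := by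
      have hsm : ∀ᶠ θ in 𝓝[>] (0 : ℝ), r * θ < 1 := by
        have : Tendsto (fun θ : ℝ => r * θ) (𝓝[>] (0 : ℝ)) (𝓝 (r * 0)) := hid.const_mul r
        rw [mul_zero] at this
        exact this.eventually (gt_mem_nhds (by norm_num))
      filter_upwards [hsm, self_mem_nhdsWithin] with θ hθ1 hθ
      have hθ : 0 < θ := hθ
      have h2 := momPoly_taylor (μ := μ) hμ0 K (x := r * θ) (y := 0) (by positivity) hθ1.le le_rfl
        zero_le_one
      rw [momPoly_zero, momP1_zero hK, ← hE, sub_zero] at h2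
      constructor
      · rw [le_div_iff₀ hθ]; nlinarith [h2.1]
      · rw [div_le_iff₀ hθ]; nlinarith [h2.2]
    have hup : Tendsto (fun θ : ℝ => E * r + momC μ K * r ^ 2 * θ) (𝓝[>] (0 : ℝ))
        (𝓝 (E * r)) := by
      have := (hid.const_mul (momC μ K * r ^ 2)).const_add (E * r)
      simpa using this
    exact tendsto_of_tendsto_of_tendsto_of_le_of_le' tendsto_const_nhds hup
      (hlow.mono fun θ h => h.1) (hlow.mono fun θ h => h.2)
  have hr1 : 0 < r + 1 := by linarith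
  have hmap := tendsto_mul_right_zero hr1
  have h2 : Tendsto (fun θ => lap ν (r * θ + θ)) (𝓝[>] 0) (𝓝 1) := by
    have := (tendsto_lap_one hν0 hνi).comp hmap
    refine this.congr ?_
    intro θ
    simp only [Function.comp]
    congr 1
    ring
  have h3 : Tendsto (fun θ => (1 - lap ν (r * θ + θ)) / θ) (𝓝[>] 0) (𝓝 (m * (r + 1))) := by
    have := ((tendsto_lap hν0 hνi).comp hmap).mul_const (r + 1)
    refine this.congr' ?_
    filter_upwards [self_mem_nhdsWithin] with θ hθ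
    have hθ : 0 < θ := hθ
    simp only [Function.comp]
    have : (r + 1) * θ = r * θ + θ := by ring
    rw [this]
    field_simp
  have h5 := (h1.mul h2).sub h3
  rw [mul_one] at h5
  refine h5.congr ?_
  intro θ
  ring

lemma F_gt (hμ0 : ∀ᵐ s ∂μ, 0 ≤ s) (hν0 : ∀ᵐ t ∂ν, 0 ≤ t)
    (hνi : Integrable (fun t : ℝ => t) ν) {K : ℕ} (hK : 1 ≤ K) {r : ℝ} (hr : 0 ≤ r)
    (h : 0 < (∫ s, s ∂μ) * r - (∫ t, t ∂ν) * (r + 1)) :
    ∀ᶠ θ in 𝓝[>] (0 : ℝ), 1 < momPoly μ K (r * θ) * lap ν (r * θ + θ) := by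
  filter_upwards [(tendsto_F hμ0 hν0 hνi hK hr).eventually (lt_mem_nhds h),
    self_mem_nhdsWithin] with θ h1 hθ
  have hθ : 0 < θ := hθ
  have := (div_pos_iff_of_pos_right hθ).1 h1
  linarith

lemma F_lt (hμ0 : ∀ᵐ s ∂μ, 0 ≤ s) (hν0 : ∀ᵐ t ∂ν, 0 ≤ t)
    (hνi : Integrable (fun t : ℝ => t) ν) {K : ℕ} (hK : 1 ≤ K) {r : ℝ} (hr : 0 ≤ r)
    (h : (∫ s, s ∂μ) * r - (∫ t, t ∂ν) * (r + 1) < 0) :
    ∀ᶠ θ in 𝓝[>] (0 : ℝ), momPoly μ K (r * θ) * lap ν (r * θ + θ) < 1 := by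
  filter_upwards [(tendsto_F hμ0 hν0 hνi hK hr).eventually (gt_mem_nhds h),
    self_mem_nhdsWithin] with θ h1 hθ
  have hθ : 0 < θ := hθ
  rw [div_lt_iff₀ hθ] at h1
  linarith

lemma continuousOn_F (hν0 : ∀ᵐ t ∂ν, 0 ≤ t)
    (hνi : Integrable (fun t : ℝ => t) ν) (K : ℕ) {θ : ℝ} (hθ : 0 ≤ θ) :
    ContinuousOn (fun β => momPoly μ K β * lap ν (β + θ)) (Set.Ici 0) := by
  apply (continuous_momPoly K).continuousOn.mul
  apply (continuousOn_lap hν0 hνi).comp (by fun_prop)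
  intro β hβ
  have hβ : 0 ≤ β := hβ
  exact Set.mem_Ici.2 (by linarith)

lemma root_le {K : ℕ} {θ β : ℝ} (hβ : 0 ≤ β)
    (h : 1 ≤ momPoly μ K β * lap ν (β + θ)) : cramerRoot μ ν K θ ≤ β :=
  csInf_le ⟨0, fun _ hx => hx.1⟩ ⟨hβ, h⟩

lemma root_eq (hν0 : ∀ᵐ t ∂ν, 0 ≤ t)
    (hνi : Integrable (fun t : ℝ => t) ν) {K : ℕ} {θ β : ℝ} (hθ : 0 ≤ θ) (hβ : 0 ≤ β)
    (h : 1 ≤ momPoly μ K β * lap ν (β + θ))
    (h0 : momPoly μ K 0 * lap ν (0 + θ) < 1) :
    0 ≤ cramerRoot μ ν K θ ∧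
      momPoly μ K (cramerRoot μ ν K θ) * lap ν (cramerRoot μ ν K θ + θ) = 1 := by
  set S : Set ℝ := {β : ℝ | 0 ≤ β ∧ 1 ≤ momPoly μ K β * lap ν (β + θ)} with hS
  have hcl : IsClosed S := by
    have := (continuousOn_F (μ := μ) hν0 hνi K hθ).preimage_isClosed_of_isClosed isClosed_Ici
      (isClosed_Ici (a := (1 : ℝ)))
    exact this
  have hmem : sInf S ∈ S := hcl.csInf_mem ⟨β, hβ, h⟩ ⟨0, fun _ hx => hx.1⟩
  have hr : cramerRoot μ ν K θ = sInf S := rfl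
  rw [← hr] at hmem
  refine ⟨hmem.1, ?_⟩
  have hcont : ContinuousOn (fun β => momPoly μ K β * lap ν (β + θ))
      (Set.Icc 0 (cramerRoot μ ν K θ)) :=
    (continuousOn_F (μ := μ) hν0 hνi K hθ).mono Set.Icc_subset_Ici_self
  obtain ⟨β', hβ', hF⟩ := intermediate_value_Icc hmem.1 hcont ⟨h0.le, hmem.2⟩
  have h1 : cramerRoot μ ν K θ ≤ β' := root_le hβ'.1 (le_of_eq hF.symm)
  have h2 : β' = cramerRoot μ ν K θ := le_antisymm hβ'.2 h1
  rw [← h2]
  exact hF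

end root

end BetaAux

section stoch

variable {a : ℝ} {μ ν : Measure ℝ} [IsProbabilityMeasure μ] [IsProbabilityMeasure ν]

open BetaAux

theorem cramerRoot_nonneg (K : ℕ) (θ : ℝ) : 0 ≤ cramerRoot μ ν K θ :=
  Real.sInf_nonneg fun _ hx => hx.1

namespace BetaAux

/-- the basic facts on the root, together with a uniform interval of monotonicity -/
theorem basic (hμ0 : ∀ᵐ s ∂μ, 0 ≤ s) (hν0 : ∀ᵐ t ∂ν, 0 ≤ t)
    (hνi : Integrable (fun t : ℝ => t) ν)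
    (hgt : (∫ t, t ∂ν) < ∫ s, s ∂μ) (hlt : (∫ s, s ∂μ) < 2 * ∫ t, t ∂ν)
    {K : ℕ} (hK : 1 ≤ K) :
    ∃ β0 : ℝ, 0 < β0 ∧ β0 ≤ 1 / 2 ∧ (∀ θ β β' : ℝ, 0 ≤ θ → θ ≤ β0 → 0 ≤ β → β ≤ β' → β' ≤ β0 →
      ((∫ s, s ∂μ) - ∫ t, t ∂ν) / 2 * (β' - β) ≤
        momPoly μ K β' * lap ν (β' + θ) - momPoly μ K β * lap ν (β + θ)) ∧
      ∀ᶠ θ in 𝓝[>] (0 : ℝ), θ ≤ β0 ∧ θ ≤ cramerRoot μ ν K θ ∧ cramerRoot μ ν K θ ≤ β0 ∧
        momPoly μ K (cramerRoot μ ν K θ) * lap ν (cramerRoot μ ν K θ + θ) = 1 := by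
  obtain ⟨β0, hb0, hb1, hsl⟩ := slope hμ0 hν0 hνi hgt hK
  refine ⟨β0, hb0, hb1, hsl, ?_⟩
  set E := ∫ s, s ∂μ with hE
  set m := ∫ t, t ∂ν with hm
  have hgt' : 0 < E - m := by linarith
  have hm0 : 0 ≤ m := mean_nonneg hν0
  -- choose r large
  obtain ⟨r, hr0, hr⟩ : ∃ r : ℝ, 0 < r ∧ 0 < E * r - m * (r + 1) := by
    refine ⟨(m + 1) / (E - m), by positivity, ?_⟩
    have : E * ((m + 1) / (E - m)) - m * ((m + 1) / (E - m) + 1) = 1 := by
      field_simp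
      ring
    rw [this]; norm_num
  have h1 := F_gt hμ0 hν0 hνi hK hr0.le hr
  have h2 := F_lt hμ0 hν0 hνi hK (r := 1) zero_le_one (by rw [← hE, ← hm]; linarith)
  have hid : Tendsto (fun θ : ℝ => θ) (𝓝[>] (0 : ℝ)) (𝓝 0) :=
    (continuous_id.tendsto 0).mono_left nhdsWithin_le_nhds
  have h3 : ∀ᶠ θ in 𝓝[>] (0 : ℝ), r * θ < β0 := by
    have : Tendsto (fun θ : ℝ => r * θ) (𝓝[>] (0 : ℝ)) (𝓝 (r * 0)) := hid.const_mul r
    rw [mul_zero] at this
    exact this.eventually (gt_mem_nhds hb0)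
  have h4 : ∀ᶠ θ in 𝓝[>] (0 : ℝ), θ < β0 := hid.eventually (gt_mem_nhds hb0)
  filter_upwards [h1, h2, h3, h4, self_mem_nhdsWithin] with θ g1 g2 g3 g4 hθ
  have hθ : 0 < θ := hθ
  rw [one_mul] at g2
  have g5 : momPoly μ K 0 * lap ν (0 + θ) < 1 := by
    have := hsl θ 0 θ hθ.le g4.le le_rfl hθ.le g4.le
    have h6 : 0 ≤ (E - m) / 2 * (θ - 0) := by
      have : 0 ≤ θ - 0 := by linarith
      positivity
    linarith
  obtain ⟨k1, k2⟩ := root_eq (μ := μ) hν0 hνi (K := K) hθ.le (by positivity : 0 ≤ r * θ) g1.le g5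
  have k3 : cramerRoot μ ν K θ ≤ r * θ := root_le (by positivity) g1.le
  refine ⟨g4.le, ?_, k3.trans g3.le, k2⟩
  by_contra hcon
  push Not at hcon
  have := hsl θ _ θ hθ.le g4.le k1 hcon.le g4.le
  rw [k2] at this
  have h6 : 0 ≤ (E - m) / 2 * (θ - cramerRoot μ ν K θ) := by
    have : 0 ≤ θ - cramerRoot μ ν K θ := by linarith
    positivity
  linarith

end BetaAux

theorem beta_basic (ha0 : 0 < a) (ha1 : a < 1)
    (hμ : ∀ x, 0 ≤ x → μ (Set.Ioi x) = ENNReal.ofReal (Real.exp (-(x ^ a))))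
    (hν : ν (Set.Iio 0) = 0) (hνi : Integrable (fun t : ℝ => t) ν)
    (hm : 0 < ∫ t, t ∂ν)
    (hgt : (∫ t, t ∂ν) < ∫ s, s ∂μ) (hlt : (∫ s, s ∂μ) < 2 * ∫ t, t ∂ν)
    {K : ℕ} (hK : 1 ≤ K) :
    ∃ θ0 : ℝ, 0 < θ0 ∧ ∀ θ, 0 < θ → θ < θ0 →
      θ ≤ cramerRoot μ ν K θ ∧
      momPoly μ K (cramerRoot μ ν K θ) * lap ν (cramerRoot μ ν K θ + θ) = 1 ∧
      ∀ β : ℝ, 0 ≤ β → β ≤ cramerRoot μ ν K θ →
        momPoly μ K β * lap ν (β + θ) ≤
          1 - ((∫ s, s ∂μ) - ∫ t, t ∂ν) / 2 * (cramerRoot μ ν K θ - β) := by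
  obtain ⟨β0, hb0, hb1, hsl, hev⟩ := basic (ae_mu_nonneg ha0 hμ) (ae_nonneg hν) hνi hgt hlt hK
  obtain ⟨θ0, hθ0, hθ⟩ := (mem_nhdsGT_iff_exists_Ioo_subset).1 hev
  refine ⟨θ0, hθ0, ?_⟩
  intro θ h1 h2
  obtain ⟨g1, g2, g3, g4⟩ := hθ ⟨h1, h2⟩
  refine ⟨g2, g4, ?_⟩
  intro β hβ hβr
  have := hsl θ β _ h1.le g1 hβ hβr g3
  rw [g4] at this
  linarith

theorem beta_limit (ha0 : 0 < a) (ha1 : a < 1)
    (hμ : ∀ x, 0 ≤ x → μ (Set.Ioi x) = ENNReal.ofReal (Real.exp (-(x ^ a))))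
    (hν : ν (Set.Iio 0) = 0) (hνi : Integrable (fun t : ℝ => t) ν)
    (hm : 0 < ∫ t, t ∂ν)
    (hgt : (∫ t, t ∂ν) < ∫ s, s ∂μ) (hlt : (∫ s, s ∂μ) < 2 * ∫ t, t ∂ν)
    {K : ℕ} (hK : 1 ≤ K) :
    Tendsto (fun θ => cramerRoot μ ν K θ / θ) (𝓝[>] 0)
      (𝓝 ((∫ s, s ∂μ) / ((∫ s, s ∂μ) - ∫ t, t ∂ν) - 1)) := by
  have hμ0 := ae_mu_nonneg ha0 hμ
  have hν0 := ae_nonneg hν
  obtain ⟨β0, hb0, hb1, hsl, hev⟩ := basic hμ0 hν0 hνi hgt hlt hK
  set E := ∫ s, s ∂μ with hE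
  set m := ∫ t, t ∂ν with hmdef
  have hgt' : 0 < E - m := by linarith
  have hid : Tendsto (fun θ : ℝ => θ) (𝓝[>] (0 : ℝ)) (𝓝 0) :=
    (continuous_id.tendsto 0).mono_left nhdsWithin_le_nhds
  have hval : E / (E - m) - 1 = m / (E - m) := by field_simp; ring
  rw [hval]
  have hpos : 0 < m / (E - m) := by positivity
  rw [tendsto_order]
  constructor
  · intro l hl
    -- a number r with max l 0 < r < m/(E-m)
    obtain ⟨r, hr1, hr2⟩ := exists_between (max_lt hl hpos)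
    have hr0 : 0 < r := (le_max_right _ _).trans_lt hr1
    have hneg : E * r - m * (r + 1) < 0 := by
      rw [lt_div_iff₀ hgt'] at hr2
      linarith
    have h3 : ∀ᶠ θ in 𝓝[>] (0 : ℝ), r * θ < β0 := by
      have : Tendsto (fun θ : ℝ => r * θ) (𝓝[>] (0 : ℝ)) (𝓝 (r * 0)) := hid.const_mul r
      rw [mul_zero] at this
      exact this.eventually (gt_mem_nhds hb0)
    filter_upwards [F_lt hμ0 hν0 hνi hK hr0.le hneg, hev, h3, self_mem_nhdsWithin] with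
      θ g1 ⟨g2, g3, g4, g5⟩ g6 hθ
    have hθ : 0 < θ := hθ
    have : r * θ < cramerRoot μ ν K θ := by
      by_contra hcon
      push Not at hcon
      have := hsl θ _ (r * θ) hθ.le g2 (cramerRoot_nonneg K θ) hcon g6.le
      rw [g5] at this
      have h6 : 0 ≤ (E - m) / 2 * (r * θ - cramerRoot μ ν K θ) := by
        have : 0 ≤ r * θ - cramerRoot μ ν K θ := by linarith
        positivity
      linarith
    calc l ≤ max l 0 := le_max_left _ _
      _ < r := hr1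
      _ ≤ cramerRoot μ ν K θ / θ := by rw [le_div_iff₀ hθ]; exact this.le
  · intro u hu
    obtain ⟨r, hr1, hr2⟩ := exists_between hu
    have hr0 : 0 < r := hpos.trans hr1
    have hp : 0 < E * r - m * (r + 1) := by
      rw [div_lt_iff₀ hgt'] at hr1
      linarith
    filter_upwards [F_gt hμ0 hν0 hνi hK hr0.le hp, self_mem_nhdsWithin] with θ g1 hθ
    have hθ : 0 < θ := hθ
    have : cramerRoot μ ν K θ ≤ r * θ := root_le (by positivity) g1.le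
    calc cramerRoot μ ν K θ / θ ≤ r := by rw [div_le_iff₀ hθ]; exact this
      _ < u := hr2

end stoch

end Pool.Agent.Lib.MP_04add8_pr
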