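import Mathlib
import Pool.Agent.Lib.MP_04add8_pr.One.BetaA

open MeasureTheory ProbabilityTheory Filter Topology
open scoped ENNReal

set_option linter.unusedSectionVars false

namespace Pool.Agent.Lib.MP_04add8_pr

namespace BetaAux

lemma exp_taylor_nonpos {x : ℝ} (hx : x ≤ 0) : Real.exp x ≤ 1 + x + x ^ 2 / 2 := by
  have h := Real.quadratic_le_exp_of_nonneg (x := -x) (by linarith)
  have h1 : 0 < 1 + x + x ^ 2 / 2 := by nlinarith [sq_nonneg (x + 1)]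
  have h2 : Real.exp x * Real.exp (-x) = 1 := by rw [← Real.exp_add]; simp
  have h3 : 0 < Real.exp x := Real.exp_pos x
  have h4 : 0 < Real.exp (-x) := Real.exp_pos _
  -- (1 + x + x²/2)(1 - x + x²/2) = 1 + x⁴/4 ≥ 1
  have h5 : 1 ≤ (1 + x + x ^ 2 / 2) * (1 + -x + (-x) ^ 2 / 2) := by nlinarith [sq_nonneg (x ^ 2)]
  have h6 : (1 + x + x ^ 2 / 2) * (1 + -x + (-x) ^ 2 / 2) ≤
      (1 + x + x ^ 2 / 2) * Real.exp (-x) := mul_le_mul_of_nonneg_left h h1.le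
  have h7 : Real.exp x * Real.exp (-x) ≤ (1 + x + x ^ 2 / 2) * Real.exp (-x) := by
    rw [h2]; linarith
  exact le_of_mul_le_mul_right h7 h4

/-- `e^{-(q+w)t}` to second order -/
lemma exp_remainder {c q w t : ℝ} (hq : c ≤ q) (hqw : c ≤ q + w) (ht : 0 ≤ t) :
    |Real.exp (-((q + w) * t)) - Real.exp (-(q * t)) + w * (t * Real.exp (-(q * t)))| ≤
      w ^ 2 * (t ^ 2 * Real.exp (-(c * t))) := by
  have e1 : Real.exp (-((q + w) * t)) - Real.exp (-(q * t)) + w * (t * Real.exp (-(q * t))) =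
      Real.exp (-(q * t)) * (Real.exp (-(w * t)) - 1 + w * t) := by
    have : Real.exp (-((q + w) * t)) = Real.exp (-(q * t)) * Real.exp (-(w * t)) := by
      rw [← Real.exp_add]; ring_nf
    rw [this]; ring
  have h0 : 0 ≤ Real.exp (-(w * t)) - 1 + w * t := by
    have := Real.add_one_le_exp (-(w * t)); linarith
  rw [e1, abs_of_nonneg (mul_nonneg (Real.exp_pos _).le h0)]
  rcases le_total 0 w with hw | hw
  · have h1 := exp_taylor_nonpos (x := -(w * t)) (by nlinarith)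
    have h2 : Real.exp (-(w * t)) - 1 + w * t ≤ (w * t) ^ 2 := by nlinarith [sq_nonneg (w * t)]
    have h3 : Real.exp (-(q * t)) ≤ Real.exp (-(c * t)) := Real.exp_le_exp.2 (by nlinarith)
    calc Real.exp (-(q * t)) * (Real.exp (-(w * t)) - 1 + w * t)
        ≤ Real.exp (-(c * t)) * (w * t) ^ 2 := mul_le_mul h3 h2 h0 (Real.exp_pos _).le
      _ = _ := by ring
  · -- z = -(w t) ≥ 0, e^z - 1 - z ≤ z² e^z
    set z := -(w * t) with hz
    have hz0 : 0 ≤ z := by rw [hz]; nlinarith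
    have h1 := Real.add_one_le_exp (-z)
    have h2 : Real.exp z * Real.exp (-z) = 1 := by rw [← Real.exp_add]; simp
    have h3 : 0 < Real.exp z := Real.exp_pos z
    have h4 : Real.exp z - 1 - z ≤ z ^ 2 * Real.exp z := by
      -- 1 ≥ (1 - z) e^z, so (1+z) ≥ (1 - z²) e^z
      have h5 : (1 - z) * Real.exp z ≤ 1 := by nlinarith
      nlinarith [mul_le_mul_of_nonneg_left h5 (by linarith : 0 ≤ 1 + z)]
    have h6 : Real.exp (-(q * t)) * Real.exp z = Real.exp (-((q + w) * t)) := by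
      rw [← Real.exp_add, hz]; ring_nf
    have h7 : Real.exp (-((q + w) * t)) ≤ Real.exp (-(c * t)) := Real.exp_le_exp.2 (by nlinarith)
    calc Real.exp (-(q * t)) * (Real.exp z - 1 + w * t)
        ≤ Real.exp (-(q * t)) * (z ^ 2 * Real.exp z) := by
          apply mul_le_mul_of_nonneg_left _ (Real.exp_pos _).le
          have : w * t = -z := by rw [hz]; ring
          rw [this]; linarith
      _ = z ^ 2 * Real.exp (-((q + w) * t)) := by rw [← h6]; ring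
      _ ≤ z ^ 2 * Real.exp (-(c * t)) := mul_le_mul_of_nonneg_left h7 (sq_nonneg z)
      _ = _ := by rw [hz]; ring

section

variable {μ ν : Measure ℝ} [IsProbabilityMeasure μ] [IsProbabilityMeasure ν]

lemma lap_taylor (hν0 : ∀ᵐ t ∂ν, 0 ≤ t) (hνi : Integrable (fun t : ℝ => t) ν) {c q w : ℝ}
    (hc : 0 < c) (hq : c ≤ q) (hqw : c ≤ q + w) :
    |lap ν (q + w) - lap ν q + w * lap1 ν q| ≤ w ^ 2 * lap2 ν c := by
  have i1 := integrable_lap (ν := ν) hν0 (q := q + w) (by linarith)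
  have i2 := integrable_lap (ν := ν) hν0 (q := q) (by linarith)
  have i3 := integrable_lap1 hν0 hνi (q := q) (by linarith)
  have i4 := integrable_lap2 hν0 hνi hc
  have e : lap ν (q + w) - lap ν q + w * lap1 ν q =
      ∫ t, (Real.exp (-((q + w) * t)) - Real.exp (-(q * t)) +
        w * (t * Real.exp (-(q * t)))) ∂ν := by
    have e1 := integral_add (i1.sub i2) (i3.const_mul w)
    have e2 := integral_sub i1 i2
    simp only [Pi.sub_apply] at e1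
    rw [e1, e2, integral_const_mul]
    rfl
  rw [e, lap2, ← integral_const_mul]
  apply (abs_integral_le_integral_abs).trans
  apply integral_mono_ae ((i1.sub i2).add (i3.const_mul w)).abs (i4.const_mul _)
  filter_upwards [hν0] with t ht
  exact exp_remainder hq hqw ht

/-- the derivative in `β` of the truncated equation at the root -/
noncomputable def bD (μ ν : Measure ℝ) (K : ℕ) (θ : ℝ) : ℝ :=
  momP1 μ K (cramerRoot μ ν K θ) * lap ν (cramerRoot μ ν K θ + θ) -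
    momPoly μ K (cramerRoot μ ν K θ) * lap1 ν (cramerRoot μ ν K θ + θ)

/-- the derivative of the root -/
noncomputable def bB (μ ν : Measure ℝ) (K : ℕ) (θ : ℝ) : ℝ :=
  momPoly μ K (cramerRoot μ ν K θ) * lap1 ν (cramerRoot μ ν K θ + θ) / bD μ ν K θ

lemma tendsto_root {K : ℕ} {ρ : ℝ}
    (hlim : Tendsto (fun θ => cramerRoot μ ν K θ / θ) (𝓝[>] 0) (𝓝 ρ)) :
    Tendsto (cramerRoot μ ν K) (𝓝[>] 0) (𝓝 0) := by
  have hid : Tendsto (fun θ : ℝ => θ) (𝓝[>] (0 : ℝ)) (𝓝 0) :=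
    (continuous_id.tendsto 0).mono_left nhdsWithin_le_nhds
  have h := hlim.mul hid
  rw [mul_zero] at h
  refine h.congr' ?_
  filter_upwards [self_mem_nhdsWithin] with θ hθ
  have hθ : 0 < θ := hθ
  field_simp

lemma tendsto_P {K : ℕ} {ρ : ℝ}
    (hlim : Tendsto (fun θ => cramerRoot μ ν K θ / θ) (𝓝[>] 0) (𝓝 ρ)) :
    Tendsto (fun θ => momPoly μ K (cramerRoot μ ν K θ)) (𝓝[>] 0) (𝓝 1) := by
  have h := ((continuous_momPoly (μ := μ) K).tendsto 0).comp (tendsto_root hlim)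
  rwa [momPoly_zero] at h

lemma tendsto_L (hν0 : ∀ᵐ t ∂ν, 0 ≤ t) (hνi : Integrable (fun t : ℝ => t) ν) {K : ℕ} {ρ : ℝ}
    (hlim : Tendsto (fun θ => cramerRoot μ ν K θ / θ) (𝓝[>] 0) (𝓝 ρ)) :
    Tendsto (fun θ => lap ν (cramerRoot μ ν K θ + θ)) (𝓝[>] 0) (𝓝 1) := by
  have hid : Tendsto (fun θ : ℝ => θ) (𝓝[>] (0 : ℝ)) (𝓝 0) :=
    (continuous_id.tendsto 0).mono_left nhdsWithin_le_nhds
  have h1 : Tendsto (fun θ => cramerRoot μ ν K θ + θ) (𝓝[>] 0) (𝓝[>] 0) := by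
    apply tendsto_nhdsWithin_iff.2
    constructor
    · simpa using (tendsto_root hlim).add hid
    · filter_upwards [self_mem_nhdsWithin] with θ hθ
      have hθ : 0 < θ := hθ
      have := cramerRoot_nonneg (μ := μ) (ν := ν) K θ
      exact Set.mem_Ioi.2 (by linarith)
  exact (tendsto_lap_one hν0 hνi).comp h1

/-- lower bound for the derivative, upper bound for the slope of the root -/
lemma bD_bB (hμ0 : ∀ᵐ s ∂μ, 0 ≤ s) (hν0 : ∀ᵐ t ∂ν, 0 ≤ t)
    (hνi : Integrable (fun t : ℝ => t) ν)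
    (hgt : (∫ t, t ∂ν) < ∫ s, s ∂μ) {K : ℕ} (hK : 1 ≤ K) {ρ : ℝ}
    (hlim : Tendsto (fun θ => cramerRoot μ ν K θ / θ) (𝓝[>] 0) (𝓝 ρ)) {r : ℝ}
    (hr : (∫ t, t ∂ν) / ((∫ s, s ∂μ) - ∫ t, t ∂ν) < r) :
    ∀ᶠ θ in 𝓝[>] (0 : ℝ), ((∫ s, s ∂μ) - ∫ t, t ∂ν) / 2 ≤ bD μ ν K θ ∧
      0 ≤ bB μ ν K θ ∧ bB μ ν K θ ≤ r ∧ momPoly μ K (cramerRoot μ ν K θ) ≤ 2 := by
  set E := ∫ s, s ∂μ with hE
  set m := ∫ t, t ∂ν with hmdef
  have hgt' : 0 < E - m := by linarith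
  have hm0 : 0 ≤ m := mean_nonneg hν0
  have hP := tendsto_P (μ := μ) hlim
  have hL := tendsto_L (μ := μ) hν0 hνi hlim
  have hg : Tendsto (fun θ => E * lap ν (cramerRoot μ ν K θ + θ) -
      momPoly μ K (cramerRoot μ ν K θ) * m) (𝓝[>] 0) (𝓝 (E * 1 - 1 * m)) :=
    (hL.const_mul E).sub (hP.mul_const m)
  have hq : Tendsto (fun θ => momPoly μ K (cramerRoot μ ν K θ) * m /
      (E * lap ν (cramerRoot μ ν K θ + θ) - momPoly μ K (cramerRoot μ ν K θ) * m)) (𝓝[>] 0)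
      (𝓝 (1 * m / (E * 1 - 1 * m))) := by
    apply (hP.mul_const m).div hg
    rw [mul_one, one_mul]; exact hgt'.ne'
  rw [mul_one, one_mul] at hg hq
  filter_upwards [hg.eventually (lt_mem_nhds (show (E - m) / 2 < E - m by linarith)),
    hq.eventually (gt_mem_nhds hr), hP.eventually (gt_mem_nhds (show (1 : ℝ) < 2 by norm_num)),
    self_mem_nhdsWithin] with θ h1 h2 h3 hθ
  have hθ : 0 < θ := hθ
  have hr0 := cramerRoot_nonneg (μ := μ) (ν := ν) K θ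
  have k1 := momP1_ge (μ := μ) hμ0 hK hr0
  have k2 := lap1_le hν0 hνi (q := cramerRoot μ ν K θ + θ) (by linarith)
  have k3 := lap1_nonneg hν0 (cramerRoot μ ν K θ + θ)
  have k4 := lap_nonneg (ν := ν) (cramerRoot μ ν K θ + θ)
  have k5 := momPoly_ge_one (μ := μ) (K := K) hμ0 hr0
  rw [← hE] at k1
  rw [← hmdef] at k2
  have k6 : E * lap ν (cramerRoot μ ν K θ + θ) - momPoly μ K (cramerRoot μ ν K θ) * m ≤
      bD μ ν K θ := by
    unfold bD
    have := mul_le_mul_of_nonneg_right k1 k4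
    have := mul_le_mul_of_nonneg_left k2 (by linarith : 0 ≤ momPoly μ K (cramerRoot μ ν K θ))
    linarith
  have k7 : 0 < E * lap ν (cramerRoot μ ν K θ + θ) -
      momPoly μ K (cramerRoot μ ν K θ) * m := by linarith
  refine ⟨by linarith, ?_, ?_, h3.le⟩
  · unfold bB
    apply div_nonneg (mul_nonneg (by linarith) k3) (by linarith)
  · refine le_trans ?_ h2.le
    unfold bB
    apply div_le_div₀ (mul_nonneg (by linarith) hm0) _ k7 k6
    exact mul_le_mul_of_nonneg_left k2 (by linarith)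

set_option maxHeartbeats 1000000 in
lemma expand_core (hμ0 : ∀ᵐ s ∂μ, 0 ≤ s) (hν0 : ∀ᵐ t ∂ν, 0 ≤ t)
    (hνi : Integrable (fun t : ℝ => t) ν)
    (hgt : (∫ t, t ∂ν) < ∫ s, s ∂μ) (hlt : (∫ s, s ∂μ) < 2 * ∫ t, t ∂ν)
    {K : ℕ} (hK : 1 ≤ K)
    (hlim : Tendsto (fun θ => cramerRoot μ ν K θ / θ) (𝓝[>] 0)
      (𝓝 ((∫ t, t ∂ν) / ((∫ s, s ∂μ) - ∫ t, t ∂ν))))
    {β0 : ℝ} (hβ0 : 0 < β0) (hβ1 : β0 ≤ 1 / 2)
    (hev : ∀ᶠ θ in 𝓝[>] (0 : ℝ), momPoly μ K (cramerRoot μ ν K θ) *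
      lap ν (cramerRoot μ ν K θ + θ) = 1)
    {ω : ℝ} (hω : 0 < ω) (hω1 : ω ≤ 1 / 4) :
    ∀ᶠ θ in 𝓝[>] (0 : ℝ), ∀ u : ℝ, |u| ≤ θ / 2 → ∀ s : ℝ, |s| = ω / θ * u ^ 2 →
      0 ≤ cramerRoot μ ν K θ + (bB μ ν K θ * u + s) ∧
      cramerRoot μ ν K θ + (bB μ ν K θ * u + s) ≤ β0 ∧
      |momPoly μ K (cramerRoot μ ν K θ + (bB μ ν K θ * u + s)) *
        lap ν (cramerRoot μ ν K θ + (bB μ ν K θ * u + s) + (θ + u)) - 1 - bD μ ν K θ * s| ≤
        ((∫ s, s ∂μ) - ∫ t, t ∂ν) / 4 * (ω / θ * u ^ 2) := by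
  set E := ∫ s, s ∂μ with hE
  set m := ∫ t, t ∂ν with hmdef
  have hgt' : 0 < E - m := by linarith
  have hm0 : 0 ≤ m := mean_nonneg hν0
  set ρ := m / (E - m) with hρ
  have hρ1 : 1 < ρ := by rw [hρ, lt_div_iff₀ hgt']; linarith
  have hC := momC_nonneg hμ0 K
  set C := momC μ K with hCdef
  set A := ρ + 1 / 4 with hA
  have hA0 : 0 < A := by linarith
  have hid : Tendsto (fun θ : ℝ => θ) (𝓝[>] (0 : ℝ)) (𝓝 0) :=
    (continuous_id.tendsto 0).mono_left nhdsWithin_le_nhds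
  have hroot := tendsto_root hlim
  -- smallness of the second derivative
  have hL2 : Tendsto (fun θ => θ * (2 * (A + 1) ^ 2 * lap2 ν (θ / 2) +
      (C * A ^ 2 + 2 * C * A * (m * (A + 1))))) (𝓝[>] 0) (𝓝 0) := by
    have h1 := (tendsto_lap2 hν0 hνi).comp (tendsto_mul_right_zero (r := 1 / 2) (by norm_num))
    have h2 := (h1.const_mul (4 * (A + 1) ^ 2)).add
      (hid.mul_const (C * A ^ 2 + 2 * C * A * (m * (A + 1))))
    simp only [mul_zero, zero_mul, add_zero] at h2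
    refine h2.congr ?_
    intro θ
    simp only [Function.comp]
    have : 1 / 2 * θ = θ / 2 := by ring
    rw [this]
    ring
  have hsmall : ∀ᶠ θ in 𝓝[>] (0 : ℝ), cramerRoot μ ν K θ + A * θ < β0 := by
    have h1 : Tendsto (fun θ => cramerRoot μ ν K θ + A * θ) (𝓝[>] 0) (𝓝 (0 + A * 0)) :=
      hroot.add (hid.const_mul A)
    rw [mul_zero, add_zero] at h1
    exact h1.eventually (gt_mem_nhds hβ0)
  have hpos : 0 < (E - m) / 4 * ω := by positivity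
  filter_upwards [hev, hsmall, hL2.eventually (gt_mem_nhds hpos),
    bD_bB hμ0 hν0 hνi hgt hK hlim (r := ρ + 1 / 8) (by rw [← hE, ← hmdef, ← hρ]; linarith),
    hlim.eventually (lt_mem_nhds (show ρ - 1 / 8 < ρ by linarith)),
    self_mem_nhdsWithin] with θ g1 g2 g3 ⟨g4, g5, g6, g7⟩ g8 hθ u hu s hs
  have hθ : 0 < θ := hθ
  rw [← hE, ← hmdef] at g4
  have hr0 := cramerRoot_nonneg (μ := μ) (ν := ν) K θ
  rw [lt_div_iff₀ hθ] at g8
  have hAθ : 0 < A * θ := mul_pos hA0 hθ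
  have hr1 : cramerRoot μ ν K θ ≤ 1 := by linarith only [g2, hAθ, hβ1]
  have hP1 : momP1 μ K (cramerRoot μ ν K θ) ≤ C :=
    momP1_le (μ := μ) hμ0 K hr0 hr1
  have hP1' : E ≤ momP1 μ K (cramerRoot μ ν K θ) := momP1_ge (μ := μ) hμ0 hK hr0
  have hPge := momPoly_ge_one (μ := μ) (K := K) hμ0 hr0
  have hL1le := lap1_le hν0 hνi (q := cramerRoot μ ν K θ + θ) (by linarith)
  have hL1nn := lap1_nonneg hν0 (cramerRoot μ ν K θ + θ)
  have hLle := lap_le_one hν0 (q := cramerRoot μ ν K θ + θ) (by linarith)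
  have hLnn := lap_nonneg (ν := ν) (cramerRoot μ ν K θ + θ)
  have hDdef : bD μ ν K θ = momP1 μ K (cramerRoot μ ν K θ) * lap ν (cramerRoot μ ν K θ + θ) -
    momPoly μ K (cramerRoot μ ν K θ) * lap1 ν (cramerRoot μ ν K θ + θ) := rfl
  have hDB : bD μ ν K θ * bB μ ν K θ =
      momPoly μ K (cramerRoot μ ν K θ) * lap1 ν (cramerRoot μ ν K θ + θ) := by
    unfold bB
    have : bD μ ν K θ ≠ 0 := by
      have : 0 < bD μ ν K θ := by linarith only [g4, hgt']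
      exact this.ne'
    field_simp
  set β := cramerRoot μ ν K θ with hβ
  set D := bD μ ν K θ
  set B := bB μ ν K θ
  set P := momPoly μ K β
  set P1 := momP1 μ K β
  set L := lap ν (β + θ)
  set L1 := lap1 ν (β + θ)
  set v := B * u + s with hv
  -- bounds on s, v, w
  have hu0 : 0 ≤ |u| := abs_nonneg u
  have hsb : |s| ≤ 1 / 8 * |u| := by
    rw [hs]
    have : u ^ 2 = |u| * |u| := by rw [← abs_mul, ← sq, abs_of_nonneg (sq_nonneg u)]
    rw [this]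
    have h1 : ω / θ * (|u| * |u|) = (ω / θ * |u|) * |u| := by ring
    rw [h1]
    apply mul_le_mul_of_nonneg_right _ hu0
    calc ω / θ * |u| ≤ ω / θ * (θ / 2) := mul_le_mul_of_nonneg_left hu (by positivity)
      _ = ω / 2 := by field_simp
      _ ≤ 1 / 8 := by linarith
  have hvb : |v| ≤ A * |u| := by
    calc |v| ≤ |B * u| + |s| := abs_add_le _ _
      _ = B * |u| + |s| := by rw [abs_mul, abs_of_nonneg g5]
      _ ≤ (ρ + 1 / 8) * |u| + 1 / 8 * |u| := by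
          have := mul_le_mul_of_nonneg_right g6 hu0
          linarith only [this, hsb]
      _ = A * |u| := by rw [hA]; ring
  have hwb : |u + v| ≤ (A + 1) * |u| := by
    have := abs_add_le u v
    linarith only [this, hvb]
  have hv1 : 0 ≤ β + v := by
    have h1 := (abs_le.1 hsb).1
    have h2 := (abs_le.1 hu).1
    have h3 : |B * u| ≤ (ρ + 1 / 8) * (θ / 2) := by
      rw [abs_mul, abs_of_nonneg g5]
      exact mul_le_mul g6 hu hu0 (by linarith)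
    have h4 := (abs_le.1 h3).1
    have h5 : 1 / 8 * |u| ≤ 1 / 8 * (θ / 2) := by linarith
    have h6 : 0 ≤ (ρ - 1 / 8) * θ - (ρ + 1 / 8) * (θ / 2) - 1 / 8 * (θ / 2) := by
      have h7 : (ρ - 1 / 8) * θ - (ρ + 1 / 8) * (θ / 2) - 1 / 8 * (θ / 2) =
        (ρ / 2 - 1 / 4) * θ := by ring
      rw [h7]
      apply mul_nonneg _ hθ.le
      linarith only [hρ1]
    rw [hv]
    linarith only [h1, h4, h5, h6, g8]
  have hv2 : β + v ≤ β0 := by
    have h1 := (abs_le.1 hvb).2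
    have h2 : A * |u| ≤ A * θ := mul_le_mul_of_nonneg_left (by linarith only [hu, hθ]) hA0.le
    linarith only [h1, h2, g2]
  refine ⟨hv1, hv2, ?_⟩
  -- Taylor expansions
  have hβle : β ≤ 1 := hr1
  obtain ⟨t1, t2⟩ := momPoly_taylor (μ := μ) hμ0 K hv1
    (by linarith only [hv2, hβ1] : β + v ≤ 1) hr0 hβle
  have hu' := abs_le.1 hu
  have t3 := lap_taylor hν0 hνi (c := θ / 2) (q := β + θ) (w := u + v) (by linarith only [hθ])
    (by linarith only [hθ, hr0]) (by linarith only [hv1, hu'.1])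
  have eq1 : β + θ + (u + v) = β + v + (θ + u) := by ring
  rw [eq1] at t3
  have eq2 : β + v - β = v := by ring
  rw [eq2] at t1 t2
  have hv1' : |v| ≤ 1 := by
    have h1 : A * |u| ≤ A * θ := mul_le_mul_of_nonneg_left (by linarith only [hu, hθ]) hA0.le
    linarith only [h1, hvb, g2, hr0, hβ1]
  have hLip := lipschitz_lap hν0 hνi (q := β + v + (θ + u)) (q' := β + θ)
    (by linarith only [hv1, hu'.1, hθ]) (by linarith only [hθ, hr0])
  have eq3 : β + v + (θ + u) - (β + θ) = u + v := by ring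
  rw [eq3, ← hmdef] at hLip
  set P' := momPoly μ K (β + v)
  set L' := lap ν (β + v + (θ + u))
  set M := lap2 ν (θ / 2)
  have hM0 : 0 ≤ M := lap2_nonneg _
  set e1 := P' - P - P1 * v with he1
  set e2 := L' - L + (u + v) * L1 with he2
  have hexp : P' * L' - 1 - D * s = P * e2 + e1 * L + (P' - P) * (L' - L) := by
    have hPL : P * L = 1 := g1
    have h1 : D * s = D * v - D * B * u := by rw [hv]; ring
    rw [h1, hDB, hDdef, he1, he2]
    linear_combination hPL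
  rw [hexp]
  have hu2 : |u| * |u| = u ^ 2 := by rw [← abs_mul, ← sq, abs_of_nonneg (sq_nonneg u)]
  have hw2 : (u + v) ^ 2 ≤ (A + 1) ^ 2 * u ^ 2 := by
    calc (u + v) ^ 2 = |u + v| ^ 2 := (sq_abs _).symm
      _ ≤ ((A + 1) * |u|) ^ 2 := by gcongr
      _ = _ := by rw [mul_pow, sq_abs]
  have hv22 : v ^ 2 ≤ A ^ 2 * u ^ 2 := by
    calc v ^ 2 = |v| ^ 2 := (sq_abs _).symm
      _ ≤ (A * |u|) ^ 2 := by gcongr
      _ = _ := by rw [mul_pow, sq_abs]
  have b1 : |P * e2| ≤ 2 * ((A + 1) ^ 2 * u ^ 2 * M) := by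
    rw [abs_mul, abs_of_nonneg (by linarith only [hPge] : 0 ≤ P)]
    calc P * |e2| ≤ 2 * ((u + v) ^ 2 * M) := mul_le_mul g7 t3 (abs_nonneg _) (by norm_num)
      _ ≤ 2 * ((A + 1) ^ 2 * u ^ 2 * M) := by gcongr
  have b2 : |e1 * L| ≤ C * (A ^ 2 * u ^ 2) := by
    rw [abs_mul, abs_of_nonneg t1, abs_of_nonneg hLnn]
    calc e1 * L ≤ e1 * 1 := mul_le_mul_of_nonneg_left hLle t1
      _ = e1 := mul_one _
      _ ≤ C * v ^ 2 := t2
      _ ≤ _ := by gcongr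
  have b3 : |P' - P| ≤ 2 * C * (A * |u|) := by
    have h1 : P' - P = P1 * v + e1 := by rw [he1]; ring
    have h2 : C * v ^ 2 ≤ C * |v| := by
      apply mul_le_mul_of_nonneg_left _ hC
      rw [← sq_abs]
      nlinarith only [abs_nonneg v, hv1']
    have h3 : 0 ≤ P1 := by linarith only [hP1', hgt', hm0]
    calc |P' - P| ≤ |P1 * v| + |e1| := by rw [h1]; exact abs_add_le _ _
      _ = P1 * |v| + e1 := by rw [abs_mul, abs_of_nonneg h3, abs_of_nonneg t1]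
      _ ≤ C * |v| + C * |v| := by
          have := mul_le_mul_of_nonneg_right hP1 (abs_nonneg v)
          linarith only [this, h2, t2]
      _ = 2 * C * |v| := by ring
      _ ≤ _ := by gcongr
  have b4 : |L' - L| ≤ m * ((A + 1) * |u|) :=
    hLip.trans (mul_le_mul_of_nonneg_left hwb hm0)
  have b5 : |(P' - P) * (L' - L)| ≤ 2 * C * A * (m * (A + 1)) * u ^ 2 := by
    rw [abs_mul]
    calc |P' - P| * |L' - L| ≤ (2 * C * (A * |u|)) * (m * ((A + 1) * |u|)) :=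
          mul_le_mul b3 b4 (abs_nonneg _) (by positivity)
      _ = 2 * C * A * (m * (A + 1)) * (|u| * |u|) := by ring
      _ = _ := by rw [hu2]
  have b6 : |P * e2 + e1 * L + (P' - P) * (L' - L)| ≤
      (2 * (A + 1) ^ 2 * M + (C * A ^ 2 + 2 * C * A * (m * (A + 1)))) * u ^ 2 := by
    calc |P * e2 + e1 * L + (P' - P) * (L' - L)|
        ≤ |P * e2| + |e1 * L| + |(P' - P) * (L' - L)| := abs_add_three _ _ _
      _ ≤ 2 * ((A + 1) ^ 2 * u ^ 2 * M) + C * (A ^ 2 * u ^ 2) +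
          2 * C * A * (m * (A + 1)) * u ^ 2 := by linarith only [b1, b2, b5]
      _ = _ := by ring
  refine b6.trans ?_
  have b7 : 2 * (A + 1) ^ 2 * M + (C * A ^ 2 + 2 * C * A * (m * (A + 1))) ≤
      (E - m) / 4 * ω / θ := by
    rw [le_div_iff₀ hθ]
    linarith only [g3]
  calc (2 * (A + 1) ^ 2 * M + (C * A ^ 2 + 2 * C * A * (m * (A + 1)))) * u ^ 2
      ≤ (E - m) / 4 * ω / θ * u ^ 2 := mul_le_mul_of_nonneg_right b7 (sq_nonneg u)
    _ = _ := by ring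

end

end BetaAux

section stoch

variable {a : ℝ} {μ ν : Measure ℝ} [IsProbabilityMeasure μ] [IsProbabilityMeasure ν]

open BetaAux

theorem beta_expand (ha0 : 0 < a) (ha1 : a < 1)
    (hμ : ∀ x, 0 ≤ x → μ (Set.Ioi x) = ENNReal.ofReal (Real.exp (-(x ^ a))))
    (hν : ν (Set.Iio 0) = 0) (hνi : Integrable (fun t : ℝ => t) ν)
    (hm : 0 < ∫ t, t ∂ν)
    (hgt : (∫ t, t ∂ν) < ∫ s, s ∂μ) (hlt : (∫ s, s ∂μ) < 2 * ∫ t, t ∂ν)
    {K : ℕ} (hK : 1 ≤ K) :
    ∃ β1 : ℝ → ℝ, ∀ ω : ℝ, 0 < ω → ∃ θ0 : ℝ, 0 < θ0 ∧ ∀ θ, 0 < θ → θ < θ0 →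
      ∀ u : ℝ, |u| ≤ θ / 2 →
        |cramerRoot μ ν K (θ + u) - cramerRoot μ ν K θ - β1 θ * u| ≤ ω / θ * u ^ 2 := by
  have hμ0 := ae_mu_nonneg ha0 hμ
  have hν0 := ae_nonneg hν
  obtain ⟨β0, hb0, hb1, hsl, hev⟩ := basic hμ0 hν0 hνi hgt hlt hK
  have hlim := beta_limit ha0 ha1 hμ hν hνi hm hgt hlt hK
  have hgt' : 0 < (∫ s, s ∂μ) - ∫ t, t ∂ν := by linarith
  have hval : (∫ s, s ∂μ) / ((∫ s, s ∂μ) - ∫ t, t ∂ν) - 1 =
      (∫ t, t ∂ν) / ((∫ s, s ∂μ) - ∫ t, t ∂ν) := by field_simp; ring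
  rw [hval] at hlim
  refine ⟨bB μ ν K, ?_⟩
  intro ω hω
  -- reduce to small ω
  set ω' := min ω (1 / 4) with hω'
  have hω'0 : 0 < ω' := by positivity
  have hcore := expand_core hμ0 hν0 hνi hgt hlt hK hlim hb0 hb1
    (hev.mono fun θ h => h.2.2.2) hω'0 (min_le_right _ _)
  have hbD := bD_bB hμ0 hν0 hνi hgt hK hlim
    (r := (∫ t, t ∂ν) / ((∫ s, s ∂μ) - ∫ t, t ∂ν) + 1) (by linarith)
  obtain ⟨θ1, hθ1, h1⟩ := (mem_nhdsGT_iff_exists_Ioo_subset).1 hev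
  have hθ1 : 0 < θ1 := hθ1
  obtain ⟨θ2, hθ2, h2⟩ := (mem_nhdsGT_iff_exists_Ioo_subset).1 hcore
  have hθ2 : 0 < θ2 := hθ2
  obtain ⟨θ3, hθ3, h3⟩ := (mem_nhdsGT_iff_exists_Ioo_subset).1 hbD
  have hθ3 : 0 < θ3 := hθ3
  refine ⟨min (θ1 / 2) (min θ2 θ3), by positivity, ?_⟩
  intro θ hθ0 hθ u hu
  have k1 : θ < θ1 / 2 := hθ.trans_le (min_le_left _ _)
  have k2 : θ < θ2 := hθ.trans_le ((min_le_right _ _).trans (min_le_left _ _))
  have k3 : θ < θ3 := hθ.trans_le ((min_le_right _ _).trans (min_le_right _ _))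
  have hu' := abs_le.1 hu
  rcases eq_or_ne u 0 with rfl | hu0
  · simp
  have hu2 : 0 < u ^ 2 := by positivity
  obtain ⟨a1, a2, a3, a4⟩ := h1 (⟨by linarith, by linarith⟩ : θ + u ∈ Set.Ioo 0 θ1)
  obtain ⟨d1, -, -, -⟩ := h3 (⟨hθ0, k3⟩ : θ ∈ Set.Ioo 0 θ3)
  have c := h2 (⟨hθ0, k2⟩ : θ ∈ Set.Ioo 0 θ2) u hu
  set σ := ω' / θ * u ^ 2 with hσ
  have hσ0 : 0 < σ := by positivity
  have hσle : σ ≤ ω / θ * u ^ 2 := by
    rw [hσ]
    have : ω' ≤ ω := min_le_left _ _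
    gcongr
  obtain ⟨p1, p2, p3⟩ := c σ (abs_of_pos hσ0)
  obtain ⟨m1, m2, m3⟩ := c (-σ) (by rw [abs_neg, abs_of_pos hσ0])
  have up : cramerRoot μ ν K (θ + u) ≤ cramerRoot μ ν K θ + (bB μ ν K θ * u + σ) := by
    apply root_le p1
    have := (abs_le.1 p3).1
    have : ((∫ s, s ∂μ) - ∫ t, t ∂ν) / 2 * σ ≤ bD μ ν K θ * σ :=
      mul_le_mul_of_nonneg_right d1 hσ0.le
    have : 0 ≤ ((∫ s, s ∂μ) - ∫ t, t ∂ν) / 4 * σ := by positivity
    linarith
  have low : cramerRoot μ ν K θ + (bB μ ν K θ * u + -σ) ≤ cramerRoot μ ν K (θ + u) := by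
    by_contra hcon
    push Not at hcon
    have hF := hsl (θ + u) _ _ (by linarith) a1 (cramerRoot_nonneg K (θ + u)) hcon.le m2
    rw [a4] at hF
    have h4 : 0 ≤ ((∫ s, s ∂μ) - ∫ t, t ∂ν) / 2 *
        (cramerRoot μ ν K θ + (bB μ ν K θ * u + -σ) - cramerRoot μ ν K (θ + u)) := by
      apply mul_nonneg (by linarith) (by linarith)
    have h5 := (abs_le.1 m3).2
    have h6 : ((∫ s, s ∂μ) - ∫ t, t ∂ν) / 2 * σ ≤ bD μ ν K θ * σ :=
      mul_le_mul_of_nonneg_right d1 hσ0.le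
    have h7 : 0 < ((∫ s, s ∂μ) - ∫ t, t ∂ν) / 4 * σ := by positivity
    linarith
  rw [abs_le]
  constructor <;> linarith

end stoch

end Pool.Agent.Lib.MP_04add8_pr
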