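import Mathlib
import Pool.Agent.Lib.MP_04add8_pr.One.Defs

open MeasureTheory ProbabilityTheory Filter Topology
open scoped ENNReal

set_option linter.unusedSectionVars false

namespace Pool.Agent.Lib.MP_04add8_pr

namespace DetL

/-- the invariant -/
def Inv (e a r : ℝ) (v : ℝ × ℝ) : Prop :=
  (v = (r, a) ∧ 0 ≤ r ∧ r ≤ a) ∨ (v.2 ≤ v.1 + e ∧ a + r ≤ v.1 + v.2 ∧ a ≤ v.2)

lemma inv_step {e a r s t : ℝ} {v : ℝ × ℝ} (h1 : v.1 ≤ v.2) (hs : 0 ≤ s)
    (hse : s ≤ e) (h : Inv e a r v) :
    Inv e (a - t) (max (r + s - t) 0) (kwStep v s t) := by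
  rcases h with ⟨hv, hr, hra⟩ | ⟨hd, hsum, ha⟩
  · subst hv
    by_cases hc : max (r + s - t) 0 ≤ a - t
    · left
      have h0 : 0 ≤ a - t := le_trans (le_max_right _ _) hc
      refine ⟨?_, le_max_right _ _, hc⟩
      unfold kwStep
      simp only
      rw [max_eq_left h0, min_eq_left hc, max_eq_right hc]
    · right
      push Not at hc
      have hc' : max (a - t) 0 ≤ max (r + s - t) 0 := max_le hc.le (le_max_right _ _)
      unfold kwStep
      simp only
      rw [min_eq_right hc', max_eq_left hc']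
      refine ⟨?_, ?_, hc.le⟩
      · refine max_le ?_ ?_
        · have := le_max_left (a - t) 0
          linarith
        · have := le_max_right (a - t) 0
          linarith
      · have := le_max_left (a - t) 0
        linarith
  · right
    unfold kwStep
    simp only
    refine ⟨?_, ?_, ?_⟩
    · have k1 : max (v.1 + s - t) 0 ≤ max (v.2 - t) 0 + e := by
        refine max_le ?_ ?_
        · have := le_max_left (v.2 - t) 0
          linarith
        · have := le_max_right (v.2 - t) 0
          linarith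
      have k2 : max (v.2 - t) 0 ≤ max (v.1 + s - t) 0 + e := by
        refine max_le ?_ ?_
        · have := le_max_left (v.1 + s - t) 0
          linarith
        · have := le_max_right (v.1 + s - t) 0
          linarith
      rcases le_total (max (v.1 + s - t) 0) (max (v.2 - t) 0) with h | h
      · rw [max_eq_right h, min_eq_left h]; exact k2
      · rw [max_eq_left h, min_eq_right h]; exact k1
    · rw [min_add_max]
      have k1 := le_max_left (v.1 + s - t) 0
      have k2 := le_max_left (v.2 - t) 0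
      have k3 := le_max_right (v.1 + s - t) 0
      have k4 : max (r + s - t) 0 ≤ max (v.1 + s - t) 0 + max (v.2 - t) 0 - (a - t) := by
        refine max_le ?_ ?_
        · linarith
        · linarith
      linarith
    · have k2 := le_max_left (v.2 - t) 0
      have k3 := le_max_right (max (v.1 + s - t) 0) (max (v.2 - t) 0)
      linarith

end DetL

theorem det_one_lower {x e : ℝ} (hx : 0 ≤ x) (he : 0 ≤ e) {w : ℝ × ℝ} (h0 : 0 ≤ w.1)
    (h1 : w.1 ≤ w.2) {p : ℝ × ℝ} (hp : 0 ≤ p.1 ∧ 0 ≤ p.2) {z : ℕ → ℝ × ℝ}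
    (hz : ∀ k, 0 ≤ (z k).1 ∧ 0 ≤ (z k).2) (n : ℕ) (hze : ∀ k < n, (z k).1 ≤ e)
    (hr : x < reflW 0 z n) (hy : 2 * x + e + p.2 + sumA z n - reflW 0 z n < p.1) :
    x < (pIter (kwStep w p.1 p.2) z n).1 := by
  set v := kwStep ((0, 0) : ℝ × ℝ) p.1 p.2 with hv
  have v0 : 0 ≤ v.1 := kwStep_fst_nonneg _ _ _
  have v1 : v.1 ≤ v.2 := kwStep_fst_le_snd _ _ _
  have hle : v ≤ kwStep w p.1 p.2 := kwStep_mono (Prod.mk_le_mk.mpr ⟨h0, h0.trans h1⟩) _ _
  have hmono := pIter_mono hle z n
  refine lt_of_lt_of_le ?_ hmono.1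
  have hinv : ∀ k, k ≤ n → DetL.Inv e (p.1 - p.2 - sumA z k) (reflW 0 z k) (pIter v z k) := by
    intro k
    induction k with
    | zero =>
      intro _
      have hs0 : sumA z 0 = 0 := by simp [sumA]
      rw [pIter_zero, reflW_zero, hs0, sub_zero]
      have hvv : v = (min (max (0 + p.1 - p.2) 0) (max (0 - p.2) 0),
        max (max (0 + p.1 - p.2) 0) (max (0 - p.2) 0)) := rfl
      have hb : max (0 - p.2) 0 = 0 := max_eq_right (by linarith [hp.2])
      rw [hb, zero_add, min_eq_right (le_max_right _ _), max_eq_left (le_max_right _ _)] at hvv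
      by_cases hc : 0 ≤ p.1 - p.2
      · left
        refine ⟨?_, le_rfl, hc⟩
        rw [hvv, max_eq_left hc]
      · right
        push Not at hc
        rw [hvv, max_eq_right hc.le]
        refine ⟨?_, ?_, ?_⟩ <;> simp <;> linarith
    | succ k ih =>
      intro hk
      have h3 := ih (by omega)
      have h4 := DetL.inv_step (s := (z k).1) (t := (z k).2) (pIter_ordered v0 v1 z k).2
        (hz k).1 (hze k (by omega)) h3
      rw [pIter_succ, reflW_succ, sumA_succ]
      have h5 : p.1 - p.2 - (sumA z k + (z k).2) = p.1 - p.2 - sumA z k - (z k).2 := by ring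
      rw [h5]
      exact h4
  rcases hinv n le_rfl with ⟨h3, -, -⟩ | ⟨h3, h4, -⟩
  · rw [h3]; exact hr
  · linarith

end Pool.Agent.Lib.MP_04add8_pr
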