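import Mathlib
import Pool.Agent.Lib.MP_04add8_pr.One.Defs

open MeasureTheory ProbabilityTheory Filter Topology
open scoped ENNReal

set_option linter.unusedSectionVars false

namespace Pool.Agent.Lib.MP_04add8_pr

namespace DetU

lemma fst_step {w : ℝ × ℝ} {s t r : ℝ} (h : w.1 ≤ r) :
    (kwStep w s t).1 ≤ max (r + s - t) 0 := by
  unfold kwStep
  exact (min_le_left _ _).trans (max_le_max (by linarith) le_rfl)

lemma snd_step {w : ℝ × ℝ} {s t e a : ℝ} (h1 : w.1 ≤ w.2) (hs : 0 ≤ s) (hse : s ≤ e)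
    (he : 0 ≤ e) (h : w.2 ≤ max a (w.1 + e)) :
    (kwStep w s t).2 ≤ max (a - t) ((kwStep w s t).1 + e) := by
  unfold kwStep
  simp only
  have k1 : w.1 - t ≤ min (max (w.1 + s - t) 0) (max (w.2 - t) 0) := by
    refine le_min ?_ ?_
    · exact le_trans (by linarith) (le_max_left _ _)
    · exact le_trans (by linarith) (le_max_left _ _)
  have k0 : 0 ≤ min (max (w.1 + s - t) 0) (max (w.2 - t) 0) :=
    le_min (le_max_right _ _) (le_max_right _ _)
  set m := min (max (w.1 + s - t) 0) (max (w.2 - t) 0) with hm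
  refine max_le (max_le ?_ ?_) (max_le ?_ ?_)
  · exact le_trans (by linarith) (le_max_right _ _)
  · exact le_trans (by linarith) (le_max_right _ _)
  · rcases le_max_iff.mp h with h' | h'
    · exact le_trans (by linarith) (le_max_left _ _)
    · exact le_trans (by linarith) (le_max_right _ _)
  · exact le_trans (by linarith) (le_max_right _ _)

lemma sum_step {w : ℝ × ℝ} {s t e a r : ℝ} (he : 0 ≤ e)
    (hsum : w.1 + w.2 ≤ a + r)
    (hb : (kwStep w s t).2 ≤ max (a - t) ((kwStep w s t).1 + e))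
    (hbig : e < (kwStep w s t).2) :
    (kwStep w s t).1 + (kwStep w s t).2 ≤ a - t + max (r + s - t) 0 := by
  have hr0 : 0 ≤ max (r + s - t) 0 := le_max_right _ _
  have hr1 : r + s - t ≤ max (r + s - t) 0 := le_max_left _ _
  by_cases hpos : (kwStep w s t).1 ≤ 0
  · have h0 : (kwStep w s t).1 = 0 := le_antisymm hpos (kwStep_fst_nonneg _ _ _)
    rw [h0, zero_add] at hb ⊢
    rcases le_max_iff.mp hb with h' | h'
    · linarith
    · linarith
  · push Not at hpos
    unfold kwStep at hpos ⊢
    simp only at hpos ⊢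
    rw [lt_min_iff] at hpos
    have e1 : max (w.1 + s - t) 0 = w.1 + s - t := by
      rcases lt_max_iff.mp hpos.1 with h' | h'
      · exact max_eq_left h'.le
      · exact absurd h' (lt_irrefl _)
    have e2 : max (w.2 - t) 0 = w.2 - t := by
      rcases lt_max_iff.mp hpos.2 with h' | h'
      · exact max_eq_left h'.le
      · exact absurd h' (lt_irrefl _)
    rw [e1, e2, min_add_max]
    linarith

end DetU

theorem det_one_upper {x e : ℝ} (hx : 0 ≤ x) (he : 0 ≤ e) {w : ℝ × ℝ} (h0 : 0 ≤ w.1)
    (h1 : w.1 ≤ w.2) (h2 : w.2 ≤ e) {p : ℝ × ℝ} (hp : 0 ≤ p.1 ∧ 0 ≤ p.2) {z : ℕ → ℝ × ℝ}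
    (hz : ∀ k, 0 ≤ (z k).1 ∧ 0 ≤ (z k).2) (n : ℕ) (hze : ∀ k < n, (z k).1 ≤ e)
    (hW : x < (pIter (kwStep w p.1 p.2) z n).1) :
    x < reflW w.2 z n ∧
      (2 * x + sumA z n - w.1 - reflW w.2 z n < p.1 ∨
        ∃ k ≤ n, (pIter (kwStep w p.1 p.2) z k).2 ≤ e) := by
  set v := kwStep w p.1 p.2 with hv
  have v0 : 0 ≤ v.1 := kwStep_fst_nonneg _ _ _
  have v1 : v.1 ≤ v.2 := kwStep_fst_le_snd _ _ _
  -- (a)
  have ha : ∀ k, (pIter v z k).1 ≤ reflW w.2 z k := by
    intro k
    induction k with
    | zero =>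
      rw [pIter_zero, reflW_zero, hv]
      unfold kwStep
      refine (min_le_right _ _).trans (max_le ?_ ?_)
      · linarith [hp.2]
      · linarith
    | succ k ih =>
      rw [pIter_succ, reflW_succ]
      exact DetU.fst_step ih
  have hxr : x < reflW w.2 z n := lt_of_lt_of_le hW (ha n)
  refine ⟨hxr, ?_⟩
  by_contra hcon
  push Not at hcon
  obtain ⟨hc1, hc2⟩ := hcon
  -- (b)
  have hb : ∀ k, k ≤ n → (pIter v z k).2 ≤ max (p.1 + w.1 - p.2 - sumA z k) ((pIter v z k).1 + e) := by
    intro k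
    induction k with
    | zero =>
      intro _
      have hs0 : sumA z 0 = 0 := by simp [sumA]
      rw [pIter_zero, hs0, sub_zero]
      have : v.2 = max (max (w.1 + p.1 - p.2) 0) (max (w.2 - p.2) 0) := rfl
      rw [this]
      refine max_le (max_le ?_ ?_) (max_le ?_ ?_)
      · exact le_trans (by linarith) (le_max_left _ _)
      · exact le_trans (by linarith) (le_max_right _ _)
      · exact le_trans (by linarith [hp.2]) (le_max_right _ _)
      · exact le_trans (by linarith) (le_max_right _ _)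
    | succ k ih =>
      intro hk
      have h3 := ih (by omega)
      have h4 := DetU.snd_step (s := (z k).1) (t := (z k).2) (pIter_ordered v0 v1 z k).2 (hz k).1
        (hze k (by omega)) he h3
      rw [pIter_succ, sumA_succ]
      refine h4.trans (le_of_eq ?_)
      congr 1
      ring
  -- (c)
  have hc : ∀ k, k ≤ n → (pIter v z k).1 + (pIter v z k).2 ≤
      p.1 + w.1 - p.2 - sumA z k + reflW w.2 z k := by
    intro k
    induction k with
    | zero =>
      intro hk
      have h3 := hc2 0 hk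
      have hs0 : sumA z 0 = 0 := by simp [sumA]
      rw [pIter_zero] at h3 ⊢
      rw [hs0, reflW_zero]
      have hv2 : v.2 = max (max (w.1 + p.1 - p.2) 0) (max (w.2 - p.2) 0) := rfl
      have hv1 : v.1 = min (max (w.1 + p.1 - p.2) 0) (max (w.2 - p.2) 0) := rfl
      have h4 : max (w.2 - p.2) 0 ≤ e := max_le (by linarith [hp.2]) he
      have h5 : max (w.2 - p.2) 0 ≤ w.2 := max_le (by linarith [hp.2]) (by linarith)
      rw [hv2] at h3
      rcases lt_max_iff.mp h3 with h6 | h6
      · rcases lt_max_iff.mp h6 with h7 | h7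
        · rw [hv1, hv2, min_add_max, max_eq_left (by linarith : (0:ℝ) ≤ w.1 + p.1 - p.2)]
          linarith
        · linarith
      · linarith
    | succ k ih =>
      intro hk
      have h3 := ih (by omega)
      have h4 := hb (k + 1) hk
      have h5 := hc2 (k + 1) hk
      rw [pIter_succ, sumA_succ] at h4
      rw [pIter_succ] at h5 ⊢
      rw [sumA_succ, reflW_succ]
      have h6 := DetU.sum_step (w := pIter v z k) (s := (z k).1) (t := (z k).2)
        (a := p.1 + w.1 - p.2 - sumA z k) (r := reflW w.2 z k) he h3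
        (h4.trans (le_of_eq (by congr 1; ring))) h5
      linarith
  have h3 := hc n le_rfl
  have h4 := (pIter_ordered v0 v1 z n).2
  have h5 := hp.2
  linarith

end Pool.Agent.Lib.MP_04add8_pr
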