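import Mathlib
import Pool.Agent.Lib.MP_04add8_pr.One.Defs

/-!
# MP_04add8_pr, module Rev: separating the last step of the reflected walk
-/

open MeasureTheory ProbabilityTheory Filter Topology
open scoped ENNReal

set_option linter.unusedSectionVars false

namespace Pool.Agent.Lib.MP_04add8_pr

section stoch

variable {a : ℝ} {μ ν : Measure ℝ} [IsProbabilityMeasure μ] [IsProbabilityMeasure ν]

/-- discounted expectation of a function of the reflected walk -/
noncomputable def revJ (μ ν : Measure ℝ) [IsProbabilityMeasure μ] [IsProbabilityMeasure ν]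
    (B θ : ℝ) (n : ℕ) (F : ℝ → ℝ≥0∞) (r : ℝ) : ℝ≥0∞ :=
  ∫⁻ z, (allLe B n).indicator (fun _ => (1 : ℝ≥0∞)) z *
    (ENNReal.ofReal (Real.exp (-(θ * sumA z n))) * F (reflW r z n)) ∂(noise μ ν)

/-- one step of the discounted reflected walk -/
noncomputable def revP (μ ν : Measure ℝ) [IsProbabilityMeasure μ] [IsProbabilityMeasure ν]
    (B θ : ℝ) (F : ℝ → ℝ≥0∞) (r : ℝ) : ℝ≥0∞ :=
  ∫⁻ p, (Set.Iic B).indicator (fun _ => (1 : ℝ≥0∞)) p.1 *
    ENNReal.ofReal (Real.exp (-(θ * p.2))) * F (max (r + p.1 - p.2) 0) ∂(μ.prod ν)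

lemma rev_meas_sumA (n : ℕ) : Measurable (fun z : ℕ → ℝ × ℝ => sumA z n) := by
  unfold sumA
  fun_prop

lemma rev_meas_ind (B : ℝ) (n : ℕ) :
    Measurable (fun z : ℕ → ℝ × ℝ => (allLe B n).indicator (fun _ => (1 : ℝ≥0∞)) z) :=
  measurable_const.indicator (measurableSet_allLe B n)

lemma rev_meas_g (B θ : ℝ) : Measurable (fun p : ℝ × ℝ =>
    (Set.Iic B).indicator (fun _ => (1 : ℝ≥0∞)) p.1 * ENNReal.ofReal (Real.exp (-(θ * p.2)))) := by
  apply Measurable.mul
  · exact (measurable_const.indicator measurableSet_Iic).comp measurable_fst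
  · fun_prop

lemma revJ_integrand_meas (B θ : ℝ) (n : ℕ) {F : ℝ → ℝ≥0∞} (hF : Measurable F) :
    Measurable (fun q : ℝ × (ℕ → ℝ × ℝ) =>
      (allLe B n).indicator (fun _ => (1 : ℝ≥0∞)) q.2 *
        (ENNReal.ofReal (Real.exp (-(θ * sumA q.2 n))) * F (reflW q.1 q.2 n))) := by
  have h1 : Measurable (fun q : ℝ × (ℕ → ℝ × ℝ) =>
      (allLe B n).indicator (fun _ => (1 : ℝ≥0∞)) q.2) := (rev_meas_ind B n).comp measurable_snd
  have h2 : Measurable (fun q : ℝ × (ℕ → ℝ × ℝ) =>
      ENNReal.ofReal (Real.exp (-(θ * sumA q.2 n)))) := by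
    have : Measurable (fun q : ℝ × (ℕ → ℝ × ℝ) => sumA q.2 n) :=
      (rev_meas_sumA n).comp measurable_snd
    exact (Real.measurable_exp.comp ((measurable_const.mul this).neg)).ennreal_ofReal
  exact h1.mul (h2.mul (hF.comp (measurable_reflW n)))

lemma revJ_meas (B θ : ℝ) (n : ℕ) {F : ℝ → ℝ≥0∞} (hF : Measurable F) :
    Measurable (revJ μ ν B θ n F) := by
  unfold revJ
  exact Measurable.lintegral_prod_right' (revJ_integrand_meas B θ n hF)

lemma revP_integrand_meas (B θ : ℝ) {F : ℝ → ℝ≥0∞} (hF : Measurable F) :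
    Measurable (fun q : ℝ × (ℝ × ℝ) => (Set.Iic B).indicator (fun _ => (1 : ℝ≥0∞)) q.2.1 *
      ENNReal.ofReal (Real.exp (-(θ * q.2.2))) * F (max (q.1 + q.2.1 - q.2.2) 0)) := by
  have h1 : Measurable (fun q : ℝ × (ℝ × ℝ) =>
      (Set.Iic B).indicator (fun _ => (1 : ℝ≥0∞)) q.2.1 *
        ENNReal.ofReal (Real.exp (-(θ * q.2.2)))) := (rev_meas_g B θ).comp measurable_snd
  have h2 : Measurable (fun q : ℝ × (ℝ × ℝ) => max (q.1 + q.2.1 - q.2.2) 0) := by fun_prop
  exact h1.mul (hF.comp h2)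

lemma revP_meas (B θ : ℝ) {F : ℝ → ℝ≥0∞} (hF : Measurable F) :
    Measurable (revP μ ν B θ F) := by
  unfold revP
  exact Measurable.lintegral_prod_right' (revP_integrand_meas B θ hF)

lemma revJ_zero (B θ : ℝ) (F : ℝ → ℝ≥0∞) (r : ℝ) : revJ μ ν B θ 0 F r = F r := by
  unfold revJ
  have h : ∀ z : ℕ → ℝ × ℝ, (allLe B 0).indicator (fun _ => (1 : ℝ≥0∞)) z *
      (ENNReal.ofReal (Real.exp (-(θ * sumA z 0))) * F (reflW r z 0)) = F r := by
    intro z
    have hz : z ∈ allLe B 0 := fun i hi => absurd hi (Nat.not_lt_zero i)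
    rw [Set.indicator_of_mem hz]
    simp [sumA, reflW_zero]
  simp only [h, lintegral_const, measure_univ, mul_one]

lemma revJ_succ (B θ : ℝ) (n : ℕ) {F : ℝ → ℝ≥0∞} (hF : Measurable F) (r : ℝ) :
    revJ μ ν B θ (n + 1) F r = revP μ ν B θ (revJ μ ν B θ n F) r := by
  have hm : Measurable (fun z : ℕ → ℝ × ℝ =>
      (allLe B (n + 1)).indicator (fun _ => (1 : ℝ≥0∞)) z *
        (ENNReal.ofReal (Real.exp (-(θ * sumA z (n + 1)))) * F (reflW r z (n + 1)))) :=
    (revJ_integrand_meas B θ (n + 1) hF).comp (measurable_const.prodMk measurable_id)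
  unfold revJ revP
  rw [lintegral_noise_cons hm]
  apply lintegral_congr
  intro p
  have hm2 : Measurable (fun z : ℕ → ℝ × ℝ =>
      (allLe B n).indicator (fun _ => (1 : ℝ≥0∞)) z *
        (ENNReal.ofReal (Real.exp (-(θ * sumA z n))) *
          F (reflW (max (r + p.1 - p.2) 0) z n))) :=
    (revJ_integrand_meas B θ n hF).comp (measurable_const.prodMk measurable_id)
  rw [← lintegral_const_mul _ hm2]
  apply lintegral_congr
  intro z
  rw [sumA_gcons, reflW_gcons]
  have h1 : (allLe B (n + 1)).indicator (fun _ => (1 : ℝ≥0∞)) (gcons p z) =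
      (Set.Iic B).indicator (fun _ => (1 : ℝ≥0∞)) p.1 *
        (allLe B n).indicator (fun _ => (1 : ℝ≥0∞)) z := by
    by_cases hp : p.1 ≤ B
    · by_cases hz : z ∈ allLe B n
      · rw [Set.indicator_of_mem ((gcons_mem_allLe B n p z).2 ⟨hp, hz⟩),
          Set.indicator_of_mem (Set.mem_Iic.2 hp), Set.indicator_of_mem hz, one_mul]
      · rw [Set.indicator_of_notMem (fun h => hz ((gcons_mem_allLe B n p z).1 h).2),
          Set.indicator_of_notMem hz, mul_zero]
    · rw [Set.indicator_of_notMem (fun h => hp ((gcons_mem_allLe B n p z).1 h).1),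
        Set.indicator_of_notMem (fun h => hp (Set.mem_Iic.1 h)), zero_mul]
  have h2 : ENNReal.ofReal (Real.exp (-(θ * (p.2 + sumA z n)))) =
      ENNReal.ofReal (Real.exp (-(θ * p.2))) * ENNReal.ofReal (Real.exp (-(θ * sumA z n))) := by
    rw [← ENNReal.ofReal_mul (Real.exp_nonneg _), ← Real.exp_add]
    congr 2
    ring
  rw [h1, h2]
  ring

lemma revJ_last (B θ : ℝ) (n : ℕ) {F : ℝ → ℝ≥0∞} (hF : Measurable F) (r : ℝ) :
    revJ μ ν B θ (n + 1) F r = revJ μ ν B θ n (revP μ ν B θ F) r := by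
  induction n generalizing r with
  | zero =>
    rw [revJ_succ B θ 0 hF, revJ_zero]
    have : revJ μ ν B θ 0 F = F := funext (fun r => revJ_zero B θ F r)
    rw [this]
  | succ n ih =>
    rw [revJ_succ B θ (n + 1) hF, revJ_succ B θ n (revP_meas B θ hF)]
    have : revJ μ ν B θ (n + 1) F = revJ μ ν B θ n (revP μ ν B θ F) := funext (fun r => ih r)
    rw [this]

/-- the function `1(y < r) exp(θ (r - y))` -/
noncomputable def revF (θ y r : ℝ) : ℝ≥0∞ :=
  if y < r then ENNReal.ofReal (Real.exp (θ * (r - y))) else 0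

lemma revF_meas2 (θ : ℝ) : Measurable (fun q : ℝ × ℝ => revF θ q.1 q.2) := by
  unfold revF
  apply Measurable.ite (measurableSet_lt measurable_fst measurable_snd) _ measurable_const
  fun_prop

lemma revF_meas (θ y : ℝ) : Measurable (revF θ y) :=
  (revF_meas2 θ).comp (measurable_const.prodMk measurable_id)

lemma lvl_eq_revJ (B θ : ℝ) (n : ℕ) (y : ℝ) :
    lvl μ ν B θ n y = revJ μ ν B θ n (revF θ y) 0 := by
  unfold lvl revJ
  apply lintegral_congr
  intro z
  by_cases hz : z ∈ allLe B n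
  · rw [Set.indicator_of_mem hz, Set.indicator_of_mem hz, one_mul]
    unfold revF
    split_ifs with h
    · rw [← ENNReal.ofReal_mul (Real.exp_nonneg _), ← Real.exp_add]
      congr 2
      ring
    · rw [mul_zero]
  · rw [Set.indicator_of_notMem hz, Set.indicator_of_notMem hz, zero_mul]

theorem measurable_lvl (B θ : ℝ) (n : ℕ) : Measurable (fun y : ℝ => lvl μ ν B θ n y) := by
  simp only [lvl_eq_revJ]
  unfold revJ
  apply Measurable.lintegral_prod_right' (f := fun q : ℝ × (ℕ → ℝ × ℝ) =>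
    (allLe B n).indicator (fun _ => (1 : ℝ≥0∞)) q.2 *
      (ENNReal.ofReal (Real.exp (-(θ * sumA q.2 n))) * revF θ q.1 (reflW 0 q.2 n)))
  have h1 : Measurable (fun q : ℝ × (ℕ → ℝ × ℝ) =>
      (allLe B n).indicator (fun _ => (1 : ℝ≥0∞)) q.2) := (rev_meas_ind B n).comp measurable_snd
  have h2 : Measurable (fun q : ℝ × (ℕ → ℝ × ℝ) =>
      ENNReal.ofReal (Real.exp (-(θ * sumA q.2 n)))) := by
    have : Measurable (fun q : ℝ × (ℕ → ℝ × ℝ) => sumA q.2 n) :=
      (rev_meas_sumA n).comp measurable_snd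
    exact (Real.measurable_exp.comp ((measurable_const.mul this).neg)).ennreal_ofReal
  have h3 : Measurable (fun q : ℝ × (ℕ → ℝ × ℝ) => revF θ q.1 (reflW 0 q.2 n)) :=
    (revF_meas2 θ).comp (measurable_fst.prodMk ((measurable_reflW_right 0 n).comp measurable_snd))
  exact h1.mul (h2.mul h3)

lemma revF_max {θ y : ℝ} (hy : 0 ≤ y) (v : ℝ) : revF θ y (max v 0) = revF θ y v := by
  unfold revF
  rcases le_total v 0 with h | h
  · rw [max_eq_right h, if_neg (not_lt.2 hy), if_neg (not_lt.2 (h.trans hy))]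
  · rw [max_eq_left h]

lemma revF_shift (θ y r d : ℝ) : revF θ y (r + d) = revF θ (y - d) r := by
  unfold revF
  have h1 : y < r + d ↔ y - d < r := by constructor <;> intro h <;> linarith
  simp only [h1]
  have h2 : r + d - y = r - (y - d) := by ring
  rw [h2]

theorem lvl_succ (B θ : ℝ) (n : ℕ) {y : ℝ} (hy : 0 ≤ y) :
    lvl μ ν B θ (n + 1) y =
      ∫⁻ p, (Set.Iic B).indicator (fun _ => (1 : ℝ≥0∞)) p.1 *
        ENNReal.ofReal (Real.exp (-(θ * p.2))) * lvl μ ν B θ n (y - (p.1 - p.2)) ∂(μ.prod ν) := by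
  rw [lvl_eq_revJ, revJ_last B θ n (revF_meas θ y)]
  simp only [lvl_eq_revJ]
  unfold revJ revP
  -- the joint integrand
  have hjoint : Measurable (fun q : (ℕ → ℝ × ℝ) × (ℝ × ℝ) =>
      (Set.Iic B).indicator (fun _ => (1 : ℝ≥0∞)) q.2.1 *
        ENNReal.ofReal (Real.exp (-(θ * q.2.2))) *
        ((allLe B n).indicator (fun _ => (1 : ℝ≥0∞)) q.1 *
          (ENNReal.ofReal (Real.exp (-(θ * sumA q.1 n))) *
            revF θ (y - (q.2.1 - q.2.2)) (reflW 0 q.1 n)))) := by
    have h0 : Measurable (fun q : (ℕ → ℝ × ℝ) × (ℝ × ℝ) =>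
        (Set.Iic B).indicator (fun _ => (1 : ℝ≥0∞)) q.2.1 *
          ENNReal.ofReal (Real.exp (-(θ * q.2.2)))) := (rev_meas_g B θ).comp measurable_snd
    have h1 : Measurable (fun q : (ℕ → ℝ × ℝ) × (ℝ × ℝ) =>
        (allLe B n).indicator (fun _ => (1 : ℝ≥0∞)) q.1) := (rev_meas_ind B n).comp measurable_fst
    have h2 : Measurable (fun q : (ℕ → ℝ × ℝ) × (ℝ × ℝ) =>
        ENNReal.ofReal (Real.exp (-(θ * sumA q.1 n)))) := by
      have : Measurable (fun q : (ℕ → ℝ × ℝ) × (ℝ × ℝ) => sumA q.1 n) :=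
        (rev_meas_sumA n).comp measurable_fst
      exact (Real.measurable_exp.comp ((measurable_const.mul this).neg)).ennreal_ofReal
    have h4 : Measurable (fun q : (ℕ → ℝ × ℝ) × (ℝ × ℝ) => y - (q.2.1 - q.2.2)) := by fun_prop
    have h3 : Measurable (fun q : (ℕ → ℝ × ℝ) × (ℝ × ℝ) =>
        revF θ (y - (q.2.1 - q.2.2)) (reflW 0 q.1 n)) :=
      (revF_meas2 θ).comp (h4.prodMk ((measurable_reflW_right 0 n).comp measurable_fst))
    exact h0.mul (h1.mul (h2.mul h3))
  have hL : ∀ z : ℕ → ℝ × ℝ, (allLe B n).indicator (fun _ => (1 : ℝ≥0∞)) z *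
      (ENNReal.ofReal (Real.exp (-(θ * sumA z n))) *
        ∫⁻ p, (Set.Iic B).indicator (fun _ => (1 : ℝ≥0∞)) p.1 *
          ENNReal.ofReal (Real.exp (-(θ * p.2))) *
          revF θ y (max (reflW 0 z n + p.1 - p.2) 0) ∂(μ.prod ν)) =
      ∫⁻ p, (Set.Iic B).indicator (fun _ => (1 : ℝ≥0∞)) p.1 *
        ENNReal.ofReal (Real.exp (-(θ * p.2))) *
        ((allLe B n).indicator (fun _ => (1 : ℝ≥0∞)) z *
          (ENNReal.ofReal (Real.exp (-(θ * sumA z n))) *
            revF θ (y - (p.1 - p.2)) (reflW 0 z n))) ∂(μ.prod ν) := by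
    intro z
    have hm : Measurable (fun p : ℝ × ℝ => (Set.Iic B).indicator (fun _ => (1 : ℝ≥0∞)) p.1 *
          ENNReal.ofReal (Real.exp (-(θ * p.2))) *
          revF θ y (max (reflW 0 z n + p.1 - p.2) 0)) :=
      (revP_integrand_meas B θ (revF_meas θ y)).comp (measurable_const.prodMk measurable_id)
    rw [← mul_assoc, ← lintegral_const_mul _ hm]
    apply lintegral_congr
    intro p
    rw [revF_max hy]
    have : reflW 0 z n + p.1 - p.2 = reflW 0 z n + (p.1 - p.2) := by ring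
    rw [this, revF_shift]
    ring
  simp only [hL]
  rw [lintegral_lintegral_swap hjoint.aemeasurable]
  apply lintegral_congr
  intro p
  have hm : Measurable (fun z : ℕ → ℝ × ℝ =>
      (allLe B n).indicator (fun _ => (1 : ℝ≥0∞)) z *
          (ENNReal.ofReal (Real.exp (-(θ * sumA z n))) *
            revF θ (y - (p.1 - p.2)) (reflW 0 z n))) :=
    (revJ_integrand_meas B θ n (revF_meas θ (y - (p.1 - p.2)))).comp
      (measurable_const.prodMk measurable_id)
  rw [lintegral_const_mul _ hm]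

theorem lvl_neg (B θ : ℝ) (n : ℕ) {y : ℝ} (hy : y < 0) :
    lvl μ ν B θ n y = ENNReal.ofReal (Real.exp (-(θ * y))) * lvlA μ ν B θ n := by
  unfold lvl lvlA
  have hm : Measurable (fun z : ℕ → ℝ × ℝ => (allLe B n).indicator (fun z =>
      ENNReal.ofReal (Real.exp (θ * reflW 0 z n - θ * sumA z n))) z) := by
    apply Measurable.indicator _ (measurableSet_allLe B n)
    exact (Real.measurable_exp.comp ((measurable_const.mul (measurable_reflW_right 0 n)).sub
      (measurable_const.mul (rev_meas_sumA n)))).ennreal_ofReal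
  rw [← lintegral_const_mul _ hm]
  apply lintegral_congr
  intro z
  by_cases hz : z ∈ allLe B n
  · rw [Set.indicator_of_mem hz, Set.indicator_of_mem hz,
      if_pos (lt_of_lt_of_le hy (reflW_nonneg le_rfl z n)),
      ← ENNReal.ofReal_mul (Real.exp_nonneg _), ← Real.exp_add]
    congr 2
    ring
  · rw [Set.indicator_of_notMem hz, Set.indicator_of_notMem hz, mul_zero]

end stoch

end Pool.Agent.Lib.MP_04add8_pr
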