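import Mathlib
import Pool.Agent.Lib.MP_04add8_pr.One.Rev

/-!
# MP_04add8_pr, module Lvl: recursion in the level
-/

open MeasureTheory ProbabilityTheory Filter Topology
open scoped ENNReal

set_option linter.unusedSectionVars false

namespace Pool.Agent.Lib.MP_04add8_pr

section stoch

variable {a : ℝ} {μ ν : Measure ℝ} [IsProbabilityMeasure μ] [IsProbabilityMeasure ν]

/-- the discounted density of one small step -/
noncomputable def lvlG (B θ : ℝ) (p : ℝ × ℝ) : ℝ≥0∞ :=
  (Set.Iic B).indicator (fun _ => (1 : ℝ≥0∞)) p.1 * ENNReal.ofReal (Real.exp (-(θ * p.2)))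

lemma lvlG_meas (B θ : ℝ) : Measurable (lvlG B θ) := rev_meas_g B θ

lemma lvlG_exp (B β θ y : ℝ) :
    ∫⁻ p, lvlG B θ p * ENNReal.ofReal (Real.exp (-(β * (y - (p.1 - p.2))))) ∂(μ.prod ν) =
      trPhi μ ν B β θ * ENNReal.ofReal (Real.exp (-(β * y))) := by
  unfold trPhi lvlG
  have hm : Measurable (fun p : ℝ × ℝ => (Set.Iic B).indicator (fun _ => (1 : ℝ≥0∞)) p.1 *
      ENNReal.ofReal (Real.exp (β * (p.1 - p.2) - θ * p.2))) := by
    apply Measurable.mul
    · exact (measurable_const.indicator measurableSet_Iic).comp measurable_fst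
    · fun_prop
  rw [← lintegral_mul_const _ hm]
  apply lintegral_congr
  intro p
  rw [mul_assoc, mul_assoc, ← ENNReal.ofReal_mul (Real.exp_nonneg _), ← Real.exp_add,
    ← ENNReal.ofReal_mul (Real.exp_nonneg _), ← Real.exp_add]
  congr 3
  ring

lemma lvl_zero {B θ : ℝ} {y : ℝ} (hy : 0 ≤ y) : lvl μ ν B θ 0 y = 0 := by
  unfold lvl
  have h : ∀ z : ℕ → ℝ × ℝ, (allLe B 0).indicator (fun z => if y < reflW 0 z 0 then
      ENNReal.ofReal (Real.exp (θ * (reflW 0 z 0 - y) - θ * sumA z 0)) else 0) z = 0 := by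
    intro z
    by_cases hz : z ∈ allLe B 0
    · rw [Set.indicator_of_mem hz, if_neg]
      rw [reflW_zero]
      exact not_lt.2 hy
    · rw [Set.indicator_of_notMem hz]
  simp only [h, lintegral_const, zero_mul]

/-- the recursion for the sums -/
lemma lvl_sum_succ (B θ : ℝ) (N : ℕ) {y : ℝ} (hy : 0 ≤ y) :
    ∑ n ∈ Finset.range (N + 1), lvl μ ν B θ n y =
      ∫⁻ p, lvlG B θ p * ∑ n ∈ Finset.range N, lvl μ ν B θ n (y - (p.1 - p.2)) ∂(μ.prod ν) := by
  rw [Finset.sum_range_succ', lvl_zero hy, add_zero]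
  have h1 : ∀ n ∈ Finset.range N, lvl μ ν B θ (n + 1) y =
      ∫⁻ p, lvlG B θ p * lvl μ ν B θ n (y - (p.1 - p.2)) ∂(μ.prod ν) := by
    intro n _
    exact lvl_succ B θ n hy
  rw [Finset.sum_congr rfl h1, ← lintegral_finsetSum]
  · apply lintegral_congr
    intro p
    rw [Finset.mul_sum]
  · intro n _
    apply (lvlG_meas B θ).mul
    have : Measurable (fun p : ℝ × ℝ => y - (p.1 - p.2)) := by fun_prop
    exact (measurable_lvl B θ n).comp this

set_option linter.unusedVariables false in
theorem lvl_upper {B θ β : ℝ} (hθ : 0 ≤ θ) (hβ : θ ≤ β) {φ : ℝ≥0∞} (hφ1 : 1 ≤ φ)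
    (hφ : trPhi μ ν B β θ ≤ φ) (N : ℕ) (y : ℝ) :
    ∑ n ∈ Finset.range N, lvl μ ν B θ n y ≤
      (∑ n ∈ Finset.range N, lvlA μ ν B θ n) * φ ^ N *
        ENNReal.ofReal (Real.exp (-(β * y))) := by
  induction N generalizing y with
  | zero => simp
  | succ N ih =>
    rcases lt_or_ge y 0 with hy | hy
    · calc ∑ n ∈ Finset.range (N + 1), lvl μ ν B θ n y
          = ENNReal.ofReal (Real.exp (-(θ * y))) *
              ∑ n ∈ Finset.range (N + 1), lvlA μ ν B θ n := by
            rw [Finset.mul_sum]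
            exact Finset.sum_congr rfl (fun n _ => lvl_neg B θ n hy)
        _ ≤ ENNReal.ofReal (Real.exp (-(β * y))) *
              ∑ n ∈ Finset.range (N + 1), lvlA μ ν B θ n := by
            gcongr ?_ * _
            apply ENNReal.ofReal_le_ofReal
            apply Real.exp_le_exp.2
            nlinarith
        _ = (∑ n ∈ Finset.range (N + 1), lvlA μ ν B θ n) * 1 *
              ENNReal.ofReal (Real.exp (-(β * y))) := by ring
        _ ≤ _ := by
            gcongr
            exact one_le_pow₀ hφ1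
    · rw [lvl_sum_succ B θ N hy]
      calc ∫⁻ p, lvlG B θ p * ∑ n ∈ Finset.range N, lvl μ ν B θ n (y - (p.1 - p.2)) ∂(μ.prod ν)
          ≤ ∫⁻ p, lvlG B θ p * ((∑ n ∈ Finset.range N, lvlA μ ν B θ n) * φ ^ N *
              ENNReal.ofReal (Real.exp (-(β * (y - (p.1 - p.2)))))) ∂(μ.prod ν) := by
            apply lintegral_mono
            intro p
            exact mul_le_mul_right (ih (y - (p.1 - p.2))) _
        _ = (∑ n ∈ Finset.range N, lvlA μ ν B θ n) * φ ^ N *
              ∫⁻ p, lvlG B θ p * ENNReal.ofReal (Real.exp (-(β * (y - (p.1 - p.2))))) ∂(μ.prod ν) := by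
            rw [← lintegral_const_mul]
            · apply lintegral_congr
              intro p
              ring
            · apply (lvlG_meas B θ).mul
              fun_prop
        _ = (∑ n ∈ Finset.range N, lvlA μ ν B θ n) * φ ^ N *
              (trPhi μ ν B β θ * ENNReal.ofReal (Real.exp (-(β * y)))) := by
            rw [lvlG_exp]
        _ ≤ (∑ n ∈ Finset.range (N + 1), lvlA μ ν B θ n) * φ ^ N *
              (φ * ENNReal.ofReal (Real.exp (-(β * y)))) := by
            gcongr
            exact Nat.le_succ N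
        _ = _ := by rw [pow_succ]; ring

lemma lvl_lower_aux (hν0 : ∀ᵐ t ∂ν, 0 ≤ t) {B θ β lam : ℝ}
    (hθ : 0 ≤ θ) (hβ : 0 ≤ β) (hlam : 0 ≤ lam) (N J : ℕ) {y : ℝ} (hy : -B ≤ y) :
    ENNReal.ofReal (Real.exp (-(β * B))) * (∑ n ∈ Finset.range J, lvlA μ ν B θ n) *
        trPhi μ ν B β θ ^ N * ENNReal.ofReal (Real.exp (-(β * y))) ≤
      (max 1 (trPhi μ ν B β θ)) ^ N * ∑ n ∈ Finset.range (N + J), lvl μ ν B θ n y +
      ENNReal.ofReal (Real.exp (-(β * B))) * (∑ n ∈ Finset.range J, lvlA μ ν B θ n) *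
        trPhi μ ν B (β - lam) θ ^ N * ENNReal.ofReal (Real.exp (-((β - lam) * y))) := by
  induction N generalizing y with
  | zero =>
    rcases lt_or_ge y 0 with hy0 | hy0
    · refine le_trans ?_ le_self_add
      rw [pow_zero, pow_zero, mul_one, one_mul, zero_add]
      calc ENNReal.ofReal (Real.exp (-(β * B))) * (∑ n ∈ Finset.range J, lvlA μ ν B θ n) *
            ENNReal.ofReal (Real.exp (-(β * y)))
          = (ENNReal.ofReal (Real.exp (-(β * B))) * ENNReal.ofReal (Real.exp (-(β * y)))) *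
              (∑ n ∈ Finset.range J, lvlA μ ν B θ n) := by ring
        _ ≤ 1 * (∑ n ∈ Finset.range J, lvlA μ ν B θ n) := by
            gcongr ?_ * _
            rw [← ENNReal.ofReal_mul (Real.exp_nonneg _), ← Real.exp_add]
            apply ENNReal.ofReal_le_one.2
            apply Real.exp_le_one_iff.2
            nlinarith
        _ = ∑ n ∈ Finset.range J, 1 * lvlA μ ν B θ n := by rw [Finset.mul_sum]
        _ ≤ ∑ n ∈ Finset.range J, lvl μ ν B θ n y := by
            apply Finset.sum_le_sum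
            intro n _
            rw [lvl_neg B θ n hy0]
            gcongr ?_ * _
            rw [ENNReal.one_le_ofReal]
            apply Real.one_le_exp
            nlinarith
    · refine le_trans ?_ le_add_self
      rw [pow_zero, pow_zero]
      gcongr
      nlinarith
  | succ N ih =>
    rcases lt_or_ge y 0 with hy0 | hy0
    · refine le_trans ?_ le_self_add
      calc ENNReal.ofReal (Real.exp (-(β * B))) * (∑ n ∈ Finset.range J, lvlA μ ν B θ n) *
            trPhi μ ν B β θ ^ (N + 1) * ENNReal.ofReal (Real.exp (-(β * y)))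
          = trPhi μ ν B β θ ^ (N + 1) *
              ((ENNReal.ofReal (Real.exp (-(β * B))) * ENNReal.ofReal (Real.exp (-(β * y)))) *
              (∑ n ∈ Finset.range J, lvlA μ ν B θ n)) := by ring
        _ ≤ (max 1 (trPhi μ ν B β θ)) ^ (N + 1) *
              (1 * (∑ n ∈ Finset.range J, lvlA μ ν B θ n)) := by
            gcongr
            · exact le_max_right _ _
            · rw [← ENNReal.ofReal_mul (Real.exp_nonneg _), ← Real.exp_add]
              apply ENNReal.ofReal_le_one.2
              apply Real.exp_le_one_iff.2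
              nlinarith
        _ = (max 1 (trPhi μ ν B β θ)) ^ (N + 1) *
              ∑ n ∈ Finset.range J, 1 * lvlA μ ν B θ n := by rw [Finset.mul_sum]
        _ ≤ (max 1 (trPhi μ ν B β θ)) ^ (N + 1) *
              ∑ n ∈ Finset.range (N + 1 + J), lvl μ ν B θ n y := by
            apply mul_le_mul_right
            refine le_trans (Finset.sum_le_sum (g := fun n => lvl μ ν B θ n y) ?_)
              (Finset.sum_le_sum_of_subset (Finset.range_mono (by omega)))
            intro n _
            show 1 * lvlA μ ν B θ n ≤ lvl μ ν B θ n y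
            rw [lvl_neg B θ n hy0]
            gcongr ?_ * _
            rw [ENNReal.one_le_ofReal]
            apply Real.one_le_exp
            nlinarith
    · set Q : ℝ≥0∞ := ∑ n ∈ Finset.range J, lvlA μ ν B θ n with hQ
      set Φ := trPhi μ ν B β θ with hΦ
      set Φ' := trPhi μ ν B (β - lam) θ with hΦ'
      set E : ℝ≥0∞ := ENNReal.ofReal (Real.exp (-(β * B))) with hE
      have hsum : ∑ n ∈ Finset.range (N + 1 + J), lvl μ ν B θ n y =
          ∫⁻ p, lvlG B θ p * ∑ n ∈ Finset.range (N + J), lvl μ ν B θ n (y - (p.1 - p.2))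
            ∂(μ.prod ν) := by
        have : N + 1 + J = (N + J) + 1 := by omega
        rw [this]
        exact lvl_sum_succ B θ (N + J) hy0
      have hmexp : ∀ β' : ℝ, Measurable (fun p : ℝ × ℝ =>
          lvlG B θ p * ENNReal.ofReal (Real.exp (-(β' * (y - (p.1 - p.2)))))) := by
        intro β'
        apply (lvlG_meas B θ).mul
        fun_prop
      have hmsum : Measurable (fun p : ℝ × ℝ =>
          lvlG B θ p * ∑ n ∈ Finset.range (N + J), lvl μ ν B θ n (y - (p.1 - p.2))) := by
        apply (lvlG_meas B θ).mul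
        apply Finset.measurable_sum
        intro n _
        have : Measurable (fun p : ℝ × ℝ => y - (p.1 - p.2)) := by fun_prop
        exact (measurable_lvl B θ n).comp this
      have hae : ∀ᵐ p ∂(μ.prod ν), 0 ≤ p.2 := by
        have h1 : ∀ᵐ p ∂(μ.prod ν), p.2 ∈ {t : ℝ | 0 ≤ t} := by
          have := (Measure.quasiMeasurePreserving_snd (μ := μ) (ν := ν)).ae hν0
          exact this
        exact h1
      have hpt : ∀ᵐ p ∂(μ.prod ν), E * Q * Φ ^ N *
          (lvlG B θ p * ENNReal.ofReal (Real.exp (-(β * (y - (p.1 - p.2)))))) ≤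
          (max 1 Φ) ^ N *
            (lvlG B θ p * ∑ n ∈ Finset.range (N + J), lvl μ ν B θ n (y - (p.1 - p.2))) +
          E * Q * Φ' ^ N *
            (lvlG B θ p * ENNReal.ofReal (Real.exp (-((β - lam) * (y - (p.1 - p.2)))))) := by
        filter_upwards [hae] with p hp
        by_cases hpB : p.1 ≤ B
        · have h1 := ih (y := y - (p.1 - p.2)) (by linarith)
          have h2 := mul_le_mul_right h1 (lvlG B θ p)
          calc E * Q * Φ ^ N *
              (lvlG B θ p * ENNReal.ofReal (Real.exp (-(β * (y - (p.1 - p.2))))))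
              = lvlG B θ p * (E * Q * Φ ^ N *
                ENNReal.ofReal (Real.exp (-(β * (y - (p.1 - p.2)))))) := by ring
            _ ≤ _ := h2
            _ = _ := by ring
        · have : lvlG B θ p = 0 := by
            unfold lvlG
            rw [Set.indicator_of_notMem (fun h => hpB (Set.mem_Iic.1 h)), zero_mul]
          rw [this]
          simp
      have hint := lintegral_mono_ae hpt
      rw [lintegral_const_mul _ (hmexp β), lintegral_add_left (hmsum.const_mul _),
        lintegral_const_mul _ hmsum, lintegral_const_mul _ (hmexp (β - lam)), lvlG_exp, lvlG_exp,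
        ← hsum] at hint
      calc E * Q * Φ ^ (N + 1) * ENNReal.ofReal (Real.exp (-(β * y)))
          = E * Q * Φ ^ N * (Φ * ENNReal.ofReal (Real.exp (-(β * y)))) := by rw [pow_succ]; ring
        _ ≤ _ := hint
        _ ≤ (max 1 Φ) ^ (N + 1) * ∑ n ∈ Finset.range (N + 1 + J), lvl μ ν B θ n y +
              E * Q * Φ' ^ N * (Φ' * ENNReal.ofReal (Real.exp (-((β - lam) * y)))) := by
            gcongr
            · exact le_max_left _ _
            · omega
        _ = _ := by rw [pow_succ Φ' N]; ring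

set_option linter.unusedVariables false in
theorem lvl_lower (hμ0 : ∀ᵐ s ∂μ, 0 ≤ s) (hν0 : ∀ᵐ t ∂ν, 0 ≤ t) {B θ β lam : ℝ} (hB : 0 ≤ B)
    (hθ : 0 ≤ θ) (hβ : 0 ≤ β) (hlam : 0 ≤ lam) (N J : ℕ) {y : ℝ} (hy : 0 ≤ y) :
    ENNReal.ofReal (Real.exp (-(β * B))) * (∑ n ∈ Finset.range J, lvlA μ ν B θ n) *
        trPhi μ ν B β θ ^ N * ENNReal.ofReal (Real.exp (-(β * y))) ≤
      (max 1 (trPhi μ ν B β θ)) ^ N * ∑ n ∈ Finset.range (N + J), lvl μ ν B θ n y +
      ENNReal.ofReal (Real.exp (-(β * B))) * (∑ n ∈ Finset.range J, lvlA μ ν B θ n) *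
        trPhi μ ν B (β - lam) θ ^ N * ENNReal.ofReal (Real.exp (-((β - lam) * y))) :=
  lvl_lower_aux hν0 hθ hβ hlam N J (by linarith)

lemma tilt_le_lvl {B θ : ℝ} (hθ : 0 ≤ θ) (n : ℕ) (x : ℝ) {w : ℝ × ℝ} (h0 : 0 ≤ w.1)
    (h1 : w.1 ≤ w.2) :
    tiltOne μ ν x B θ n w ≤ ENNReal.ofReal (Real.exp (-(θ * (x - w.2)))) *
      lvl μ ν B θ n (x - w.2) := by
  unfold tiltOne lvl
  have hm : Measurable (fun z : ℕ → ℝ × ℝ => (allLe B n).indicator (fun z =>
      if x - w.2 < reflW 0 z n then
      ENNReal.ofReal (Real.exp (θ * (reflW 0 z n - (x - w.2)) - θ * sumA z n)) else 0) z) := by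
    apply Measurable.indicator _ (measurableSet_allLe B n)
    apply Measurable.ite (measurableSet_lt measurable_const (measurable_reflW_right 0 n)) _
      measurable_const
    exact (Real.measurable_exp.comp ((measurable_const.mul
      ((measurable_reflW_right 0 n).sub measurable_const)).sub
      (measurable_const.mul (rev_meas_sumA n)))).ennreal_ofReal
  rw [← lintegral_const_mul _ hm]
  apply lintegral_mono
  intro z
  by_cases hz : z ∈ allLe B n
  · simp only [Set.indicator_of_mem hz]
    have h2 := reflW_le_add (h0.trans h1) z n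
    split_ifs with h3 h4
    · rw [← ENNReal.ofReal_mul (Real.exp_nonneg _), ← Real.exp_add]
      apply ENNReal.ofReal_le_ofReal
      apply Real.exp_le_exp.2
      nlinarith [mul_le_mul_of_nonneg_left h2 hθ, mul_le_mul_of_nonneg_left h1 hθ]
    · exfalso
      apply h4
      linarith
    · exact zero_le
    · exact zero_le
  · simp only [Set.indicator_of_notMem hz]
    exact zero_le

theorem tilt_upper {B θ β : ℝ} (hθ : 0 ≤ θ) (hβ : θ ≤ β) {φ : ℝ≥0∞} (hφ1 : 1 ≤ φ)
    (hφ : trPhi μ ν B β θ ≤ φ) (N : ℕ) (x : ℝ) {w : ℝ × ℝ} (h0 : 0 ≤ w.1) (h1 : w.1 ≤ w.2) :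
    ∑ n ∈ Finset.range N, tiltOne μ ν x B θ n w ≤
      (∑ n ∈ Finset.range N, lvlA μ ν B θ n) * φ ^ N *
        ENNReal.ofReal (Real.exp (-((θ + β) * (x - w.2)))) := by
  calc ∑ n ∈ Finset.range N, tiltOne μ ν x B θ n w
      ≤ ∑ n ∈ Finset.range N, ENNReal.ofReal (Real.exp (-(θ * (x - w.2)))) *
          lvl μ ν B θ n (x - w.2) :=
        Finset.sum_le_sum (fun n _ => tilt_le_lvl hθ n x h0 h1)
    _ = ENNReal.ofReal (Real.exp (-(θ * (x - w.2)))) *
          ∑ n ∈ Finset.range N, lvl μ ν B θ n (x - w.2) := by rw [Finset.mul_sum]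
    _ ≤ ENNReal.ofReal (Real.exp (-(θ * (x - w.2)))) *
          ((∑ n ∈ Finset.range N, lvlA μ ν B θ n) * φ ^ N *
            ENNReal.ofReal (Real.exp (-(β * (x - w.2))))) :=
        mul_le_mul_right (lvl_upper hθ hβ hφ1 hφ N (x - w.2)) _
    _ = (∑ n ∈ Finset.range N, lvlA μ ν B θ n) * φ ^ N *
          (ENNReal.ofReal (Real.exp (-(θ * (x - w.2)))) *
            ENNReal.ofReal (Real.exp (-(β * (x - w.2))))) := by ring
    _ = _ := by
        rw [← ENNReal.ofReal_mul (Real.exp_nonneg _), ← Real.exp_add]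
        congr 3
        ring

end stoch

end Pool.Agent.Lib.MP_04add8_pr
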