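import Mathlib
import Pool.Agent.Lib.MP_04add8_pr.One.Defs

open MeasureTheory ProbabilityTheory Filter Topology
open scoped ENNReal

set_option linter.unusedSectionVars false

namespace Pool.Agent.Lib.MP_04add8_pr

namespace OptAux

/-- the normalised function to be minimised -/
noncomputable def psi (a r : ℝ) : ℝ := (1 - a) * r ^ (-(a / (1 - a))) + a * r

lemma psi_exp (a t : ℝ) :
    psi a (Real.exp t) = (1 - a) * Real.exp (-(a / (1 - a)) * t) + a * Real.exp t := by
  unfold psi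
  rw [← Real.exp_mul, mul_comm t]

lemma psi_one (a : ℝ) : psi a 1 = 1 := by
  simp [psi]

/-- tangent inequality for `psi` in the logarithmic variable -/
lemma psi_tangent {a : ℝ} (ha0 : 0 < a) (ha1 : a < 1) (t0 t : ℝ) :
    psi a (Real.exp t0) + a * (t - t0) * (Real.exp t0 - Real.exp (-(a / (1 - a)) * t0)) ≤
      psi a (Real.exp t) := by
  rw [psi_exp, psi_exp]
  set p := a / (1 - a) with hp
  have h1a : (0 : ℝ) < 1 - a := by linarith
  have hpa : (1 - a) * p = a := by rw [hp]; field_simp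
  have e1 : Real.exp (-p * t) = Real.exp (-p * t0) * Real.exp (-p * (t - t0)) := by
    rw [← Real.exp_add]; congr 1; ring
  have e2 : Real.exp t = Real.exp t0 * Real.exp (t - t0) := by
    rw [← Real.exp_add]; congr 1; ring
  have i1 : -p * (t - t0) + 1 ≤ Real.exp (-p * (t - t0)) := Real.add_one_le_exp _
  have i2 : (t - t0) + 1 ≤ Real.exp (t - t0) := Real.add_one_le_exp _
  have j1 := mul_le_mul_of_nonneg_left i1 (Real.exp_pos (-p * t0)).le
  have j2 := mul_le_mul_of_nonneg_left i2 (Real.exp_pos t0).le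
  have k1 := mul_le_mul_of_nonneg_left j1 h1a.le
  have k2 := mul_le_mul_of_nonneg_left j2 ha0.le
  rw [e1, e2]
  have m1 : (1 - a) * (Real.exp (-p * t0) * (-p * (t - t0) + 1)) =
      (1 - a) * Real.exp (-p * t0) - a * (t - t0) * Real.exp (-p * t0) := by
    have : (1 - a) * (Real.exp (-p * t0) * (-p * (t - t0) + 1)) =
      (1 - a) * Real.exp (-p * t0) - ((1 - a) * p) * (t - t0) * Real.exp (-p * t0) := by ring
    rw [this, hpa]
  nlinarith [k1, k2, m1]

lemma psi_ge_one {a : ℝ} (ha0 : 0 < a) (ha1 : a < 1) {r : ℝ} (hr : 0 < r) : 1 ≤ psi a r := by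
  have h := psi_tangent ha0 ha1 0 (Real.log r)
  rw [Real.exp_log hr] at h
  simpa [psi_one] using h

lemma psi_gt_one {a : ℝ} (ha0 : 0 < a) (ha1 : a < 1) {t : ℝ} (ht : t ≠ 0) :
    1 < psi a (Real.exp t) := by
  rw [psi_exp]
  set p := a / (1 - a) with hp
  have h1a : (0 : ℝ) < 1 - a := by linarith
  have hpa : (1 - a) * p = a := by rw [hp]; field_simp
  have i1 : -p * t + 1 ≤ Real.exp (-p * t) := Real.add_one_le_exp _
  have i2 : t + 1 < Real.exp t := Real.add_one_lt_exp ht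
  have k1 := mul_le_mul_of_nonneg_left i1 h1a.le
  have k2 := mul_lt_mul_of_pos_left i2 ha0
  have m1 : (1 - a) * (-p * t + 1) = (1 - a) - a * t := by
    have : (1 - a) * (-p * t + 1) = (1 - a) - ((1 - a) * p) * t := by ring
    rw [this, hpa]
  nlinarith [k1, k2, m1]

/-- away from `1` the function `psi` is at least `1 + δ` -/
lemma psi_gap {a : ℝ} (ha0 : 0 < a) (ha1 : a < 1) {w : ℝ} (hw0 : 0 < w) (hw1 : w < 1) :
    ∃ δ : ℝ, 0 < δ ∧ δ ≤ 1 ∧ ∀ r : ℝ, 0 < r → w ≤ |r - 1| → 1 + δ ≤ psi a r := by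
  set t1 := Real.log (1 + w) with ht1
  set t2 := Real.log (1 - w) with ht2
  have h1 : 0 < t1 := Real.log_pos (by linarith)
  have h2 : t2 < 0 := Real.log_neg (by linarith) (by linarith)
  have g1 : 1 < psi a (Real.exp t1) := psi_gt_one ha0 ha1 h1.ne'
  have g2 : 1 < psi a (Real.exp t2) := psi_gt_one ha0 ha1 h2.ne
  have hp : 0 < a / (1 - a) := div_pos ha0 (by linarith)
  refine ⟨min 1 (min (psi a (Real.exp t1) - 1) (psi a (Real.exp t2) - 1)), ?_, min_le_left _ _, ?_⟩
  · exact lt_min one_pos (lt_min (by linarith) (by linarith))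
  intro r hr hwr
  have hd : min 1 (min (psi a (Real.exp t1) - 1) (psi a (Real.exp t2) - 1)) ≤
      min (psi a (Real.exp t1) - 1) (psi a (Real.exp t2) - 1) := min_le_right _ _
  rcases le_abs'.1 hwr with h | h
  · -- r ≤ 1 - w
    have hlog : Real.log r ≤ t2 := Real.log_le_log hr (by linarith)
    have ht := psi_tangent ha0 ha1 t2 (Real.log r)
    rw [Real.exp_log hr] at ht
    have e1 : Real.exp t2 ≤ Real.exp (-(a / (1 - a)) * t2) := by
      apply Real.exp_le_exp.2
      nlinarith [mul_pos hp (neg_pos.2 h2)]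
    have : 0 ≤ a * (Real.log r - t2) * (Real.exp t2 - Real.exp (-(a / (1 - a)) * t2)) := by
      apply mul_nonneg_of_nonpos_of_nonpos
      · exact mul_nonpos_of_nonneg_of_nonpos ha0.le (by linarith)
      · linarith
    have hd2 := hd.trans (min_le_right _ _)
    linarith
  · have hlog : t1 ≤ Real.log r := Real.log_le_log (by linarith) (by linarith)
    have ht := psi_tangent ha0 ha1 t1 (Real.log r)
    rw [Real.exp_log hr] at ht
    have e1 : Real.exp (-(a / (1 - a)) * t1) ≤ Real.exp t1 := by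
      apply Real.exp_le_exp.2
      nlinarith [mul_pos hp h1]
    have : 0 ≤ a * (Real.log r - t1) * (Real.exp t1 - Real.exp (-(a / (1 - a)) * t1)) := by
      apply mul_nonneg
      · exact mul_nonneg ha0.le (by linarith)
      · linarith
    have hd2 := hd.trans (min_le_left _ _)
    linarith

lemma scale_base {a y r : ℝ} (ha0 : 0 < a) (hy : 0 < y) (hr : 0 < r) :
    a / (a * y ^ (a - 1) * r) = y ^ (1 - a) * r⁻¹ := by
  have h1 : y ^ (1 - a) = (y ^ (a - 1))⁻¹ := by
    rw [← Real.rpow_neg hy.le]; congr 1; ring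
  have h2 : y ^ (a - 1) ≠ 0 := (Real.rpow_pos_of_pos hy _).ne'
  rw [h1]
  field_simp

lemma wG_scale {a y r : ℝ} (ha0 : 0 < a) (ha1 : a < 1) (hy : 0 < y) (hr : 0 < r) :
    wG a (a * y ^ (a - 1) * r) = y ^ a * ((1 - a) * r ^ (-(a / (1 - a)))) := by
  have h1a : (1 : ℝ) - a ≠ 0 := by linarith
  unfold wG
  rw [scale_base ha0 hy hr, Real.mul_rpow (Real.rpow_nonneg hy.le _) (inv_nonneg.2 hr.le),
    ← Real.rpow_mul hy.le, Real.inv_rpow hr.le, ← Real.rpow_neg hr.le]
  have : (1 - a) * (a / (1 - a)) = a := by field_simp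
  rw [this]
  ring

lemma wX_scale {a y r : ℝ} (ha0 : 0 < a) (ha1 : a < 1) (hy : 0 < y) (hr : 0 < r) :
    wX a (a * y ^ (a - 1) * r) = y * r ^ (-(1 / (1 - a))) := by
  have h1a : (1 : ℝ) - a ≠ 0 := by linarith
  unfold wX
  rw [scale_base ha0 hy hr, Real.mul_rpow (Real.rpow_nonneg hy.le _) (inv_nonneg.2 hr.le),
    ← Real.rpow_mul hy.le, Real.inv_rpow hr.le, ← Real.rpow_neg hr.le]
  have : (1 - a) * (1 / (1 - a)) = 1 := by field_simp
  rw [this, Real.rpow_one]

lemma wX_pos {a θ : ℝ} (ha0 : 0 < a) (hθ : 0 < θ) : 0 < wX a θ :=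
  Real.rpow_pos_of_pos (div_pos ha0 hθ) _

/-- `wG = X ^ a - θ X` -/
lemma wG_eq {a θ : ℝ} (ha0 : 0 < a) (ha1 : a < 1) (hθ : 0 < θ) :
    wG a θ = wX a θ ^ a - θ * wX a θ := by
  have h1a : (1 : ℝ) - a ≠ 0 := by linarith
  have hq : 0 < a / θ := div_pos ha0 hθ
  unfold wG wX
  have e1 : ((a / θ) ^ (1 / (1 - a))) ^ a = (a / θ) ^ (a / (1 - a)) := by
    rw [← Real.rpow_mul hq.le]; congr 1; ring
  have e2 : (a / θ) ^ (1 / (1 - a)) = (a / θ) ^ (a / (1 - a)) * (a / θ) := by
    conv_rhs => rw [← Real.rpow_one (a / θ), ← Real.rpow_mul hq.le, ← Real.rpow_add hq]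
    congr 1
    field_simp
    ring
  rw [e1, e2]
  field_simp

/-- derivative of `wG` -/
lemma hasDerivAt_wG {a θ : ℝ} (ha0 : 0 < a) (ha1 : a < 1) (hθ : 0 < θ) :
    HasDerivAt (wG a) (-(wX a θ)) θ := by
  have h1a : (1 : ℝ) - a ≠ 0 := by linarith
  have hq : 0 < a / θ := div_pos ha0 hθ
  have h1 : HasDerivAt (fun θ : ℝ => a / θ) (-(a / θ ^ 2)) θ := by
    have := (hasDerivAt_inv hθ.ne').const_mul a
    simpa [div_eq_mul_inv] using this
  have h2 := h1.rpow_const (p := a / (1 - a)) (Or.inl hq.ne')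
  have h3 := h2.const_mul (1 - a)
  have e : (1 - a) * (-(a / θ ^ 2) * (a / (1 - a)) * (a / θ) ^ (a / (1 - a) - 1)) =
      -(wX a θ) := by
    unfold wX
    have e2 : (a / θ) ^ (1 / (1 - a)) = (a / θ) ^ (a / (1 - a) - 1) * (a / θ) ^ (2 : ℕ) := by
      rw [← Real.rpow_natCast, ← Real.rpow_add hq]
      congr 1
      field_simp
      push_cast
      ring
    rw [e2]
    field_simp
  rw [← e]
  exact h3

end OptAux

open OptAux in
theorem opt_exists {a η : ℝ} (ha0 : 0 < a) (ha1 : a < 1) (hη : 1 < η) {β : ℝ → ℝ}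
    (hβ0 : ∀ θ, 0 ≤ β θ)
    (hlim : Tendsto (fun θ => β θ / θ) (𝓝[>] 0) (𝓝 (η - 1))) {β1 : ℝ → ℝ}
    (hexp : ∀ ω : ℝ, 0 < ω → ∃ θ0 : ℝ, 0 < θ0 ∧ ∀ θ, 0 < θ → θ < θ0 → ∀ u : ℝ, |u| ≤ θ / 2 →
      |β (θ + u) - β θ - β1 θ * u| ≤ ω / θ * u ^ 2)
    {ω : ℝ} (hω : 0 < ω) :
    ∀ᶠ x : ℝ in atTop, ∃ θ : ℝ, 0 < θ ∧
      |θ - a * (η * x) ^ (a - 1)| ≤ ω * (a * (η * x) ^ (a - 1)) ∧
      |wX a θ - η * x| ≤ ω * (η * x) ∧
      rateB a β x = wG a θ + x * (θ + β θ) ∧
      |rateB a β x - (η * x) ^ a| ≤ ω * (η * x) ^ a ∧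
      ∀ u : ℝ, |u| ≤ θ / 2 →
        -(wX a θ ^ a) + (θ + u) * wX a θ - x * (θ + u + β (θ + u)) ≤
          -(rateB a β x) + ω / θ * x * u ^ 2 := by
  -- choice of the parameters
  obtain ⟨w, hw0, hw1, hwω, hwX⟩ : ∃ w : ℝ, 0 < w ∧ w < 1 ∧ w ≤ ω ∧
      ∀ r : ℝ, |r - 1| ≤ w → |r ^ (-(1 / (1 - a))) - 1| ≤ ω := by
    have hc : ContinuousAt (fun r : ℝ => r ^ (-(1 / (1 - a)))) 1 :=
      Real.continuousAt_rpow_const 1 _ (Or.inl one_ne_zero)
    have h1 := Metric.continuousAt_iff.1 hc ω hω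
    obtain ⟨d, hd, h⟩ := h1
    refine ⟨min (min (d / 2) (1 / 2)) ω, by positivity, ?_, min_le_right _ _, ?_⟩
    · exact lt_of_le_of_lt ((min_le_left _ _).trans (min_le_right _ _)) (by norm_num)
    · intro r hr
      have hr' : |r - 1| < d := by
        have : |r - 1| ≤ d / 2 := hr.trans ((min_le_left _ _).trans (min_le_left _ _))
        linarith
      have := h (x := r) (by rw [Real.dist_eq]; exact hr')
      rw [Real.dist_eq] at this
      simpa using this.le
  obtain ⟨δ, hδ0, hδ1, hgap⟩ := psi_gap ha0 ha1 hw0 hw1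
  set ε : ℝ := min (δ / 4) (min (1 / 2) ω) with hε
  have hε0 : 0 < ε := lt_min (by linarith) (lt_min (by norm_num) hω)
  have hεδ : ε ≤ δ / 4 := min_le_left _ _
  have hε2 : ε ≤ 1 / 2 := (min_le_right _ _).trans (min_le_left _ _)
  have hεω : ε ≤ ω := (min_le_right _ _).trans (min_le_right _ _)
  have hη0 : 0 < η := by linarith
  -- the range where `β` is close to linear
  obtain ⟨θ1, hθ1, hβ⟩ : ∃ θ1 : ℝ, 0 < θ1 ∧ ∀ θ, 0 < θ → θ < θ1 →
      (1 - ε) * (η * θ) ≤ θ + β θ ∧ θ + β θ ≤ (1 + ε) * (η * θ) := by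
    have h1 : ∀ᶠ θ in 𝓝[>] (0 : ℝ), |β θ / θ - (η - 1)| < ε * η := by
      have := hlim.eventually (Metric.ball_mem_nhds (η - 1) (by positivity : 0 < ε * η))
      filter_upwards [this] with θ h
      rwa [Real.dist_eq] at h
    rw [eventually_nhdsWithin_iff, Metric.eventually_nhds_iff] at h1
    obtain ⟨d, hd, h⟩ := h1
    refine ⟨d, hd, fun θ h0 h2 => ?_⟩
    have := h (y := θ) (by rw [Real.dist_eq]; simpa [abs_of_pos h0] using h2) h0
    rw [abs_lt] at this
    obtain ⟨i1, i2⟩ := this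
    have j1 : β θ / θ * θ = β θ := div_mul_cancel₀ _ h0.ne'
    have k1 := mul_lt_mul_of_pos_right i1 h0
    have k2 := mul_lt_mul_of_pos_right i2 h0
    constructor <;> nlinarith
  obtain ⟨θ0, hθ0, hexpω⟩ := hexp ω hω
  have hder : ∀ θ, 0 < θ → θ < θ0 → HasDerivAt β (β1 θ) θ := by
    intro θ h0 h1
    rw [hasDerivAt_iff_isLittleO_nhds_zero]
    rw [Asymptotics.isLittleO_iff]
    intro c hc
    have : ∀ᶠ u : ℝ in 𝓝 0, |u| < min (θ / 2) (c * θ / ω) := by
      have := Metric.ball_mem_nhds (0 : ℝ) (lt_min (by linarith) (by positivity) :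
        0 < min (θ / 2) (c * θ / ω))
      filter_upwards [this] with u hu
      simpa [Real.dist_eq] using hu
    filter_upwards [this] with u hu
    have hu1 : |u| ≤ θ / 2 := (hu.le.trans (min_le_left _ _))
    have hu2 : |u| ≤ c * θ / ω := (hu.le.trans (min_le_right _ _))
    have h3 := hexpω θ h0 h1 u hu1
    rw [Real.norm_eq_abs, Real.norm_eq_abs]
    have e : β (θ + u) - β θ - u • β1 θ = β (θ + u) - β θ - β1 θ * u := by
      rw [smul_eq_mul, mul_comm]
    rw [e]
    refine h3.trans ?_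
    have h4 : ω / θ * u ^ 2 = (ω / θ * |u|) * |u| := by
      rw [mul_assoc, ← pow_two, sq_abs]
    rw [h4]
    apply mul_le_mul_of_nonneg_right _ (abs_nonneg u)
    calc ω / θ * |u| ≤ ω / θ * (c * θ / ω) := by gcongr
      _ = c := by field_simp
  -- eventual conditions on `x`
  have hy_top : Tendsto (fun x : ℝ => η * x) atTop atTop :=
    Tendsto.const_mul_atTop hη0 tendsto_id
  have hh0 : Tendsto (fun x : ℝ => a * (η * x) ^ (a - 1)) atTop (𝓝 0) := by
    have h1 : Tendsto (fun y : ℝ => y ^ (-(1 - a))) atTop (𝓝 0) :=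
      tendsto_rpow_neg_atTop (by linarith)
    have h2 := (h1.comp hy_top).const_mul a
    simp only [mul_zero] at h2
    refine h2.congr fun x => ?_
    simp only [Function.comp]
    congr 2
    ring
  have hthr : 0 < min θ0 θ1 / 2 := by positivity
  have ev1 : ∀ᶠ x : ℝ in atTop, a * (η * x) ^ (a - 1) < min θ0 θ1 / 2 :=
    hh0.eventually (gt_mem_nhds hthr)
  have ev2 : ∀ᶠ x : ℝ in atTop, 2 * (η * x) ^ a ≤ x * θ1 := by
    have h1 : ∀ᶠ x : ℝ in atTop, a * (η * x) ^ (a - 1) < a * (θ1 / (2 * η)) :=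
      hh0.eventually (gt_mem_nhds (by positivity))
    filter_upwards [h1, eventually_gt_atTop (0 : ℝ)] with x hx hx0
    have hx1 : (η * x) ^ (a - 1) < θ1 / (2 * η) := lt_of_mul_lt_mul_left hx ha0.le
    have hyx : 0 < η * x := by positivity
    have e : (η * x) ^ a = (η * x) ^ (a - 1) * (η * x) := by
      rw [← Real.rpow_add_one hyx.ne']; congr 1; ring
    rw [e]
    have := mul_lt_mul_of_pos_right hx1 hyx
    have e2 : θ1 / (2 * η) * (η * x) = θ1 * x / 2 := by field_simp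
    rw [e2] at this
    nlinarith
  filter_upwards [ev1, ev2, eventually_gt_atTop (0 : ℝ)] with x hx1 hx2 hx0
  set y := η * x with hy
  have hy0 : 0 < y := by positivity
  set h := a * y ^ (a - 1) with hh
  have hhpos : 0 < h := mul_pos ha0 (Real.rpow_pos_of_pos hy0 _)
  have hya : 0 < y ^ a := Real.rpow_pos_of_pos hy0 _
  set H : ℝ → ℝ := fun θ => wG a θ + x * (θ + β θ) with hH
  have hyh : y * h = a * y ^ a := by
    rw [hh]
    have : y ^ a = y ^ (a - 1) * y := by
      rw [← Real.rpow_add_one hy0.ne']; congr 1; ring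
    rw [this]; ring
  have hyr : ∀ r : ℝ, x * (η * (h * r)) = a * y ^ a * r := by
    intro r
    have : x * (η * (h * r)) = (y * h) * r := by rw [hy]; ring
    rw [this, hyh]
  -- bounds for `H`
  have hlow : ∀ θ, 0 < θ → θ < θ1 → (1 - ε) * (y ^ a * psi a (θ / h)) ≤ H θ := by
    intro θ h0 h1
    have hr : 0 < θ / h := div_pos h0 hhpos
    have hθ : θ = h * (θ / h) := by field_simp
    have hG := wG_scale ha0 ha1 hy0 hr
    rw [← hh, ← hθ] at hG
    have hb := (hβ θ h0 h1).1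
    have hb2 := mul_le_mul_of_nonneg_left hb hx0.le
    have e := hyr (θ / h)
    rw [← hθ] at e
    have hGn : 0 ≤ y ^ a * ((1 - a) * (θ / h) ^ (-(a / (1 - a)))) := by
      have : 0 ≤ (1 - a) * (θ / h) ^ (-(a / (1 - a))) :=
        mul_nonneg (by linarith) (Real.rpow_nonneg hr.le _)
      positivity
    simp only [hH, psi]
    rw [hG]
    nlinarith
  have hupp : ∀ θ, 0 < θ → θ < θ1 → H θ ≤ (1 + ε) * (y ^ a * psi a (θ / h)) := by
    intro θ h0 h1
    have hr : 0 < θ / h := div_pos h0 hhpos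
    have hθ : θ = h * (θ / h) := by field_simp
    have hG := wG_scale ha0 ha1 hy0 hr
    rw [← hh, ← hθ] at hG
    have hb := (hβ θ h0 h1).2
    have hb2 := mul_le_mul_of_nonneg_left hb hx0.le
    have e := hyr (θ / h)
    rw [← hθ] at e
    have hGn : 0 ≤ y ^ a * ((1 - a) * (θ / h) ^ (-(a / (1 - a)))) := by
      have : 0 ≤ (1 - a) * (θ / h) ^ (-(a / (1 - a))) :=
        mul_nonneg (by linarith) (Real.rpow_nonneg hr.le _)
      positivity
    simp only [hH, psi]
    rw [hG]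
    nlinarith
  have hmin : min θ0 θ1 / 2 < min θ0 θ1 := by linarith [lt_min hθ0 hθ1]
  have hh1 : h < θ1 := hx1.trans (hmin.trans_le (min_le_right _ _))
  have hHh : H h ≤ (1 + ε) * y ^ a := by
    have := hupp h hhpos hh1
    rwa [div_self hhpos.ne', psi_one, mul_one] at this
  have hHh2 : H h < 2 * y ^ a := by nlinarith
  have hfar : ∀ θ, 0 < θ → w * h ≤ |θ - h| → H h < H θ := by
    intro θ h0 hd
    rcases lt_or_ge θ θ1 with h1 | h1
    · have hr : 0 < θ / h := div_pos h0 hhpos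
      have hd' : w ≤ |θ / h - 1| := by
        have : θ / h - 1 = (θ - h) / h := by field_simp
        rw [this, abs_div, abs_of_pos hhpos, le_div_iff₀ hhpos]
        exact hd
      have hg := hgap _ hr hd'
      have hl := hlow θ h0 h1
      have : (1 + ε) * y ^ a < (1 - ε) * (y ^ a * psi a (θ / h)) := by
        have i1 : (1 - ε) * (y ^ a * (1 + δ)) ≤ (1 - ε) * (y ^ a * psi a (θ / h)) := by
          apply mul_le_mul_of_nonneg_left _ (by linarith)
          exact mul_le_mul_of_nonneg_left hg hya.le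
        have i2 : 1 + ε < (1 - ε) * (1 + δ) := by nlinarith
        have i3 := mul_lt_mul_of_pos_right i2 hya
        nlinarith
      linarith
    · have hG : 0 ≤ wG a θ := by
        unfold wG
        exact mul_nonneg (by linarith) (Real.rpow_nonneg (div_pos ha0 h0).le _)
      have : x * θ1 ≤ x * (θ + β θ) := by
        apply mul_le_mul_of_nonneg_left _ hx0.le
        linarith [hβ0 θ]
      have : x * θ1 ≤ H θ := by simp only [hH]; linarith
      linarith
  -- the minimum on the compact interval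
  have hI : (1 - w) * h < (1 + w) * h := by nlinarith
  have hIθ : ∀ θ ∈ Set.Icc ((1 - w) * h) ((1 + w) * h), 0 < θ ∧ θ < θ0 ∧ θ < θ1 := by
    intro θ hθ
    obtain ⟨h1, h2⟩ := hθ
    have : 0 < (1 - w) * h := mul_pos (by linarith) hhpos
    have h3 : (1 + w) * h < 2 * h := by nlinarith
    have h4 : 2 * h < min θ0 θ1 := by linarith
    exact ⟨by linarith, by linarith [min_le_left θ0 θ1], by linarith [min_le_right θ0 θ1]⟩
  have hdH : ∀ θ, 0 < θ → θ < θ0 → HasDerivAt H (-(wX a θ) + x * (1 + β1 θ)) θ := by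
    intro θ h0 h1
    exact (hasDerivAt_wG ha0 ha1 h0).add (((hasDerivAt_id θ).add (hder θ h0 h1)).const_mul x)
  have hcont : ContinuousOn H (Set.Icc ((1 - w) * h) ((1 + w) * h)) := by
    intro θ hθ
    exact ((hdH θ (hIθ θ hθ).1 (hIθ θ hθ).2.1).continuousAt).continuousWithinAt
  obtain ⟨θ, hθI, hθmin⟩ := isCompact_Icc.exists_isMinOn (Set.nonempty_Icc.2 hI.le) hcont
  obtain ⟨hθpos, hθθ0, hθθ1⟩ := hIθ θ hθI
  have hhI : h ∈ Set.Icc ((1 - w) * h) ((1 + w) * h) := ⟨by nlinarith, by nlinarith⟩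
  have hle : H θ ≤ H h := hθmin hhI
  have hnear : |θ - h| < w * h := by
    by_contra hcon
    push Not at hcon
    exact absurd (hfar θ hθpos hcon) (not_lt.2 hle)
  have hglob : ∀ θ', 0 < θ' → H θ ≤ H θ' := by
    intro θ' h0
    by_cases hc : θ' ∈ Set.Icc ((1 - w) * h) ((1 + w) * h)
    · exact hθmin hc
    · have : w * h ≤ |θ' - h| := by
        by_contra hcon
        push Not at hcon
        rw [abs_lt] at hcon
        exact hc ⟨by nlinarith [hcon.1], by nlinarith [hcon.2]⟩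
      exact hle.trans (hfar θ' h0 this).le
  have hrate : rateB a β x = H θ := by
    have : IsLeast ((fun θ : ℝ => wG a θ + x * (θ + β θ)) '' Set.Ioi 0) (H θ) := by
      refine ⟨⟨θ, hθpos, rfl⟩, ?_⟩
      rintro _ ⟨θ', h', rfl⟩
      exact hglob θ' h'
    exact this.csInf_eq
  have hcrit : -(wX a θ) + x * (1 + β1 θ) = 0 := by
    have hloc : IsLocalMin H θ := by
      have : Set.Ioi (0 : ℝ) ∈ 𝓝 θ := Ioi_mem_nhds hθpos
      filter_upwards [this] with θ' h'
      exact hglob θ' h'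
    exact hloc.hasDerivAt_eq_zero (hdH θ hθpos hθθ0)
  refine ⟨θ, hθpos, ?_, ?_, ?_, ?_, ?_⟩
  · exact hnear.le.trans (mul_le_mul_of_nonneg_right hwω hhpos.le)
  · have hr : 0 < θ / h := div_pos hθpos hhpos
    have hθ : θ = h * (θ / h) := by field_simp
    have hX := wX_scale ha0 ha1 hy0 hr
    rw [← hh, ← hθ] at hX
    have hd' : |θ / h - 1| ≤ w := by
      have : θ / h - 1 = (θ - h) / h := by field_simp
      rw [this, abs_div, abs_of_pos hhpos, div_le_iff₀ hhpos]
      exact hnear.le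
    have := hwX _ hd'
    rw [hX]
    have e : y * (θ / h) ^ (-(1 / (1 - a))) - y = y * ((θ / h) ^ (-(1 / (1 - a))) - 1) := by ring
    rw [e, abs_mul, abs_of_pos hy0, mul_comm ω]
    exact mul_le_mul_of_nonneg_left this hy0.le
  · rw [hrate]
  · rw [hrate, abs_le]
    have h1 : (1 - ε) * y ^ a ≤ H θ := by
      have hl := hlow θ hθpos hθθ1
      have hp := psi_ge_one ha0 ha1 (div_pos hθpos hhpos)
      have : (1 - ε) * (y ^ a * 1) ≤ (1 - ε) * (y ^ a * psi a (θ / h)) := by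
        apply mul_le_mul_of_nonneg_left _ (by linarith)
        exact mul_le_mul_of_nonneg_left hp hya.le
      linarith
    have h2 : ε * y ^ a ≤ ω * y ^ a := mul_le_mul_of_nonneg_right hεω hya.le
    constructor <;> nlinarith
  · intro u hu
    rw [hrate]
    have h1 := hexpω θ hθpos hθθ0 u hu
    have h2 := (abs_le.1 h1).1
    have h3 := mul_le_mul_of_nonneg_left h2 hx0.le
    have hG := wG_eq ha0 ha1 hθpos
    simp only [hH]
    rw [hG]
    have hX : wX a θ = x * (1 + β1 θ) := by linarith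
    have e : -(wX a θ ^ a) + (θ + u) * wX a θ - x * (θ + u + β (θ + u)) =
        -(wX a θ ^ a - θ * wX a θ + x * (θ + β θ)) +
          (u * (wX a θ - x) - x * (β (θ + u) - β θ)) := by ring
    rw [e]
    have e2 : u * (wX a θ - x) - x * (β (θ + u) - β θ) =
        -(x * (β (θ + u) - β θ - β1 θ * u)) := by rw [hX]; ring
    rw [e2]
    have e3 : x * -(ω / θ * u ^ 2) = -(ω / θ * x * u ^ 2) := by ring
    rw [e3] at h3
    linarith

end Pool.Agent.Lib.MP_04add8_pr
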