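import Mathlib
import Pool.Agent.Lib.MP_04add8_pr.One.Defs
import Pool.Agent.Lib.MP_04add8_pr.Weibull

open MeasureTheory ProbabilityTheory Filter Topology
open scoped ENNReal

set_option linter.unusedSectionVars false

namespace Pool.Agent.Lib.MP_04add8_pr

lemma phi_exp_le {z : ℝ} (hz : 0 ≤ z) (K : ℕ) :
    Real.exp z ≤ ∑ j ∈ Finset.range (K + 1), z ^ j / (j.factorial : ℝ) +
      z ^ (K + 1) * Real.exp z := by
  have h := Complex.norm_exp_sub_sum_le_norm_mul_exp (z : ℂ) (K + 1)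
  have h1 : Complex.exp (z : ℂ) - ∑ m ∈ Finset.range (K + 1), (z : ℂ) ^ m / (m.factorial : ℂ) =
      ((Real.exp z - ∑ m ∈ Finset.range (K + 1), z ^ m / (m.factorial : ℝ) : ℝ) : ℂ) := by
    push_cast
    rfl
  rw [h1, Complex.norm_real, Complex.norm_real, Real.norm_of_nonneg hz, Real.norm_eq_abs] at h
  linarith [le_abs_self (Real.exp z - ∑ m ∈ Finset.range (K + 1), z ^ m / (m.factorial : ℝ))]

section stoch

variable {a : ℝ} {μ ν : Measure ℝ} [IsProbabilityMeasure μ] [IsProbabilityMeasure ν]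

lemma phi_ofReal_le {f : ℝ → ℝ} (hf : Integrable f μ) :
    ENNReal.ofReal (∫ s, f s ∂μ) ≤ ∫⁻ s, ENNReal.ofReal (f s) ∂μ := by
  rw [integral_eq_lintegral_pos_part_sub_lintegral_neg_part hf]
  refine le_trans (ENNReal.ofReal_le_ofReal (sub_le_self _ ENNReal.toReal_nonneg)) ?_
  exact ENNReal.ofReal_toReal_le

lemma phi_integrable (ha0 : 0 < a)
    (hμ : ∀ x, 0 ≤ x → μ (Set.Ioi x) = ENNReal.ofReal (Real.exp (-(x ^ a)))) (k : ℕ) :
    Integrable (fun s : ℝ => s ^ k * Real.exp (s ^ a / 2)) μ := by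
  rcases Nat.eq_zero_or_pos k with hk | hk
  · subst hk
    have h := weibull_integrable_exp ha0 hμ (c := 1 / 2) (by norm_num) (by norm_num)
    refine h.congr (Eventually.of_forall fun s => ?_)
    simp only [pow_zero, one_mul]
    congr 1
    ring
  have hkR : (0 : ℝ) < k := by exact_mod_cast hk
  have hpa : 0 < (k : ℝ) / a := by positivity
  apply Integrable.mono' (g := fun s => ((k / a) / (1 / 4)) ^ ((k : ℝ) / a) *
    Real.exp ((3 / 4) * s ^ a))
  · apply Integrable.const_mul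
    exact weibull_integrable_exp ha0 hμ (by norm_num) (by norm_num)
  · fun_prop
  · filter_upwards [weibull_ae_pos ha0 hμ] with s hs
    rw [Real.norm_of_nonneg (by positivity)]
    have h1 := rpow_le_exp (p := (k : ℝ) / a) (c := 1 / 4) (u := s ^ a) hpa (by norm_num)
      (by positivity)
    have h2 : (s ^ a) ^ ((k : ℝ) / a) = s ^ k := by
      rw [← Real.rpow_mul hs.le, mul_div_cancel₀ _ ha0.ne', Real.rpow_natCast]
    rw [h2] at h1
    calc s ^ k * Real.exp (s ^ a / 2)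
        ≤ (((k : ℝ) / a / (1 / 4)) ^ ((k : ℝ) / a) * Real.exp (1 / 4 * s ^ a)) *
          Real.exp (s ^ a / 2) := by gcongr
      _ = ((k / a) / (1 / 4)) ^ ((k : ℝ) / a) * Real.exp ((3 / 4) * s ^ a) := by
          rw [mul_assoc, ← Real.exp_add]
          congr 2
          ring

lemma phi_integrable_pow (ha0 : 0 < a)
    (hμ : ∀ x, 0 ≤ x → μ (Set.Ioi x) = ENNReal.ofReal (Real.exp (-(x ^ a)))) (k : ℕ) :
    Integrable (fun s : ℝ => s ^ k) μ := by
  rcases Nat.eq_zero_or_pos k with hk | hk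
  · subst hk; simp only [pow_zero]; exact integrable_const _
  · exact weibull_integrable_pow ha0 hμ k hk

/-- the moment polynomial as an integral -/
lemma phi_momPoly (ha0 : 0 < a)
    (hμ : ∀ x, 0 ≤ x → μ (Set.Ioi x) = ENNReal.ofReal (Real.exp (-(x ^ a)))) (K : ℕ) (β : ℝ) :
    Integrable (fun s : ℝ => ∑ j ∈ Finset.range (K + 1), (β * s) ^ j / (j.factorial : ℝ)) μ ∧
      ∫ s, (∑ j ∈ Finset.range (K + 1), (β * s) ^ j / (j.factorial : ℝ)) ∂μ = momPoly μ K β := by
  have hi : ∀ j ∈ Finset.range (K + 1),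
      Integrable (fun s : ℝ => (β * s) ^ j / (j.factorial : ℝ)) μ := by
    intro j _
    have h := (phi_integrable_pow ha0 hμ j).const_mul (β ^ j / (j.factorial : ℝ))
    refine h.congr (Eventually.of_forall fun s => ?_)
    simp only
    rw [mul_pow]; ring
  refine ⟨integrable_finsetSum _ hi, ?_⟩
  rw [integral_finsetSum _ hi, momPoly]
  refine Finset.sum_congr rfl fun j _ => ?_
  rw [mul_div_assoc, ← integral_mul_const]
  refine integral_congr_ae (Eventually.of_forall fun s => ?_)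
  simp only
  rw [mul_pow]; ring

lemma phi_ae_nonneg (hν : ν (Set.Iio 0) = 0) : ∀ᵐ t ∂ν, 0 ≤ t := by
  have h : ∀ᵐ t ∂ν, t ∉ Set.Iio (0 : ℝ) := measure_eq_zero_iff_ae_notMem.1 hν
  filter_upwards [h] with t ht
  exact not_lt.1 ht

lemma phi_lap (hν : ν (Set.Iio 0) = 0) {q : ℝ} (hq : 0 ≤ q) :
    Integrable (fun t => Real.exp (-(q * t))) ν ∧ 0 ≤ lap ν q ∧ lap ν q ≤ 1 := by
  have h0 := phi_ae_nonneg hν
  have hle : ∀ᵐ t ∂ν, Real.exp (-(q * t)) ≤ 1 := by
    filter_upwards [h0] with t ht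
    rw [Real.exp_le_one_iff]
    have := mul_nonneg hq ht
    linarith
  have hint : Integrable (fun t => Real.exp (-(q * t))) ν := by
    apply Integrable.mono' (g := fun _ => (1 : ℝ)) (integrable_const _) (by fun_prop)
    filter_upwards [hle] with t ht
    rwa [Real.norm_of_nonneg (Real.exp_pos _).le]
  refine ⟨hint, integral_nonneg fun t => (Real.exp_pos _).le, ?_⟩
  have := integral_mono_ae hint (integrable_const (1 : ℝ)) hle
  simpa [lap] using this

lemma phi_factor (hν : ν (Set.Iio 0) = 0) {B β θ : ℝ} (hβ : 0 ≤ β) (hθ : 0 ≤ θ) :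
    trPhi μ ν B β θ = (∫⁻ s, (Set.Iic B).indicator (fun _ => (1 : ℝ≥0∞)) s *
      ENNReal.ofReal (Real.exp (β * s)) ∂μ) * ENNReal.ofReal (lap ν (β + θ)) := by
  have hl := phi_lap hν (add_nonneg hβ hθ)
  have h1 : ENNReal.ofReal (lap ν (β + θ)) =
      ∫⁻ t, ENNReal.ofReal (Real.exp (-((β + θ) * t))) ∂ν := by
    rw [lap, ofReal_integral_eq_lintegral_ofReal hl.1
      (Eventually.of_forall fun t => (Real.exp_pos _).le)]
  rw [h1, trPhi, ← lintegral_prod_mul]
  · refine lintegral_congr fun p => ?_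
    rw [mul_assoc, ← ENNReal.ofReal_mul (Real.exp_pos _).le, ← Real.exp_add]
    congr 3
    ring
  · exact (measurable_const.indicator measurableSet_Iic).aemeasurable.mul
      (by fun_prop)
  · fun_prop

theorem phi_upper (ha0 : 0 < a) (ha1 : a < 1)
    (hμ : ∀ x, 0 ≤ x → μ (Set.Ioi x) = ENNReal.ofReal (Real.exp (-(x ^ a))))
    (hν : ν (Set.Iio 0) = 0) (K : ℕ) {c b : ℝ} (hc : 0 < c) (hb : 0 < b)
    (hcb : c * b ^ (1 - a) ≤ 1 / 2) :
    ∃ C : ℝ, 0 ≤ C ∧ ∀ x : ℝ, 0 < x → ∀ β θ : ℝ, 0 ≤ β → β ≤ c * x ^ (a - 1) → 0 ≤ θ →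
      trPhi μ ν (b * x) β θ ≤
        ENNReal.ofReal (momPoly μ K β * lap ν (β + θ) + C * β ^ (K + 1)) := by
  have hC0 : ∀ᵐ s ∂μ, 0 ≤ s ^ (K + 1) * Real.exp (s ^ a / 2) := by
    filter_upwards [weibull_ae_pos ha0 hμ] with s hs
    positivity
  refine ⟨∫ s, s ^ (K + 1) * Real.exp (s ^ a / 2) ∂μ, integral_nonneg_of_ae hC0, ?_⟩
  intro x hx β θ hβ hβc hθ
  set C := ∫ s, s ^ (K + 1) * Real.exp (s ^ a / 2) ∂μ with hC
  have hC' : 0 ≤ C := integral_nonneg_of_ae hC0
  have hl := phi_lap hν (add_nonneg hβ hθ)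
  have hm := phi_momPoly ha0 hμ K β
  have hi := phi_integrable ha0 hμ (K + 1)
  have hpos := weibull_ae_pos ha0 hμ
  have hle : ∀ᵐ s ∂μ, (Set.Iic (b * x)).indicator (fun _ => (1 : ℝ≥0∞)) s *
      ENNReal.ofReal (Real.exp (β * s)) ≤
      ENNReal.ofReal (∑ j ∈ Finset.range (K + 1), (β * s) ^ j / (j.factorial : ℝ) +
        β ^ (K + 1) * (s ^ (K + 1) * Real.exp (s ^ a / 2))) := by
    filter_upwards [hpos] with s hs
    by_cases hsx : s ∈ Set.Iic (b * x)
    · rw [Set.indicator_of_mem hsx, one_mul]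
      apply ENNReal.ofReal_le_ofReal
      have h3 : β * s ≤ s ^ a / 2 := by
        have hsx' : s ≤ b * x := hsx
        have h4 : β * s ≤ c * x ^ (a - 1) * s := mul_le_mul_of_nonneg_right hβc hs.le
        have h5 : x ^ (a - 1) * s = s ^ a * (s / x) ^ (1 - a) := by
          rw [Real.div_rpow hs.le hx.le]
          have e1 : s = s ^ a * s ^ (1 - a) := by
            rw [← Real.rpow_add hs]; simp
          have e2 : x ^ (a - 1) = (x ^ (1 - a))⁻¹ := by
            rw [← Real.rpow_neg hx.le]; congr 1; ring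
          conv_lhs => rw [e1, e2]
          ring
        have h6 : (s / x) ^ (1 - a) ≤ b ^ (1 - a) := by
          apply Real.rpow_le_rpow (by positivity) _ (by linarith)
          rw [div_le_iff₀ hx]; exact hsx'
        have h7 : 0 < s ^ a := Real.rpow_pos_of_pos hs a
        calc β * s ≤ c * (x ^ (a - 1) * s) := by linarith
          _ = s ^ a * (c * (s / x) ^ (1 - a)) := by rw [h5]; ring
          _ ≤ s ^ a * (c * b ^ (1 - a)) := by gcongr
          _ ≤ s ^ a * (1 / 2) := by gcongr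
          _ = s ^ a / 2 := by ring
      have h8 := phi_exp_le (mul_nonneg hβ hs.le) K
      calc Real.exp (β * s) ≤ _ := h8
        _ ≤ ∑ j ∈ Finset.range (K + 1), (β * s) ^ j / (j.factorial : ℝ) +
            (β * s) ^ (K + 1) * Real.exp (s ^ a / 2) := by gcongr
        _ = _ := by rw [mul_pow]; ring
    · rw [Set.indicator_of_notMem hsx, zero_mul]
      exact zero_le
  have hnn : ∀ᵐ s ∂μ, 0 ≤ ∑ j ∈ Finset.range (K + 1), (β * s) ^ j / (j.factorial : ℝ) +
        β ^ (K + 1) * (s ^ (K + 1) * Real.exp (s ^ a / 2)) := by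
    filter_upwards [hpos] with s hs
    positivity
  have hint : ∫⁻ s, (Set.Iic (b * x)).indicator (fun _ => (1 : ℝ≥0∞)) s *
      ENNReal.ofReal (Real.exp (β * s)) ∂μ ≤
      ENNReal.ofReal (momPoly μ K β + β ^ (K + 1) * C) := by
    refine (lintegral_mono_ae hle).trans ?_
    have h10 := ofReal_integral_eq_lintegral_ofReal (f := fun s : ℝ =>
      ∑ j ∈ Finset.range (K + 1), (β * s) ^ j / (j.factorial : ℝ) +
        β ^ (K + 1) * (s ^ (K + 1) * Real.exp (s ^ a / 2))) (hm.1.add (hi.const_mul _)) hnn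
    rw [← h10]
    apply ENNReal.ofReal_le_ofReal
    rw [integral_add hm.1 (hi.const_mul _), hm.2, integral_const_mul]
  rw [phi_factor hν hβ hθ]
  refine (mul_le_mul_left hint _).trans ?_
  rw [← ENNReal.ofReal_mul' hl.2.1]
  apply ENNReal.ofReal_le_ofReal
  have h9 : 0 ≤ β ^ (K + 1) * C := by positivity
  nlinarith [mul_le_mul_of_nonneg_left hl.2.2 h9]

theorem phi_lower (ha0 : 0 < a) (ha1 : a < 1)
    (hμ : ∀ x, 0 ≤ x → μ (Set.Ioi x) = ENNReal.ofReal (Real.exp (-(x ^ a))))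
    (hν : ν (Set.Iio 0) = 0) (K : ℕ) :
    ∃ C : ℝ, 0 ≤ C ∧ ∀ B : ℝ, 0 ≤ B → ∀ β θ : ℝ, 0 ≤ β → β ≤ 1 → 0 ≤ θ →
      ENNReal.ofReal (momPoly μ K β * lap ν (β + θ) - C * Real.exp (-(B ^ a / 2))) ≤
        trPhi μ ν B β θ := by
  have hpos := weibull_ae_pos ha0 hμ
  have hi : Integrable (fun s : ℝ => ∑ j ∈ Finset.range (K + 1), s ^ j * Real.exp (s ^ a / 2)) μ :=
    integrable_finsetSum _ fun j _ => phi_integrable ha0 hμ j
  have hC0 : ∀ᵐ s ∂μ, 0 ≤ ∑ j ∈ Finset.range (K + 1), s ^ j * Real.exp (s ^ a / 2) := by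
    filter_upwards [hpos] with s hs
    positivity
  refine ⟨∫ s, ∑ j ∈ Finset.range (K + 1), s ^ j * Real.exp (s ^ a / 2) ∂μ,
    integral_nonneg_of_ae hC0, ?_⟩
  intro B hB β θ hβ hβ1 hθ
  set C := ∫ s, ∑ j ∈ Finset.range (K + 1), s ^ j * Real.exp (s ^ a / 2) ∂μ with hC
  have hC' : 0 ≤ C := integral_nonneg_of_ae hC0
  have hl := phi_lap hν (add_nonneg hβ hθ)
  have hm := phi_momPoly ha0 hμ K β
  have hle : ∀ᵐ s ∂μ, ENNReal.ofReal (∑ j ∈ Finset.range (K + 1), (β * s) ^ j / (j.factorial : ℝ) -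
        Real.exp (-(B ^ a / 2)) * ∑ j ∈ Finset.range (K + 1), s ^ j * Real.exp (s ^ a / 2)) ≤
      (Set.Iic B).indicator (fun _ => (1 : ℝ≥0∞)) s * ENNReal.ofReal (Real.exp (β * s)) := by
    filter_upwards [hpos] with s hs
    by_cases hsx : s ∈ Set.Iic B
    · rw [Set.indicator_of_mem hsx, one_mul]
      apply ENNReal.ofReal_le_ofReal
      have h1 := Real.sum_le_exp_of_nonneg (mul_nonneg hβ hs.le) (K + 1)
      have h2 : 0 ≤ Real.exp (-(B ^ a / 2)) *
        ∑ j ∈ Finset.range (K + 1), s ^ j * Real.exp (s ^ a / 2) := by positivity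
      linarith
    · rw [Set.indicator_of_notMem hsx, zero_mul]
      have hsB : B < s := not_le.1 hsx
      rw [nonpos_iff_eq_zero, ENNReal.ofReal_eq_zero, sub_nonpos, Finset.mul_sum]
      refine Finset.sum_le_sum fun j _ => ?_
      have h1 : (1 : ℝ) ≤ Real.exp (-(B ^ a / 2)) * Real.exp (s ^ a / 2) := by
        rw [← Real.exp_add]
        apply Real.one_le_exp
        have : B ^ a ≤ s ^ a := Real.rpow_le_rpow hB hsB.le ha0.le
        linarith
      have h2 : (β * s) ^ j / (j.factorial : ℝ) ≤ s ^ j := by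
        have h3 : (β * s) ^ j ≤ s ^ j := by
          apply pow_le_pow_left₀ (by positivity)
          nlinarith
        have h4 : (1 : ℝ) ≤ (j.factorial : ℝ) := by
          exact_mod_cast Nat.one_le_iff_ne_zero.2 (Nat.factorial_ne_zero j)
        rw [div_le_iff₀ (by positivity)]
        have h5 : 0 ≤ s ^ j := by positivity
        nlinarith
      calc (β * s) ^ j / (j.factorial : ℝ) ≤ s ^ j := h2
        _ = s ^ j * 1 := (mul_one _).symm
        _ ≤ s ^ j * (Real.exp (-(B ^ a / 2)) * Real.exp (s ^ a / 2)) := by gcongr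
        _ = _ := by ring
  have hint : ENNReal.ofReal (momPoly μ K β - Real.exp (-(B ^ a / 2)) * C) ≤
      ∫⁻ s, (Set.Iic B).indicator (fun _ => (1 : ℝ≥0∞)) s *
      ENNReal.ofReal (Real.exp (β * s)) ∂μ := by
    refine le_trans ?_ (lintegral_mono_ae hle)
    have h1 : momPoly μ K β - Real.exp (-(B ^ a / 2)) * C =
        ∫ s, (∑ j ∈ Finset.range (K + 1), (β * s) ^ j / (j.factorial : ℝ) -
        Real.exp (-(B ^ a / 2)) *
          ∑ j ∈ Finset.range (K + 1), s ^ j * Real.exp (s ^ a / 2)) ∂μ := by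
      rw [integral_sub hm.1 (hi.const_mul _), hm.2, integral_const_mul]
    rw [h1]
    exact phi_ofReal_le (hm.1.sub (hi.const_mul _))
  rw [phi_factor hν hβ hθ]
  refine le_trans ?_ (mul_le_mul_left hint _)
  rw [← ENNReal.ofReal_mul' hl.2.1]
  apply ENNReal.ofReal_le_ofReal
  have h9 : 0 ≤ C * Real.exp (-(B ^ a / 2)) := by positivity
  nlinarith [mul_le_mul_of_nonneg_left hl.2.2 h9]

theorem trPhi_mono {B B' : ℝ} (h : B ≤ B') (β θ : ℝ) :
    trPhi μ ν B β θ ≤ trPhi μ ν B' β θ := by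
  refine lintegral_mono fun p => ?_
  refine mul_le_mul_left (Set.indicator_le_indicator_of_subset (Set.Iic_subset_Iic.2 h)
    (fun _ => zero_le) _) _

theorem lvlA_mono {B B' : ℝ} (h : B ≤ B') (θ : ℝ) (n : ℕ) :
    lvlA μ ν B θ n ≤ lvlA μ ν B' θ n := by
  refine lintegral_mono fun z => ?_
  exact Set.indicator_le_indicator_of_subset (allLe_mono h n) (fun _ => zero_le) z

theorem lvl_mono {B B' : ℝ} (h : B ≤ B') (θ : ℝ) (n : ℕ) (y : ℝ) :
    lvl μ ν B θ n y ≤ lvl μ ν B' θ n y := by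
  refine lintegral_mono fun z => ?_
  exact Set.indicator_le_indicator_of_subset (allLe_mono h n) (fun _ => zero_le) z

end stoch

end Pool.Agent.Lib.MP_04add8_pr
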