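import Mathlib
import Pool.Agent.Lib.MP_04add8_pr.One.Defs
import Pool.Agent.Lib.MP_04add8_pr.Two.WalkA
import Pool.Agent.Lib.MP_04add8_pr.Upper

open MeasureTheory ProbabilityTheory Filter Topology
open scoped ENNReal

set_option linter.unusedSectionVars false

namespace Pool.Agent.Lib.MP_04add8_pr

section QU_

variable {a : ℝ} {μ ν : Measure ℝ} [IsProbabilityMeasure μ] [IsProbabilityMeasure ν]

lemma qu_reflT_nonneg {τ r : ℝ} (hr : 0 ≤ r) (z : ℕ → ℝ × ℝ) (n : ℕ) : 0 ≤ reflT τ r z n := by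
  cases n with
  | zero => exact hr
  | succ n => exact le_max_right _ _

lemma qu_refl_le (τ : ℝ) (z : ℕ → ℝ × ℝ) (n : ℕ) : reflW 0 z n ≤ reflT τ 0 z n := by
  induction n with
  | zero => exact le_rfl
  | succ n ih =>
    rw [reflW_succ]
    change _ ≤ max (reflT τ 0 z n + (z n).1 - min (z n).2 τ) 0
    have := min_le_left (z n).2 τ
    exact max_le_max (by linarith) le_rfl

lemma qu_sumT_le (τ : ℝ) (z : ℕ → ℝ × ℝ) (n : ℕ) : sumT τ z n ≤ sumA z n :=
  Finset.sum_le_sum fun _ _ => min_le_left _ _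

lemma qu_sumT_nonneg {τ : ℝ} (hτ : 0 ≤ τ) {z : ℕ → ℝ × ℝ} (hz : ∀ k, 0 ≤ (z k).2) (n : ℕ) :
    0 ≤ sumT τ z n :=
  Finset.sum_nonneg fun _ _ => le_min (hz _) hτ

lemma qu_ae_snd (hν : ν (Set.Iio 0) = 0) : ∀ᵐ z ∂(noise μ ν), ∀ k, 0 ≤ (z k).2 :=
  ae_noise (p := fun p : ℝ × ℝ => 0 ≤ p.2)
    ((Measure.quasiMeasurePreserving_snd (μ := μ) (ν := ν)).ae (ae_nonneg_of_Iio hν))

lemma qu_lvlA_le (hν : ν (Set.Iio 0) = 0) {B τ h κ θ : ℝ} (hτ : 0 ≤ τ) (hh : 0 ≤ h)
    (hκ : κ ≤ 1) (h1 : (1 - κ) * h ≤ θ) (h2 : θ ≤ (1 + κ) * h) (n : ℕ) :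
    lvlA μ ν B θ n ≤ walkA μ ν B τ ((1 + κ) * h) ((1 - κ) * h) n 0 := by
  unfold lvlA walkA allLe
  apply lintegral_mono_ae
  filter_upwards [qu_ae_snd (μ := μ) hν] with z hz
  by_cases hm : z ∈ {z : ℕ → ℝ × ℝ | ∀ i < n, (z i).1 ≤ B}
  · rw [Set.indicator_of_mem hm, Set.indicator_of_mem hm]
    apply ENNReal.ofReal_le_ofReal
    apply Real.exp_le_exp.mpr
    have e0 : 0 ≤ reflT τ 0 z n := qu_reflT_nonneg le_rfl z n
    have e1 := qu_refl_le τ z n
    have e2 := qu_sumT_le τ z n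
    have e3 := qu_sumT_nonneg hτ hz n
    have hθ : 0 ≤ θ := le_trans (mul_nonneg (by linarith) hh) h1
    have f1 : θ * reflW 0 z n ≤ θ * reflT τ 0 z n := mul_le_mul_of_nonneg_left e1 hθ
    have f2 : θ * reflT τ 0 z n ≤ (1 + κ) * h * reflT τ 0 z n := mul_le_mul_of_nonneg_right h2 e0
    have f3 : θ * sumT τ z n ≤ θ * sumA z n := mul_le_mul_of_nonneg_left e2 hθ
    have f4 : (1 - κ) * h * sumT τ z n ≤ θ * sumT τ z n := mul_le_mul_of_nonneg_right h1 e3
    linarith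
  · rw [Set.indicator_of_notMem hm, Set.indicator_of_notMem hm]

theorem qsum_upper (ha0 : 0 < a) (ha1 : a < 1)
    (hμ : ∀ x, 0 ≤ x → μ (Set.Ioi x) = ENNReal.ofReal (Real.exp (-(x ^ a))))
    (hν : ν (Set.Iio 0) = 0) (hνi : Integrable (fun t : ℝ => t) ν)
    (hm : 0 < ∫ t, t ∂ν)
    (hgt : (∫ t, t ∂ν) < ∫ s, s ∂μ) (hlt : (∫ s, s ∂μ) < 2 * ∫ t, t ∂ν)
    {ω : ℝ} (hω : 0 < ω) :
    ∃ κ : ℝ, 0 < κ ∧ κ ≤ 1 / 2 ∧ ∀ b : ℝ, 0 < b → 4 * b ^ (1 - a) ≤ 1 / 2 →
      ∀ᶠ y : ℝ in atTop, ∀ θ : ℝ, |θ - a * y ^ (a - 1)| ≤ κ * (a * y ^ (a - 1)) → ∀ N : ℕ,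
        ∑ n ∈ Finset.range N, lvlA μ ν (b * y) θ n ≤
          ENNReal.ofReal ((1 + ω) / ((2 * (∫ t, t ∂ν) - ∫ s, s ∂μ) * (a * y ^ (a - 1)))) := by
  set E := ∫ s, s ∂μ with hE
  set m := ∫ t, t ∂ν with hmm
  set D := 2 * m - E with hD
  have hD0 : 0 < D := by linarith
  have hE0 : 0 < E := by linarith
  -- the truncation
  have hlim := tendsto_integral_min hν hνi
  set D' := D * (1 + ω / 2) / (1 + ω) with hD'
  have hD'0 : 0 < D' := by positivity
  have hD'lt : D' < D := by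
    rw [hD', div_lt_iff₀ (by positivity)]
    nlinarith
  have hev : ∀ᶠ n : ℕ in atTop, (D' + D) / 2 < 2 * (∫ t, min t (n : ℝ) ∂ν) - E := by
    have h1 : Tendsto (fun n : ℕ => 2 * (∫ t, min t (n : ℝ) ∂ν) - E) atTop (𝓝 (2 * m - E)) :=
      (hlim.const_mul 2).sub_const E
    exact h1.eventually_const_lt (by linarith)
  obtain ⟨n0, hn0, hn1⟩ := (hev.and (eventually_ge_atTop 1)).exists
  set τ : ℝ := (n0 : ℝ) with hτ
  have hτ0 : 0 < τ := by
    have : (1 : ℝ) ≤ n0 := by exact_mod_cast hn1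
    linarith
  set mτ := ∫ t, min t τ ∂ν with hmτ
  have hmτle : mτ ≤ m := by
    apply integral_mono_ae (min_integrable hν hτ0.le) hνi
    filter_upwards with t using min_le_left _ _
  have hgt' : mτ < E := by linarith
  set κ := min (1 / 2) ((D - D') / (4 * E)) with hκ
  have hκ0 : 0 < κ := lt_min (by norm_num) (div_pos (by linarith) (by positivity))
  have hκ1 : κ ≤ 1 / 2 := min_le_left _ _
  have hκ2 : κ * E ≤ (D - D') / 4 := by
    have : κ ≤ (D - D') / (4 * E) := min_le_right _ _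
    rw [le_div_iff₀ (by positivity)] at this
    linarith
  have hDκ : D' < 2 * mτ - (1 + κ) * E := by nlinarith
  refine ⟨κ, hκ0, hκ1, ?_⟩
  intro b hb hb4
  have hw := walkA_sum (τ := τ) (rp := 1 + κ) (rm := 1 - κ) (b := b) ha0 ha1 hμ hν hτ0 (by linarith)
    (by linarith) (by linarith) hb hb4 hgt' (by
      have e : (1 + κ + (1 - κ)) * mτ = 2 * mτ := by ring
      rw [e]
      linarith) (η := ω / 2) (by positivity)
  filter_upwards [hw, eventually_gt_atTop 0] with y hy hy0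
  intro θ hθ N
  have hh0 : 0 < a * y ^ (a - 1) := by positivity
  rw [abs_le] at hθ
  have h1 : (1 - κ) * (a * y ^ (a - 1)) ≤ θ := by linarith [hθ.1]
  have h2 : θ ≤ (1 + κ) * (a * y ^ (a - 1)) := by linarith [hθ.2]
  refine (Finset.sum_le_sum fun n _ => qu_lvlA_le (μ := μ) hν hτ0.le hh0.le (by linarith) h1 h2
    n).trans ((hy N 0 le_rfl).trans ?_)
  apply ENNReal.ofReal_le_ofReal
  rw [mul_zero, Real.exp_zero, mul_one]
  have e : (1 + κ + (1 - κ)) * mτ - (1 + κ) * E = 2 * mτ - (1 + κ) * E := by ring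
  rw [e]
  have g1 : (1 + ω / 2) / ((2 * mτ - (1 + κ) * E) * (a * y ^ (a - 1))) ≤
      (1 + ω / 2) / (D' * (a * y ^ (a - 1))) := by
    gcongr
  refine g1.trans (le_of_eq ?_)
  rw [hD']
  field_simp

/-! ### crude bound -/

lemma qu_integrable (ha0 : 0 < a)
    (hμ : ∀ x, 0 ≤ x → μ (Set.Ioi x) = ENNReal.ofReal (Real.exp (-(x ^ a)))) :
    Integrable (fun s : ℝ => s ^ 2 * Real.exp (s ^ a / 2)) μ := by
  have hpa : 0 < (2 : ℝ) / a := by positivity
  apply Integrable.mono' (g := fun s => ((2 / a) / (1 / 4)) ^ ((2 : ℝ) / a) *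
    Real.exp ((3 / 4) * s ^ a))
  · apply Integrable.const_mul
    exact weibull_integrable_exp ha0 hμ (by norm_num) (by norm_num)
  · fun_prop
  · filter_upwards [weibull_ae_pos ha0 hμ] with s hs
    rw [Real.norm_of_nonneg (by positivity)]
    have h1 := rpow_le_exp (p := (2 : ℝ) / a) (c := 1 / 4) (u := s ^ a) hpa (by norm_num)
      (by positivity)
    have h2 : (s ^ a) ^ ((2 : ℝ) / a) = s ^ 2 := by
      rw [← Real.rpow_mul hs.le, mul_div_cancel₀ _ ha0.ne', Real.rpow_two]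
    rw [h2] at h1
    calc s ^ 2 * Real.exp (s ^ a / 2)
        ≤ (((2 : ℝ) / a / (1 / 4)) ^ ((2 : ℝ) / a) * Real.exp (1 / 4 * s ^ a)) *
          Real.exp (s ^ a / 2) := by gcongr
      _ = ((2 / a) / (1 / 4)) ^ ((2 : ℝ) / a) * Real.exp ((3 / 4) * s ^ a) := by
          rw [mul_assoc, ← Real.exp_add]
          congr 2
          ring

lemma qu_small {x b c s : ℝ} (ha1 : a < 1) (hx : 0 < x) (hb : 0 < b)
    (hc : 0 ≤ c) (hcb : c * b ^ (1 - a) ≤ 1 / 2) (hs : 0 < s) (hsx : s ≤ b * x) :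
    c * x ^ (a - 1) * s ≤ s ^ a / 2 := by
  have h1 : x ^ (a - 1) * s = s ^ a * (s / x) ^ (1 - a) := by
    rw [Real.div_rpow hs.le hx.le]
    have e1 : s = s ^ a * s ^ (1 - a) := by
      rw [← Real.rpow_add hs]; simp
    have e2 : x ^ (a - 1) = (x ^ (1 - a))⁻¹ := by
      rw [← Real.rpow_neg hx.le]; congr 1; ring
    rw [e2, div_eq_mul_inv]
    conv_lhs => rw [e1]
    ring
  have h2 : (s / x) ^ (1 - a) ≤ b ^ (1 - a) := by
    apply Real.rpow_le_rpow (by positivity) _ (by linarith)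
    rw [div_le_iff₀ hx]; exact hsx
  have h3 : 0 < s ^ a := Real.rpow_pos_of_pos hs _
  calc c * x ^ (a - 1) * s = c * (s ^ a * (s / x) ^ (1 - a)) := by rw [← h1]; ring
    _ ≤ c * (s ^ a * b ^ (1 - a)) := by gcongr
    _ = s ^ a * (c * b ^ (1 - a)) := by ring
    _ ≤ s ^ a * (1 / 2) := by gcongr
    _ = s ^ a / 2 := by ring

lemma qu_exp1 (ha0 : 0 < a) (ha1 : a < 1)
    (hμ : ∀ x, 0 ≤ x → μ (Set.Ioi x) = ENNReal.ofReal (Real.exp (-(x ^ a))))
    {x b c θ : ℝ} (hx : 0 < x) (hb : 0 < b) (hc : 0 ≤ c) (hcb : c * b ^ (1 - a) ≤ 1 / 2)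
    (hθ0 : 0 ≤ θ) (hθ : θ ≤ c * x ^ (a - 1)) :
    Integrable ((Set.Iic (b * x)).indicator fun s => Real.exp (θ * s)) μ ∧
    ∫ s, (Set.Iic (b * x)).indicator (fun s => Real.exp (θ * s)) s ∂μ ≤
      1 + θ * (∫ s, s ∂μ) + θ ^ 2 * ∫ s, s ^ 2 * Real.exp (s ^ a / 2) ∂μ := by
  have h1 : Integrable (fun s : ℝ => s) μ := by
    simpa using weibull_integrable_pow ha0 hμ 1 (by norm_num)
  have h2 := qu_integrable ha0 hμ
  have hg : Integrable (fun s : ℝ => 1 + θ * s + θ ^ 2 * (s ^ 2 * Real.exp (s ^ a / 2))) μ :=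
    ((integrable_const _).add (h1.const_mul θ)).add (h2.const_mul _)
  have hle : ∀ᵐ s ∂μ, (Set.Iic (b * x)).indicator (fun s => Real.exp (θ * s)) s ≤
      1 + θ * s + θ ^ 2 * (s ^ 2 * Real.exp (s ^ a / 2)) := by
    filter_upwards [weibull_ae_pos ha0 hμ] with s hs
    by_cases hsx : s ∈ Set.Iic (b * x)
    · rw [Set.indicator_of_mem hsx]
      have h3 : θ * s ≤ s ^ a / 2 :=
        (mul_le_mul_of_nonneg_right hθ hs.le).trans (qu_small ha1 hx hb hc hcb hs hsx)
      have h4 := exp_le_one_add_add_sq_mul_exp (y := θ * s) (by positivity)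
      calc Real.exp (θ * s) ≤ 1 + θ * s + (θ * s) ^ 2 * Real.exp (θ * s) := h4
        _ ≤ 1 + θ * s + (θ * s) ^ 2 * Real.exp (s ^ a / 2) := by gcongr
        _ = _ := by ring
    · rw [Set.indicator_of_notMem hsx]
      positivity
  have hint : Integrable ((Set.Iic (b * x)).indicator fun s => Real.exp (θ * s)) μ := by
    apply Integrable.mono' hg
    · exact (by fun_prop : Measurable fun s : ℝ => Real.exp (θ * s)).aestronglyMeasurable.indicator
        measurableSet_Iic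
    · filter_upwards [hle] with s hs
      rw [Real.norm_of_nonneg (Set.indicator_nonneg (fun _ _ => (Real.exp_pos _).le) _)]
      exact hs
  refine ⟨hint, ?_⟩
  refine (integral_mono_ae hint hg hle).trans (le_of_eq ?_)
  rw [integral_add, integral_add, integral_const_mul, integral_const_mul]
  · simp
  · exact integrable_const _
  · exact h1.const_mul θ
  · exact (integrable_const _).add (h1.const_mul θ)
  · exact h2.const_mul _

/-- the truncated transform at the diagonal -/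
lemma qu_trPhi_le (ha0 : 0 < a) (ha1 : a < 1)
    (hμ : ∀ x, 0 ≤ x → μ (Set.Ioi x) = ENNReal.ofReal (Real.exp (-(x ^ a))))
    (hν : ν (Set.Iio 0) = 0)
    {x b c θ τ : ℝ} (hx : 0 < x) (hb : 0 < b) (hc : 0 ≤ c) (hcb : c * b ^ (1 - a) ≤ 1 / 2)
    (hθ0 : 0 ≤ θ) (hθ : θ ≤ c * x ^ (a - 1)) (hτ : 0 < τ) :
    trPhi μ ν (b * x) θ θ ≤ ENNReal.ofReal
      ((1 + θ * (∫ s, s ∂μ) + θ ^ 2 * ∫ s, s ^ 2 * Real.exp (s ^ a / 2) ∂μ) *
        (1 - 2 * θ * (∫ t, min t τ ∂ν) + (2 * θ) ^ 2 * τ ^ 2)) := by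
  obtain ⟨i1, b1⟩ := qu_exp1 ha0 ha1 hμ hx hb hc hcb hθ0 hθ
  obtain ⟨i3, b3⟩ := wk_nu (κ := 2 * θ) hν hτ (by positivity)
  set F1 : ℝ → ℝ := (Set.Iic (b * x)).indicator fun s => Real.exp (θ * s) with hF1
  set G : ℝ → ℝ := fun t => Real.exp (-(2 * θ * min t τ)) with hG
  have hF10 : ∀ s, 0 ≤ F1 s := fun s => Set.indicator_nonneg (fun _ _ => (Real.exp_pos _).le) _
  have hG0 : ∀ t, 0 ≤ G t := fun t => (Real.exp_pos _).le
  have hI : Integrable (fun p : ℝ × ℝ => F1 p.1 * G p.2) (μ.prod ν) := i1.mul_prod i3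
  have hae : ∀ᵐ p ∂(μ.prod ν), 0 ≤ p.2 :=
    (Measure.quasiMeasurePreserving_snd (μ := μ) (ν := ν)).ae (ae_nonneg_of_Iio hν)
  unfold trPhi
  calc ∫⁻ p, (Set.Iic (b * x)).indicator (fun _ => (1 : ℝ≥0∞)) p.1 *
        ENNReal.ofReal (Real.exp (θ * (p.1 - p.2) - θ * p.2)) ∂(μ.prod ν)
      ≤ ∫⁻ p : ℝ × ℝ, ENNReal.ofReal (F1 p.1 * G p.2) ∂(μ.prod ν) := by
        apply lintegral_mono_ae
        filter_upwards [hae] with p hp
        by_cases hp1 : p.1 ∈ Set.Iic (b * x)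
        · rw [Set.indicator_of_mem hp1, one_mul, hF1, Set.indicator_of_mem hp1, hG]
          apply ENNReal.ofReal_le_ofReal
          rw [← Real.exp_add]
          apply Real.exp_le_exp.mpr
          have : θ * min p.2 τ ≤ θ * p.2 := mul_le_mul_of_nonneg_left (min_le_left _ _) hθ0
          linarith
        · rw [Set.indicator_of_notMem hp1, zero_mul]
          simp
    _ = ENNReal.ofReal (∫ p : ℝ × ℝ, F1 p.1 * G p.2 ∂(μ.prod ν)) := by
        rw [ofReal_integral_eq_lintegral_ofReal hI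
          (Filter.Eventually.of_forall fun p => mul_nonneg (hF10 _) (hG0 _))]
    _ ≤ _ := by
        apply ENNReal.ofReal_le_ofReal
        rw [integral_prod_mul]
        have hI3 : 0 ≤ ∫ t, G t ∂ν := integral_nonneg hG0
        have hE0 : 0 ≤ ∫ s, s ∂μ := integral_nonneg_of_ae (by
          filter_upwards [weibull_ae_pos ha0 hμ] with s hs using hs.le)
        have hC0 : 0 ≤ ∫ s, s ^ 2 * Real.exp (s ^ a / 2) ∂μ := integral_nonneg fun s => by positivity
        apply mul_le_mul b1 b3 hI3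
        positivity

/-- one step for the discounted exponential moment -/
lemma qu_succ (B θ r : ℝ) (n : ℕ) :
    ∫⁻ z, (allLe B (n + 1)).indicator (fun z =>
      ENNReal.ofReal (Real.exp (θ * reflW r z (n + 1) - θ * sumA z (n + 1)))) z ∂(noise μ ν) =
    ∫⁻ p, ENNReal.ofReal ((Set.Iic B).indicator (fun _ => (1 : ℝ)) p.1 *
      Real.exp (-(θ * p.2))) * ∫⁻ z, (allLe B n).indicator (fun z =>
      ENNReal.ofReal (Real.exp (θ * reflW (max (r + p.1 - p.2) 0) z n - θ * sumA z n))) z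
      ∂(noise μ ν) ∂(μ.prod ν) := by
  have hmeas : ∀ (n : ℕ) (r : ℝ), Measurable ((allLe B n).indicator (fun z =>
      ENNReal.ofReal (Real.exp (θ * reflW r z n - θ * sumA z n)))) := by
    intro n r
    refine Measurable.indicator ?_ (measurableSet_allLe B n)
    exact ENNReal.measurable_ofReal.comp (Real.measurable_exp.comp
      (((measurable_reflW_right r n).const_mul θ).sub ((measurable_sumA n).const_mul θ)))
  rw [lintegral_noise_cons (hmeas (n + 1) r)]
  apply lintegral_congr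
  intro p
  rw [← lintegral_const_mul _ (hmeas n _)]
  apply lintegral_congr
  intro z
  by_cases hp : p.1 ∈ Set.Iic B
  · rw [Set.indicator_of_mem hp, one_mul]
    by_cases hz : z ∈ allLe B n
    · have hz' : gcons p z ∈ allLe B (n + 1) := (gcons_mem_allLe B n p z).mpr ⟨hp, hz⟩
      rw [Set.indicator_of_mem hz', Set.indicator_of_mem hz, reflW_gcons, sumA_gcons,
        ← ENNReal.ofReal_mul (Real.exp_pos _).le, ← Real.exp_add]
      congr 2
      ring
    · have hz' : gcons p z ∉ allLe B (n + 1) := fun h => hz ((gcons_mem_allLe B n p z).mp h).2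
      rw [Set.indicator_of_notMem hz', Set.indicator_of_notMem hz, mul_zero]
  · have hz' : gcons p z ∉ allLe B (n + 1) := fun h => hp ((gcons_mem_allLe B n p z).mp h).1
    rw [Set.indicator_of_notMem hz', Set.indicator_of_notMem hp]
    simp

lemma qu_crude_aux (hν : ν (Set.Iio 0) = 0) {B θ : ℝ} (hθ : 0 ≤ θ)
    (hphi : trPhi μ ν B θ θ ≤ 1) (n : ℕ) : ∀ r : ℝ, 0 ≤ r →
    ∫⁻ z, (allLe B n).indicator (fun z =>
      ENNReal.ofReal (Real.exp (θ * reflW r z n - θ * sumA z n))) z ∂(noise μ ν) ≤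
      ENNReal.ofReal (Real.exp (θ * r)) + n := by
  induction n with
  | zero =>
    intro r hr
    have : allLe B 0 = Set.univ := by ext z; simp [allLe]
    rw [this]
    simp [reflW_zero, sumA]
  | succ n ih =>
    intro r hr
    rw [qu_succ]
    have hae : ∀ᵐ p ∂(μ.prod ν), 0 ≤ p.2 :=
      (Measure.quasiMeasurePreserving_snd (μ := μ) (ν := ν)).ae (ae_nonneg_of_Iio hν)
    have hm1 : Measurable fun p : ℝ × ℝ => (Set.Iic B).indicator (fun _ => (1 : ℝ≥0∞)) p.1 *
        ENNReal.ofReal (Real.exp (θ * (p.1 - p.2) - θ * p.2)) := by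
      apply Measurable.mul
      · exact (measurable_const.indicator measurableSet_Iic).comp measurable_fst
      · fun_prop
    calc ∫⁻ p, ENNReal.ofReal ((Set.Iic B).indicator (fun _ => (1 : ℝ)) p.1 *
          Real.exp (-(θ * p.2))) * ∫⁻ z, (allLe B n).indicator (fun z =>
          ENNReal.ofReal (Real.exp (θ * reflW (max (r + p.1 - p.2) 0) z n - θ * sumA z n))) z
          ∂(noise μ ν) ∂(μ.prod ν)
        ≤ ∫⁻ p, (ENNReal.ofReal (Real.exp (θ * r)) *
            ((Set.Iic B).indicator (fun _ => (1 : ℝ≥0∞)) p.1 *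
              ENNReal.ofReal (Real.exp (θ * (p.1 - p.2) - θ * p.2))) + (1 + n)) ∂(μ.prod ν) := by
          apply lintegral_mono_ae
          filter_upwards [hae] with p hp
          by_cases hp1 : p.1 ∈ Set.Iic B
          · rw [Set.indicator_of_mem hp1, Set.indicator_of_mem hp1, one_mul, one_mul]
            have h1 := ih (max (r + p.1 - p.2) 0) (le_max_right _ _)
            have hE1 : Real.exp (-(θ * p.2)) ≤ 1 := by
              rw [Real.exp_le_one_iff]
              have := mul_nonneg hθ hp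
              linarith
            have hE2 : Real.exp (θ * max (r + p.1 - p.2) 0) ≤
                Real.exp (θ * (r + p.1 - p.2)) + 1 := by
              rcases le_total 0 (r + p.1 - p.2) with h | h
              · rw [max_eq_left h]; linarith
              · rw [max_eq_right h, mul_zero, Real.exp_zero]
                have := Real.exp_pos (θ * (r + p.1 - p.2))
                linarith
            calc ENNReal.ofReal (Real.exp (-(θ * p.2))) * _
                ≤ ENNReal.ofReal (Real.exp (-(θ * p.2))) *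
                  (ENNReal.ofReal (Real.exp (θ * max (r + p.1 - p.2) 0)) + n) := by gcongr
              _ ≤ ENNReal.ofReal (Real.exp (-(θ * p.2))) *
                  (ENNReal.ofReal (Real.exp (θ * (r + p.1 - p.2)) + 1) + n) := by gcongr
              _ = ENNReal.ofReal (Real.exp (-(θ * p.2)) * Real.exp (θ * (r + p.1 - p.2))) +
                  ENNReal.ofReal (Real.exp (-(θ * p.2))) * (1 + n) := by
                  rw [ENNReal.ofReal_add (Real.exp_pos _).le zero_le_one,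
                    ENNReal.ofReal_mul (Real.exp_pos _).le, ENNReal.ofReal_one]
                  ring
              _ ≤ ENNReal.ofReal (Real.exp (-(θ * p.2)) * Real.exp (θ * (r + p.1 - p.2))) +
                  ENNReal.ofReal 1 * (1 + n) := by gcongr
              _ = _ := by
                  rw [ENNReal.ofReal_one, one_mul, ← ENNReal.ofReal_mul (Real.exp_pos _).le,
                    ← Real.exp_add, ← Real.exp_add]
                  congr 3
                  ring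
          · rw [Set.indicator_of_notMem hp1]
            simp
      _ = ENNReal.ofReal (Real.exp (θ * r)) * trPhi μ ν B θ θ + (1 + n) := by
          rw [lintegral_add_right _ measurable_const, lintegral_const_mul _ hm1]
          simp [trPhi]
      _ ≤ ENNReal.ofReal (Real.exp (θ * r)) * 1 + (1 + n) := by gcongr
      _ = _ := by
          push_cast
          rw [mul_one]
          ring

theorem qsum_crude (ha0 : 0 < a) (ha1 : a < 1)
    (hμ : ∀ x, 0 ≤ x → μ (Set.Ioi x) = ENNReal.ofReal (Real.exp (-(x ^ a))))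
    (hν : ν (Set.Iio 0) = 0) (hνi : Integrable (fun t : ℝ => t) ν)
    (hlt : (∫ s, s ∂μ) < 2 * ∫ t, t ∂ν)
    {c b : ℝ} (hc : 0 < c) (hb : 0 < b) (hcb : c * b ^ (1 - a) ≤ 1 / 2) :
    ∀ᶠ x : ℝ in atTop, ∀ θ : ℝ, 0 ≤ θ → θ ≤ c * x ^ (a - 1) → ∀ n : ℕ,
      lvlA μ ν (b * x) θ n ≤ n + 1 := by
  set E := ∫ s, s ∂μ with hE
  have hev : ∀ᶠ n : ℕ in atTop, E < 2 * (∫ t, min t (n : ℝ) ∂ν) :=
    ((tendsto_integral_min hν hνi).const_mul 2).eventually_const_lt hlt
  obtain ⟨n0, hn0, hn1⟩ := (hev.and (eventually_ge_atTop 1)).exists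
  set τ : ℝ := (n0 : ℝ) with hτ
  have hτ0 : 0 < τ := by
    have : (1 : ℝ) ≤ n0 := by exact_mod_cast hn1
    linarith
  set mτ := ∫ t, min t τ ∂ν with hmτ
  set C := ∫ s, s ^ 2 * Real.exp (s ^ a / 2) ∂μ with hC
  -- the product is at most one for small θ
  have hsmall : ∀ᶠ θ in 𝓝 (0 : ℝ), 0 ≤ θ →
      (1 + θ * E + θ ^ 2 * C) * (1 - 2 * θ * mτ + (2 * θ) ^ 2 * τ ^ 2) ≤ 1 := by
    set Q : ℝ → ℝ := fun θ => (2 * mτ - E) - θ * (C - 2 * E * mτ + 4 * τ ^ 2) -
      θ ^ 2 * (4 * E * τ ^ 2 - 2 * C * mτ) - θ ^ 3 * (4 * C * τ ^ 2) with hQ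
    have hQc : Continuous Q := by rw [hQ]; fun_prop
    have hQ0 : Q 0 = 2 * mτ - E := by rw [hQ]; simp
    have h1 : ∀ᶠ θ in 𝓝 (0 : ℝ), 0 < Q θ := by
      have := hQc.tendsto 0
      rw [hQ0] at this
      exact this.eventually_const_lt (by linarith)
    filter_upwards [h1] with θ h2 h3
    have h4 : (1 + θ * E + θ ^ 2 * C) * (1 - 2 * θ * mτ + (2 * θ) ^ 2 * τ ^ 2) = 1 - θ * Q θ := by
      rw [hQ]; ring
    rw [h4]
    have := mul_nonneg h3 h2.le
    linarith
  rw [Metric.eventually_nhds_iff] at hsmall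
  obtain ⟨ε, hε, hsm⟩ := hsmall
  have hlim : ∀ᶠ x : ℝ in atTop, c * x ^ (a - 1) < ε := by
    have h2 := (tendsto_rpow_neg_atTop (y := 1 - a) (by linarith)).const_mul c
    rw [mul_zero] at h2
    have h3 := h2.eventually_lt_const hε
    filter_upwards [h3] with x hx
    have : a - 1 = -(1 - a) := by ring
    rw [this]
    exact hx
  filter_upwards [hlim, eventually_gt_atTop 0] with x hx hx0
  intro θ hθ0 hθ n
  have hphi : trPhi μ ν (b * x) θ θ ≤ 1 := by
    refine (qu_trPhi_le ha0 ha1 hμ hν hx0 hb hc.le hcb hθ0 hθ hτ0).trans ?_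
    rw [← ENNReal.ofReal_one]
    apply ENNReal.ofReal_le_ofReal
    apply hsm _ hθ0
    rw [Real.dist_eq, sub_zero, abs_of_nonneg hθ0]
    linarith
  have h1 := qu_crude_aux (μ := μ) hν hθ0 hphi n 0 le_rfl
  rw [mul_zero, Real.exp_zero, ENNReal.ofReal_one] at h1
  unfold lvlA
  refine h1.trans (le_of_eq ?_)
  ring

end QU_

end Pool.Agent.Lib.MP_04add8_pr
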