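import Mathlib
import Pool.Agent.Lib.MP_04add8_pr.One.Defs

open MeasureTheory ProbabilityTheory Filter Topology
open scoped ENNReal

set_option linter.unusedSectionVars false

namespace Pool.Agent.Lib.MP_04add8_pr

/-! ## module Union -/

lemma measurableSet_oneBig (x y0 B : ℝ) (n : ℕ) : MeasurableSet (oneBig x y0 B n) := by
  have h0 : Measurable (fun q : (ℝ × ℝ) × (ℕ → ℝ × ℝ) => (q.2 0).1) := by fun_prop
  have h1 : MeasurableSet {q : (ℝ × ℝ) × (ℕ → ℝ × ℝ) | y0 < (q.2 0).1} :=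
    measurableSet_lt measurable_const h0
  have h2 : MeasurableSet {q : (ℝ × ℝ) × (ℕ → ℝ × ℝ) | ∀ i < n, (q.2 (i + 1)).1 ≤ B} := by
    have : {q : (ℝ × ℝ) × (ℕ → ℝ × ℝ) | ∀ i < n, (q.2 (i + 1)).1 ≤ B} =
        ⋂ i ∈ Finset.range n, {q : (ℝ × ℝ) × (ℕ → ℝ × ℝ) | (q.2 (i + 1)).1 ≤ B} := by
      ext q; simp
    rw [this]
    refine Finset.measurableSet_biInter _ fun i _ => ?_
    exact measurableSet_le (by fun_prop) measurable_const
  have h3 : MeasurableSet {q : (ℝ × ℝ) × (ℕ → ℝ × ℝ) | x < (pIter q.1 q.2 (n + 1)).1} :=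
    measurableSet_lt measurable_const (measurable_fst.comp (measurable_pIter (n + 1)))
  exact h1.inter (h2.inter h3)

section stoch

variable {μ ν : Measure ℝ} [IsProbabilityMeasure μ] [IsProbabilityMeasure ν]

lemma Union_law {π : Measure (ℝ × ℝ)} (hπ : IsStationaryKW μ ν π) (x : ℝ) (N : ℕ) :
    π {w | x < w.1} = (π.prod (noise μ ν)) {q | x < (pIter q.1 q.2 N).1} := by
  have hp := hπ.1
  have h1 : MeasurableSet {q : (ℝ × ℝ) × (ℕ → ℝ × ℝ) | x < q.1.1} :=
    measurableSet_lt measurable_const (measurable_fst.comp measurable_fst)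
  have h2 := (hπ.measurePreserving_path N).measure_preimage h1.nullMeasurableSet
  have h3 : pathShift N ⁻¹' {q : (ℝ × ℝ) × (ℕ → ℝ × ℝ) | x < q.1.1} =
      {q : (ℝ × ℝ) × (ℕ → ℝ × ℝ) | x < (pIter q.1 q.2 N).1} := rfl
  rw [h3] at h2
  rw [h2]
  have h4 : {q : (ℝ × ℝ) × (ℕ → ℝ × ℝ) | x < q.1.1} =
      {w : ℝ × ℝ | x < w.1} ×ˢ (Set.univ : Set (ℕ → ℝ × ℝ)) := by
    ext q; simp
  rw [h4, Measure.prod_prod, measure_univ, mul_one]

lemma Union_shift {π : Measure (ℝ × ℝ)} (hπ : IsStationaryKW μ ν π) (x y0 B : ℝ) (n i : ℕ) :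
    (π.prod (noise μ ν)) (pathShift i ⁻¹' oneBig x y0 B n) =
      (π.prod (noise μ ν)) (oneBig x y0 B n) :=
  (hπ.measurePreserving_path i).measure_preimage (measurableSet_oneBig x y0 B n).nullMeasurableSet

lemma Union_mem (x y0 B : ℝ) (n i : ℕ) (q : (ℝ × ℝ) × (ℕ → ℝ × ℝ)) :
    q ∈ pathShift i ⁻¹' oneBig x y0 B n ↔
      y0 < (q.2 i).1 ∧ (∀ j < n, (q.2 (i + (j + 1))).1 ≤ B) ∧
        x < (pIter q.1 q.2 (i + (n + 1))).1 := by
  rw [pIter_add]
  exact Iff.rfl

theorem union_upper {π : Measure (ℝ × ℝ)} (hπ : IsStationaryKW μ ν π) (x B : ℝ) (N : ℕ) :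
    π {w | x < w.1} ≤ ∑ n ∈ Finset.range N, (π.prod (noise μ ν)) (oneBig x B B n) +
      (π.prod (noise μ ν)) {q | q.2 ∈ allLe B N ∧ x < (pIter q.1 q.2 N).1} := by
  rw [Union_law hπ x N]
  have hsub : {q : (ℝ × ℝ) × (ℕ → ℝ × ℝ) | x < (pIter q.1 q.2 N).1} ⊆
      (⋃ n ∈ Finset.range N, pathShift (N - 1 - n) ⁻¹' oneBig x B B n) ∪
        {q | q.2 ∈ allLe B N ∧ x < (pIter q.1 q.2 N).1} := by
    intro q hq
    by_cases hall : ∀ i < N, (q.2 i).1 ≤ B
    · exact Or.inr ⟨hall, hq⟩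
    · left
      push Not at hall
      obtain ⟨i0, hi0, hBi0⟩ := hall
      classical
      set T : Finset ℕ := (Finset.range N).filter (fun i => B < (q.2 i).1) with hT
      have hTne : T.Nonempty := ⟨i0, Finset.mem_filter.2 ⟨Finset.mem_range.2 hi0, hBi0⟩⟩
      set i := T.max' hTne with hi
      have hiT : i ∈ T := T.max'_mem hTne
      obtain ⟨hiN, hBi⟩ := Finset.mem_filter.1 hiT
      have hiN' : i < N := Finset.mem_range.1 hiN
      rw [Set.mem_iUnion₂]
      refine ⟨N - 1 - i, Finset.mem_range.2 (by omega), ?_⟩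
      have hii : N - 1 - (N - 1 - i) = i := by omega
      rw [hii, Union_mem]
      refine ⟨hBi, fun j hj => ?_, ?_⟩
      · by_contra hcon
        push Not at hcon
        have hmem : i + (j + 1) ∈ T :=
          Finset.mem_filter.2 ⟨Finset.mem_range.2 (by omega), hcon⟩
        have := T.le_max' _ hmem
        omega
      · have hN : i + (N - 1 - i + 1) = N := by omega
        rw [hN]
        exact hq
  refine (measure_mono hsub).trans ((measure_union_le _ _).trans ?_)
  refine add_le_add_left ?_ _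
  refine (measure_biUnion_finset_le _ _).trans ?_
  exact Finset.sum_le_sum fun n _ => (Union_shift hπ x B B n (N - 1 - n)).le

theorem union_lower {π : Measure (ℝ × ℝ)} (hπ : IsStationaryKW μ ν π) {x y0 B : ℝ}
    (hB : B ≤ y0) (N : ℕ) :
    ∑ n ∈ Finset.range N, (π.prod (noise μ ν)) (oneBig x y0 B n) ≤ π {w | x < w.1} := by
  rw [Union_law hπ x N]
  have key : ∀ n n' : ℕ, n < N → n < n' → ∀ q,
      q ∈ pathShift (N - 1 - n) ⁻¹' oneBig x y0 B n →
      q ∈ pathShift (N - 1 - n') ⁻¹' oneBig x y0 B n' → n' < N → False := by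
    intro n n' hn hnn' q hq hq' hn'
    rw [Union_mem] at hq hq'
    have h1 := hq.1
    have h2 := hq'.2.1 (n' - n - 1) (by omega)
    have h3 : N - 1 - n' + (n' - n - 1 + 1) = N - 1 - n := by omega
    rw [h3] at h2
    linarith
  have hdisj : (↑(Finset.range N) : Set ℕ).PairwiseDisjoint
      (fun n => pathShift (N - 1 - n) ⁻¹' oneBig x y0 B n) := by
    intro n hn n' hn' hne
    have hn1 : n < N := Finset.mem_range.1 (Finset.mem_coe.1 hn)
    have hn2 : n' < N := Finset.mem_range.1 (Finset.mem_coe.1 hn')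
    refine Set.disjoint_left.2 fun q hq hq' => ?_
    rcases lt_or_gt_of_ne hne with hlt | hlt
    · exact key n n' hn1 hlt q hq hq' hn2
    · exact key n' n hn2 hlt q hq' hq hn1
  have hmeas : ∀ n ∈ Finset.range N,
      MeasurableSet (pathShift (N - 1 - n) ⁻¹' oneBig x y0 B n) := fun n _ =>
    (measurable_pathShift (N - 1 - n)) (measurableSet_oneBig x y0 B n)
  calc ∑ n ∈ Finset.range N, (π.prod (noise μ ν)) (oneBig x y0 B n)
      = ∑ n ∈ Finset.range N,
        (π.prod (noise μ ν)) (pathShift (N - 1 - n) ⁻¹' oneBig x y0 B n) :=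
        Finset.sum_congr rfl fun n _ => (Union_shift hπ x y0 B n (N - 1 - n)).symm
    _ = (π.prod (noise μ ν))
        (⋃ n ∈ Finset.range N, pathShift (N - 1 - n) ⁻¹' oneBig x y0 B n) :=
        (measure_biUnion_finset hdisj hmeas).symm
    _ ≤ _ := by
        refine measure_mono ?_
        intro q hq
        rw [Set.mem_iUnion₂] at hq
        obtain ⟨n, hn, hq⟩ := hq
        rw [Union_mem] at hq
        have hn' : n < N := Finset.mem_range.1 hn
        have hN : N - 1 - n + (n + 1) = N := by omega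
        have := hq.2.2
        rw [hN] at this
        exact this

end stoch

end Pool.Agent.Lib.MP_04add8_pr
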