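import Mathlib
import Pool.Agent.Lib.MP_04add8_pr.One.DetU
import Pool.Agent.Lib.MP_04add8_pr.One.DetL
import Pool.Agent.Lib.MP_04add8_pr.One.Rev
import Pool.Agent.Lib.MP_04add8_pr.One.Lvl
import Pool.Agent.Lib.MP_04add8_pr.One.Phi
import Pool.Agent.Lib.MP_04add8_pr.One.BetaA
import Pool.Agent.Lib.MP_04add8_pr.One.BetaB
import Pool.Agent.Lib.MP_04add8_pr.One.Opt
import Pool.Agent.Lib.MP_04add8_pr.One.QU
import Pool.Agent.Lib.MP_04add8_pr.One.QL
import Pool.Agent.Lib.MP_04add8_pr.One.Ret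
import Pool.Agent.Lib.MP_04add8_pr.One.BadBig
import Pool.Agent.Lib.MP_04add8_pr.One.Union
import Pool.Agent.Lib.MP_04add8_pr.Two.UpperTwo

open MeasureTheory ProbabilityTheory Filter Topology
open scoped ENNReal

set_option linter.unusedSectionVars false

namespace Pool.Agent.Lib.MP_04add8_pr

variable {a : ℝ} {μ ν : Measure ℝ} [IsProbabilityMeasure μ] [IsProbabilityMeasure ν]

lemma measure_Ioi_le (hμ : ∀ x, 0 ≤ x → μ (Set.Ioi x) = ENNReal.ofReal (Real.exp (-(x ^ a))))
    (ha0 : 0 < a) (X : ℝ) :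
    (μ.prod ν) {p : ℝ × ℝ | X < p.1} ≤ ENNReal.ofReal (Real.exp (-((max X 0) ^ a))) := by
  have h1 : {p : ℝ × ℝ | X < p.1} = Set.Ioi X ×ˢ Set.univ := by
    ext p; simp
  rw [h1, Measure.prod_prod, measure_univ, mul_one]
  rcases le_or_gt 0 X with h | h
  · rw [max_eq_left h, hμ X h]
  · rw [max_eq_right h.le, Real.zero_rpow ha0.ne']
    simp only [neg_zero, Real.exp_zero, ENNReal.ofReal_one]
    exact prob_le_one

lemma measurable_sumA_right (n : ℕ) : Measurable (fun z : ℕ → ℝ × ℝ => sumA z n) :=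
  measurable_sumA n

lemma measurable_reflW_pair (n : ℕ) :
    Measurable (fun q : (ℝ × ℝ) × (ℕ → ℝ × ℝ) => reflW q.1.2 q.2 n) :=
  (measurable_reflW n).comp ((measurable_snd.comp measurable_fst).prodMk measurable_snd)

/-- one big job from a small state -/
lemma oneBig_small (ha0 : 0 < a)
    (hμ : ∀ x, 0 ≤ x → μ (Set.Ioi x) = ENNReal.ofReal (Real.exp (-(x ^ a))))
    (hν : ν (Set.Iio 0) = 0) {x B e : ℝ} (hx : 0 ≤ x) (he : 0 ≤ e) (hB : B ≤ e)
    {R : ℝ≥0∞} (n : ℕ)
    (hR : ∀ v : ℝ × ℝ, 0 ≤ v.1 → v.1 ≤ v.2 → (noise μ ν) (allLe B n ∩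
      {z | (∃ k ≤ n, (pIter v z k).2 ≤ e) ∧ x < (pIter v z n).1}) ≤ R)
    {w : ℝ × ℝ} (h0 : 0 ≤ w.1) (h1 : w.1 ≤ w.2) (h2 : w.2 ≤ e) :
    (noise μ ν) {z | (w, z) ∈ oneBig x B B n} ≤ mainOne μ ν a x B n w + R := by
  have hmeas : MeasurableSet {z | (w, z) ∈ oneBig x B B n} :=
    measurable_prodMk_left (measurableSet_oneBig x B B n)
  set X' : (ℕ → ℝ × ℝ) → ℝ := fun z => 2 * x + sumA z n - w.1 - reflW w.2 z n with hX'
  have hX'm : Measurable X' := by
    have := measurable_reflW_right w.2 n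
    have h3 := measurable_sumA (n := n)
    rw [hX']
    fun_prop
  have hrm := measurable_reflW_right w.2 n
  set G : ℝ × ℝ → Set (ℕ → ℝ × ℝ) := fun p => allLe B n ∩
      {z | (∃ k ≤ n, (pIter (kwStep w p.1 p.2) z k).2 ≤ e) ∧
        x < (pIter (kwStep w p.1 p.2) z n).1} with hG
  set F : (ℝ × ℝ) × (ℕ → ℝ × ℝ) → ℝ≥0∞ := fun q =>
    ({q : (ℝ × ℝ) × (ℕ → ℝ × ℝ) | q.2 ∈ allLe B n ∧ x < reflW w.2 q.2 n ∧
      X' q.2 < q.1.1}).indicator (fun _ => 1) q with hF
  have hFset : MeasurableSet {q : (ℝ × ℝ) × (ℕ → ℝ × ℝ) | q.2 ∈ allLe B n ∧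
      x < reflW w.2 q.2 n ∧ X' q.2 < q.1.1} := by
    refine MeasurableSet.inter (measurable_snd (measurableSet_allLe B n)) ?_
    refine MeasurableSet.inter (measurableSet_lt measurable_const (hrm.comp measurable_snd)) ?_
    exact measurableSet_lt (hX'm.comp measurable_snd) (by fun_prop)
  have hFm : Measurable F := measurable_const.indicator hFset
  rw [← lintegral_indicator_one hmeas, lintegral_noise_cons (measurable_one.indicator hmeas)]
  have hnn := ae_noise_nonneg (μ := μ) (ν := ν) ha0 hμ hν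
  have hpp : ∀ᵐ p ∂(μ.prod ν), 0 ≤ p.1 ∧ 0 ≤ p.2 := by
    have h3 : ∀ᵐ p ∂(μ.prod ν), 0 ≤ p.1 := by
      have := (Measure.quasiMeasurePreserving_fst (μ := μ) (ν := ν)).ae
        ((weibull_ae_pos ha0 hμ).mono fun s hs => hs.le)
      exact this
    have h4 : ∀ᵐ p ∂(μ.prod ν), 0 ≤ p.2 := by
      have := (Measure.quasiMeasurePreserving_snd (μ := μ) (ν := ν)).ae (ae_nonneg_of_Iio hν)
      exact this
    filter_upwards [h3, h4] with p hp1 hp2 using ⟨hp1, hp2⟩
  have hkey : ∀ᵐ p ∂(μ.prod ν), ∫⁻ z, ({z | (w, z) ∈ oneBig x B B n} :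
      Set (ℕ → ℝ × ℝ)).indicator 1 (gcons p z) ∂(noise μ ν) ≤
      ∫⁻ z, F (p, z) ∂(noise μ ν) + R := by
    filter_upwards [hpp] with p hp
    have hGm : MeasurableSet (G p) := by
      rw [hG]
      refine (measurableSet_allLe B n).inter ?_
      have e1 : {z : ℕ → ℝ × ℝ | (∃ k ≤ n, (pIter (kwStep w p.1 p.2) z k).2 ≤ e) ∧
          x < (pIter (kwStep w p.1 p.2) z n).1} =
          (⋃ k ∈ Finset.range (n + 1), {z : ℕ → ℝ × ℝ |
            (pIter (kwStep w p.1 p.2) z k).2 ≤ e}) ∩
          {z | x < (pIter (kwStep w p.1 p.2) z n).1} := by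
        ext z
        simp [Nat.lt_succ_iff]
      rw [e1]
      refine MeasurableSet.inter (Finset.measurableSet_biUnion _ fun k _ => ?_) ?_
      · exact measurableSet_le (measurable_pIter_right _ k).snd measurable_const
      · exact measurableSet_lt measurable_const (measurable_pIter_right _ n).fst
    calc ∫⁻ z, ({z | (w, z) ∈ oneBig x B B n} :
          Set (ℕ → ℝ × ℝ)).indicator 1 (gcons p z) ∂(noise μ ν)
        ≤ ∫⁻ z, (F (p, z) + (G p).indicator 1 z) ∂(noise μ ν) := by
          apply lintegral_mono_ae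
          filter_upwards [hnn] with z hz
          by_cases hmem : gcons p z ∈ {z | (w, z) ∈ oneBig x B B n}
          · rw [Set.indicator_of_mem hmem]
            obtain ⟨hb1, hb2, hb3⟩ := hmem
            have hb2' : z ∈ allLe B n := fun i hi => hb2 i hi
            have hb3' : x < (pIter (kwStep w p.1 p.2) z n).1 := by
              have : (pIter w (gcons p z) (n + 1)).1 = (pIter (kwStep w p.1 p.2) z n).1 := by
                rw [pIter_gcons]
              rw [← this]; exact hb3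
            obtain ⟨hr, hor⟩ := det_one_upper hx he h0 h1 h2 hp hz n
              (fun k hk => (hb2' k hk).trans hB) hb3'
            rcases hor with hor | hor
            · have : F (p, z) = 1 := by
                rw [hF]
                exact Set.indicator_of_mem (s := {q : (ℝ × ℝ) × (ℕ → ℝ × ℝ) | q.2 ∈ allLe B n ∧
                  x < reflW w.2 q.2 n ∧ X' q.2 < q.1.1}) ⟨hb2', hr, hor⟩ _
              rw [this]
              exact le_self_add
            · have : (G p).indicator (1 : (ℕ → ℝ × ℝ) → ℝ≥0∞) z = 1 :=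
                Set.indicator_of_mem (s := G p) ⟨hb2', hor, hb3'⟩ _
              rw [this]
              exact le_add_self
          · rw [Set.indicator_of_notMem hmem]
            exact zero_le
      _ = ∫⁻ z, F (p, z) ∂(noise μ ν) + (noise μ ν) (G p) := by
          have hFp : Measurable fun z : ℕ → ℝ × ℝ => F (p, z) := hFm.comp measurable_prodMk_left
          rw [lintegral_add_left hFp, lintegral_indicator_one hGm]
      _ ≤ _ := by
          gcongr
          exact hR _ (kwStep_fst_nonneg _ _ _) (kwStep_fst_le_snd _ _ _)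
  refine (lintegral_mono_ae hkey).trans ?_
  rw [lintegral_add_right _ measurable_const]
  simp only [lintegral_const, measure_univ, mul_one]
  gcongr
  rw [lintegral_lintegral_swap hFm.aemeasurable]
  unfold mainOne
  apply lintegral_mono
  intro z
  by_cases hz : z ∈ allLe B n
  · rw [Set.indicator_of_mem hz]
    by_cases hr : x < reflW w.2 z n
    · rw [if_pos hr]
      have e1 : (fun p : ℝ × ℝ => F (p, z)) = ({p : ℝ × ℝ | X' z < p.1}).indicator 1 := by
        funext p
        by_cases hpz : X' z < p.1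
        · have e2 : F (p, z) = 1 := by
            rw [hF]
            exact Set.indicator_of_mem (s := {q : (ℝ × ℝ) × (ℕ → ℝ × ℝ) | q.2 ∈ allLe B n ∧
                  x < reflW w.2 q.2 n ∧ X' q.2 < q.1.1}) ⟨hz, hr, hpz⟩ _
          rw [e2, Set.indicator_of_mem (by exact hpz)]
          rfl
        · have e2 : F (p, z) = 0 := by
            rw [hF]
            exact Set.indicator_of_notMem (s := {q : (ℝ × ℝ) × (ℕ → ℝ × ℝ) | q.2 ∈ allLe B n ∧
                  x < reflW w.2 q.2 n ∧ X' q.2 < q.1.1}) (fun h => hpz h.2.2) _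
          rw [e2, Set.indicator_of_notMem (by exact hpz)]
      have e3 : MeasurableSet {p : ℝ × ℝ | X' z < p.1} :=
        measurableSet_lt measurable_const measurable_fst
      change ∫⁻ p, F (p, z) ∂(μ.prod ν) ≤ _
      rw [e1, lintegral_indicator_one e3]
      exact measure_Ioi_le hμ ha0 _
    · rw [if_neg hr]
      have e1 : ∀ p : ℝ × ℝ, F (p, z) = 0 := by
        intro p
        rw [hF]
        exact Set.indicator_of_notMem (s := {q : (ℝ × ℝ) × (ℕ → ℝ × ℝ) | q.2 ∈ allLe B n ∧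
                  x < reflW w.2 q.2 n ∧ X' q.2 < q.1.1}) (fun h => hr h.2.1) _
      simp [e1]
  · rw [Set.indicator_of_notMem hz]
    have e1 : ∀ p : ℝ × ℝ, F (p, z) = 0 := by
      intro p
      rw [hF]
      exact Set.indicator_of_notMem (s := {q : (ℝ × ℝ) × (ℕ → ℝ × ℝ) | q.2 ∈ allLe B n ∧
                  x < reflW w.2 q.2 n ∧ X' q.2 < q.1.1}) (fun h => hz h.1) _
    simp [e1]

end Pool.Agent.Lib.MP_04add8_pr
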