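import Mathlib
import Pool.Agent.Lib.MP_04add8_pr.One.LowCore

open MeasureTheory ProbabilityTheory Filter Topology
open scoped ENNReal

set_option linter.unusedSectionVars false

namespace Pool.Agent.Lib.MP_04add8_pr

variable {a : ℝ} {μ ν : Measure ℝ} [IsProbabilityMeasure μ] [IsProbabilityMeasure ν]

lemma exists_t {η ω : ℝ} (hη : 0 < η) (hω : 0 < ω) :
    ∃ t : ℝ, 0 < t ∧ t ≤ 1 / 4 ∧ η * t ≤ 1 ∧ 1 - ω ≤ lowC η t := by
  have h1 : Tendsto (lowC η) (𝓝[>] 0) (𝓝 (lowC η 0)) := by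
    apply Tendsto.mono_left _ nhdsWithin_le_nhds
    have : ContinuousAt (lowC η) 0 := by
      unfold lowC
      apply ContinuousAt.div
      · fun_prop
      · fun_prop
      · norm_num
    exact this
  have h2 : lowC η 0 = 1 := by unfold lowC; norm_num
  rw [h2] at h1
  have h3 : ∀ᶠ t : ℝ in 𝓝[>] 0, t < 1 / 4 :=
    Filter.Eventually.filter_mono nhdsWithin_le_nhds (gt_mem_nhds (by norm_num))
  have h4 : ∀ᶠ t : ℝ in 𝓝[>] 0, t < 1 / η :=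
    Filter.Eventually.filter_mono nhdsWithin_le_nhds (gt_mem_nhds (by positivity))
  obtain ⟨t, a1, a2, a3, a4⟩ := ((h1.eventually_const_lt (show 1 - ω < 1 by linarith)).and
    (h3.and (h4.and self_mem_nhdsWithin))).exists
  refine ⟨t, a4, a2.le, ?_, a1.le⟩
  rw [lt_div_iff₀ hη] at a3
  linarith

lemma exists_tau {t : ℝ} (ht : 0 < t) :
    ∃ τ : ℝ, 0 ≤ τ ∧ ENNReal.ofReal (1 - t) ≤ ν (Set.Iic τ) := by
  have h1 : Tendsto (fun n : ℕ => ν (Set.Iic (n : ℝ))) atTop (𝓝 (ν Set.univ)) := by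
    have e : (Set.univ : Set ℝ) = ⋃ n : ℕ, Set.Iic (n : ℝ) := by
      ext x
      simp only [Set.mem_univ, Set.mem_iUnion, Set.mem_Iic, true_iff]
      exact exists_nat_ge x
    rw [e]
    apply tendsto_measure_iUnion_atTop
    intro i j hij
    exact Set.Iic_subset_Iic.mpr (by exact_mod_cast hij)
  rw [measure_univ] at h1
  have h2 : ENNReal.ofReal (1 - t) < 1 := by
    rw [← ENNReal.ofReal_one]
    exact (ENNReal.ofReal_lt_ofReal_iff one_pos).mpr (by linarith)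
  obtain ⟨n, hn⟩ := (h1.eventually_const_lt h2).exists
  exact ⟨n, Nat.cast_nonneg n, hn.le⟩

lemma pow_one_add_le_exp {u : ℝ} (hu : 0 ≤ u) (M : ℕ) : (1 + u) ^ M ≤ Real.exp (M * u) := by
  rw [Real.exp_nat_mul]
  have := Real.add_one_le_exp u
  gcongr
  linarith

lemma pow_one_sub_le_exp {u : ℝ} (hu : u ≤ 1) (M : ℕ) :
    (1 - u) ^ M ≤ Real.exp (-(M * u)) := by
  have e : -(M * u) = M * (-u) := by ring
  rw [e, Real.exp_nat_mul]
  have := Real.add_one_le_exp (-u)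
  have h1 : 0 ≤ 1 - u := by linarith
  gcongr
  linarith

lemma low_pow {t u : ℝ} {N : ℕ} (hu0 : 0 ≤ u) (hu1 : u ≤ 1) (hN : N * u ≤ t) :
    1 - t ≤ (1 - u) ^ N := by
  have := one_add_mul_le_pow (show -2 ≤ -u by linarith) N
  have e5 : (1 + -u) ^ N = (1 - u) ^ N := by ring
  rw [e5] at this
  linarith

lemma low_B {a η x θ t : ℝ} (ha0 : 0 < a) (hη0 : 0 < η) (hx0 : 0 < x) (hθ : 0 < θ)
    (ht : 0 < t) (hθ3h : θ ≤ 2 * (a * (η * x) ^ (a - 1))) :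
    (t / (2 * a) * η ^ (1 - a)) ^ a / 2 * x ^ (a * (1 - a)) ≤ (t / θ) ^ a / 2 := by
  have hy0 : 0 < η * x := by positivity
  have h7 : t / (2 * a) * η ^ (1 - a) * x ^ (1 - a) ≤ t / θ := by
    have e2 : (η * x) ^ (a - 1) * (η * x) ^ (1 - a) = 1 := by
      rw [← Real.rpow_add hy0]
      have : a - 1 + (1 - a) = 0 := by ring
      rw [this, Real.rpow_zero]
    have e3 : (η * x) ^ (1 - a) = η ^ (1 - a) * x ^ (1 - a) :=
      Real.mul_rpow hη0.le hx0.le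
    rw [le_div_iff₀ hθ, mul_assoc (t / (2 * a)), ← e3]
    calc t / (2 * a) * (η * x) ^ (1 - a) * θ
        ≤ t / (2 * a) * (η * x) ^ (1 - a) * (2 * (a * (η * x) ^ (a - 1))) := by gcongr
      _ = t * ((η * x) ^ (a - 1) * (η * x) ^ (1 - a)) := by field_simp
      _ = t := by rw [e2, mul_one]
  have h9 : (t / (2 * a) * η ^ (1 - a) * x ^ (1 - a)) ^ a ≤ (t / θ) ^ a := by gcongr
  rw [Real.mul_rpow (by positivity) (by positivity), ← Real.rpow_mul hx0.le] at h9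
  have e4 : (1 - a) * a = a * (1 - a) := by ring
  rw [e4] at h9
  linarith

lemma low_err {C1 η θ d β : ℝ} {K : ℕ} (hK1 : 1 ≤ K) (hC1 : 0 ≤ C1) (hη0 : 0 < η) (hθ : 0 < θ)
    (hθ1 : θ ≤ 1) (hd : 0 < d) (hθd : θ ≤ d / (4 * (C1 * η ^ (K + 1) + 1))) (hβ : 0 ≤ β)
    (hβη : β ≤ η * θ) : C1 * β ^ (K + 1) ≤ d / 4 * θ := by
  have h9 : θ ^ (K + 1) ≤ θ * θ := by
    have h10 : θ ^ K ≤ θ := by
      have := pow_le_pow_of_le_one hθ.le hθ1 hK1
      simpa using this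
    calc θ ^ (K + 1) = θ ^ K * θ := pow_succ _ _
      _ ≤ θ * θ := by gcongr
  rw [le_div_iff₀ (by positivity)] at hθd
  have h12 : C1 * η ^ (K + 1) * θ ≤ d / 4 := by nlinarith
  calc C1 * β ^ (K + 1) ≤ C1 * (η * θ) ^ (K + 1) := by gcongr
    _ = C1 * η ^ (K + 1) * θ ^ (K + 1) := by rw [mul_pow]; ring
    _ ≤ C1 * η ^ (K + 1) * (θ * θ) := by gcongr
    _ = (C1 * η ^ (K + 1) * θ) * θ := by ring
    _ ≤ _ := by gcongr

lemma momPoly_zero_nonneg (ha0 : 0 < a)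
    (hμ : ∀ x, 0 ≤ x → μ (Set.Ioi x) = ENNReal.ofReal (Real.exp (-(x ^ a)))) (K : ℕ) (θ : ℝ) :
    0 ≤ momPoly μ K 0 * lap ν (0 + θ) := by
  apply mul_nonneg
  · unfold momPoly
    apply Finset.sum_nonneg
    intro j _
    apply div_nonneg _ (by positivity)
    apply mul_nonneg _ (by positivity)
    apply integral_nonneg_of_ae
    filter_upwards [weibull_ae_pos ha0 hμ] with s hs
    have : 0 ≤ s := hs.le
    positivity
  · unfold lap
    exact integral_nonneg fun t => (Real.exp_pos _).le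

lemma low_exp {t u v : ℝ} (ht : 0 < t) (h : |Real.log (t / v)| ≤ u) (hv : 0 < v) :
    v * Real.exp (-u) ≤ t := by
  have h5 : Real.exp (-u) ≤ t / v := by
    rw [← Real.exp_log (show 0 < t / v by positivity)]
    apply Real.exp_le_exp.mpr
    have h6 : -Real.log (t / v) ≤ |Real.log (t / v)| := neg_le_abs _
    linarith
  rw [le_div_iff₀ hv] at h5
  linarith

lemma theta_facts {θ h ω' t : ℝ} (hh : 0 < h) (h1 : ω' ≤ t / 2) (h2 : ω' ≤ 1 / 2)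
    (habs : |θ - h| ≤ ω' * h) : h / 2 ≤ θ ∧ θ ≤ 2 * h ∧ θ ≤ (1 + t / 2) * h := by
  obtain ⟨h3, h4⟩ := abs_le.mp habs
  have h5 : ω' * h ≤ 1 / 2 * h := mul_le_mul_of_nonneg_right h2 hh.le
  have h6 : ω' * h ≤ t / 2 * h := mul_le_mul_of_nonneg_right h1 hh.le
  refine ⟨by linarith, by linarith, by linarith⟩

lemma B_facts {x θ h t b η A : ℝ} (hx : 0 < x) (hθ : 0 < θ) (hb : 0 < b) (hη : 0 < η)
    (hle : h / 2 ≤ θ) (hM1a : 4 * t ≤ x * h) (hM1b : 2 * A ≤ x * h)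
    (hM1c : 2 * t / (b * η) ≤ x * h) :
    t / θ ≤ x / 2 ∧ t / θ ≤ b * (η * x) ∧ A / θ ≤ x ∧ x * h ≤ 2 * (x * θ) := by
  have hxθ : x * h ≤ 2 * (x * θ) := by
    have := mul_le_mul_of_nonneg_left hle hx.le
    linarith
  refine ⟨?_, ?_, ?_, hxθ⟩
  · rw [div_le_iff₀ hθ]; linarith
  · rw [div_le_iff₀ (by positivity)] at hM1c
    rw [div_le_iff₀ hθ]
    have := mul_le_mul_of_nonneg_right hxθ (show 0 ≤ b * η by positivity)
    have e : b * (η * x) * θ = (x * θ) * (b * η) := by ring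
    rw [e]
    linarith
  · rw [div_le_iff₀ hθ]; linarith

lemma Q_fact {t θ h D : ℝ} (ht : 0 < t) (ht4 : t ≤ 1 / 4) (hθ : 0 < θ) (hh : 0 < h) (hD : 0 < D)
    (hle : θ ≤ (1 + t / 2) * h) : (1 - 2 * t) / (D * h) ≤ (1 - t) / (D * θ) := by
  rw [div_le_div_iff₀ (by positivity) (by positivity)]
  have h6 : (1 - 2 * t) * θ ≤ (1 - t) * h := by
    have h7 : (1 - 2 * t) * θ ≤ (1 - 2 * t) * ((1 + t / 2) * h) := by
      apply mul_le_mul_of_nonneg_left hle; linarith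
    have h8 : (1 - 2 * t) * (1 + t / 2) ≤ 1 - t := by nlinarith
    have h9 := mul_le_mul_of_nonneg_right h8 hh.le
    calc (1 - 2 * t) * θ ≤ _ := h7
      _ = (1 - 2 * t) * (1 + t / 2) * h := by ring
      _ ≤ _ := h9
  have h10 := mul_le_mul_of_nonneg_left h6 hD.le
  calc (1 - 2 * t) * (D * θ) = D * ((1 - 2 * t) * θ) := by ring
    _ ≤ D * ((1 - t) * h) := h10
    _ = _ := by ring

lemma s2_fact {t β θ x h η : ℝ} (hx : 0 < x) (hη : 2 < η)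
    (hM1e : 8 * |Real.log (t / 4)| / (η - 2) ≤ x * h) (hxθ : x * h ≤ 2 * (x * θ))
    (hr1 : (1 + (η - 2) / 2) * θ ≤ β) : |Real.log (t / 4)| ≤ (β - θ) * x / 2 := by
  have hη2' : 0 < η - 2 := by linarith
  have h7 : (η - 2) / 2 * θ ≤ β - θ := by linarith
  have h8 : (η - 2) / 2 * θ * x ≤ (β - θ) * x := mul_le_mul_of_nonneg_right h7 hx.le
  rw [div_le_iff₀ hη2'] at hM1e
  have h9 := mul_le_mul_of_nonneg_right hxθ hη2'.le
  linarith

lemma NJ_fact {x d A θ : ℝ} {N J : ℕ} (hx1 : 1 ≤ x) (hNu : (N : ℝ) ≤ 8 * x / d + 1)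
    (hJu : (J : ℝ) ≤ A / θ + 1) (hAθ : A / θ ≤ x) :
    ((N + J : ℕ) : ℝ) ≤ (8 / d + 3) * x ∧ (N : ℝ) ≤ (8 / d + 3) * x := by
  have e : (8 / d + 3) * x = 8 * x / d + 3 * x := by ring
  push_cast
  rw [e]
  have : (0 : ℝ) ≤ J := Nat.cast_nonneg J
  constructor <;> linarith

lemma betac_fact {β η θ h y : ℝ} {a : ℝ} (ha0 : 0 < a) (ha1 : a < 1) (hη : 0 < η) (hy : 0 < y)
    (hr2 : β ≤ η * θ) (hθ3h : θ ≤ 2 * (a * y ^ (a - 1))) : β ≤ 4 * η * y ^ (a - 1) := by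
  have hp : 0 < y ^ (a - 1) := by positivity
  calc β ≤ η * θ := hr2
    _ ≤ η * (2 * (a * y ^ (a - 1))) := by gcongr
    _ ≤ η * (2 * (1 * y ^ (a - 1))) := by gcongr
    _ ≤ 4 * η * y ^ (a - 1) := by
        have : 0 < η * y ^ (a - 1) := by positivity
        linarith

lemma tau_fact {θ t τ : ℝ} (hτ : 0 ≤ τ) (hθ : 0 < θ) (h : θ ≤ t / (τ + 1)) : θ * τ ≤ t := by
  rw [le_div_iff₀ (by positivity)] at h
  linarith

lemma low_hpow {Φ : ℝ≥0∞} {C1 β cβ c1 x t : ℝ} {K M : ℕ} (hC1 : 0 ≤ C1) (hβ : 0 ≤ β)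
    (hΦu : Φ ≤ ENNReal.ofReal (1 + C1 * β ^ (K + 1))) (hM : (M : ℝ) ≤ c1 * x) (hβc : β ≤ cβ)
    (hc1 : 0 ≤ c1 * x) (hev : Real.exp (c1 * x * (C1 * cβ ^ (K + 1))) ≤ 1 + t) :
    (max 1 Φ) ^ M ≤ ENNReal.ofReal (1 + t) := by
  have h0 : 0 ≤ C1 * β ^ (K + 1) := by positivity
  have hmaxle : max 1 Φ ≤ ENNReal.ofReal (1 + C1 * β ^ (K + 1)) := by
    apply max_le _ hΦu
    rw [← ENNReal.ofReal_one]
    exact ENNReal.ofReal_le_ofReal (by linarith)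
  calc (max 1 Φ) ^ M ≤ ENNReal.ofReal (1 + C1 * β ^ (K + 1)) ^ M := by gcongr
    _ = ENNReal.ofReal ((1 + C1 * β ^ (K + 1)) ^ M) := by
        rw [ENNReal.ofReal_pow (by positivity)]
    _ ≤ _ := by
        apply ENNReal.ofReal_le_ofReal
        refine (pow_one_add_le_exp h0 M).trans (le_trans ?_ hev)
        apply Real.exp_le_exp.mpr
        gcongr

lemma low_hPhi1 {Φ : ℝ≥0∞} {u t : ℝ} {N : ℕ} (h6 : ENNReal.ofReal (1 - u) ≤ Φ) (hu0 : 0 ≤ u)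
    (hNu : N * u ≤ t) (hN1 : (1 : ℝ) ≤ N) (ht4 : t ≤ 1 / 4) :
    ENNReal.ofReal (1 - t) ≤ Φ ^ N := by
  have hu1 : u ≤ 1 := by
    have h12 : 1 * u ≤ N * u := mul_le_mul_of_nonneg_right hN1 hu0
    linarith
  calc ENNReal.ofReal (1 - t) ≤ ENNReal.ofReal ((1 - u) ^ N) :=
        ENNReal.ofReal_le_ofReal (low_pow hu0 hu1 hNu)
    _ = ENNReal.ofReal (1 - u) ^ N := by rw [ENNReal.ofReal_pow (by linarith)]
    _ ≤ _ := by gcongr

lemma low_hPhil {Φ : ℝ≥0∞} {d θ x : ℝ} {N : ℕ} (hd : 0 < d) (hθ : 0 < θ)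
    (h8 : Φ ≤ ENNReal.ofReal (1 - d / 4 * θ)) (h9 : d / 4 * θ ≤ 1) (hN : 8 * x / d ≤ N) :
    Φ ^ N ≤ ENNReal.ofReal (Real.exp (-(2 * θ * x))) := by
  calc Φ ^ N ≤ ENNReal.ofReal (1 - d / 4 * θ) ^ N := by gcongr
    _ = ENNReal.ofReal ((1 - d / 4 * θ) ^ N) := by
        rw [ENNReal.ofReal_pow (by linarith)]
    _ ≤ _ := by
        apply ENNReal.ofReal_le_ofReal
        refine (pow_one_sub_le_exp h9 N).trans ?_
        apply Real.exp_le_exp.mpr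
        have h1 : 8 * x / d * (d / 4 * θ) = 2 * θ * x := by
          field_simp
          ring
        have h10 : 8 * x / d * (d / 4 * θ) ≤ N * (d / 4 * θ) := by gcongr
        linarith

lemma exists_range {η : ℝ} {β : ℝ → ℝ} (hη2 : 2 < η)
    (hblim : Tendsto (fun θ => β θ / θ) (𝓝[>] 0) (𝓝 (η - 1))) :
    ∃ θ2 : ℝ, 0 < θ2 ∧ ∀ θ, 0 < θ → θ < θ2 →
      (1 + (η - 2) / 2) * θ ≤ β θ ∧ β θ ≤ η * θ := by
  have g1 := hblim.eventually_const_lt (show 1 + (η - 2) / 2 < η - 1 by linarith)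
  have g2 := hblim.eventually_lt_const (show η - 1 < η by linarith)
  obtain ⟨θ2, hθ2, h⟩ := (mem_nhdsGT_iff_exists_Ioo_subset).mp (g1.and g2)
  refine ⟨θ2, hθ2, ?_⟩
  intro θ h0 h1
  obtain ⟨h3, h4⟩ := h ⟨h0, h1⟩
  rw [lt_div_iff₀ h0] at h3
  rw [div_lt_iff₀ h0] at h4
  exact ⟨h3.le, h4.le⟩

lemma ev_hazard {η Z : ℝ} (ha1 : a < 1) (hη : 0 < η) (hZ : 0 < Z) :
    ∀ᶠ x : ℝ in atTop, 2 * (a * (η * x) ^ (a - 1)) < Z := by
  have h1 : Tendsto (fun x : ℝ => η * x) atTop atTop := tendsto_id.const_mul_atTop hη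
  have h2 := ((tendsto_hazard (a := a) ha1).comp h1).const_mul 2
  rw [mul_zero] at h2
  exact h2.eventually_lt_const hZ

lemma ev_xh {η : ℝ} (ha0 : 0 < a) (hη : 0 < η) (M : ℝ) :
    ∀ᶠ x : ℝ in atTop, M ≤ x * (a * (η * x) ^ (a - 1)) := by
  have h1 : Tendsto (fun x : ℝ => a * η ^ (a - 1) * x ^ a) atTop atTop :=
    (tendsto_rpow_atTop ha0).const_mul_atTop (by positivity)
  filter_upwards [h1.eventually_ge_atTop M, eventually_gt_atTop 0] with x hx hx0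
  have e3 : (η * x) ^ (a - 1) = η ^ (a - 1) * x ^ (a - 1) := Real.mul_rpow hη.le hx0.le
  have e4 : x ^ (a - 1) * x = x ^ a := by
    rw [← Real.rpow_add_one hx0.ne']; congr 1; ring
  have e5 : x * (a * (η * x) ^ (a - 1)) = a * η ^ (a - 1) * x ^ a := by
    rw [e3, ← e4]; ring
  rw [e5]
  exact hx

lemma ev_pow {η t : ℝ} {K : ℕ} (hη : 0 < η) (hK : 1 < ((K : ℝ) + 1) * (1 - a)) (c1 C1 c : ℝ)
    (ht : 0 < t) :
    ∀ᶠ x : ℝ in atTop, Real.exp (c1 * x * (C1 * (c * (η * x) ^ (a - 1)) ^ (K + 1))) ≤ 1 + t := by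
  have hg : Tendsto (fun x : ℝ => c1 * x * (C1 * (c * (η * x) ^ (a - 1)) ^ (K + 1))) atTop
      (𝓝 0) := by
    have h1 : Tendsto (fun x : ℝ => x ^ (-((K + 1) * (1 - a) - 1))) atTop (𝓝 0) :=
      tendsto_rpow_neg_atTop (by linarith)
    have h2 := h1.const_mul (c1 * C1 * c ^ (K + 1) * (η ^ (a - 1)) ^ (K + 1))
    rw [mul_zero] at h2
    refine h2.congr' ?_
    filter_upwards [eventually_gt_atTop 0] with x hx
    have e3 : (η * x) ^ (a - 1) = η ^ (a - 1) * x ^ (a - 1) := Real.mul_rpow hη.le hx.le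
    have e4 : x ^ (-((K + 1) * (1 - a) - 1)) = x * (x ^ (a - 1)) ^ (K + 1) := by
      rw [← Real.rpow_natCast (x ^ (a - 1)), ← Real.rpow_mul hx.le]
      have e5 : x * x ^ ((a - 1) * ((K + 1 : ℕ) : ℝ)) = x ^ (1 + (a - 1) * ((K + 1 : ℕ) : ℝ)) := by
        rw [Real.rpow_add hx, Real.rpow_one]
      rw [e5]
      congr 1
      push_cast
      ring
    rw [e3, e4]
    ring
  have : Tendsto (fun x : ℝ => Real.exp (c1 * x * (C1 * (c * (η * x) ^ (a - 1)) ^ (K + 1))))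
      atTop (𝓝 (Real.exp 0)) := (Real.continuous_exp.tendsto 0).comp hg
  rw [Real.exp_zero] at this
  exact this.eventually_le_const (by linarith)

lemma ev_exp {η t : ℝ} (ha0 : 0 < a) (ha1 : a < 1) (hη : 0 < η) (ht : 0 < t) (C : ℝ) :
    ∀ᶠ x : ℝ in atTop, C * (x ^ (1 : ℝ) * Real.exp (-((t / (2 * a) * η ^ (1 - a)) ^ a / 2 *
      x ^ (a * (1 - a))))) ≤ t := by
  have h1a : 0 < 1 - a := by linarith
  have h1 := tendsto_rpow_mul_exp_neg_rpow (a := a * (1 - a))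
    (c := (t / (2 * a) * η ^ (1 - a)) ^ a / 2) (by positivity) (by positivity) 1
  have h2 := h1.const_mul C
  rw [mul_zero] at h2
  exact h2.eventually_le_const ht

lemma lower_point (ha0 : 0 < a) (ha1 : a < 1)
    (hμ : ∀ x, 0 ≤ x → μ (Set.Ioi x) = ENNReal.ofReal (Real.exp (-(x ^ a))))
    (hν : ν (Set.Iio 0) = 0) {x θ β t τ D d η A b C1 C2 : ℝ} {K : ℕ} (hK1 : 1 ≤ K)
    (hη2 : 2 < η) (hd : 0 < d) (hD : 0 < D) (ht : 0 < t) (ht4 : t ≤ 1 / 4) (hηt : η * t ≤ 1)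
    (hτ : 0 ≤ τ) (hντ : ENNReal.ofReal (1 - t) ≤ ν (Set.Iic τ)) (hx1 : 1 ≤ x) (hθ : 0 < θ)
    (hC1 : 0 ≤ C1) (hC2 : 0 ≤ C2) (hb0 : 0 < b)
    (hθh : (a * (η * x) ^ (a - 1)) / 2 ≤ θ ∧ θ ≤ 2 * (a * (η * x) ^ (a - 1)) ∧
      θ ≤ (1 + t / 2) * (a * (η * x) ^ (a - 1)))
    (hβ0 : 0 ≤ β) (hr1 : (1 + (η - 2) / 2) * θ ≤ β) (hr2 : β ≤ η * θ)
    (hθ1 : θ ≤ 1) (hθτ : θ ≤ t / (τ + 1)) (hθη : θ ≤ 1 / (η + 1))
    (hθd : θ ≤ d / (4 * (C1 * η ^ (K + 1) + 1)))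
    (hM1a : 4 * t ≤ x * (a * (η * x) ^ (a - 1))) (hM1b : 2 * A ≤ x * (a * (η * x) ^ (a - 1)))
    (hM1c : 2 * t / (b * η) ≤ x * (a * (η * x) ^ (a - 1)))
    (hM1d : 2 * |Real.log (t / 2)| ≤ x * (a * (η * x) ^ (a - 1)))
    (hM1e : 8 * |Real.log (t / 4)| / (η - 2) ≤ x * (a * (η * x) ^ (a - 1)))
    (hA : 0 < A)
    (hφu : ∀ β' θ' : ℝ, 0 ≤ β' → β' ≤ 4 * η * (η * x) ^ (a - 1) → 0 ≤ θ' →
      trPhi μ ν (b * (η * x)) β' θ' ≤
        ENNReal.ofReal (momPoly μ K β' * lap ν (β' + θ') + C1 * β' ^ (K + 1)))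
    (hφl : ∀ B : ℝ, 0 ≤ B → ∀ β θ : ℝ, 0 ≤ β → β ≤ 1 → 0 ≤ θ →
      ENNReal.ofReal (momPoly μ K β * lap ν (β + θ) - C2 * Real.exp (-(B ^ a / 2))) ≤
        trPhi μ ν B β θ)
    (hroot : momPoly μ K β * lap ν (β + θ) = 1)
    (hslope : ∀ β' : ℝ, 0 ≤ β' → β' ≤ β →
      momPoly μ K β' * lap ν (β' + θ) ≤ 1 - d / 2 * (β - β'))
    (ev3 : Real.exp ((8 / d + 3) * x * (C1 * (4 * η * (η * x) ^ (a - 1)) ^ (K + 1))) ≤ 1 + t)
    (ev4 : (8 / d + 3) * C2 * (x ^ (1 : ℝ) * Real.exp (-((t / (2 * a) * η ^ (1 - a)) ^ a / 2 *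
      x ^ (a * (1 - a))))) ≤ t)
    (hQL : ∀ J : ℕ, A ≤ J * θ → ENNReal.ofReal ((1 - t) / (D * θ)) ≤
        ∑ n ∈ Finset.range J, lvlA μ ν (t / θ) θ n)
    (hQU : ∀ N : ℕ, ∑ n ∈ Finset.range N, lvlA μ ν (b * (η * x)) θ n ≤
      ENNReal.ofReal ((1 + 1) / (D * (a * (η * x) ^ (a - 1)))))
    {π : Measure (ℝ × ℝ)} (hπ : IsStationaryKW μ ν π) :
    ENNReal.ofReal (lowC η t * (Real.exp (-(wG a θ + x * (θ + β))) /
      (D * (a * (η * x) ^ (a - 1))))) ≤ π {w | x < w.1} := by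
  obtain ⟨hθ2h, hθ3h, hθ4h⟩ := hθh
  have hη0 : 0 < η := by linarith
  have hx0 : 0 < x := by linarith
  have hy0 : 0 < η * x := by positivity
  have hhx : 0 < a * (η * x) ^ (a - 1) := by positivity
  obtain ⟨hBx, hBby, hAθ, hxθ⟩ := B_facts (t := t) (b := b) (η := η) (A := A) hx0 hθ hb0 hη0
    hθ2h hM1a hM1b hM1c
  have hθB : θ * (t / θ) = t := by field_simp
  have hB0 : 0 ≤ t / θ := by positivity
  have h8x : 0 < 8 * x / d := by positivity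
  have hNl : 8 * x / d ≤ ⌈8 * x / d⌉₊ := Nat.le_ceil _
  have hNu : (⌈8 * x / d⌉₊ : ℝ) ≤ 8 * x / d + 1 := (Nat.ceil_lt_add_one h8x.le).le
  have hJl : A / θ ≤ ⌈A / θ⌉₊ := Nat.le_ceil _
  have hJu : (⌈A / θ⌉₊ : ℝ) ≤ A / θ + 1 := (Nat.ceil_lt_add_one (by positivity)).le
  have hNpos : 0 < ⌈8 * x / d⌉₊ := Nat.ceil_pos.mpr h8x
  have hN1 : (1 : ℝ) ≤ ⌈8 * x / d⌉₊ := by exact_mod_cast hNpos
  generalize ⌈8 * x / d⌉₊ = N at hNl hNu hNpos hN1
  generalize ⌈A / θ⌉₊ = J at hJl hJu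
  obtain ⟨hNJ, hNle⟩ := NJ_fact hx1 hNu hJu hAθ
  have hβc : β ≤ 4 * η * (η * x) ^ (a - 1) :=
    betac_fact (h := x) ha0 ha1 hη0 hy0 hr2 hθ3h
  have hΦu : trPhi μ ν (t / θ) β θ ≤ ENNReal.ofReal (1 + C1 * β ^ (K + 1)) := by
    refine (trPhi_mono hBby _ _).trans ?_
    have := hφu β θ hβ0 hβc hθ.le
    rwa [hroot] at this
  have hc1x : 0 ≤ (8 / d + 3) * x := by positivity
  have hpow : ∀ M : ℕ, (M : ℝ) ≤ (8 / d + 3) * x → (max 1 (trPhi μ ν (t / θ) β θ)) ^ M ≤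
      ENNReal.ofReal (1 + t) := fun M hM => low_hpow hC1 hβ0 hΦu hM hβc hc1x ev3
  have hΦ1 : ENNReal.ofReal (1 - t) ≤ trPhi μ ν (t / θ) β θ ^ N := by
    have hβ1' : β ≤ 1 := by
      calc β ≤ η * θ := hr2
        _ ≤ η * (1 / (η + 1)) := by gcongr
        _ ≤ 1 := by rw [mul_one_div, div_le_one (by positivity)]; linarith
    have h6 := hφl (t / θ) hB0 β θ hβ0 hβ1' hθ.le
    rw [hroot] at h6
    refine low_hPhi1 h6 (by positivity) ?_ hN1 ht4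
    have h8 := low_B ha0 hη0 hx0 hθ ht hθ3h
    have h10 : C2 * Real.exp (-((t / θ) ^ a / 2)) ≤
        C2 * Real.exp (-((t / (2 * a) * η ^ (1 - a)) ^ a / 2 * x ^ (a * (1 - a)))) := by
      apply mul_le_mul_of_nonneg_left _ hC2
      apply Real.exp_le_exp.mpr
      linarith
    calc N * (C2 * Real.exp (-((t / θ) ^ a / 2)))
        ≤ ((8 / d + 3) * x) * (C2 * Real.exp (-((t / (2 * a) * η ^ (1 - a)) ^ a / 2 *
          x ^ (a * (1 - a))))) := mul_le_mul hNle h10 (by positivity) hc1x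
      _ = (8 / d + 3) * C2 * (x ^ (1 : ℝ) * Real.exp (-((t / (2 * a) * η ^ (1 - a)) ^ a / 2 *
          x ^ (a * (1 - a))))) := by
          rw [Real.rpow_one]; ring
      _ ≤ t := ev4
  have hθβ : θ ≤ β := by
    have : 0 ≤ (η - 2) / 2 * θ := by
      have : 0 < η - 2 := by linarith
      positivity
    linarith
  have hΦl : trPhi μ ν (t / θ) (β - θ) θ ^ N ≤ ENNReal.ofReal (Real.exp (-(2 * θ * x))) := by
    have hβθ : 0 ≤ β - θ := by linarith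
    have h5 := hφu (β - θ) θ hβθ (by linarith) hθ.le
    have h6 := hslope (β - θ) hβθ (by linarith)
    have e1 : β - (β - θ) = θ := by ring
    rw [e1] at h6
    have h7 : C1 * (β - θ) ^ (K + 1) ≤ d / 4 * θ :=
      low_err hK1 hC1 hη0 hθ hθ1 hd hθd hβθ (by linarith)
    have h8 : trPhi μ ν (t / θ) (β - θ) θ ≤ ENNReal.ofReal (1 - d / 4 * θ) := by
      refine (trPhi_mono hBby _ _).trans (h5.trans (ENNReal.ofReal_le_ofReal ?_))
      linarith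
    have h9 : d / 4 * θ ≤ 1 := by
      have h12 := hslope 0 le_rfl hβ0
      have h13 := momPoly_zero_nonneg (ν := ν) ha0 hμ K θ
      rw [sub_zero] at h12
      have h14 : d / 2 * θ ≤ d / 2 * β := by gcongr
      have h15 : 0 < d * θ := by positivity
      linarith
    exact low_hPhil hd hθ h8 h9 hNl
  have hQ : ENNReal.ofReal ((1 - 2 * t) / (D * (a * (η * x) ^ (a - 1)))) ≤
      ∑ n ∈ Finset.range J, lvlA μ ν (t / θ) θ n :=
    le_trans (ENNReal.ofReal_le_ofReal (Q_fact ht ht4 hθ hhx hD hθ4h))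
      (hQL J (by rwa [div_le_iff₀ hθ] at hJl))
  have hQ2 : ∑ n ∈ Finset.range (N + J), lvlA μ ν (t / θ) θ n ≤
      ENNReal.ofReal (2 / (D * (a * (η * x) ^ (a - 1)))) := by
    have h5 := hQU (N + J)
    have e1 : (1 : ℝ) + 1 = 2 := by norm_num
    rw [e1] at h5
    exact (Finset.sum_le_sum fun n _ => lvlA_mono hBby θ n).trans h5
  have hβB : β * (t / θ) ≤ η * t := by
    calc β * (t / θ) ≤ (η * θ) * (t / θ) := by gcongr
      _ = η * (θ * (t / θ)) := by ring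
      _ = η * t := by rw [hθB]
  have hs1 : 2 * Real.exp (-(θ * x)) ≤ t := by
    apply low_exp ht _ two_pos
    have : 2 * |Real.log (t / 2)| ≤ 2 * (x * θ) := hM1d.trans hxθ
    rw [mul_comm θ x]
    exact le_of_mul_le_mul_left this two_pos
  have hs2 : 4 * Real.exp (-((β - θ) * x / 2)) ≤ t :=
    low_exp ht (s2_fact hx0 hη2 hM1e hxθ hr1) (by norm_num)
  have h2t : ENNReal.ofReal (1 + t) ≤ ENNReal.ofReal 2 :=
    ENNReal.ofReal_le_ofReal (by linarith)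
  exact lower_core (η := η) (D := D) (h := a * (η * x) ^ (a - 1)) (N := N) (J := J) (β := β)
    (B := t / θ) ha0 ha1 hμ hν hx0 hθ hhx hD ht ht4 hB0 hθB.le hBx hτ hντ
    (tau_fact hτ hθ hθτ) hθβ hβB hηt hQ hQ2 hΦ1 (hpow N hNle) ((hpow (N + J) hNJ).trans h2t)
    hΦl hs1 hs2 hπ

/-- **Lower bound**, one big job. -/
theorem lower_one_big (ha0 : 0 < a) (ha1 : a < 1)
    (hμ : ∀ x, 0 ≤ x → μ (Set.Ioi x) = ENNReal.ofReal (Real.exp (-(x ^ a))))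
    (hν : ν (Set.Iio 0) = 0) (hνi : Integrable (fun t : ℝ => t) ν)
    (hm : 0 < ∫ t, t ∂ν)
    (hgt : (∫ t, t ∂ν) < ∫ s, s ∂μ) (hlt : (∫ s, s ∂μ) < 2 * ∫ t, t ∂ν)
    {K : ℕ} (hK : 1 < (K + 1) * (1 - a)) {ω : ℝ} (hω : 0 < ω) :
    ∀ᶠ x : ℝ in atTop, ∀ π : Measure (ℝ × ℝ), IsStationaryKW μ ν π →
      ENNReal.ofReal ((1 - ω) * fOne a μ ν K x) ≤ π {w | x < w.1} := by
  have hK1 : 1 ≤ K := by
    by_contra hcon
    have : K = 0 := by omega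
    subst this
    norm_num at hK
    linarith
  set E := ∫ s, s ∂μ with hE
  set m := ∫ t, t ∂ν with hmdef
  have hd0 : 0 < E - m := by linarith
  have hη0 : 0 < E / (E - m) := div_pos (by linarith) hd0
  have hη2 : 2 < E / (E - m) := by
    rw [lt_div_iff₀ hd0]; linarith
  set η := E / (E - m) with hη
  have hD : 0 < 2 * m - E := by linarith
  have h1a : 0 < 1 - a := by linarith
  obtain ⟨t, ht, ht4, hηt, hlow⟩ := exists_t hη0 hω
  obtain ⟨τ, hτ, hντ⟩ := exists_tau (ν := ν) ht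
  obtain ⟨A, θ0, hA, hθ0, hQL⟩ := qsum_lower ha0 ha1 hμ hν hνi hlt (δ := t) (ω := t) ht ht
  obtain ⟨κ, hκ, hκ2, hQU⟩ := qsum_upper ha0 ha1 hμ hν hνi hm hgt hlt (ω := 1) one_pos
  set c : ℝ := 4 * η with hc
  have hc0 : 0 < c := by positivity
  set b : ℝ := (1 / (2 * (4 + c))) ^ (1 / (1 - a)) with hb
  have hb0 : 0 < b := by positivity
  have hba : b ^ (1 - a) = 1 / (2 * (4 + c)) := by
    rw [hb, ← Real.rpow_mul (by positivity), one_div_mul_cancel h1a.ne', Real.rpow_one]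
  have hb4 : 4 * b ^ (1 - a) ≤ 1 / 2 := by
    rw [hba, mul_one_div, div_le_div_iff₀ (by positivity) (by norm_num)]
    linarith
  have hcb : c * b ^ (1 - a) ≤ 1 / 2 := by
    rw [hba, mul_one_div, div_le_div_iff₀ (by positivity) (by norm_num)]
    linarith
  obtain ⟨C1, hC1, hφu⟩ := phi_upper ha0 ha1 hμ hν (ν := ν) K hc0 hb0 hcb
  obtain ⟨C2, hC2, hφl⟩ := phi_lower ha0 ha1 hμ hν (ν := ν) K
  obtain ⟨θ1, hθ1, hbeta⟩ := beta_basic ha0 ha1 hμ hν hνi hm hgt hlt hK1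
  obtain ⟨β1, hβ1⟩ := beta_expand ha0 ha1 hμ hν hνi hm hgt hlt hK1
  have hblim := beta_limit ha0 ha1 hμ hν hνi hm hgt hlt hK1
  rw [← hE, ← hmdef, ← hη] at hblim
  rw [← hE, ← hmdef] at hbeta
  -- range of `θ`
  obtain ⟨θ2, hθ2, hrange⟩ := exists_range hη2 hblim
  set ω' := min (min (t / 2) (1 / 2)) κ with hω'
  have hω'0 : 0 < ω' := lt_min (lt_min (by positivity) (by norm_num)) hκ
  have hopt := opt_exists ha0 ha1 (show 1 < η by linarith) (cramerRoot_nonneg K) hblim hβ1 hω'0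
  -- limits
  set Z := min (min θ0 θ1) (min (min θ2 1) (min (t / (τ + 1))
    (min (1 / (η + 1)) ((E - m) / (4 * (C1 * η ^ (K + 1) + 1)))))) with hZ
  have hZ0 : 0 < Z := by
    refine lt_min (lt_min hθ0 hθ1) (lt_min (lt_min hθ2 one_pos) (lt_min (by positivity)
      (lt_min (by positivity) (by positivity))))
  set M1 : ℝ := max (max (4 * t) (2 * A)) (max (2 * t / (b * η)) (max
    (2 * |Real.log (t / 2)|) (8 * |Real.log (t / 4)| / (η - 2)))) with hM1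
  set c1 : ℝ := 8 / (E - m) + 3 with hc1
  have hc10 : 0 < c1 := by positivity
  filter_upwards [hopt, (tendsto_id.const_mul_atTop hη0).eventually (hQU b hb0 hb4),
    ev_hazard (a := a) ha1 hη0 hZ0, ev_xh ha0 hη0 M1, ev_pow hη0 hK c1 C1 c ht,
    ev_exp ha0 ha1 hη0 ht (c1 * C2), eventually_ge_atTop 1]
    with x hopt hQU ev1 ev2 ev3 ev4 hx1
  intro π hπ
  obtain ⟨θ, hθ, hθh, -, hR, -, -⟩ := hopt
  have hω'1 : ω' ≤ t / 2 := (min_le_left _ _).trans (min_le_left _ _)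
  have hω'2 : ω' ≤ 1 / 2 := (min_le_left _ _).trans (min_le_right _ _)
  have hω'3 : ω' ≤ κ := min_le_right _ _
  have hZ1 : Z ≤ θ0 := (min_le_left _ _).trans (min_le_left _ _)
  have hZ2 : Z ≤ θ1 := (min_le_left _ _).trans (min_le_right _ _)
  have hZ3 : Z ≤ θ2 := (min_le_right _ _).trans ((min_le_left _ _).trans (min_le_left _ _))
  have hZ4 : Z ≤ 1 := (min_le_right _ _).trans ((min_le_left _ _).trans (min_le_right _ _))
  have hZ5 : Z ≤ t / (τ + 1) := (min_le_right _ _).trans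
    ((min_le_right _ _).trans (min_le_left _ _))
  have hZ6 : Z ≤ 1 / (η + 1) := (min_le_right _ _).trans
    ((min_le_right _ _).trans ((min_le_right _ _).trans (min_le_left _ _)))
  have hZ7 : Z ≤ (E - m) / (4 * (C1 * η ^ (K + 1) + 1)) := (min_le_right _ _).trans
    ((min_le_right _ _).trans ((min_le_right _ _).trans (min_le_right _ _)))
  have hM1a := ((le_max_left (4 * t) (2 * A)).trans (le_max_left _ _)).trans ev2
  have hM1b := ((le_max_right (4 * t) (2 * A)).trans (le_max_left _ _)).trans ev2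
  have hM1c : 2 * t / (b * η) ≤ x * (a * (η * x) ^ (a - 1)) :=
    ((le_max_left _ _).trans (le_max_right _ _)).trans ev2
  have hM1d : 2 * |Real.log (t / 2)| ≤ x * (a * (η * x) ^ (a - 1)) :=
    (((le_max_left _ _).trans (le_max_right _ _)).trans (le_max_right _ _)).trans ev2
  have hM1e : 8 * |Real.log (t / 4)| / (η - 2) ≤ x * (a * (η * x) ^ (a - 1)) :=
    (((le_max_right _ _).trans (le_max_right _ _)).trans (le_max_right _ _)).trans ev2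
  have hθZ : θ < Z := lt_of_le_of_lt (theta_facts (by positivity) hω'1 hω'2 hθh).2.1 ev1
  obtain ⟨hb1, hb2, hb3⟩ := hbeta θ hθ (hθZ.trans_le hZ2)
  obtain ⟨hr1, hr2⟩ := hrange θ hθ (hθZ.trans_le hZ3)
  have hθκ : |θ - a * (η * x) ^ (a - 1)| ≤ κ * (a * (η * x) ^ (a - 1)) :=
    hθh.trans (by gcongr)
  have hfin := lower_point (μ := μ) (ν := ν) (K := K) (b := b) (C1 := C1) (C2 := C2)
    (A := A) (β := cramerRoot μ ν K θ) ha0 ha1 hμ hν hK1 hη2 hd0 hD ht ht4 hηt hτ hντ hx1 hθ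
    hC1 hC2 hb0 (theta_facts (by positivity) hω'1 hω'2 hθh) (cramerRoot_nonneg K θ) hr1 hr2
    (hθZ.le.trans hZ4) (hθZ.le.trans hZ5) (hθZ.le.trans hZ6) (hθZ.le.trans hZ7)
    hM1a hM1b hM1c hM1d hM1e hA (hφu (η * x) (by positivity)) hφl hb2 hb3 ev3 ev4
    (hQL θ hθ (hθZ.trans_le hZ1)) (hQU θ hθκ) hπ
  refine le_trans (ENNReal.ofReal_le_ofReal ?_) hfin
  have e1 : fOne a μ ν K x = Real.exp (-(wG a θ + x * (θ + cramerRoot μ ν K θ))) /
      ((2 * m - E) * (a * (η * x) ^ (a - 1))) := by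
    unfold fOne
    rw [hR]
  rw [e1]
  gcongr

end Pool.Agent.Lib.MP_04add8_pr
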