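import Mathlib
import Pool.Agent.Lib.MP_04add8_pr.One.Defs

open MeasureTheory ProbabilityTheory Filter Topology
open scoped ENNReal NNReal

set_option linter.unusedSectionVars false

namespace Pool.Agent.Lib.MP_04add8_pr

lemma Mix_exp (v : ℝ≥0) (t : ℝ) :
    ∫⁻ u, ENNReal.ofReal (Real.exp (u * t)) ∂(gaussianReal 0 v) =
      ENNReal.ofReal (Real.exp (v * t ^ 2 / 2)) := by
  have hint : Integrable (fun u => Real.exp (t * u)) (gaussianReal 0 v) :=
    integrable_exp_mul_gaussianReal t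
  have h1 : ∫ u, Real.exp (t * u) ∂(gaussianReal 0 v) = Real.exp (v * t ^ 2 / 2) := by
    have := congrFun (mgf_id_gaussianReal (μ := 0) (v := v)) t
    simpa [mgf] using this
  rw [← h1, ofReal_integral_eq_lintegral_ofReal hint (ae_of_all _ fun u => (Real.exp_pos _).le)]
  refine lintegral_congr (fun u => ?_)
  rw [mul_comm]

lemma Mix_sq {v : ℝ≥0} (hv : v ≠ 0) {c t : ℝ} (ht : 0 ≤ t)
    (hc : 1 ≤ t ^ 2 * (1 - 2 * c * v)) :
    ∫⁻ u, ENNReal.ofReal (Real.exp (c * u ^ 2)) ∂(gaussianReal 0 v) ≤ ENNReal.ofReal t := by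
  have hv0 : (0 : ℝ) < v := lt_of_le_of_ne v.2 (fun h => hv (NNReal.coe_eq_zero.1 h.symm))
  have hpos : 0 < 1 - 2 * c * v := by
    by_contra h
    push Not at h
    have : t ^ 2 * (1 - 2 * c * v) ≤ 0 := mul_nonpos_of_nonneg_of_nonpos (sq_nonneg t) h
    linarith
  set b := 1 / (2 * (v : ℝ)) - c with hb
  have hb0 : 0 < b := by
    rw [hb, sub_pos, lt_div_iff₀ (by positivity)]
    linarith
  rw [gaussianReal_of_var_ne_zero 0 hv,
    lintegral_withDensity_eq_lintegral_mul _ (measurable_gaussianPDF 0 v) (by fun_prop)]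
  have e : ∀ u : ℝ, (gaussianPDF 0 v * fun u => ENNReal.ofReal (Real.exp (c * u ^ 2))) u =
      ENNReal.ofReal ((√(2 * Real.pi * v))⁻¹ * Real.exp (-b * u ^ 2)) := by
    intro u
    simp only [Pi.mul_apply, gaussianPDF]
    rw [← ENNReal.ofReal_mul (gaussianPDFReal_nonneg _ _ _)]
    congr 1
    rw [gaussianPDFReal_def]
    simp only
    rw [mul_assoc, ← Real.exp_add]
    congr 2
    rw [hb]
    field_simp
    ring
  simp_rw [e]
  have hint : Integrable (fun u : ℝ => (√(2 * Real.pi * v))⁻¹ * Real.exp (-b * u ^ 2)) :=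
    (integrable_exp_neg_mul_sq hb0).const_mul _
  rw [← ofReal_integral_eq_lintegral_ofReal hint (ae_of_all _ fun u => by positivity),
    integral_const_mul, integral_gaussian]
  apply ENNReal.ofReal_le_ofReal
  have hs : 0 < √(2 * Real.pi * v) := Real.sqrt_pos.mpr (by positivity)
  rw [inv_mul_le_iff₀ hs]
  apply Real.sqrt_le_iff.mpr
  refine ⟨by positivity, ?_⟩
  rw [mul_pow, Real.sq_sqrt (by positivity), div_le_iff₀ hb0]
  have e2 : 2 * Real.pi * ↑v * t ^ 2 * b = Real.pi * (t ^ 2 * (1 - 2 * c * v)) := by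
    rw [hb]
    field_simp
  rw [e2]
  nlinarith [Real.pi_pos]

/-- quadratic lower bound of a concave power -/
lemma Mix_taylor {a z : ℝ} (ha0 : 0 < a) (ha1 : a < 1) (hz : -1 < z) :
    1 + a * z - (1 - a) * z ^ 2 ≤ (1 + z) ^ a := by
  have hz1 : 0 < 1 + z := by linarith
  have hd : 0 < 1 + (1 - a) * z := by nlinarith
  have h1 : (1 + z) ^ (1 - a) ≤ 1 + (1 - a) * z :=
    rpow_one_add_le_one_add_mul_self hz.le (by linarith) (by linarith)
  have hp : 0 < (1 + z) ^ (1 - a) := by positivity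
  have h2 : (1 + z) ^ a = (1 + z) / (1 + z) ^ (1 - a) := by
    rw [eq_div_iff hp.ne', ← Real.rpow_add hz1]
    have : a + (1 - a) = 1 := by ring
    rw [this, Real.rpow_one]
  rw [h2]
  have h3 : (1 + z) / (1 + (1 - a) * z) ≤ (1 + z) / (1 + z) ^ (1 - a) := by gcongr
  refine le_trans ?_ h3
  rw [le_div_iff₀ hd]
  have e : (1 + a * z - (1 - a) * z ^ 2) * (1 + (1 - a) * z) =
    (1 + z) - (1 + z) * ((1 - a) * z) ^ 2 := by ring
  rw [e]
  have : 0 ≤ (1 + z) * ((1 - a) * z) ^ 2 := by positivity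
  linarith

/-- Gaussian truncation -/
lemma Mix_trunc {v : ℝ≥0} (hv : v ≠ 0) {r D q : ℝ} (hr : 0 < r)
    (hD : (v : ℝ) * |D| ≤ r / 4) (hq : q ≤ r ^ 2 / (4 * v)) :
    ENNReal.ofReal (Real.exp (v * D ^ 2 / 2)) ≤
      ∫⁻ u in {u : ℝ | |u| ≤ r}, ENNReal.ofReal (Real.exp (u * D)) ∂(gaussianReal 0 v) +
        ENNReal.ofReal (2 * Real.exp (-q) * Real.exp (v * D ^ 2 / 2)) := by
  have hv0 : (0 : ℝ) < v := lt_of_le_of_ne v.2 (fun h => hv (NNReal.coe_eq_zero.1 h.symm))
  have hm : MeasurableSet {u : ℝ | |u| ≤ r} := measurableSet_le (by fun_prop) measurable_const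
  rw [← Mix_exp v D, ← lintegral_add_compl _ hm]
  gcongr
  set lam := r / (2 * v) with hlam
  have hlam0 : 0 < lam := by positivity
  have h1 : ∀ u ∈ {u : ℝ | |u| ≤ r}ᶜ, ENNReal.ofReal (Real.exp (u * D)) ≤
      ENNReal.ofReal (Real.exp (-(lam * r))) * (ENNReal.ofReal (Real.exp (u * (D + lam))) +
        ENNReal.ofReal (Real.exp (u * (D - lam)))) := by
    intro u hu
    have hu' : r < |u| := by
      simpa using hu
    rw [← ENNReal.ofReal_add (Real.exp_pos _).le (Real.exp_pos _).le,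
      ← ENNReal.ofReal_mul (Real.exp_pos _).le]
    apply ENNReal.ofReal_le_ofReal
    rw [mul_add, ← Real.exp_add, ← Real.exp_add]
    rcases le_total 0 u with h | h
    · rw [abs_of_nonneg h] at hu'
      have h2 : Real.exp (u * D) ≤ Real.exp (-(lam * r) + u * (D + lam)) := by
        apply Real.exp_le_exp.mpr
        nlinarith
      have := Real.exp_pos (-(lam * r) + u * (D - lam))
      linarith
    · rw [abs_of_nonpos h] at hu'
      have h2 : Real.exp (u * D) ≤ Real.exp (-(lam * r) + u * (D - lam)) := by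
        apply Real.exp_le_exp.mpr
        nlinarith
      have := Real.exp_pos (-(lam * r) + u * (D + lam))
      linarith
  calc ∫⁻ u in {u : ℝ | |u| ≤ r}ᶜ, ENNReal.ofReal (Real.exp (u * D)) ∂(gaussianReal 0 v)
      ≤ ∫⁻ u in {u : ℝ | |u| ≤ r}ᶜ, ENNReal.ofReal (Real.exp (-(lam * r))) *
        (ENNReal.ofReal (Real.exp (u * (D + lam))) +
        ENNReal.ofReal (Real.exp (u * (D - lam)))) ∂(gaussianReal 0 v) :=
        setLIntegral_mono (by fun_prop) h1
    _ ≤ ∫⁻ u, ENNReal.ofReal (Real.exp (-(lam * r))) *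
        (ENNReal.ofReal (Real.exp (u * (D + lam))) +
        ENNReal.ofReal (Real.exp (u * (D - lam)))) ∂(gaussianReal 0 v) :=
        setLIntegral_le_lintegral _ _
    _ = ENNReal.ofReal (Real.exp (-(lam * r)) * (Real.exp (v * (D + lam) ^ 2 / 2) +
          Real.exp (v * (D - lam) ^ 2 / 2))) := by
        rw [lintegral_const_mul _ (by fun_prop), lintegral_add_left (by fun_prop),
          Mix_exp, Mix_exp, ← ENNReal.ofReal_add (Real.exp_pos _).le (Real.exp_pos _).le,
          ← ENNReal.ofReal_mul (Real.exp_pos _).le]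
    _ ≤ _ := by
        apply ENNReal.ofReal_le_ofReal
        have hvl : (v : ℝ) * lam = r / 2 := by rw [hlam]; field_simp
        have habs1 : v * D ≤ r / 4 := by
          have : v * D ≤ v * |D| := by gcongr; exact le_abs_self D
          linarith
        have habs2 : -(v * D) ≤ r / 4 := by
          have : v * (-D) ≤ v * |D| := by gcongr; exact neg_le_abs D
          linarith
        have hrl : r ^ 2 / (4 * v) = lam * r / 2 := by rw [hlam]; field_simp; ring
        rw [hrl] at hq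
        have h3 : Real.exp (-(lam * r)) * Real.exp (v * (D + lam) ^ 2 / 2) ≤
            Real.exp (-q) * Real.exp (v * D ^ 2 / 2) := by
          rw [← Real.exp_add, ← Real.exp_add]
          apply Real.exp_le_exp.mpr
          have e1 : (v : ℝ) * (D + lam) ^ 2 / 2 = v * D ^ 2 / 2 + (v * D) * lam +
            (v * lam) * lam / 2 := by ring
          rw [e1, hvl]
          nlinarith
        have h4 : Real.exp (-(lam * r)) * Real.exp (v * (D - lam) ^ 2 / 2) ≤
            Real.exp (-q) * Real.exp (v * D ^ 2 / 2) := by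
          rw [← Real.exp_add, ← Real.exp_add]
          apply Real.exp_le_exp.mpr
          have e1 : (v : ℝ) * (D - lam) ^ 2 / 2 = v * D ^ 2 / 2 + (-(v * D)) * lam +
            (v * lam) * lam / 2 := by ring
          rw [e1, hvl]
          nlinarith
        rw [mul_add]
        linarith

theorem mix {a : ℝ} (ha0 : 0 < a) (ha1 : a < 1) {ω : ℝ} (hω : 0 < ω) :
    ∃ ω2 : ℝ, 0 < ω2 ∧ ∀ κ : ℝ, 0 < κ → κ ≤ 1 / 2 → ∃ ε : ℝ, 0 < ε ∧ ε ≤ 1 / 2 ∧
      ∀ᶠ X : ℝ in atTop, ∃ γ : Measure ℝ, IsFiniteMeasure γ ∧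
        (∀ᵐ u ∂γ, |u| ≤ κ * (a * X ^ (a - 1))) ∧
        (∀ D : ℝ, |D| ≤ ε * X → ENNReal.ofReal (Real.exp (-((X + D) ^ a))) ≤
          ENNReal.ofReal (Real.exp (-(X ^ a))) *
            ∫⁻ u, ENNReal.ofReal (Real.exp (-((a * X ^ (a - 1) - u) * D))) ∂γ) ∧
        ∫⁻ u, ENNReal.ofReal (Real.exp (ω2 * X * u ^ 2 / (a * X ^ (a - 1)))) ∂γ ≤
          ENNReal.ofReal (1 + ω) := by
  set t0 := (1 + ω) / (1 + ω / 3) with ht0
  have ht1 : 1 < t0 := by
    rw [ht0, lt_div_iff₀ (by positivity)]; linarith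
  have ht00 : 0 < t0 := by linarith
  have hti : (t0 ^ 2)⁻¹ < 1 := inv_lt_one_of_one_lt₀ (by nlinarith)
  refine ⟨a * (1 - (t0 ^ 2)⁻¹) / 4, by
    have : 0 < 1 - (t0 ^ 2)⁻¹ := by linarith
    positivity, ?_⟩
  intro κ hκ hκ2
  refine ⟨κ * a / 8, by positivity, by nlinarith, ?_⟩
  set ω2 := a * (1 - (t0 ^ 2)⁻¹) / 4 with hω2
  have hω20 : 0 < ω2 := by
    have : 0 < 1 - (t0 ^ 2)⁻¹ := by linarith
    positivity
  have h1a : 0 < 1 - a := by linarith
  set cq := κ ^ 2 * a ^ 2 / (8 * (1 - a)) with hcq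
  have hcq0 : 0 < cq := by positivity
  have hev : ∀ᶠ X : ℝ in atTop, 1 ≤ (1 + ω / 3) * (1 - 2 * Real.exp (-(cq * X ^ a))) := by
    have h8 : Tendsto (fun x : ℝ => Real.exp (-(cq * x ^ a))) atTop (𝓝 0) :=
      Real.tendsto_exp_neg_atTop_nhds_zero.comp ((tendsto_rpow_atTop ha0).const_mul_atTop hcq0)
    have h9 : Tendsto (fun x : ℝ => (1 + ω / 3) * (1 - 2 * Real.exp (-(cq * x ^ a)))) atTop
        (𝓝 ((1 + ω / 3) * (1 - 2 * 0))) := ((h8.const_mul 2).const_sub 1).const_mul _
    have h10 : (1 : ℝ) < (1 + ω / 3) * (1 - 2 * 0) := by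
      rw [mul_zero, sub_zero, mul_one]; linarith
    exact (h9.eventually (lt_mem_nhds h10)).mono fun x hx => hx.le
  filter_upwards [hev, eventually_gt_atTop 0] with X hX hX0
  set P := X ^ (a - 2) with hP
  have hP0 : 0 < P := by positivity
  have e1 : X ^ (a - 1) = X * P := by
    have h := Real.rpow_add hX0 1 (a - 2)
    rw [Real.rpow_one] at h
    rw [hP, ← h]; congr 1; ring
  have e2 : X ^ a = X ^ 2 * P := by
    have h := Real.rpow_add hX0 2 (a - 2)
    rw [Real.rpow_two] at h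
    rw [hP, ← h]; congr 1; ring
  set h := a * X ^ (a - 1) with hh
  have hh0 : 0 < h := by positivity
  have hh1 : h = a * (X * P) := by rw [hh, e1]
  set ζ : ℝ := 2 * (1 - a) * P with hζ
  have hζ0 : 0 < ζ := by positivity
  set v : ℝ≥0 := ⟨ζ, hζ0.le⟩ with hv
  have hvζ : (v : ℝ) = ζ := rfl
  have hvne : v ≠ 0 := by
    intro h0
    have : (v : ℝ) = 0 := by rw [h0]; rfl
    rw [hvζ] at this
    linarith
  set r := κ * h with hr
  have hr0 : 0 < r := by positivity
  set N := gaussianReal 0 v with hN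
  set A : Set ℝ := {u : ℝ | |u| ≤ r} with hA
  have hAm : MeasurableSet A := measurableSet_le (by fun_prop) measurable_const
  refine ⟨ENNReal.ofReal (1 + ω / 3) • N.restrict A, ?_, ?_, ?_, ?_⟩
  · exact Measure.smul_finite _ ENNReal.ofReal_ne_top
  · apply Measure.ae_smul_measure
    filter_upwards [ae_restrict_mem hAm] with u hu
    exact hu
  · intro D hD
    rw [lintegral_smul_measure, smul_eq_mul]
    -- the Gaussian part
    have hvD : (v : ℝ) * |D| ≤ r / 4 := by
      rw [hvζ, hr, hh1, hζ]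
      calc 2 * (1 - a) * P * |D| ≤ 2 * (1 - a) * P * (κ * a / 8 * X) := by gcongr
        _ = (1 - a) * (κ * (a * (X * P)) / 4) := by ring
        _ ≤ 1 * (κ * (a * (X * P)) / 4) := by gcongr; linarith
        _ = _ := by ring
    have hq : cq * X ^ a ≤ r ^ 2 / (4 * v) := by
      rw [hvζ, hr, hh1, hζ, hcq, e2]
      apply le_of_eq
      field_simp
      ring
    have htr := Mix_trunc hvne hr0 hvD hq
    rw [← hN, ← hA] at htr
    set I := ∫⁻ u in A, ENNReal.ofReal (Real.exp (u * D)) ∂N with hI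
    have hIle : I ≤ ENNReal.ofReal (Real.exp (v * D ^ 2 / 2)) := by
      rw [← Mix_exp v D]
      exact setLIntegral_le_lintegral _ _
    have hIfin : I ≠ ∞ := ne_top_of_le_ne_top ENNReal.ofReal_ne_top hIle
    have hIr : I = ENNReal.ofReal I.toReal := (ENNReal.ofReal_toReal hIfin).symm
    have hI0 : 0 ≤ I.toReal := ENNReal.toReal_nonneg
    set G := Real.exp (v * D ^ 2 / 2) with hG
    have hG0 : 0 < G := Real.exp_pos _
    have hG1 : G ≤ (1 + ω / 3) * I.toReal := by
      rw [hIr, ← ENNReal.ofReal_add hI0 (by positivity)] at htr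
      rw [ENNReal.ofReal_le_ofReal_iff (by positivity)] at htr
      have h3 : (1 - 2 * Real.exp (-(cq * X ^ a))) * G ≤ I.toReal := by
        linarith
      calc G = 1 * G := (one_mul G).symm
        _ ≤ ((1 + ω / 3) * (1 - 2 * Real.exp (-(cq * X ^ a)))) * G := by gcongr
        _ = (1 + ω / 3) * ((1 - 2 * Real.exp (-(cq * X ^ a))) * G) := by ring
        _ ≤ _ := by gcongr
    have hI2 : ∫⁻ u, ENNReal.ofReal (Real.exp (-((h - u) * D))) ∂(N.restrict A) =
        ENNReal.ofReal (Real.exp (-(h * D))) * I := by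
      rw [hI, ← lintegral_const_mul _ (by fun_prop)]
      refine lintegral_congr (fun u => ?_)
      rw [← ENNReal.ofReal_mul (Real.exp_pos _).le, ← Real.exp_add]
      congr 2
      ring
    rw [hI2, hIr, ← ENNReal.ofReal_mul (Real.exp_pos _).le, ← ENNReal.ofReal_mul (by positivity),
      ← ENNReal.ofReal_mul (Real.exp_pos _).le]
    apply ENNReal.ofReal_le_ofReal
    have hz : -1 < D / X := by
      rw [lt_div_iff₀ hX0]
      have h3 := neg_le_abs D
      have h4 : κ * a / 8 * X ≤ 1 / 16 * X :=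
        mul_le_mul_of_nonneg_right (by nlinarith) hX0.le
      nlinarith
    have hT := Mix_taylor ha0 ha1 hz
    have hXD : X + D = X * (1 + D / X) := by field_simp
    have hT2 : X ^ a + h * D - ζ * D ^ 2 / 2 ≤ (X + D) ^ a := by
      rw [hXD, Real.mul_rpow hX0.le (by linarith)]
      calc X ^ a + h * D - ζ * D ^ 2 / 2 =
          X ^ a * (1 + a * (D / X) - (1 - a) * (D / X) ^ 2) := by
            rw [hh1, hζ, e2]
            field_simp
        _ ≤ _ := by gcongr
    calc Real.exp (-((X + D) ^ a)) ≤ Real.exp (-(X ^ a) + (-(h * D) + v * D ^ 2 / 2)) := by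
          apply Real.exp_le_exp.mpr
          rw [hvζ]
          linarith
      _ = Real.exp (-(X ^ a)) * (Real.exp (-(h * D)) * G) := by
          rw [Real.exp_add, Real.exp_add]
      _ ≤ Real.exp (-(X ^ a)) * (Real.exp (-(h * D)) * ((1 + ω / 3) * I.toReal)) := by gcongr
      _ = _ := by ring
  · rw [lintegral_smul_measure, smul_eq_mul]
    have e3 : ∀ u : ℝ, ω2 * X * u ^ 2 / h = (ω2 * X / h) * u ^ 2 := fun u => by ring
    simp only [e3]
    have hc : 1 ≤ t0 ^ 2 * (1 - 2 * (ω2 * X / h) * v) := by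
      have e4 : 2 * (ω2 * X / h) * v = (1 - a) * (1 - (t0 ^ 2)⁻¹) := by
        rw [hvζ, hh1, hζ, hω2]
        field_simp
        ring
      rw [e4]
      have h5 : (t0 ^ 2)⁻¹ ≤ 1 - (1 - a) * (1 - (t0 ^ 2)⁻¹) := by nlinarith
      calc (1 : ℝ) = t0 ^ 2 * (t0 ^ 2)⁻¹ := by field_simp
        _ ≤ _ := by gcongr
    calc ENNReal.ofReal (1 + ω / 3) *
          ∫⁻ u in A, ENNReal.ofReal (Real.exp ((ω2 * X / h) * u ^ 2)) ∂N
        ≤ ENNReal.ofReal (1 + ω / 3) *
          ∫⁻ u, ENNReal.ofReal (Real.exp ((ω2 * X / h) * u ^ 2)) ∂N := by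
          gcongr
          exact Measure.restrict_le_self
      _ ≤ ENNReal.ofReal (1 + ω / 3) * ENNReal.ofReal t0 := by
          gcongr
          exact Mix_sq hvne ht00.le hc
      _ = ENNReal.ofReal (1 + ω) := by
          rw [← ENNReal.ofReal_mul (by positivity), ht0]
          congr 1
          field_simp

end Pool.Agent.Lib.MP_04add8_pr
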