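import Mathlib
import Pool.Agent.Lib.MP_04add8_pr.One.Defs

open MeasureTheory ProbabilityTheory Filter Topology
open scoped ENNReal

set_option linter.unusedSectionVars false

namespace Pool.Agent.Lib.MP_04add8_pr

theorem pt_bound {a : ℝ} (ha0 : 0 < a) (ha1 : a < 1) {ε : ℝ} (hε : 0 < ε) (hε1 : ε < 1) :
    ∃ c δ : ℝ, 0 < c ∧ c ≤ 1 ∧ 0 < δ ∧ ∀ y : ℝ, 0 < y → ∀ X' : ℝ, ε * y < |X' - y| →
      Real.exp (-((max X' 0) ^ a)) ≤
        Real.exp (-(((1 - ε) * y) ^ (a - 1) * X')) +
        Real.exp (-((1 + δ) * y ^ a + c * y ^ (a - 1) * (X' - y))) +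
        Real.exp (-(4 * y ^ a)) := by
  set R : ℝ := 4 ^ (1 / a) with hR
  have hR0 : 0 < R := Real.rpow_pos_of_pos (by norm_num) _
  have hRa : R ^ a = 4 := by
    rw [hR, ← Real.rpow_mul (by norm_num), one_div, inv_mul_cancel₀ ha0.ne', Real.rpow_one]
  set δ : ℝ := ((1 + ε) ^ a - 1) / 2 with hδ
  have hδ0 : 0 < δ := by
    have : 1 < (1 + ε) ^ a := Real.one_lt_rpow (by linarith) ha0
    rw [hδ]; linarith
  refine ⟨min 1 (δ / R), δ, lt_min one_pos (div_pos hδ0 hR0), min_le_left _ _, hδ0, ?_⟩
  intro y hy X' hX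
  have e1 := Real.exp_pos (-(((1 - ε) * y) ^ (a - 1) * X'))
  have e2 := Real.exp_pos (-((1 + δ) * y ^ a + min 1 (δ / R) * y ^ (a - 1) * (X' - y)))
  have e3 := Real.exp_pos (-(4 * y ^ a))
  have h1y : 0 < (1 - ε) * y := mul_pos (by linarith) hy
  by_cases hc : X' < y
  · -- far below
    have h1 : X' < (1 - ε) * y := by
      rw [abs_of_neg (by linarith)] at hX
      linarith
    have h2 : Real.exp (-((max X' 0) ^ a)) ≤ Real.exp (-(((1 - ε) * y) ^ (a - 1) * X')) := by
      apply Real.exp_le_exp.mpr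
      by_cases hX0 : 0 < X'
      · rw [max_eq_left hX0.le]
        have h3 : ((1 - ε) * y) ^ (a - 1) ≤ X' ^ (a - 1) :=
          Real.rpow_le_rpow_of_nonpos hX0 h1.le (by linarith)
        have h4 : X' ^ a = X' ^ (a - 1) * X' := by
          rw [← Real.rpow_add_one hX0.ne']
          congr 1; ring
        rw [h4]
        have := mul_le_mul_of_nonneg_right h3 hX0.le
        linarith
      · push Not at hX0
        rw [max_eq_right hX0, Real.zero_rpow ha0.ne']
        have h3 : 0 ≤ ((1 - ε) * y) ^ (a - 1) := Real.rpow_nonneg h1y.le _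
        have h4 := mul_nonneg h3 (neg_nonneg.mpr hX0)
        linarith
    linarith
  · push Not at hc
    have h1 : (1 + ε) * y < X' := by
      rw [abs_of_nonneg (by linarith)] at hX
      linarith
    have hX0 : 0 < X' := by linarith
    rw [max_eq_left hX0.le]
    by_cases h4 : 4 * y ^ a ≤ X' ^ a
    · have h2 : Real.exp (-(X' ^ a)) ≤ Real.exp (-(4 * y ^ a)) := Real.exp_le_exp.mpr (by linarith)
      linarith
    · push Not at h4
      set r : ℝ := X' / y with hr
      have hXr : X' = r * y := by rw [hr, div_mul_cancel₀ _ hy.ne']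
      have hr1 : 1 + ε ≤ r := by
        rw [hr, le_div_iff₀ hy]; exact h1.le
      have hr0 : 0 ≤ r := by linarith
      have hya : 0 < y ^ a := Real.rpow_pos_of_pos hy _
      have hXa : X' ^ a = r ^ a * y ^ a := by rw [hXr, Real.mul_rpow hr0 hy.le]
      have hra4 : r ^ a < 4 := by
        rw [hXa] at h4
        exact lt_of_mul_lt_mul_right h4 hya.le
      have hrR : r < R := by
        by_contra hcon
        push Not at hcon
        have := Real.rpow_le_rpow hR0.le hcon ha0.le
        rw [hRa] at this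
        linarith
      have h5 : (1 + ε) ^ a ≤ r ^ a := Real.rpow_le_rpow (by linarith) hr1 ha0.le
      have h6 : min 1 (δ / R) * (r - 1) ≤ δ := by
        calc min 1 (δ / R) * (r - 1) ≤ (δ / R) * (r - 1) :=
              mul_le_mul_of_nonneg_right (min_le_right _ _) (by linarith)
          _ ≤ (δ / R) * R := mul_le_mul_of_nonneg_left (by linarith) (div_pos hδ0 hR0).le
          _ = δ := div_mul_cancel₀ _ hR0.ne'
      have h7 : y ^ (a - 1) * y = y ^ a := by
        rw [← Real.rpow_add_one hy.ne']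
        congr 1; ring
      have h2 : Real.exp (-(X' ^ a)) ≤
          Real.exp (-((1 + δ) * y ^ a + min 1 (δ / R) * y ^ (a - 1) * (X' - y))) := by
        apply Real.exp_le_exp.mpr
        have h8 : min 1 (δ / R) * y ^ (a - 1) * (X' - y) = min 1 (δ / R) * (r - 1) * y ^ a := by
          rw [hXr, ← h7]; ring
        rw [h8, hXa]
        have h9 : (1 + δ) + min 1 (δ / R) * (r - 1) ≤ r ^ a := by
          have : (1 + ε) ^ a = 1 + 2 * δ := by rw [hδ]; ring
          linarith
        have := mul_le_mul_of_nonneg_right h9 hya.le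
        linarith
      linarith

end Pool.Agent.Lib.MP_04add8_pr
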