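import Mathlib
import Pool.Agent.Lib.MP_04add8_pr.One.Opt
import Pool.Agent.Lib.MP_04add8_pr.One.Mix
import Pool.Agent.Lib.MP_04add8_pr.One.Pt
import Pool.Agent.Lib.MP_04add8_pr.One.Lvl
import Pool.Agent.Lib.MP_04add8_pr.One.Phi
import Pool.Agent.Lib.MP_04add8_pr.One.BetaA
import Pool.Agent.Lib.MP_04add8_pr.One.BetaB
import Pool.Agent.Lib.MP_04add8_pr.One.QU

open MeasureTheory ProbabilityTheory Filter Topology
open scoped ENNReal

set_option linter.unusedSectionVars false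

namespace Pool.Agent.Lib.MP_04add8_pr

namespace OneMainAux

/-- the size the big job must have -/
noncomputable def omV (x : ℝ) (n : ℕ) (w : ℝ × ℝ) (z : ℕ → ℝ × ℝ) : ℝ :=
  2 * x + sumA z n - w.1 - reflW w.2 z n

/-- the event: small jobs and high workload -/
def omS (x B : ℝ) (n : ℕ) (w : ℝ × ℝ) : Set (ℕ → ℝ × ℝ) :=
  allLe B n ∩ {z | x < reflW w.2 z n}

lemma measurable_omV (x : ℝ) (n : ℕ) (w : ℝ × ℝ) : Measurable (omV x n w) := by
  unfold omV sumA
  have := measurable_reflW_right w.2 n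
  fun_prop

lemma measurableSet_omS (x B : ℝ) (n : ℕ) (w : ℝ × ℝ) : MeasurableSet (omS x B n w) :=
  (measurableSet_allLe B n).inter
    (measurableSet_lt measurable_const (measurable_reflW_right w.2 n))

lemma wX_rpow {a θ : ℝ} (ha0 : 0 < a) (ha1 : a < 1) (hθ : 0 < θ) :
    a * (wX a θ) ^ (a - 1) = θ := by
  unfold wX
  rw [← Real.rpow_mul (by positivity)]
  have : 1 / (1 - a) * (a - 1) = -1 := by
    have : 1 - a ≠ 0 := by linarith
    field_simp
    ring
  rw [this, Real.rpow_neg_one]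
  field_simp

lemma om_pointwise {a y θ X ε c δ : ℝ} {γ : Measure ℝ}
    (hy : 0 < y) (hθX : a * X ^ (a - 1) = θ)
    (hε : 0 < ε) (hε1 : ε ≤ 1 / 2) (hXy : |X - y| ≤ (ε / 4) * y)
    (hmix : ∀ D : ℝ, |D| ≤ ε * X → ENNReal.ofReal (Real.exp (-((X + D) ^ a))) ≤
          ENNReal.ofReal (Real.exp (-(X ^ a))) *
            ∫⁻ u, ENNReal.ofReal (Real.exp (-((a * X ^ (a - 1) - u) * D))) ∂γ)
    (hpt : ∀ X' : ℝ, ε / 4 * y < |X' - y| →
      Real.exp (-((max X' 0) ^ a)) ≤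
        Real.exp (-(((1 - ε / 4) * y) ^ (a - 1) * X')) +
        Real.exp (-((1 + δ) * y ^ a + c * y ^ (a - 1) * (X' - y))) +
        Real.exp (-(4 * y ^ a))) (V : ℝ) :
    ENNReal.ofReal (Real.exp (-((max V 0) ^ a))) ≤
      (∫⁻ u, ENNReal.ofReal (Real.exp (-(X ^ a) + (θ - u) * X)) *
        ENNReal.ofReal (Real.exp (-((θ - u) * V))) ∂γ) +
      ENNReal.ofReal (Real.exp (-(((1 - ε / 4) * y) ^ (a - 1) * V))) +
      ENNReal.ofReal (Real.exp (-((1 + δ) * y ^ a) + c * y ^ (a - 1) * y)) *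
        ENNReal.ofReal (Real.exp (-(c * y ^ (a - 1) * V))) +
      ENNReal.ofReal (Real.exp (-(4 * y ^ a))) := by
  by_cases h : |V - y| ≤ ε / 4 * y
  · have h1 := abs_le.1 h
    have h2 := abs_le.1 hXy
    have hV : 0 < V := by nlinarith
    have hX : y / 2 ≤ X := by nlinarith
    have hD : |V - X| ≤ ε * X := by
      rw [abs_le]
      constructor <;> nlinarith
    have h3 := hmix (V - X) hD
    rw [add_sub_cancel, hθX] at h3
    rw [max_eq_left hV.le]
    rw [← lintegral_const_mul' _ _ ENNReal.ofReal_ne_top] at h3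
    refine le_trans h3 ?_
    refine le_trans (le_of_eq ?_) (le_trans le_self_add (le_trans le_self_add le_self_add))
    refine lintegral_congr fun u => ?_
    rw [← ENNReal.ofReal_mul (Real.exp_nonneg _), ← ENNReal.ofReal_mul (Real.exp_nonneg _),
      ← Real.exp_add, ← Real.exp_add]
    congr 2
    ring
  · have h3 := hpt V (not_le.1 h)
    have h4 : ENNReal.ofReal (Real.exp (-((max V 0) ^ a))) ≤
      ENNReal.ofReal (Real.exp (-(((1 - ε / 4) * y) ^ (a - 1) * V))) +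
      ENNReal.ofReal (Real.exp (-((1 + δ) * y ^ a) + c * y ^ (a - 1) * y)) *
        ENNReal.ofReal (Real.exp (-(c * y ^ (a - 1) * V))) +
      ENNReal.ofReal (Real.exp (-(4 * y ^ a))) := by
      rw [← ENNReal.ofReal_mul (Real.exp_nonneg _), ← Real.exp_add,
        ← ENNReal.ofReal_add (Real.exp_nonneg _) (Real.exp_nonneg _),
        ← ENNReal.ofReal_add (by positivity) (Real.exp_nonneg _)]
      refine ENNReal.ofReal_le_ofReal (h3.trans (le_of_eq ?_))
      congr 3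
      ring_nf
    refine h4.trans ?_
    rw [add_assoc, add_assoc, add_assoc]
    exact le_add_self

variable {a : ℝ} {μ ν : Measure ℝ} [IsProbabilityMeasure μ] [IsProbabilityMeasure ν]

lemma mainOne_eq (x B : ℝ) (n : ℕ) (w : ℝ × ℝ) :
    mainOne μ ν a x B n w = ∫⁻ z in omS x B n w,
      ENNReal.ofReal (Real.exp (-((max (omV x n w z) 0) ^ a))) ∂(noise μ ν) := by
  rw [← lintegral_indicator (measurableSet_omS x B n w)]
  unfold mainOne
  refine lintegral_congr fun z => ?_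
  by_cases h1 : z ∈ allLe B n
  · by_cases h2 : x < reflW w.2 z n
    · rw [Set.indicator_of_mem h1, if_pos h2, Set.indicator_of_mem (show z ∈ omS x B n w from ⟨h1, h2⟩)]
      rfl
    · rw [Set.indicator_of_mem h1, if_neg h2, Set.indicator_of_notMem]
      exact fun h => h2 h.2
  · rw [Set.indicator_of_notMem h1, Set.indicator_of_notMem]
    exact fun h => h1 h.1

lemma tiltOne_eq (x B θ : ℝ) (n : ℕ) (w : ℝ × ℝ) :
    tiltOne μ ν x B θ n w = ∫⁻ z in omS x B n w,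
      ENNReal.ofReal (Real.exp (-(θ * omV x n w z))) ∂(noise μ ν) := by
  rw [← lintegral_indicator (measurableSet_omS x B n w)]
  unfold tiltOne
  refine lintegral_congr fun z => ?_
  by_cases h1 : z ∈ allLe B n
  · by_cases h2 : x < reflW w.2 z n
    · rw [Set.indicator_of_mem h1, if_pos h2, Set.indicator_of_mem (show z ∈ omS x B n w from ⟨h1, h2⟩)]
      rfl
    · rw [Set.indicator_of_mem h1, if_neg h2, Set.indicator_of_notMem]
      exact fun h => h2 h.2
  · rw [Set.indicator_of_notMem h1, Set.indicator_of_notMem]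
    exact fun h => h1 h.1

lemma measurable_tiltOne (x B θ : ℝ) (n : ℕ) (w : ℝ × ℝ) :
    Measurable (fun u : ℝ => tiltOne μ ν x B (θ - u) n w) := by
  simp_rw [tiltOne_eq]
  have h := measurable_omV x n w
  refine Measurable.lintegral_prod_right' (f := fun p : ℝ × (ℕ → ℝ × ℝ) =>
    ENNReal.ofReal (Real.exp (-((θ - p.1) * omV x n w p.2)))) ?_
  have h' : Measurable (fun p : ℝ × (ℕ → ℝ × ℝ) => omV x n w p.2) := h.comp measurable_snd
  fun_prop

lemma om_integrated {y θ X ε c δ : ℝ} {γ : Measure ℝ} [IsFiniteMeasure γ]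
    (hy : 0 < y) (hθX : a * X ^ (a - 1) = θ)
    (hε : 0 < ε) (hε1 : ε ≤ 1 / 2) (hXy : |X - y| ≤ (ε / 4) * y)
    (hmix : ∀ D : ℝ, |D| ≤ ε * X → ENNReal.ofReal (Real.exp (-((X + D) ^ a))) ≤
          ENNReal.ofReal (Real.exp (-(X ^ a))) *
            ∫⁻ u, ENNReal.ofReal (Real.exp (-((a * X ^ (a - 1) - u) * D))) ∂γ)
    (hpt : ∀ X' : ℝ, ε / 4 * y < |X' - y| →
      Real.exp (-((max X' 0) ^ a)) ≤
        Real.exp (-(((1 - ε / 4) * y) ^ (a - 1) * X')) +
        Real.exp (-((1 + δ) * y ^ a + c * y ^ (a - 1) * (X' - y))) +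
        Real.exp (-(4 * y ^ a))) (x B : ℝ) (n : ℕ) (w : ℝ × ℝ) :
    mainOne μ ν a x B n w ≤
      (∫⁻ u, ENNReal.ofReal (Real.exp (-(X ^ a) + (θ - u) * X)) *
        tiltOne μ ν x B (θ - u) n w ∂γ) +
      tiltOne μ ν x B (((1 - ε / 4) * y) ^ (a - 1)) n w +
      ENNReal.ofReal (Real.exp (-((1 + δ) * y ^ a) + c * y ^ (a - 1) * y)) *
        tiltOne μ ν x B (c * y ^ (a - 1)) n w +
      ENNReal.ofReal (Real.exp (-(4 * y ^ a))) := by
  have hV := measurable_omV x n w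
  have hV' : Measurable (fun p : (ℕ → ℝ × ℝ) × ℝ => omV x n w p.1) := hV.comp measurable_fst
  rw [mainOne_eq]
  refine (lintegral_mono fun z => om_pointwise hy hθX hε hε1 hXy hmix hpt (omV x n w z)).trans ?_
  have hm1 : Measurable (fun z => ∫⁻ u, ENNReal.ofReal (Real.exp (-(X ^ a) + (θ - u) * X)) *
        ENNReal.ofReal (Real.exp (-((θ - u) * omV x n w z))) ∂γ) := by
    refine Measurable.lintegral_prod_right' (f := fun p : (ℕ → ℝ × ℝ) × ℝ =>
      ENNReal.ofReal (Real.exp (-(X ^ a) + (θ - p.2) * X)) *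
        ENNReal.ofReal (Real.exp (-((θ - p.2) * omV x n w p.1)))) ?_
    fun_prop
  have hm2 : Measurable (fun z => ENNReal.ofReal
      (Real.exp (-(((1 - ε / 4) * y) ^ (a - 1) * omV x n w z)))) := by fun_prop
  have hm3 : Measurable (fun z => ENNReal.ofReal (Real.exp (-((1 + δ) * y ^ a) + c * y ^ (a - 1) * y)) *
        ENNReal.ofReal (Real.exp (-(c * y ^ (a - 1) * omV x n w z)))) := by fun_prop
  rw [lintegral_add_right _ measurable_const, lintegral_add_right _ hm3, lintegral_add_right _ hm2]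
  refine add_le_add (add_le_add (add_le_add ?_ ?_) ?_) ?_
  · rw [lintegral_lintegral_swap]
    · refine le_of_eq (lintegral_congr fun u => ?_)
      rw [lintegral_const_mul' _ _ ENNReal.ofReal_ne_top, tiltOne_eq]
    · apply Measurable.aemeasurable
      unfold Function.uncurry
      fun_prop
  · rw [tiltOne_eq]
  · rw [lintegral_const_mul' _ _ ENNReal.ofReal_ne_top, tiltOne_eq]
  · rw [lintegral_const]
    calc ENNReal.ofReal (Real.exp (-(4 * y ^ a))) * ((noise μ ν).restrict (omS x B n w)) Set.univ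
        ≤ ENNReal.ofReal (Real.exp (-(4 * y ^ a))) * 1 := by
          gcongr
          rw [Measure.restrict_apply_univ]
          exact prob_le_one
      _ = _ := mul_one _


lemma om_num {κ κ1 ω3 θ h u : ℝ} (hh : 0 < h) (hκ1 : 0 < κ1) (hκ1a : κ1 ≤ 1 / 2)
    (hκ : κ = κ1 / 8) (hω3 : ω3 ≤ κ1 / 8) (hθ0 : 0 < θ)
    (hθ : |θ - h| ≤ ω3 * h) (hu : |u| ≤ κ * θ) :
    0 < θ - u ∧ |θ - u - h| ≤ κ1 * h ∧ θ - u ≤ (1 + 1 / 16) * ((1 + 1 / 16) * h) ∧
      |u| ≤ θ / 2 := by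
  have h1 := abs_le.1 hθ
  have h2 := abs_le.1 hu
  have h3 : ω3 * h ≤ κ1 / 8 * h := mul_le_mul_of_nonneg_right hω3 hh.le
  have h4 : κ1 / 8 * h ≤ 1 / 16 * h := mul_le_mul_of_nonneg_right (by linarith) hh.le
  have h5 : κ * θ ≤ 1 / 16 * θ := mul_le_mul_of_nonneg_right (by linarith) hθ0.le
  have h6 : κ * θ ≤ κ * (17 / 16 * h) := mul_le_mul_of_nonneg_left (by linarith) (by linarith)
  have h7 : κ * (17 / 16 * h) = 17 / 16 * (κ1 / 8 * h) := by rw [hκ]; ring
  have h8 : κ1 * h = 8 * (κ1 / 8 * h) := by ring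
  have h9 : 0 ≤ κ1 / 8 * h := by positivity
  refine ⟨by linarith, ?_, by linarith, hu.trans (by linarith)⟩
  rw [abs_le, h8]
  constructor <;> linarith

lemma ev_small {β : ℝ → ℝ} {η : ℝ}
    (hlim : Tendsto (fun θ => β θ / θ) (𝓝[>] 0) (𝓝 (η - 1))) {σ : ℝ} (hσ : 0 < σ) :
    ∃ θ1 : ℝ, 0 < θ1 ∧ ∀ θ, 0 < θ → θ < θ1 → (η - σ) * θ ≤ θ + β θ ∧ θ + β θ ≤ (η + σ) * θ := by
  have h := (hlim.eventually (Ioo_mem_nhds (show η - 1 - σ < η - 1 by linarith)
    (show η - 1 < η - 1 + σ by linarith)))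
  rw [eventually_nhdsWithin_iff, Metric.eventually_nhds_iff] at h
  obtain ⟨θ1, hθ1, h⟩ := h
  refine ⟨θ1, hθ1, fun θ h0 h1 => ?_⟩
  have h2 := h (y := θ) (by rw [Real.dist_eq, sub_zero, abs_of_pos h0]; exact h1) h0
  have h3 := h2.1
  have h4 := h2.2
  rw [lt_div_iff₀ h0] at h3
  rw [div_lt_iff₀ h0] at h4
  constructor <;> nlinarith

lemma tendsto_rpow_sub_one {a : ℝ} (ha1 : a < 1) :
    Tendsto (fun x : ℝ => x ^ (a - 1)) atTop (𝓝 0) := by
  have := tendsto_rpow_neg_atTop (show 0 < 1 - a by linarith)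
  refine this.congr fun x => ?_
  congr 1
  ring

lemma om_tilt (ha0 : 0 < a) (ha1 : a < 1)
    (hμ : ∀ x, 0 ≤ x → μ (Set.Ioi x) = ENNReal.ofReal (Real.exp (-(x ^ a))))
    (hν : ν (Set.Iio 0) = 0) (hνi : Integrable (fun t : ℝ => t) ν)
    (hm : 0 < ∫ t, t ∂ν)
    (hgt : (∫ t, t ∂ν) < ∫ s, s ∂μ) (hlt : (∫ s, s ∂μ) < 2 * ∫ t, t ∂ν)
    {K : ℕ} (hK1 : 1 ≤ K) (hK : 1 < (K + 1) * (1 - a)) {η : ℝ}
    (hη : η = (∫ s, s ∂μ) / ((∫ s, s ∂μ) - ∫ t, t ∂ν)) (hη2 : 2 < η) {b : ℝ} (hb : 0 < b)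
    (hcb : 2 * η * b ^ (1 - a) ≤ 1 / 2) {ω : ℝ} (hω : 0 < ω) (C : ℝ) :
    ∀ᶠ x : ℝ in atTop, ∀ θ : ℝ, 0 < θ → θ ≤ 2 * x ^ (a - 1) → ∀ N : ℕ, (N : ℝ) ≤ C * x →
      ∀ w : ℝ × ℝ, 0 ≤ w.1 → w.1 ≤ w.2 →
      ∑ n ∈ Finset.range N, tiltOne μ ν x (b * x) θ n w ≤
        (∑ n ∈ Finset.range N, lvlA μ ν (b * x) θ n) * ENNReal.ofReal (1 + ω) *
          ENNReal.ofReal (Real.exp (-((θ + cramerRoot μ ν K θ) * (x - w.2)))) := by
  obtain ⟨θ0, hθ0, hbas⟩ := beta_basic ha0 ha1 hμ hν hνi hm hgt hlt hK1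
  have hlim := beta_limit ha0 ha1 hμ hν hνi hm hgt hlt hK1
  rw [← hη] at hlim
  obtain ⟨θ1, hθ1, hsm⟩ := ev_small hlim (σ := 1) one_pos
  obtain ⟨C1, hC1, hphi⟩ := phi_upper ha0 ha1 hμ hν K (c := 2 * η) (by linarith) hb hcb
  have hx1 : Tendsto (fun x : ℝ => 2 * x ^ (a - 1)) atTop (𝓝 0) := by
    simpa using (tendsto_rpow_sub_one ha1).const_mul 2
  have hev1 := hx1.eventually_lt_const hθ0
  have hev2 := hx1.eventually_lt_const hθ1
  set A : ℝ := C1 * (2 * η) ^ (K + 1) with hA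
  have hA0 : 0 ≤ A := by positivity
  have hx2 : Tendsto (fun x : ℝ => |C| * A * (x * (x ^ (a - 1)) ^ (K + 1))) atTop (𝓝 0) := by
    have h1 : Tendsto (fun x : ℝ => x ^ (-((K + 1) * (1 - a) - 1))) atTop (𝓝 0) :=
      tendsto_rpow_neg_atTop (by linarith)
    have h2 : Tendsto (fun x : ℝ => x * (x ^ (a - 1)) ^ (K + 1)) atTop (𝓝 0) := by
      refine h1.congr' ?_
      filter_upwards [eventually_gt_atTop 0] with x hx
      rw [← Real.rpow_natCast, ← Real.rpow_mul hx.le]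
      nth_rewrite 2 [← Real.rpow_one x]
      rw [← Real.rpow_add hx]
      congr 1
      push_cast
      ring
    simpa using h2.const_mul (|C| * A)
  have hev3 := hx2.eventually_lt_const (show 0 < Real.log (1 + ω) from Real.log_pos (by linarith))
  filter_upwards [hev1, hev2, hev3, eventually_gt_atTop 0] with x h1 h2 h3 hx θ hθ hθ' N hN w hw0 hw1
  have hr : 0 < x ^ (a - 1) := Real.rpow_pos_of_pos hx _
  obtain ⟨hb1, hb2, -⟩ := hbas θ hθ (lt_of_le_of_lt hθ' h1)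
  obtain ⟨-, hs2⟩ := hsm θ hθ (lt_of_le_of_lt hθ' h2)
  set β := cramerRoot μ ν K θ with hβ
  have hβ0 : 0 ≤ β := hθ.le.trans hb1
  have hβ1 : β ≤ 2 * η * x ^ (a - 1) := by
    have : β ≤ η * θ := by linarith
    refine this.trans ?_
    nlinarith
  have hφ : trPhi μ ν (b * x) β θ ≤ ENNReal.ofReal (1 + A * (x ^ (a - 1)) ^ (K + 1)) := by
    refine (hphi x hx β θ hβ0 hβ1 hθ.le).trans (ENNReal.ofReal_le_ofReal ?_)
    rw [hb2]
    have h5 : β ^ (K + 1) ≤ (2 * η * x ^ (a - 1)) ^ (K + 1) := pow_le_pow_left₀ hβ0 hβ1 _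
    rw [mul_pow] at h5
    calc 1 + C1 * β ^ (K + 1) ≤ 1 + C1 * ((2 * η) ^ (K + 1) * (x ^ (a - 1)) ^ (K + 1)) := by gcongr
      _ = _ := by rw [hA]; ring
  have hφ1 : (1 : ℝ≥0∞) ≤ ENNReal.ofReal (1 + A * (x ^ (a - 1)) ^ (K + 1)) := by
    rw [← ENNReal.ofReal_one]
    exact ENNReal.ofReal_le_ofReal (by linarith [show 0 ≤ A * (x ^ (a - 1)) ^ (K + 1) by positivity])
  have h6 := tilt_upper (μ := μ) (ν := ν) hθ.le hb1 hφ1 hφ N x hw0 hw1
  refine h6.trans ?_
  gcongr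
  rw [← ENNReal.ofReal_pow (by positivity)]
  refine ENNReal.ofReal_le_ofReal ?_
  calc (1 + A * (x ^ (a - 1)) ^ (K + 1)) ^ N
      ≤ (Real.exp (A * (x ^ (a - 1)) ^ (K + 1))) ^ N := by
        refine pow_le_pow_left₀ (by positivity) ?_ _
        rw [add_comm]
        exact Real.add_one_le_exp _
    _ = Real.exp (N * (A * (x ^ (a - 1)) ^ (K + 1))) := by rw [← Real.exp_nat_mul]
    _ ≤ Real.exp (Real.log (1 + ω)) := by
        refine Real.exp_le_exp.2 (le_trans ?_ h3.le)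
        have : (N : ℝ) ≤ |C| * x := hN.trans (mul_le_mul_of_nonneg_right (le_abs_self C) hx.le)
        calc (N : ℝ) * (A * (x ^ (a - 1)) ^ (K + 1)) ≤ (|C| * x) * (A * (x ^ (a - 1)) ^ (K + 1)) := by
              gcongr
          _ = _ := by ring
    _ = 1 + ω := Real.exp_log (by linarith)

lemma om_err (ha0 : 0 < a) (ha1 : a < 1)
    (hμ : ∀ x, 0 ≤ x → μ (Set.Ioi x) = ENNReal.ofReal (Real.exp (-(x ^ a))))
    (hν : ν (Set.Iio 0) = 0) (hνi : Integrable (fun t : ℝ => t) ν)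
    (hm : 0 < ∫ t, t ∂ν)
    (hgt : (∫ t, t ∂ν) < ∫ s, s ∂μ) (hlt : (∫ s, s ∂μ) < 2 * ∫ t, t ∂ν)
    {K : ℕ} (hK1 : 1 ≤ K) (hK : 1 < (K + 1) * (1 - a)) {η : ℝ}
    (hη : η = (∫ s, s ∂μ) / ((∫ s, s ∂μ) - ∫ t, t ∂ν)) (hη2 : 2 < η) {b : ℝ} (hb : 0 < b)
    (hcb : 2 * η * b ^ (1 - a) ≤ 1 / 2) (C : ℝ) {q σ ε0 : ℝ} (hq : 0 < q)
    (hq2 : q * η ^ (a - 1) ≤ 2) (hσ : 0 < σ) (hε0 : ε0 ≤ 1) :
    ∀ᶠ x : ℝ in atTop, ∀ N : ℕ, (N : ℝ) ≤ C * x →
      ∀ w : ℝ × ℝ, 0 ≤ w.1 → w.1 ≤ w.2 → w.2 ≤ ε0 * x →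
      ∑ n ∈ Finset.range N, tiltOne μ ν x (b * x) (q * (η * x) ^ (a - 1)) n w ≤
        ENNReal.ofReal (2 * (C * x) ^ 2 * Real.exp (-((1 - σ) * (1 - ε0) * q * (η * x) ^ a))) := by
  have hη0 : 0 < η := by linarith
  have hb' : 0 < b ^ (1 - a) := Real.rpow_pos_of_pos hb _
  have hlim := beta_limit ha0 ha1 hμ hν hνi hm hgt hlt hK1
  rw [← hη] at hlim
  obtain ⟨θ1, hθ1, hsm⟩ := ev_small hlim (σ := σ * η) (by positivity)
  have hx1 : Tendsto (fun x : ℝ => 2 * x ^ (a - 1)) atTop (𝓝 0) := by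
    simpa using (tendsto_rpow_sub_one ha1).const_mul 2
  have hev2 := hx1.eventually_lt_const hθ1
  have hev3 := om_tilt ha0 ha1 hμ hν hνi hm hgt hlt hK1 hK hη hη2 hb hcb one_pos C
  have hev4 := qsum_crude ha0 ha1 hμ hν hνi hlt (c := 2) (b := b) (by norm_num) hb (by nlinarith)
  filter_upwards [hev2, hev3, hev4, eventually_gt_atTop 0] with x h2 h3 h4 hx N hN w hw0 hw1 hw2
  have hr : 0 < x ^ (a - 1) := Real.rpow_pos_of_pos hx _
  have hηr : 0 < η ^ (a - 1) := Real.rpow_pos_of_pos hη0 _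
  set θ := q * (η * x) ^ (a - 1) with hθdef
  have hθe : θ = q * η ^ (a - 1) * x ^ (a - 1) := by
    rw [hθdef, Real.mul_rpow hη0.le hx.le]; ring
  have hθ0 : 0 < θ := by rw [hθe]; positivity
  have hθ2 : θ ≤ 2 * x ^ (a - 1) := by rw [hθe]; gcongr
  have h5 := h3 θ hθ0 hθ2 N hN w hw0 hw1
  have h6 : ∑ n ∈ Finset.range N, lvlA μ ν (b * x) θ n ≤ ENNReal.ofReal ((C * x) ^ 2) := by
    calc ∑ n ∈ Finset.range N, lvlA μ ν (b * x) θ n ≤ ∑ n ∈ Finset.range N, (N : ℝ≥0∞) := by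
          refine Finset.sum_le_sum fun n hn => (h4 θ hθ0.le hθ2 n).trans ?_
          have : n + 1 ≤ N := Finset.mem_range.1 hn
          exact_mod_cast this
      _ = ENNReal.ofReal ((N : ℝ) ^ 2) := by
          rw [Finset.sum_const, Finset.card_range, nsmul_eq_mul, ENNReal.ofReal_pow (by positivity),
            ENNReal.ofReal_natCast, sq]
      _ ≤ _ := ENNReal.ofReal_le_ofReal (pow_le_pow_left₀ (by positivity) hN 2)
  refine h5.trans ?_
  calc _ ≤ ENNReal.ofReal ((C * x) ^ 2) * ENNReal.ofReal (1 + 1) *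
        ENNReal.ofReal (Real.exp (-((1 - σ) * (1 - ε0) * q * (η * x) ^ a))) := by
        refine mul_le_mul' (mul_le_mul' h6 le_rfl)
          (ENNReal.ofReal_le_ofReal (Real.exp_le_exp.2 (neg_le_neg ?_)))
        have h7 := (hsm θ hθ0 (lt_of_le_of_lt hθ2 h2)).1
        have h8 : 0 ≤ (1 - ε0) * x := mul_nonneg (by linarith) hx.le
        have h9 : (η * x) ^ a = (η * x) ^ (a - 1) * (η * x) := by
          rw [Real.rpow_sub_one (by positivity)]
          field_simp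
        have h10 : 0 ≤ cramerRoot μ ν K θ := cramerRoot_nonneg K θ
        calc (1 - σ) * (1 - ε0) * q * (η * x) ^ a = ((η - σ * η) * θ) * ((1 - ε0) * x) := by
              rw [h9, hθdef]; ring
          _ ≤ (θ + cramerRoot μ ν K θ) * ((1 - ε0) * x) := by gcongr
          _ ≤ (θ + cramerRoot μ ν K θ) * (x - w.2) := by
              gcongr
              nlinarith
    _ = _ := by
        rw [← ENNReal.ofReal_mul (by positivity), ← ENNReal.ofReal_mul (by positivity)]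
        congr 1
        ring

end OneMainAux

section stoch

variable {a : ℝ} {μ ν : Measure ℝ} [IsProbabilityMeasure μ] [IsProbabilityMeasure ν]

open OneMainAux

theorem one_main (ha0 : 0 < a) (ha1 : a < 1)
    (hμ : ∀ x, 0 ≤ x → μ (Set.Ioi x) = ENNReal.ofReal (Real.exp (-(x ^ a))))
    (hν : ν (Set.Iio 0) = 0) (hνi : Integrable (fun t : ℝ => t) ν)
    (hm : 0 < ∫ t, t ∂ν)
    (hgt : (∫ t, t ∂ν) < ∫ s, s ∂μ) (hlt : (∫ s, s ∂μ) < 2 * ∫ t, t ∂ν)
    (h2 : ((∫ s, s ∂μ) / ((∫ s, s ∂μ) - ∫ t, t ∂ν)) ^ a ≤ 2)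
    {K : ℕ} (hK : 1 < (K + 1) * (1 - a)) {ω : ℝ} (hω : 0 < ω) :
    ∃ ε0 b0 δ : ℝ, 0 < ε0 ∧ 0 < b0 ∧ 0 < δ ∧ ∀ b : ℝ, 0 < b → b ≤ b0 → ∀ C : ℝ,
      ∀ᶠ x : ℝ in atTop, ∀ w : ℝ × ℝ, 0 ≤ w.1 → w.1 ≤ w.2 → w.2 ≤ ε0 * x →
        ∀ N : ℕ, (N : ℝ) ≤ C * x →
        ∑ n ∈ Finset.range N, mainOne μ ν a x (b * x) n w ≤
          ENNReal.ofReal ((1 + ω) * fOne a μ ν K x *
            Real.exp (2 * (3 / 2 * (a * x ^ (a - 1))) * w.2)) +
          ENNReal.ofReal (Real.exp (-((1 + δ) *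
            ((∫ s, s ∂μ) / ((∫ s, s ∂μ) - ∫ t, t ∂ν) * x) ^ a))) := by
  have hK1 : 1 ≤ K := by
    rcases Nat.eq_zero_or_pos K with h | h
    · subst h
      push_cast at hK
      linarith
    · exact h
  set E := ∫ s, s ∂μ with hE
  set m := ∫ t, t ∂ν with hmd
  obtain ⟨η, hη⟩ : ∃ η, η = E / (E - m) := ⟨_, rfl⟩
  have hEm : 0 < E - m := by linarith
  have hη2 : 2 < η := by
    rw [hη, lt_div_iff₀ hEm]
    linarith
  have hη0 : 0 < η := by linarith
  rw [← hη] at h2 ⊢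
  have h2mE : 0 < 2 * m - E := by linarith
  -- the parameters
  set ω0 : ℝ := min (ω / 7) 1 with hω0d
  have hω0 : 0 < ω0 := by positivity
  have hω0a : ω0 ≤ 1 := min_le_right _ _
  have hω0b : (1 + ω0) ^ 3 ≤ 1 + ω := by
    have e0 : ω0 ≤ ω / 7 := min_le_left _ _
    have e1 : 0 ≤ ω0 * (1 - ω0) := mul_nonneg hω0.le (sub_nonneg.2 hω0a)
    have e2 : 0 ≤ ω0 * ω0 * (1 - ω0) := mul_nonneg (mul_nonneg hω0.le hω0.le) (sub_nonneg.2 hω0a)
    have e3 : (1 + ω0) ^ 3 = 1 + 7 * ω0 - 4 * (ω0 * (1 - ω0)) - ω0 * ω0 * (1 - ω0) := by ring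
    rw [e3]
    linarith
  obtain ⟨ω2, hω2, hmix⟩ := mix ha0 ha1 hω0
  obtain ⟨κ1, hκ1, hκ1a, hqs⟩ := qsum_upper ha0 ha1 hμ hν hνi hm hgt hlt hω0
  set κ : ℝ := κ1 / 8 with hκ
  have hκ0 : 0 < κ := by positivity
  obtain ⟨ε, hε, hε1, hmix⟩ := hmix κ hκ0 (by linarith)
  obtain ⟨c, δp, hc, hc1, hδp, hpt⟩ := pt_bound ha0 ha1 (ε := ε / 4) (by positivity) (by linarith)
  set ω3 : ℝ := min (min ω2 (κ1 / 8)) (ε / 4) with hω3
  have hω30 : 0 < ω3 := by positivity
  have hω3a : ω3 ≤ ω2 := (min_le_left _ _).trans (min_le_left _ _)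
  have hω3b : ω3 ≤ κ1 / 8 := (min_le_left _ _).trans (min_le_right _ _)
  have hω3c : ω3 ≤ ε / 4 := min_le_right _ _
  obtain ⟨β1, hβ1⟩ := beta_expand ha0 ha1 hμ hν hνi hm hgt hlt hK1
  have hlim := beta_limit ha0 ha1 hμ hν hνi hm hgt hlt hK1
  rw [← hE, ← hmd, ← hη] at hlim
  have hopt := opt_exists ha0 ha1 (η := η) (by linarith) (fun θ => cramerRoot_nonneg (μ := μ) (ν := ν) K θ)
    hlim hβ1 hω30
  obtain ⟨θ1, hθ1, hsm⟩ := ev_small hlim (σ := η / 8) (by positivity)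
  -- the exponents of the error terms
  set q1 : ℝ := (1 - ε / 4) ^ (a - 1) with hq1
  have hq11 : 1 < q1 := Real.one_lt_rpow_of_pos_of_lt_one_of_neg (by linarith) (by linarith) (by linarith)
  set s : ℝ := min (min ((q1 - 1) / (4 * q1)) (δp / 4)) (1 / 2) with hs
  have hs0 : 0 < s := by
    have : 0 < (q1 - 1) / (4 * q1) := div_pos (by linarith) (by linarith)
    positivity
  have hsa : s ≤ (q1 - 1) / (4 * q1) := (min_le_left _ _).trans (min_le_left _ _)
  have hsb : s ≤ δp / 4 := (min_le_left _ _).trans (min_le_right _ _)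
  have hsc : s ≤ 1 / 2 := min_le_right _ _
  set δ : ℝ := min (min ((q1 - 1) / 4) (δp / 4)) 1 with hδ
  have hδ0 : 0 < δ := by
    have : 0 < (q1 - 1) / 4 := by linarith
    positivity
  have hδa : δ ≤ (q1 - 1) / 4 := (min_le_left _ _).trans (min_le_left _ _)
  have hδb : δ ≤ δp / 4 := (min_le_left _ _).trans (min_le_right _ _)
  have hδc : δ ≤ 1 := min_le_right _ _
  have hex1 : 1 + 2 * δ ≤ (1 - s) * (1 - s) * q1 := by
    rw [le_div_iff₀ (by linarith)] at hsa
    have e1 : 0 ≤ s ^ 2 * q1 := mul_nonneg (sq_nonneg s) (by linarith)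
    have e2 : (1 - s) * (1 - s) * q1 = q1 - s * (4 * q1) / 2 + s ^ 2 * q1 := by ring
    rw [e2]
    linarith
  have hex2 : 1 + 2 * δ ≤ (1 + δp) - c + (1 - s) * (1 - s) * c := by
    have e1 : 0 ≤ s * (1 - c) := mul_nonneg hs0.le (sub_nonneg.2 hc1)
    have e2 : 0 ≤ c * s ^ 2 := mul_nonneg hc.le (sq_nonneg s)
    have e3 : (1 - s) * (1 - s) * c = c - 2 * s + 2 * (s * (1 - c)) + c * s ^ 2 := by ring
    rw [e3]
    linarith
  refine ⟨s, (1 / (4 * η)) ^ (1 / (1 - a)), δ, hs0, by positivity, hδ0, ?_⟩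
  intro b hb hbb C
  have hcb : 2 * η * b ^ (1 - a) ≤ 1 / 2 := by
    have h1 : b ^ (1 - a) ≤ ((1 / (4 * η)) ^ (1 / (1 - a))) ^ (1 - a) :=
      Real.rpow_le_rpow hb.le hbb (by linarith)
    rw [← Real.rpow_mul (by positivity), one_div_mul_cancel (by linarith), Real.rpow_one] at h1
    calc 2 * η * b ^ (1 - a) ≤ 2 * η * (1 / (4 * η)) := by gcongr
      _ = 1 / 2 := by field_simp; norm_num
  have hb' : 0 < b ^ (1 - a) := Real.rpow_pos_of_pos hb _
  have hbη : 4 * (b / η) ^ (1 - a) ≤ 1 / 2 := by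
    have : (b / η) ^ (1 - a) ≤ b ^ (1 - a) := by
      exact Real.rpow_le_rpow (by positivity) (div_le_self hb.le (by linarith)) (by linarith)
    have h4 : 4 * b ^ (1 - a) ≤ 2 * η * b ^ (1 - a) :=
      mul_le_mul_of_nonneg_right (by linarith) hb'.le
    linarith
  have hqs := hqs (b / η) (by positivity) hbη
  have hηr : 0 < η ^ (a - 1) := Real.rpow_pos_of_pos hη0 _
  have hηr1 : η ^ (a - 1) ≤ 1 := Real.rpow_le_one_of_one_le_of_nonpos (by linarith) (by linarith)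
  have hq1η : q1 * η ^ (a - 1) ≤ 2 := by
    rw [hq1, ← Real.mul_rpow (by linarith) hη0.le]
    refine (Real.rpow_le_one_of_one_le_of_nonpos ?_ (by linarith)).trans (by norm_num)
    calc (1 : ℝ) ≤ 1 / 2 * 2 := by norm_num
      _ ≤ (1 - ε / 4) * η := mul_le_mul (by linarith) hη2.le (by norm_num) (by linarith)
  have hcη : c * η ^ (a - 1) ≤ 2 :=
    (mul_le_mul hc1 hηr1 hηr.le (by norm_num)).trans (by norm_num)
  have herr1 := om_err ha0 ha1 hμ hν hνi hm hgt hlt hK1 hK hη hη2 hb hcb C (q := q1) (σ := s)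
    (ε0 := s) (by linarith) hq1η hs0 (by linarith)
  have herr2 := om_err ha0 ha1 hμ hν hνi hm hgt hlt hK1 hK hη hη2 hb hcb C (q := c) (σ := s)
    (ε0 := s) hc hcη hs0 (by linarith)
  have htl := om_tilt ha0 ha1 hμ hν hνi hm hgt hlt hK1 hK hη hη2 hb hcb hω0 C
  have hηx : Tendsto (fun x : ℝ => η * x) atTop atTop := tendsto_id.const_mul_atTop hη0
  have hqs := hηx.eventually hqs
  obtain ⟨X0, hX0⟩ := eventually_atTop.1 hmix
  have hx1 : Tendsto (fun x : ℝ => 2 * x ^ (a - 1)) atTop (𝓝 0) := by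
    simpa using (tendsto_rpow_sub_one ha1).const_mul 2
  have hev2 := hx1.eventually_lt_const hθ1
  -- polynomial factor
  have hpoly : ∀ᶠ x : ℝ in atTop, 4 * (C * x) ^ 2 + C * x ≤ Real.exp (δ * (η * x) ^ a) := by
    have h1 := (tendsto_rpow_mul_exp_neg_mul_atTop_nhds_zero (2 / a) (δ * η ^ a)
      (by positivity)).comp (tendsto_rpow_atTop ha0)
    have h3 := (h1.const_mul (4 * C ^ 2 + |C|))
    rw [mul_zero] at h3
    filter_upwards [h3.eventually_lt_const one_pos, eventually_ge_atTop 1] with x hx hx1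
    have hx0 : 0 < x := by linarith
    simp only [Function.comp] at hx
    rw [← Real.rpow_mul hx0.le, mul_div_cancel₀ _ ha0.ne', Real.rpow_two] at hx
    rw [Real.mul_rpow hη0.le hx0.le]
    have h5 : 4 * (C * x) ^ 2 + C * x ≤ (4 * C ^ 2 + |C|) * x ^ 2 := by
      have h6 : C * x ≤ |C| * x := mul_le_mul_of_nonneg_right (le_abs_self C) hx0.le
      have h7 : |C| * x ≤ |C| * x ^ 2 := by
        exact mul_le_mul_of_nonneg_left (le_self_pow₀ hx1 (by norm_num)) (abs_nonneg C)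
      have h7' : 4 * (C * x) ^ 2 + C * x = 4 * C ^ 2 * x ^ 2 + C * x := by ring
      rw [h7', add_mul]
      linarith
    have h8 : Real.exp (-(δ * η ^ a) * x ^ a) * Real.exp (δ * (η ^ a * x ^ a)) = 1 := by
      rw [← Real.exp_add, ← Real.exp_zero]
      congr 1
      ring
    have h9 : 0 < Real.exp (δ * (η ^ a * x ^ a)) := Real.exp_pos _
    calc 4 * (C * x) ^ 2 + C * x ≤ (4 * C ^ 2 + |C|) * x ^ 2 := h5
      _ = ((4 * C ^ 2 + |C|) * (x ^ 2 * Real.exp (-(δ * η ^ a) * x ^ a))) *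
          Real.exp (δ * (η ^ a * x ^ a)) := by
          rw [← mul_assoc, mul_assoc, h8, mul_one]
      _ ≤ 1 * Real.exp (δ * (η ^ a * x ^ a)) := by gcongr
      _ = _ := one_mul _
  filter_upwards [herr1, herr2, htl, hqs, hopt, hev2, hpoly, eventually_gt_atTop 0,
    hηx.eventually (eventually_ge_atTop (2 * X0))] with x he1 he2 ht hq ho hs2 hp hx hXX w hw0 hw1
    hw2 N hN
  obtain ⟨θ, hθ, ho1, ho2, ho3, -, ho5⟩ := ho
  set y := η * x with hy
  have hy0 : 0 < y := by positivity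
  set X := wX a θ with hX
  set h := a * y ^ (a - 1) with hh
  have hh0 : 0 < h := by positivity
  have hθX : a * X ^ (a - 1) = θ := wX_rpow ha0 ha1 hθ
  have hκa : κ ≤ 1 / 16 := by linarith
  have hω3d : ω3 ≤ 1 / 16 := by linarith
  have ho2' := abs_le.1 ho2
  have hω3y : ω3 * y ≤ 1 / 16 * y := mul_le_mul_of_nonneg_right hω3d hy0.le
  have hxy : 2 * x ≤ y := mul_le_mul_of_nonneg_right hη2.le hx.le
  have hX1 : y * (15 / 16) ≤ X := by linarith
  have hX2 : x ≤ X := by linarith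
  have hXX' : X0 ≤ X := by
    have : 2 * X0 ≤ y := hXX
    linarith
  obtain ⟨γ, hγf, hγs, hγm, hγi⟩ := hX0 X hXX'
  rw [hθX] at hγs hγi
  have hXy : |X - y| ≤ ε / 4 * y := ho2.trans (by gcongr)
  have hint := fun n => om_integrated (μ := μ) (ν := ν) hy0 hθX hε hε1 hXy hγm (hpt y hy0) x (b * x) n w
  refine (Finset.sum_le_sum fun n _ => hint n).trans ?_
  rw [Finset.sum_add_distrib, Finset.sum_add_distrib, Finset.sum_add_distrib, add_assoc, add_assoc]
  refine add_le_add ?_ ?_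
  · -- the main term
    rw [← lintegral_finsetSum' _ (fun n _ => by
      refine Measurable.aemeasurable (Measurable.mul ?_ (measurable_tiltOne _ _ _ _ _))
      fun_prop)]
    simp_rw [← Finset.mul_sum]
    have hx3 : 0 < x ^ (a - 1) := Real.rpow_pos_of_pos hx _
    have hhx : h = η ^ (a - 1) * (a * x ^ (a - 1)) := by
      rw [hh, hy, Real.mul_rpow hη0.le hx.le]; ring
    have hηa : η * η ^ (a - 1) = η ^ a := by
      rw [Real.rpow_sub_one hη0.ne']
      field_simp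
    have ho1' := abs_le.1 ho1
    have hbx : b / η * y = b * x := by rw [hy]; field_simp
    set Q : ℝ := (1 + ω0) / ((2 * m - E) * h) with hQ
    have hQ0 : 0 ≤ Q := by positivity
    set hx' := a * x ^ (a - 1) with hhx'
    have hx'0 : 0 < hx' := by positivity
    set R := rateB a (cramerRoot μ ν K) x with hR
    calc ∫⁻ u, ENNReal.ofReal (Real.exp (-(X ^ a) + (θ - u) * X)) *
          ∑ n ∈ Finset.range N, tiltOne μ ν x (b * x) (θ - u) n w ∂γ
        ≤ ∫⁻ u, ENNReal.ofReal (Q * (1 + ω0) * Real.exp (-R + 3 * hx' * w.2)) *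
          ENNReal.ofReal (Real.exp (ω2 * X * u ^ 2 / θ)) ∂γ := by
          refine lintegral_mono_ae ?_
          filter_upwards [hγs] with u hu
          obtain ⟨ht0, ht1, ht2, ht4⟩ := om_num hh0 hκ1 hκ1a hκ hω3b hθ ho1 hu
          have ht3 : θ - u ≤ 2 * x ^ (a - 1) := by
            refine ht2.trans ?_
            have : h ≤ x ^ (a - 1) := by
              rw [hhx, hhx']
              calc η ^ (a - 1) * (a * x ^ (a - 1)) ≤ 1 * (1 * x ^ (a - 1)) := by gcongr
                _ = _ := by ring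
            linarith
          have hT := ht (θ - u) ht0 ht3 N hN w hw0 hw1
          have hL := hq (θ - u) ht1 N
          rw [hbx] at hL
          have hexp := ho5 (-u) (by rw [abs_neg]; exact ht4)
          rw [← sub_eq_add_neg, neg_sq] at hexp
          set β' := cramerRoot μ ν K (θ - u) with hβ'
          have hs3 := (hsm (θ - u) ht0 (lt_of_le_of_lt ht3 hs2)).2
          have hw2' : 0 ≤ w.2 := hw0.trans hw1
          have h10 : (θ - u + β') * w.2 ≤ 3 * hx' * w.2 := by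
            refine mul_le_mul_of_nonneg_right ?_ hw2'
            calc θ - u + β' ≤ (η + η / 8) * (θ - u) := hs3
              _ ≤ (η + η / 8) * ((1 + 1 / 16) * ((1 + 1 / 16) * h)) := by gcongr
              _ = (9 / 8 * (17 / 16) ^ 2) * η ^ a * hx' := by rw [hhx, ← hηa]; ring
              _ ≤ (9 / 8 * (17 / 16) ^ 2) * 2 * hx' := by gcongr
              _ ≤ 3 * hx' := by linarith
          have h11 : ω3 / θ * x * u ^ 2 ≤ ω2 * X * u ^ 2 / θ := by
            rw [div_mul_eq_mul_div, div_mul_eq_mul_div]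
            gcongr
          calc ENNReal.ofReal (Real.exp (-(X ^ a) + (θ - u) * X)) *
                ∑ n ∈ Finset.range N, tiltOne μ ν x (b * x) (θ - u) n w
              ≤ ENNReal.ofReal (Real.exp (-(X ^ a) + (θ - u) * X)) *
                (ENNReal.ofReal Q * ENNReal.ofReal (1 + ω0) *
                  ENNReal.ofReal (Real.exp (-((θ - u + β') * (x - w.2))))) := by
                gcongr
                refine hT.trans ?_
                gcongr
            _ = ENNReal.ofReal (Q * (1 + ω0) * Real.exp (-(X ^ a) + (θ - u) * X +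
                  -((θ - u + β') * (x - w.2)))) := by
                rw [Real.exp_add _ (-((θ - u + β') * (x - w.2))), ← ENNReal.ofReal_mul hQ0,
                  ← ENNReal.ofReal_mul (by positivity), ← ENNReal.ofReal_mul (Real.exp_nonneg _)]
                congr 1
                ring
            _ ≤ ENNReal.ofReal (Q * (1 + ω0) * Real.exp ((-R + 3 * hx' * w.2) +
                  ω2 * X * u ^ 2 / θ)) := by
                refine ENNReal.ofReal_le_ofReal (mul_le_mul_of_nonneg_left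
                  (Real.exp_le_exp.2 ?_) (by positivity))
                linarith
            _ = _ := by
                rw [← ENNReal.ofReal_mul (by positivity), Real.exp_add]
                congr 1
                ring
      _ = ENNReal.ofReal (Q * (1 + ω0) * Real.exp (-R + 3 * hx' * w.2)) *
          ∫⁻ u, ENNReal.ofReal (Real.exp (ω2 * X * u ^ 2 / θ)) ∂γ :=
          lintegral_const_mul' _ _ ENNReal.ofReal_ne_top
      _ ≤ ENNReal.ofReal (Q * (1 + ω0) * Real.exp (-R + 3 * hx' * w.2)) * ENNReal.ofReal (1 + ω0) := by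
          gcongr
      _ ≤ _ := by
          rw [← ENNReal.ofReal_mul (by positivity)]
          refine ENNReal.ofReal_le_ofReal ?_
          unfold fOne
          rw [← hE, ← hmd, ← hη, ← hR, ← hy, ← hh, Real.exp_add, hQ]
          have h12 : 2 * (3 / 2 * hx') * w.2 = 3 * hx' * w.2 := by ring
          rw [h12]
          calc (1 + ω0) / ((2 * m - E) * h) * (1 + ω0) * (Real.exp (-R) * Real.exp (3 * hx' * w.2)) *
                (1 + ω0) = (1 + ω0) ^ 3 * (Real.exp (-R) / ((2 * m - E) * h)) *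
                  Real.exp (3 * hx' * w.2) := by ring
            _ ≤ _ := by gcongr
  · -- the error terms
    have hya : 0 < y ^ a := Real.rpow_pos_of_pos hy0 _
    have hyy : y ^ (a - 1) * y = y ^ a := by
      rw [Real.rpow_sub_one hy0.ne']
      field_simp
    have h13 : ((1 - ε / 4) * y) ^ (a - 1) = q1 * y ^ (a - 1) := by
      rw [hq1, Real.mul_rpow (by linarith) hy0.le]
    have he1' := he1 N hN w hw0 hw1 hw2
    have he2' := he2 N hN w hw0 hw1 hw2
    rw [h13, ← Finset.mul_sum, Finset.sum_const, Finset.card_range, nsmul_eq_mul]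
    have hCx : 0 ≤ C * x := (Nat.cast_nonneg N).trans hN
    calc ∑ n ∈ Finset.range N, tiltOne μ ν x (b * x) (q1 * y ^ (a - 1)) n w +
          (ENNReal.ofReal (Real.exp (-((1 + δp) * y ^ a) + c * y ^ (a - 1) * y)) *
            ∑ n ∈ Finset.range N, tiltOne μ ν x (b * x) (c * y ^ (a - 1)) n w +
          (N : ℝ≥0∞) * ENNReal.ofReal (Real.exp (-(4 * y ^ a))))
        ≤ ENNReal.ofReal (2 * (C * x) ^ 2 * Real.exp (-((1 - s) * (1 - s) * q1 * y ^ a))) +
          (ENNReal.ofReal (Real.exp (-((1 + δp) * y ^ a) + c * y ^ (a - 1) * y)) *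
            ENNReal.ofReal (2 * (C * x) ^ 2 * Real.exp (-((1 - s) * (1 - s) * c * y ^ a))) +
          ENNReal.ofReal (C * x) * ENNReal.ofReal (Real.exp (-(4 * y ^ a)))) := by
          gcongr
          rw [← ENNReal.ofReal_natCast]
          exact ENNReal.ofReal_le_ofReal hN
      _ = ENNReal.ofReal (2 * (C * x) ^ 2 * Real.exp (-((1 - s) * (1 - s) * q1 * y ^ a)) +
          (2 * (C * x) ^ 2 * Real.exp (-((1 + δp) * y ^ a) + c * y ^ (a - 1) * y +
            -((1 - s) * (1 - s) * c * y ^ a)) + C * x * Real.exp (-(4 * y ^ a)))) := by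
          rw [← ENNReal.ofReal_mul (Real.exp_nonneg _), ← ENNReal.ofReal_mul hCx,
            ← ENNReal.ofReal_add (by positivity) (by positivity),
            ← ENNReal.ofReal_add (by positivity) (by positivity),
            Real.exp_add _ (-((1 - s) * (1 - s) * c * y ^ a))]
          congr 2
          ring
      _ ≤ ENNReal.ofReal (2 * (C * x) ^ 2 * Real.exp (-((1 + 2 * δ) * y ^ a)) +
          (2 * (C * x) ^ 2 * Real.exp (-((1 + 2 * δ) * y ^ a)) +
            C * x * Real.exp (-((1 + 2 * δ) * y ^ a)))) := by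
          refine ENNReal.ofReal_le_ofReal ?_
          have e1 : -((1 - s) * (1 - s) * q1 * y ^ a) ≤ -((1 + 2 * δ) * y ^ a) :=
            neg_le_neg (mul_le_mul_of_nonneg_right hex1 hya.le)
          have e2 : -((1 + δp) * y ^ a) + c * y ^ (a - 1) * y + -((1 - s) * (1 - s) * c * y ^ a) ≤
              -((1 + 2 * δ) * y ^ a) := by
            rw [mul_assoc c, hyy]
            have := mul_le_mul_of_nonneg_right hex2 hya.le
            linarith
          have e3 : -(4 * y ^ a) ≤ -((1 + 2 * δ) * y ^ a) :=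
            neg_le_neg (mul_le_mul_of_nonneg_right (by linarith) hya.le)
          gcongr
      _ = ENNReal.ofReal ((4 * (C * x) ^ 2 + C * x) * Real.exp (-((1 + 2 * δ) * y ^ a))) := by
          congr 1
          ring
      _ ≤ ENNReal.ofReal (Real.exp (δ * y ^ a) * Real.exp (-((1 + 2 * δ) * y ^ a))) := by
          gcongr
      _ = _ := by
          rw [← Real.exp_add]
          congr 2
          ring

end stoch

end Pool.Agent.Lib.MP_04add8_pr
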