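import Mathlib
import Pool.Agent.Lib.MP_04add8_pr.One.OneUpper
import Pool.Agent.Lib.MP_04add8_pr.One.OneLower

open MeasureTheory ProbabilityTheory Filter Topology
open scoped ENNReal

set_option linter.unusedSectionVars false

namespace Pool.Agent.Lib.MP_04add8_pr

variable {a : ℝ} {μ ν : Measure ℝ} [IsProbabilityMeasure μ] [IsProbabilityMeasure ν]

/-- exact asymptotics of the stationary waiting time in the regime of one big job -/
theorem one_big_job (ha0 : 0 < a) (ha1 : a < 1)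
    (hμ : ∀ x, 0 ≤ x → μ (Set.Ioi x) = ENNReal.ofReal (Real.exp (-(x ^ a))))
    (hν : ν (Set.Iio 0) = 0) (hνi : Integrable (fun t : ℝ => t) ν)
    (hm : 0 < ∫ t, t ∂ν)
    (hgt : (∫ t, t ∂ν) < ∫ s, s ∂μ) (hlt : (∫ s, s ∂μ) < 2 * ∫ t, t ∂ν)
    (h2 : ((∫ s, s ∂μ) / ((∫ s, s ∂μ) - ∫ t, t ∂ν)) ^ a < 2)
    {K : ℕ} (hK : 1 < (K + 1) * (1 - a))
    {π : Measure (ℝ × ℝ)} (hπ : IsStationaryKW μ ν π) :
    Tendsto (fun x : ℝ => π.real {w | x < w.1} / fOne a μ ν K x) atTop (𝓝 1) := by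
  have hp : IsProbabilityMeasure π := hπ.1
  rw [Metric.tendsto_atTop']
  intro ω hω
  have hu := upper_one ha0 ha1 hμ hν hνi hm hgt hlt h2 hK (show 0 < ω / 2 by positivity)
  have hl := lower_one_big ha0 ha1 hμ hν hνi hm hgt hlt hK (show 0 < ω / 2 by positivity)
  obtain ⟨x0, hx0⟩ := eventually_atTop.mp ((hu.and hl).and (eventually_gt_atTop 0))
  refine ⟨x0, ?_⟩
  intro x hx
  obtain ⟨⟨hu', hl'⟩, hxpos⟩ := hx0 x hx.le
  have hu'' := hu' π hπ
  have hl'' := hl' π hπ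
  have hη0 : 0 < (∫ s, s ∂μ) / ((∫ s, s ∂μ) - ∫ t, t ∂ν) :=
    div_pos (by linarith) (by linarith)
  have hD : 0 < 2 * (∫ t, t ∂ν) - ∫ s, s ∂μ := by linarith
  have hf : 0 < fOne a μ ν K x := by
    unfold fOne; positivity
  have e1 : π.real {w | x < w.1} ≤ (1 + ω / 2) * fOne a μ ν K x := by
    rw [measureReal_def]
    exact ENNReal.toReal_le_of_le_ofReal (by positivity) hu''
  have e2 : (1 - ω / 2) * fOne a μ ν K x ≤ π.real {w | x < w.1} := by
    rw [measureReal_def]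
    exact (ENNReal.ofReal_le_iff_le_toReal (measure_ne_top _ _)).mp hl''
  rw [Real.dist_eq, abs_lt]
  constructor
  · rw [lt_sub_iff_add_lt, lt_div_iff₀ hf]
    nlinarith
  · rw [sub_lt_iff_lt_add, div_lt_iff₀ hf]
    nlinarith

end Pool.Agent.Lib.MP_04add8_pr
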