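import Mathlib
import Pool.Agent.Lib.MP_04add8_pr.One.Final3
import Pool.Agent.Lib.MP_04add8_pr.Two.Final2

open MeasureTheory ProbabilityTheory Filter Topology
open scoped ENNReal

set_option linter.unusedSectionVars false

namespace Pool.Agent.Lib.MP_04add8_pr

variable {a : ℝ} {μ ν : Measure ℝ} [IsProbabilityMeasure μ] [IsProbabilityMeasure ν]

/-- the asymptotic formula in the two-big-jobs regime -/
noncomputable def fTwo (μ ν : Measure ℝ) (x : ℝ) : ℝ :=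
  2 * (∫ t, t ∂ν) / (2 * (∫ t, t ∂ν) - ∫ s, s ∂μ) ^ 3 * integratedTail μ x ^ 2

lemma itail_sandwich (ha0 : 0 < a) (ha1 : a < 1)
    (hμ : ∀ x, 0 ≤ x → μ (Set.Ioi x) = ENNReal.ofReal (Real.exp (-(x ^ a)))) :
    ∀ᶠ x : ℝ in atTop, 1 / 2 * (Real.exp (-(x ^ a)) / (a * x ^ (a - 1))) ≤ integratedTail μ x ∧
      integratedTail μ x ≤ 2 * (Real.exp (-(x ^ a)) / (a * x ^ (a - 1))) := by
  have h := integratedTail_asymp ha0 ha1 hμ
  filter_upwards [h.eventually_le_const (show (1 : ℝ) < 2 by norm_num),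
    h.eventually_const_le (show (1 / 2 : ℝ) < 1 by norm_num), eventually_gt_atTop 0]
    with x h1 h2 hx
  have hQ : 0 < Real.exp (-(x ^ a)) / (a * x ^ (a - 1)) := by positivity
  rw [div_le_iff₀ hQ] at h1
  rw [le_div_iff₀ hQ] at h2
  exact ⟨h2, h1⟩

lemma fOne_pos (ha0 : 0 < a) (hgt : (∫ t, t ∂ν) < ∫ s, s ∂μ) (hm : 0 < ∫ t, t ∂ν)
    (hlt : (∫ s, s ∂μ) < 2 * ∫ t, t ∂ν) {K : ℕ} {x : ℝ} (hx : 0 < x) :
    0 < fOne a μ ν K x := by
  have hη0 : 0 < (∫ s, s ∂μ) / ((∫ s, s ∂μ) - ∫ t, t ∂ν) :=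
    div_pos (by linarith) (by linarith)
  have hD : 0 < 2 * (∫ t, t ∂ν) - ∫ s, s ∂μ := by linarith
  unfold fOne; positivity

/-- one big job dominates if `η ^ a < 2` -/
theorem fTwo_small (ha0 : 0 < a) (ha1 : a < 1)
    (hμ : ∀ x, 0 ≤ x → μ (Set.Ioi x) = ENNReal.ofReal (Real.exp (-(x ^ a))))
    (hν : ν (Set.Iio 0) = 0) (hνi : Integrable (fun t : ℝ => t) ν)
    (hm : 0 < ∫ t, t ∂ν)
    (hgt : (∫ t, t ∂ν) < ∫ s, s ∂μ) (hlt : (∫ s, s ∂μ) < 2 * ∫ t, t ∂ν)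
    (h2 : ((∫ s, s ∂μ) / ((∫ s, s ∂μ) - ∫ t, t ∂ν)) ^ a < 2)
    {K : ℕ} (hK : 1 ≤ K) {ω : ℝ} (hω : 0 < ω) :
    ∀ᶠ x : ℝ in atTop, fTwo μ ν x ≤ ω * fOne a μ ν K x := by
  set E := ∫ s, s ∂μ with hE
  set m := ∫ t, t ∂ν with hmdef
  have hη0 : 0 < E / (E - m) := div_pos (by linarith) (by linarith)
  set η := E / (E - m) with hη
  have hD : 0 < 2 * m - E := by linarith
  have hηa : 0 < η ^ a := by positivity
  have hδ : 0 < 2 / η ^ a - 1 := by
    rw [sub_pos, lt_div_iff₀ hηa]; linarith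
  filter_upwards [err_one ha0 ha1 hμ hν hνi hm hgt hlt hK hδ hω
    (2 * m / (2 * m - E) ^ 3 * (4 / a ^ 2)) (2 * (1 - a)), itail_sandwich ha0 ha1 hμ,
    eventually_gt_atTop 0] with x h1 h3 hx
  rw [← hE, ← hmdef, ← hη] at h1
  refine le_trans ?_ h1
  unfold fTwo
  rw [← hE, ← hmdef]
  have hI0 : 0 ≤ integratedTail μ x := by
    refine le_trans ?_ h3.1
    positivity
  have e1 : (1 + (2 / η ^ a - 1)) * (η * x) ^ a = x ^ a + x ^ a := by
    rw [Real.mul_rpow hη0.le hx.le]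
    field_simp
    ring
  have e2 : x ^ (2 * (1 - a)) = (x ^ (a - 1))⁻¹ ^ 2 := by
    rw [← Real.rpow_neg hx.le, ← Real.rpow_natCast, ← Real.rpow_mul hx.le]
    congr 1
    push_cast
    ring
  have e3 : Real.exp (-(x ^ a + x ^ a)) = Real.exp (-(x ^ a)) ^ 2 := by
    rw [sq, ← Real.exp_add]
    congr 1
    ring
  rw [e1, e2, e3]
  calc 2 * m / (2 * m - E) ^ 3 * integratedTail μ x ^ 2
      ≤ 2 * m / (2 * m - E) ^ 3 * (2 * (Real.exp (-(x ^ a)) / (a * x ^ (a - 1)))) ^ 2 := by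
        gcongr
        exact h3.2
    _ = _ := by
        have hx1 : x ^ (a - 1) ≠ 0 := by positivity
        field_simp
        ring

/-- two big jobs dominate if `2 < η ^ a` -/
theorem fOne_small (ha0 : 0 < a) (ha1 : a < 1)
    (hμ : ∀ x, 0 ≤ x → μ (Set.Ioi x) = ENNReal.ofReal (Real.exp (-(x ^ a))))
    (hν : ν (Set.Iio 0) = 0) (hνi : Integrable (fun t : ℝ => t) ν)
    (hm : 0 < ∫ t, t ∂ν)
    (hgt : (∫ t, t ∂ν) < ∫ s, s ∂μ) (hlt : (∫ s, s ∂μ) < 2 * ∫ t, t ∂ν)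
    (h2 : 2 < ((∫ s, s ∂μ) / ((∫ s, s ∂μ) - ∫ t, t ∂ν)) ^ a)
    {K : ℕ} (hK : 1 ≤ K) {ω : ℝ} (hω : 0 < ω) :
    ∀ᶠ x : ℝ in atTop, fOne a μ ν K x ≤ ω * fTwo μ ν x := by
  set E := ∫ s, s ∂μ with hE
  set m := ∫ t, t ∂ν with hmdef
  have hη0 : 0 < E / (E - m) := div_pos (by linarith) (by linarith)
  set η := E / (E - m) with hη
  have hD : 0 < 2 * m - E := by linarith
  have hηa : 0 < η ^ a := by positivity
  -- `(1 - ω') η ^ a = 2 + κ`
  obtain ⟨ω', hω', hκ⟩ : ∃ ω' : ℝ, 0 < ω' ∧ 2 < (1 - ω') * η ^ a := by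
    refine ⟨(1 - 2 / η ^ a) / 2, ?_, ?_⟩
    · have : 2 / η ^ a < 1 := by rw [div_lt_one hηa]; exact h2
      linarith
    · have e : (1 - (1 - 2 / η ^ a) / 2) * η ^ a = (η ^ a + 2) / 2 := by
        field_simp
        ring
      rw [e]
      linarith
  set κ := (1 - ω') * η ^ a - 2 with hκdef
  have hκ0 : 0 < κ := by linarith
  set c2 := 2 * m / (2 * m - E) ^ 3 with hc2
  have hc20 : 0 < c2 := by positivity
  have hlim := (tendsto_rpow_mul_exp_neg_rpow (a := a) (c := κ) ha0 hκ0 (a - 1)).const_mul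
    (1 / ((2 * m - E) * (a * η ^ (a - 1))) * a ^ 2 * 4 / c2)
  rw [mul_zero] at hlim
  filter_upwards [rate_close ha0 ha1 hμ hν hνi hm hgt hlt hK hω', itail_sandwich ha0 ha1 hμ,
    hlim.eventually_le_const hω, eventually_gt_atTop 0] with x h1 h3 h4 hx
  rw [← hE, ← hmdef, ← hη] at h1
  have hR : (1 - ω') * (η * x) ^ a ≤ rateB a (cramerRoot μ ν K) x := by
    have := (abs_le.mp h1).1
    linarith
  have hden : 0 < (2 * m - E) * (a * (η * x) ^ (a - 1)) := by positivity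
  set P := Real.exp (-(x ^ a)) with hP
  have hP0 : 0 < P := Real.exp_pos _
  have hf : fOne a μ ν K x ≤ P ^ 2 * Real.exp (-(κ * x ^ a)) /
      ((2 * m - E) * (a * (η * x) ^ (a - 1))) := by
    unfold fOne
    rw [← hE, ← hmdef, ← hη]
    gcongr
    have e : P ^ 2 * Real.exp (-(κ * x ^ a)) = Real.exp (-((1 - ω') * (η * x) ^ a)) := by
      rw [sq, hP, ← Real.exp_add, ← Real.exp_add]
      congr 1
      rw [Real.mul_rpow hη0.le hx.le, hκdef]
      ring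
    rw [e]
    exact Real.exp_le_exp.mpr (by linarith)
  refine hf.trans ?_
  have hI : c2 * (1 / 2 * (P / (a * x ^ (a - 1)))) ^ 2 ≤ fTwo μ ν x := by
    unfold fTwo
    rw [← hE, ← hmdef, ← hc2]
    gcongr
    exact h3.1
  refine le_trans ?_ (mul_le_mul_of_nonneg_left hI hω.le)
  have e4 : (η * x) ^ (a - 1) = η ^ (a - 1) * x ^ (a - 1) := Real.mul_rpow hη0.le hx.le
  rw [e4]
  set X := x ^ (a - 1) with hX
  have hX0 : 0 < X := by positivity
  set H := η ^ (a - 1) with hH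
  have hH0 : 0 < H := by positivity
  set S := Real.exp (-(κ * x ^ a)) with hS
  have hD3 : 0 < 2 * m - E := hD
  have e5 : P ^ 2 * S / ((2 * m - E) * (a * (H * X))) =
      (1 / ((2 * m - E) * (a * H)) * a ^ 2 * 4 / c2 * (X * S)) *
        (c2 * (1 / 2 * (P / (a * X))) ^ 2) := by
    field_simp
    ring
  rw [e5]
  gcongr

/-- the sum of the two formulas gives the exact asymptotics, away from the critical line -/
theorem exact_off_critical (ha0 : 0 < a) (ha1 : a < 1)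
    (hμ : ∀ x, 0 ≤ x → μ (Set.Ioi x) = ENNReal.ofReal (Real.exp (-(x ^ a))))
    (hν : ν (Set.Iio 0) = 0) (hνi : Integrable (fun t : ℝ => t) ν)
    (hm : 0 < ∫ t, t ∂ν)
    (hgt : (∫ t, t ∂ν) < ∫ s, s ∂μ) (hlt : (∫ s, s ∂μ) < 2 * ∫ t, t ∂ν)
    (h2 : ((∫ s, s ∂μ) / ((∫ s, s ∂μ) - ∫ t, t ∂ν)) ^ a ≠ 2)
    {K : ℕ} (hK : 1 < (K + 1) * (1 - a))
    {π : Measure (ℝ × ℝ)} (hπ : IsStationaryKW μ ν π) :
    Tendsto (fun x : ℝ => π.real {w | x < w.1} / (fOne a μ ν K x + fTwo μ ν x))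
      atTop (𝓝 1) := by
  have hK1 : 1 ≤ K := by
    by_contra hcon
    have : K = 0 := by omega
    subst this
    norm_num at hK
    linarith
  have hD : 0 < 2 * (∫ t, t ∂ν) - ∫ s, s ∂μ := by linarith
  have hpos1 : ∀ᶠ x : ℝ in atTop, 0 < fOne a μ ν K x := by
    filter_upwards [eventually_gt_atTop 0] with x hx
    exact fOne_pos ha0 hgt hm hlt hx
  have hpos2 : ∀ᶠ x : ℝ in atTop, 0 < fTwo μ ν x := by
    filter_upwards [eventually_gt_atTop 0, itail_sandwich ha0 ha1 hμ] with x hx h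
    have hI : 0 < integratedTail μ x := by
      refine lt_of_lt_of_le ?_ h.1
      positivity
    unfold fTwo
    positivity
  rcases lt_or_gt_of_ne h2 with h2 | h2
  · have h := one_big_job ha0 ha1 hμ hν hνi hm hgt hlt h2 hK hπ
    have hr : Tendsto (fun x => fTwo μ ν x / fOne a μ ν K x) atTop (𝓝 0) := by
      rw [Metric.tendsto_atTop']
      intro ω hω
      obtain ⟨x0, hx0⟩ := eventually_atTop.mp
        ((fTwo_small ha0 ha1 hμ hν hνi hm hgt hlt h2 hK1 (half_pos hω)).and (hpos1.and hpos2))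
      refine ⟨x0, fun x hx => ?_⟩
      obtain ⟨h3, h4, h5⟩ := hx0 x hx.le
      rw [Real.dist_eq, sub_zero, abs_of_pos (div_pos h5 h4), div_lt_iff₀ h4]
      nlinarith
    have h3 := h.div (hr.const_add 1) (by norm_num)
    rw [add_zero, div_one] at h3
    refine h3.congr' ?_
    filter_upwards [hpos1] with x hx
    rw [Pi.div_apply]
    field_simp
  · have h : Tendsto (fun x : ℝ => π.real {w | x < w.1} / fTwo μ ν x) atTop (𝓝 1) :=
      two_big_jobs ha0 ha1 hμ hν hνi hm hgt hlt h2 hπ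
    have hr : Tendsto (fun x => fOne a μ ν K x / fTwo μ ν x) atTop (𝓝 0) := by
      rw [Metric.tendsto_atTop']
      intro ω hω
      obtain ⟨x0, hx0⟩ := eventually_atTop.mp
        ((fOne_small ha0 ha1 hμ hν hνi hm hgt hlt h2 hK1 (half_pos hω)).and (hpos1.and hpos2))
      refine ⟨x0, fun x hx => ?_⟩
      obtain ⟨h3, h4, h5⟩ := hx0 x hx.le
      rw [Real.dist_eq, sub_zero, abs_of_pos (div_pos h4 h5), div_lt_iff₀ h5]
      nlinarith
    have h3 := h.div (hr.add_const 1) (by norm_num)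
    rw [zero_add, div_one] at h3
    refine h3.congr' ?_
    filter_upwards [hpos2] with x hx
    rw [Pi.div_apply]
    field_simp

end Pool.Agent.Lib.MP_04add8_pr
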