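import Mathlib
import Pool.Agent.Lib.MP_04add8_pr.One.Defs
import Pool.Agent.Lib.MP_04add8_pr.Two.DriftU
import Pool.Agent.Lib.MP_04add8_pr.Two.WalkBase

/-!
# LinPot: the linear exponential potential (helper35)
-/

open MeasureTheory ProbabilityTheory Filter Topology
open scoped ENNReal

set_option linter.unusedSectionVars false

namespace Pool.Agent.Lib.MP_04add8_pr

/-- when `v` is large the sorted potential is at most the unsorted one -/
lemma lp_sorted {b R u v : ℝ} (hb : 0 < b) (hb1 : b < 1) (hR : 0 < R)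
    (hu : 0 ≤ u) (hv : 0 ≤ v) (hcond : b ^ 2 * (v ^ 2 + R ^ 2) ≤ v ^ 2) :
    bigA b R (min u v, max u v) ≤ v + √(u ^ 2 + R ^ 2) / b := by
  rcases le_total u v with h | h
  · simp [min_eq_left h, max_eq_right h, bigA]
  · simp only [min_eq_right h, max_eq_left h, bigA]
    set p := √(u ^ 2 + R ^ 2) with hp
    set q := √(v ^ 2 + R ^ 2) with hq
    have hp0 : 0 < p := Real.sqrt_pos.mpr (by positivity)
    have hq0 : 0 < q := Real.sqrt_pos.mpr (by positivity)
    have hp2 : p ^ 2 = u ^ 2 + R ^ 2 := Real.sq_sqrt (by positivity)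
    have hq2 : q ^ 2 = v ^ 2 + R ^ 2 := Real.sq_sqrt (by positivity)
    have hbq : b * q ≤ v := by
      apply abs_le_of_sq_le_sq' _ hv |>.2
      rw [mul_pow, hq2]; exact hcond
    have hcond' : b ^ 2 * (u ^ 2 + R ^ 2) ≤ u ^ 2 := by
      have : v ^ 2 ≤ u ^ 2 := by gcongr
      have hb2 : b ^ 2 < 1 := by nlinarith
      nlinarith
    have hbp : b * p ≤ u := by
      apply abs_le_of_sq_le_sq' _ hu |>.2
      rw [mul_pow, hp2]; exact hcond'
    have hpq : (p - q) * (p + q) = (u - v) * (u + v) := by nlinarith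
    have hge : b * (u - v) ≤ p - q := by
      have h1 : (b * (u - v)) * (p + q) ≤ (p - q) * (p + q) := by
        rw [hpq]
        have : b * (p + q) ≤ u + v := by linarith
        have h3 : 0 ≤ u - v := by linarith
        nlinarith
      exact le_of_mul_le_mul_right h1 (by positivity)
    have : (u - v) ≤ (p - q) / b := by
      rw [le_div_iff₀ hb]; linarith
    have h6 : (p - q) / b = p / b - q / b := by ring
    linarith

lemma lp_exp {z c : ℝ} (hz : z ≤ c) (hc : 0 ≤ c) : Real.exp z ≤ 1 + z + z ^ 2 * Real.exp c := by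
  have hc1 : 1 ≤ Real.exp c := Real.one_le_exp hc
  rcases le_total z 0 with h | h
  · have h1 := exp_le_quadratic (z := z) (by linarith)
    have h2 : z ^ 2 * 1 ≤ z ^ 2 * Real.exp c := by gcongr
    linarith
  · have h1 := exp_le_one_add_add_sq_mul_exp h
    have h2 : z ^ 2 * Real.exp z ≤ z ^ 2 * Real.exp c := by gcongr
    linarith

/-- one step of the potential, large workload -/
lemma lp_step {b R M : ℝ} (hb : 0 < b) (hb1 : b < 1) (hR : 0 < R) (hM : 0 ≤ M) {w : ℝ × ℝ}
    (h0 : 0 ≤ w.1) (hwM : M ≤ w.2)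
    (hcond : ∀ v, w.2 - M ≤ v → b ^ 2 * (v ^ 2 + R ^ 2) ≤ v ^ 2) {s t θ c : ℝ} (hs : 0 ≤ s)
    (ht : 0 ≤ t) (hθ : 0 ≤ θ) (hc : θ * (s / b) ≤ c) :
    Real.exp (θ * bigA b R (kwStep w s t)) ≤ Real.exp (θ * bigA b R w) *
      (1 + θ * incr b R M (w.1 / √(w.1 ^ 2 + R ^ 2)) s t +
        θ ^ 2 * (M + (s + M) / b) ^ 2 * Real.exp c) := by
  set r := √(w.1 ^ 2 + R ^ 2) with hr
  have hr0 : 0 < r := Real.sqrt_pos.mpr (by positivity)
  have hwr : w.1 ≤ r := by
    apply Real.le_sqrt_of_sq_le; nlinarith [sq_nonneg R]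
  have hAr : bigA b R w = w.2 + r / b := rfl
  set T := min t M with hT
  have hT0 : 0 ≤ T := le_min ht hM
  have hTM : T ≤ M := min_le_right _ _
  have hTt : T ≤ t := min_le_left _ _
  set u := max (w.1 + s - T) 0 with hu
  have hu0 : 0 ≤ u := le_max_right _ _
  have hv0 : 0 ≤ w.2 - T := by linarith
  set Δ := (w.2 - T) + √(u ^ 2 + R ^ 2) / b - bigA b R w with hΔ
  -- comparison
  have h1 : bigA b R (kwStep w s t) ≤ bigA b R w + Δ := by
    have e1 : bigA b R w + Δ = (w.2 - T) + √(u ^ 2 + R ^ 2) / b := by rw [hΔ]; ring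
    rw [e1, kwStep_eq]
    refine (bigA_mono hb (w := (min u (w.2 - T), max u (w.2 - T))) ?_ ?_ ?_).trans
      (lp_sorted hb hb1 hR hu0 hv0 (hcond _ (by linarith)))
    · exact le_min (le_max_right _ _) (le_max_right _ _)
    · apply min_le_min
      · exact max_le_max (by linarith) le_rfl
      · exact max_le (by linarith) hv0
    · apply max_le_max
      · exact max_le_max (by linarith) le_rfl
      · exact max_le (by linarith) hv0
  have hus : √(u ^ 2 + R ^ 2) ≤ r + s := by
    have h2 : u ≤ w.1 + s := max_le (by linarith) (by linarith)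
    refine le_trans (Real.sqrt_le_sqrt ?_) (sqrt_add_le (x := w.1) (R := R) hs)
    have : u ^ 2 ≤ (w.1 + s) ^ 2 := by gcongr
    linarith
  have hul : r ≤ √(u ^ 2 + R ^ 2) + M := by
    have h2 : w.1 ≤ u + M := by
      have := le_max_left (w.1 + s - T) 0
      linarith
    refine le_trans (Real.sqrt_le_sqrt ?_) (sqrt_add_le (x := u) (R := R) hM)
    have : w.1 ^ 2 ≤ (u + M) ^ 2 := by gcongr
    linarith
  have h2 : Δ ≤ s / b := by
    rw [hΔ, hAr]
    have : √(u ^ 2 + R ^ 2) / b ≤ (r + s) / b := by gcongr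
    have e : (r + s) / b = r / b + s / b := by ring
    linarith
  have h3 : -(M + (s + M) / b) ≤ Δ := by
    rw [hΔ, hAr]
    have : r / b ≤ (√(u ^ 2 + R ^ 2) + M) / b := by gcongr
    have e : (√(u ^ 2 + R ^ 2) + M) / b = √(u ^ 2 + R ^ 2) / b + M / b := by ring
    have e2 : (s + M) / b = s / b + M / b := by ring
    have e3 : 0 ≤ s / b := by positivity
    linarith
  have h4 : Δ ≤ M + (s + M) / b := by
    have e2 : (s + M) / b = s / b + M / b := by ring
    have e3 : 0 ≤ M / b := by positivity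
    linarith
  have h5 : Δ ≤ incr b R M (w.1 / r) s t := by
    have hu2 : u ^ 2 ≤ (w.1 + (s - T)) ^ 2 := by
      rcases le_total (w.1 + s - T) 0 with h | h
      · rw [hu, max_eq_right h]
        have := sq_nonneg (w.1 + (s - T))
        simpa using this
      · rw [hu, max_eq_left h]
        have : w.1 + s - T = w.1 + (s - T) := by ring
        rw [this]
    have hsq : √(u ^ 2 + R ^ 2) ≤ r + w.1 / r * (s - T) + (s - T) ^ 2 / (2 * R) := by
      refine le_trans ?_ (sqrt_taylor hR)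
      gcongr
    have hst : (s - T) ^ 2 ≤ s ^ 2 + M ^ 2 := by nlinarith [mul_nonneg hs hT0]
    rw [hΔ, hAr, incr, ← hT]
    have h5 : √(u ^ 2 + R ^ 2) / b ≤
        (r + w.1 / r * (s - T) + (s ^ 2 + M ^ 2) / (2 * R)) / b := by
      gcongr
      refine hsq.trans ?_
      gcongr
    have h6 : (r + w.1 / r * (s - T) + (s ^ 2 + M ^ 2) / (2 * R)) / b =
        r / b + w.1 / r / b * (s - T) + (s ^ 2 + M ^ 2) / (2 * b * R) := by
      field_simp
    linarith
  have hc0 : 0 ≤ c := le_trans (by positivity) hc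
  have h6 := lp_exp (z := θ * Δ) (c := c) (le_trans (by gcongr) hc) hc0
  calc Real.exp (θ * bigA b R (kwStep w s t)) ≤ Real.exp (θ * (bigA b R w + Δ)) := by
        apply Real.exp_le_exp.mpr
        gcongr
    _ = Real.exp (θ * bigA b R w) * Real.exp (θ * Δ) := by
        rw [← Real.exp_add]; congr 1; ring
    _ ≤ _ := by
        gcongr
        refine h6.trans ?_
        have h7 : θ * Δ ≤ θ * incr b R M (w.1 / r) s t := by gcongr
        have h8 : Δ ^ 2 ≤ (M + (s + M) / b) ^ 2 := sq_le_sq' h3 h4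
        have h9 : (θ * Δ) ^ 2 * Real.exp c ≤ θ ^ 2 * (M + (s + M) / b) ^ 2 * Real.exp c := by
          rw [mul_pow]
          gcongr
        linarith

/-- crude bound, small workload -/
lemma lp_crude {b R : ℝ} (hb : 0 < b) (hR : 0 < R) {w : ℝ × ℝ}
    (h0 : 0 ≤ w.1) (h1 : w.1 ≤ w.2) {s t L : ℝ} (hs : 0 ≤ s)
    (ht : 0 ≤ t) (hL : w.2 ≤ L) :
    bigA b R (kwStep w s t) ≤ (L + (L + R) / b) + s := by
  have h2 : (kwStep w s t).2 ≤ w.2 + s :=
    max_le (max_le (by linarith) (by linarith)) (max_le (by linarith) (by linarith))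
  have h3 : (kwStep w s t).1 ≤ w.2 :=
    (min_le_right _ _).trans (max_le (by linarith) (by linarith))
  have h4 : 0 ≤ (kwStep w s t).1 := kwStep_fst_nonneg _ _ _
  have h5 : √((kwStep w s t).1 ^ 2 + R ^ 2) ≤ L + R := by
    apply Real.sqrt_le_iff.mpr
    constructor
    · linarith
    · nlinarith
  have h6 : √((kwStep w s t).1 ^ 2 + R ^ 2) / b ≤ (L + R) / b := by gcongr
  unfold bigA
  linarith

section stoch

variable {a : ℝ} {μ ν : Measure ℝ} [IsProbabilityMeasure μ] [IsProbabilityMeasure ν]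

lemma lp_integrable (ha0 : 0 < a)
    (hμ : ∀ x, 0 ≤ x → μ (Set.Ioi x) = ENNReal.ofReal (Real.exp (-(x ^ a)))) :
    Integrable (fun s : ℝ => s ^ 2 * Real.exp (s ^ a / 2)) μ := by
  have hpa : 0 < (2 : ℝ) / a := by positivity
  apply Integrable.mono' (g := fun s => ((2 / a) / (1 / 4)) ^ ((2 : ℝ) / a) *
    Real.exp ((3 / 4) * s ^ a))
  · apply Integrable.const_mul
    exact weibull_integrable_exp ha0 hμ (by norm_num) (by norm_num)
  · fun_prop
  · filter_upwards [weibull_ae_pos ha0 hμ] with s hs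
    rw [Real.norm_of_nonneg (by positivity)]
    have h1 := rpow_le_exp (p := (2 : ℝ) / a) (c := 1 / 4) (u := s ^ a) hpa (by norm_num)
      (by positivity)
    rw [← Real.rpow_mul hs.le] at h1
    have e1 : a * (2 / a) = 2 := by field_simp
    rw [e1] at h1
    have e2 : s ^ (2 : ℝ) = s ^ 2 := by norm_cast
    rw [e2] at h1
    calc s ^ 2 * Real.exp (s ^ a / 2) ≤
        (((2 / a) / (1 / 4)) ^ ((2 : ℝ) / a) * Real.exp (1 / 4 * s ^ a)) *
          Real.exp (s ^ a / 2) := by gcongr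
      _ = ((2 / a) / (1 / 4)) ^ ((2 : ℝ) / a) * Real.exp ((3 / 4) * s ^ a) := by
        rw [mul_assoc, ← Real.exp_add]
        congr 2
        ring

lemma lp_integrable' (ha0 : 0 < a)
    (hμ : ∀ x, 0 ≤ x → μ (Set.Ioi x) = ENNReal.ofReal (Real.exp (-(x ^ a)))) (b M : ℝ) :
    Integrable (fun s : ℝ => (M + (s + M) / b) ^ 2 * Real.exp (s ^ a / 2)) μ := by
  have h1 := lp_integrable ha0 hμ
  have h2 : Integrable (fun s : ℝ => Real.exp (s ^ a / 2)) μ := by
    have := weibull_integrable_exp ha0 hμ (c := 1 / 2) (by norm_num) (by norm_num)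
    refine this.congr ?_
    filter_upwards with s
    congr 1
    ring
  apply Integrable.mono' (g := fun s => (2 * (M + M / b) ^ 2) * Real.exp (s ^ a / 2) +
    (2 / b ^ 2) * (s ^ 2 * Real.exp (s ^ a / 2)))
  · exact (h2.const_mul _).add (h1.const_mul _)
  · fun_prop
  · filter_upwards with s
    rw [Real.norm_of_nonneg (by positivity)]
    have e : (M + (s + M) / b) = (M + M / b) + s / b := by ring
    have h3 : ((M + M / b) + s / b) ^ 2 ≤ 2 * (M + M / b) ^ 2 + 2 * (s / b) ^ 2 := by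
      nlinarith [sq_nonneg ((M + M / b) - s / b)]
    rw [e]
    calc ((M + M / b) + s / b) ^ 2 * Real.exp (s ^ a / 2) ≤
        (2 * (M + M / b) ^ 2 + 2 * (s / b) ^ 2) * Real.exp (s ^ a / 2) := by gcongr
      _ = _ := by rw [div_pow]; ring

lemma lp_ae (ha0 : 0 < a)
    (hμ : ∀ x, 0 ≤ x → μ (Set.Ioi x) = ENNReal.ofReal (Real.exp (-(x ^ a))))
    (hν : ν (Set.Iio 0) = 0) : ∀ᵐ p ∂(μ.prod ν), 0 < p.1 ∧ 0 ≤ p.2 := by
  have h1 : ∀ᵐ p ∂(μ.prod ν), 0 < p.1 := by
    have := (Measure.quasiMeasurePreserving_fst (μ := μ) (ν := ν)).ae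
      (weibull_ae_pos ha0 hμ)
    exact this
  have h2 : ∀ᵐ p ∂(μ.prod ν), 0 ≤ p.2 := by
    have := (Measure.quasiMeasurePreserving_snd (μ := μ) (ν := ν)).ae (ae_nonneg_of_Iio hν)
    exact this
  filter_upwards [h1, h2] with p hp1 hp2 using ⟨hp1, hp2⟩

/-- iteration of a one-step bound -/
lemma lp_iter {Φ : ℝ × ℝ → ℝ≥0∞} (hΦ : Measurable Φ) {ρ C0 : ℝ≥0∞} (hρ : ρ ≤ 1) {B : ℝ}
    (hstep : ∀ w : ℝ × ℝ, 0 ≤ w.1 → w.1 ≤ w.2 →
      ∫⁻ p, (Set.Iic B).indicator (fun _ => (1 : ℝ≥0∞)) p.1 * Φ (kwStep w p.1 p.2) ∂(μ.prod ν) ≤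
        ρ * Φ w + C0) (n : ℕ) : ∀ v : ℝ × ℝ, 0 ≤ v.1 → v.1 ≤ v.2 →
      ∫⁻ z, (allLe B n).indicator (fun z => Φ (pIter v z n)) z ∂(noise μ ν) ≤
        ρ ^ n * Φ v + n * C0 := by
  induction n with
  | zero =>
    intro v h0 h1
    have : allLe B 0 = Set.univ := by
      ext z; simp [allLe]
    rw [this]
    simp [pIter_zero]
  | succ n ih =>
    intro v h0 h1
    have hm : Measurable fun z : ℕ → ℝ × ℝ => Φ (pIter v z (n + 1)) :=
      hΦ.comp ((measurable_pIter (n + 1)).comp (measurable_const.prodMk measurable_id))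
    rw [lintegral_noise_cons (hm.indicator (measurableSet_allLe B (n + 1)))]
    have e : ∀ p : ℝ × ℝ, ∫⁻ z, (allLe B (n + 1)).indicator
        (fun z => Φ (pIter v z (n + 1))) (gcons p z) ∂(noise μ ν) ≤
        ρ ^ n * ((Set.Iic B).indicator (fun _ => (1 : ℝ≥0∞)) p.1 * Φ (kwStep v p.1 p.2)) +
          n * C0 := by
      intro p
      by_cases hp : p.1 ≤ B
      · rw [Set.indicator_of_mem (by exact hp), one_mul]
        refine le_trans ?_ (ih (kwStep v p.1 p.2) (kwStep_fst_nonneg _ _ _)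
          (kwStep_fst_le_snd _ _ _))
        apply lintegral_mono
        intro z
        beta_reduce
        by_cases hz : z ∈ allLe B n
        · rw [Set.indicator_of_mem ((gcons_mem_allLe B n p z).2 ⟨hp, hz⟩),
            Set.indicator_of_mem hz, pIter_gcons]
        · rw [Set.indicator_of_notMem (fun h => hz ((gcons_mem_allLe B n p z).1 h).2)]
          exact zero_le
      · have : ∀ z, (allLe B (n + 1)).indicator
            (fun z => Φ (pIter v z (n + 1))) (gcons p z) = 0 := fun z =>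
          Set.indicator_of_notMem (fun h => hp ((gcons_mem_allLe B n p z).1 h).1) _
        simp only [this, lintegral_zero]
        exact zero_le
    have hm2 : Measurable fun p : ℝ × ℝ =>
        (Set.Iic B).indicator (fun _ => (1 : ℝ≥0∞)) p.1 * Φ (kwStep v p.1 p.2) :=
      ((measurable_const.indicator measurableSet_Iic).comp measurable_fst).mul
        (hΦ.comp (measurable_kwStep_right v))
    calc ∫⁻ p, ∫⁻ z, (allLe B (n + 1)).indicator
          (fun z => Φ (pIter v z (n + 1))) (gcons p z) ∂(noise μ ν) ∂(μ.prod ν)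
        ≤ ∫⁻ p, (ρ ^ n * ((Set.Iic B).indicator (fun _ => (1 : ℝ≥0∞)) p.1 *
            Φ (kwStep v p.1 p.2)) + n * C0) ∂(μ.prod ν) := lintegral_mono e
      _ = ρ ^ n * (∫⁻ p, (Set.Iic B).indicator (fun _ => (1 : ℝ≥0∞)) p.1 *
            Φ (kwStep v p.1 p.2) ∂(μ.prod ν)) + n * C0 := by
          rw [lintegral_add_right _ measurable_const, lintegral_const_mul _ hm2]
          simp
      _ ≤ ρ ^ n * (ρ * Φ v + C0) + n * C0 := by
          gcongr
          exact hstep v h0 h1
      _ ≤ ρ ^ (n + 1) * Φ v + (n + 1 : ℕ) * C0 := by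
          rw [mul_add, ← mul_assoc, ← pow_succ, add_assoc]
          gcongr
          calc ρ ^ n * C0 + n * C0 ≤ 1 * C0 + n * C0 := by
                gcongr
                exact pow_le_one' hρ n
            _ = (n + 1 : ℕ) * C0 := by push_cast; ring

/-- one step of the exponential potential -/
lemma lp_drift (ha0 : 0 < a) (ha1 : a < 1)
    (hμ : ∀ x, 0 ≤ x → μ (Set.Ioi x) = ENNReal.ofReal (Real.exp (-(x ^ a))))
    (hν : ν (Set.Iio 0) = 0) {b0 R M L δ : ℝ} (hb : 0 < b0) (hb1 : b0 < 1) (hR : 0 < R)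
    (hM : 0 ≤ M)
    (hincr : ∀ q : ℝ, 0 ≤ q → q ≤ 1 → ∫ p : ℝ × ℝ, incr b0 R M q p.1 p.2 ∂(μ.prod ν) ≤ -δ)
    (hLM : M ≤ L) (hcond : ∀ v, L - M ≤ v → b0 ^ 2 * (v ^ 2 + R ^ 2) ≤ v ^ 2)
    {B θ : ℝ} (hθ : 0 ≤ θ) (hθ1 : θ ≤ 1)
    (hθB : ∀ s, 0 < s → s ≤ B → θ * (s / b0) ≤ s ^ a / 2)
    (hs1 : θ * (M * (1 + 1 / b0)) ≤ 1)
    (hs2 : θ * (∫ s, (M + (s + M) / b0) ^ 2 * Real.exp (s ^ a / 2) ∂μ) ≤ δ / 2)
    (hs3 : θ * (δ / 2) ≤ 1)
    {w : ℝ × ℝ} (h0 : 0 ≤ w.1) (h1 : w.1 ≤ w.2) :
    ∫⁻ p, (Set.Iic B).indicator (fun _ => (1 : ℝ≥0∞)) p.1 *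
        ENNReal.ofReal (Real.exp (θ * bigA b0 R (kwStep w p.1 p.2))) ∂(μ.prod ν) ≤
      ENNReal.ofReal (1 - θ * (δ / 2)) * ENNReal.ofReal (Real.exp (θ * bigA b0 R w)) +
        ENNReal.ofReal (2 * Real.exp (L + (L + R) / b0)) := by
  set G : ℝ → ℝ := fun s => (M + (s + M) / b0) ^ 2 * Real.exp (s ^ a / 2) with hG
  have hGi : Integrable G μ := lp_integrable' ha0 hμ b0 M
  rcases le_or_gt L w.2 with hL | hL
  · -- large workload
    refine le_trans ?_ le_self_add
    set q := w.1 / √(w.1 ^ 2 + R ^ 2) with hq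
    have hr0 : 0 < √(w.1 ^ 2 + R ^ 2) := Real.sqrt_pos.mpr (by positivity)
    have hwr : w.1 ≤ √(w.1 ^ 2 + R ^ 2) := by
      apply Real.le_sqrt_of_sq_le; nlinarith [sq_nonneg R]
    have hq0 : 0 ≤ q := by positivity
    have hq1 : q ≤ 1 := by rw [hq, div_le_one hr0]; exact hwr
    set F : ℝ × ℝ → ℝ := fun p => Real.exp (θ * bigA b0 R w) *
      (1 + θ * incr b0 R M q p.1 p.2 + θ ^ 2 * G p.1) with hF
    have hi1 := (integral_incr (ν := ν) ha0 hμ hν hM b0 R q).1
    have hi2 : Integrable (fun p : ℝ × ℝ => G p.1) (μ.prod ν) := hGi.comp_fst ν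
    have hFi : Integrable F (μ.prod ν) := by
      apply Integrable.const_mul
      exact ((integrable_const _).add (hi1.const_mul _)).add (hi2.const_mul _)
    have hF0 : ∀ p : ℝ × ℝ, 0 ≤ p.1 → 0 ≤ p.2 → 0 ≤ F p := by
      intro p hp1 hp2
      have e1 : -(M * (1 + 1 / b0)) ≤ incr b0 R M q p.1 p.2 := by
        unfold incr
        have t0 : 0 ≤ min p.2 M := le_min hp2 hM
        have t1 : min p.2 M ≤ M := min_le_right _ _
        have t2 : q / b0 * min p.2 M ≤ 1 / b0 * M := by gcongr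
        have t3 : 0 ≤ q / b0 * p.1 := by positivity
        have t4 : 0 ≤ (p.1 ^ 2 + M ^ 2) / (2 * b0 * R) := by positivity
        have e2 : q / b0 * (p.1 - min p.2 M) = q / b0 * p.1 - q / b0 * min p.2 M := by ring
        have e3 : M * (1 + 1 / b0) = M + 1 / b0 * M := by ring
        rw [e2, e3]
        linarith
      have e2 : θ * -(M * (1 + 1 / b0)) ≤ θ * incr b0 R M q p.1 p.2 := by gcongr
      have e3 : 0 ≤ θ ^ 2 * G p.1 := by positivity
      have e4 : 0 ≤ 1 + θ * incr b0 R M q p.1 p.2 + θ ^ 2 * G p.1 := by linarith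
      exact mul_nonneg (Real.exp_pos _).le e4
    have hle : ∀ᵐ p ∂(μ.prod ν), (Set.Iic B).indicator (fun _ => (1 : ℝ≥0∞)) p.1 *
        ENNReal.ofReal (Real.exp (θ * bigA b0 R (kwStep w p.1 p.2))) ≤ ENNReal.ofReal (F p) := by
      filter_upwards [lp_ae ha0 hμ hν] with p hp
      by_cases hpB : p.1 ≤ B
      · rw [Set.indicator_of_mem (by exact hpB), one_mul]
        apply ENNReal.ofReal_le_ofReal
        have := lp_step hb hb1 hR hM h0 (hLM.trans hL)
          (fun v hv => hcond v (by linarith)) hp.1.le hp.2 hθ (hθB p.1 hp.1 hpB)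
        refine this.trans (le_of_eq ?_)
        rw [hF, hG]
        ring
      · rw [Set.indicator_of_notMem (by exact hpB), zero_mul]
        exact zero_le
    have hF0' : 0 ≤ᵐ[μ.prod ν] F := by
      filter_upwards [lp_ae ha0 hμ hν] with p hp
      exact hF0 p hp.1.le hp.2
    calc _ ≤ ∫⁻ p, ENNReal.ofReal (F p) ∂(μ.prod ν) := lintegral_mono_ae hle
      _ = ENNReal.ofReal (∫ p, F p ∂(μ.prod ν)) := by
        rw [ofReal_integral_eq_lintegral_ofReal hFi hF0']
      _ ≤ ENNReal.ofReal ((1 - θ * (δ / 2)) * Real.exp (θ * bigA b0 R w)) := by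
        apply ENNReal.ofReal_le_ofReal
        rw [hF, integral_const_mul, mul_comm]
        gcongr
        have hsplit : ∫ p : ℝ × ℝ, (1 + θ * incr b0 R M q p.1 p.2 + θ ^ 2 * G p.1) ∂(μ.prod ν) =
            1 + θ * (∫ p : ℝ × ℝ, incr b0 R M q p.1 p.2 ∂(μ.prod ν)) + θ ^ 2 * ∫ s, G s ∂μ := by
          rw [integral_add, integral_add, integral_const_mul, integral_const_mul, integral_const]
          · have e2 : ∫ p : ℝ × ℝ, G p.1 ∂(μ.prod ν) = ∫ s, G s ∂μ := by
              rw [integral_prod _ hi2]; simp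
            rw [e2]
            simp only [probReal_univ, smul_eq_mul, one_mul]
          · exact integrable_const _
          · exact hi1.const_mul _
          · exact (integrable_const _).add (hi1.const_mul _)
          · exact hi2.const_mul _
        rw [hsplit]
        have e3 : θ * ∫ p : ℝ × ℝ, incr b0 R M q p.1 p.2 ∂(μ.prod ν) ≤ θ * -δ := by
          gcongr
          exact hincr q hq0 hq1
        have e4 : θ ^ 2 * ∫ s, G s ∂μ ≤ θ * (δ / 2) := by
          rw [pow_two, mul_assoc]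
          gcongr
        linarith
      _ = _ := by
        rw [ENNReal.ofReal_mul (by linarith)]
  · -- small workload
    refine le_trans ?_ le_add_self
    have hle : ∀ᵐ p ∂(μ.prod ν), (Set.Iic B).indicator (fun _ => (1 : ℝ≥0∞)) p.1 *
        ENNReal.ofReal (Real.exp (θ * bigA b0 R (kwStep w p.1 p.2))) ≤
        ENNReal.ofReal (Real.exp (L + (L + R) / b0)) *
          ENNReal.ofReal (Real.exp (1 / 2 * p.1 ^ a)) := by
      filter_upwards [lp_ae ha0 hμ hν] with p hp
      by_cases hpB : p.1 ≤ B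
      · rw [Set.indicator_of_mem (by exact hpB), one_mul,
          ← ENNReal.ofReal_mul (Real.exp_pos _).le, ← Real.exp_add]
        apply ENNReal.ofReal_le_ofReal
        apply Real.exp_le_exp.mpr
        have e1 := lp_crude hb hR h0 h1 hp.1.le hp.2 hL.le
        have e2 : θ * p.1 ≤ θ * (p.1 / b0) := by
          gcongr
          rw [le_div_iff₀ hb]
          nlinarith [hp.1]
        have e3 := hθB p.1 hp.1 hpB
        have e4 : 0 ≤ L + (L + R) / b0 := by
          have : 0 ≤ L := by linarith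
          positivity
        have e5 : θ * bigA b0 R (kwStep w p.1 p.2) ≤ θ * ((L + (L + R) / b0) + p.1) := by gcongr
        have e6 : θ * (L + (L + R) / b0) ≤ 1 * (L + (L + R) / b0) := by gcongr
        linarith
      · rw [Set.indicator_of_notMem (by exact hpB), zero_mul]
        exact zero_le
    calc _ ≤ _ := lintegral_mono_ae hle
      _ = ENNReal.ofReal (Real.exp (L + (L + R) / b0)) *
          ∫⁻ s, ENNReal.ofReal (Real.exp (1 / 2 * s ^ a)) ∂μ := by
        rw [lintegral_const_mul _ (by fun_prop), lintegral_prod _ (by fun_prop)]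
        simp
      _ ≤ ENNReal.ofReal (Real.exp (L + (L + R) / b0)) * ENNReal.ofReal (1 / (1 - 1 / 2)) := by
        gcongr
        exact weibull_lintegral_exp ha0 hμ (by norm_num) (by norm_num)
      _ = _ := by
        rw [← ENNReal.ofReal_mul (Real.exp_pos _).le]
        congr 1
        ring

/-- only small jobs: both workloads exceed `x` with tiny probability -/
theorem small_only (ha0 : 0 < a) (ha1 : a < 1)
    (hμ : ∀ x, 0 ≤ x → μ (Set.Ioi x) = ENNReal.ofReal (Real.exp (-(x ^ a))))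
    (hν : ν (Set.Iio 0) = 0) (hνi : Integrable (fun t : ℝ => t) ν)
    (hm : 0 < ∫ t, t ∂ν)
    (hgt : (∫ t, t ∂ν) < ∫ s, s ∂μ) (hlt : (∫ s, s ∂μ) < 2 * ∫ t, t ∂ν) :
    ∃ δ' : ℝ, 0 < δ' ∧ ∀ K : ℝ, 0 < K → ∃ b1 C x0 : ℝ, 0 < b1 ∧ 0 ≤ C ∧ 0 < x0 ∧
      ∀ b : ℝ, 0 < b → b ≤ b1 → ∀ x, x0 ≤ x → ∀ v : ℝ × ℝ, 0 ≤ v.1 → v.1 ≤ v.2 → ∀ n : ℕ,
        (noise μ ν) (allLe (b * x) n ∩ {z | x < (pIter v z n).1}) ≤
          ENNReal.ofReal (C * Real.exp (-(K * x ^ a)) *
            (n + Real.exp (K * x ^ (a - 1) * (v.2 - δ' * n)))) := by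
  obtain ⟨b0, hb, hb1, hbm⟩ := exists_b hm hgt hlt
  set E1 := ∫ s, s ∂μ with hE1
  set E2 := ∫ s, s ^ 2 ∂μ with hE2
  set m := ∫ t, t ∂ν with hmdef
  have hE2nn : 0 ≤ E2 := integral_nonneg fun s => by positivity
  -- choose M
  obtain ⟨M, hM1, hM0⟩ : ∃ M : ℝ, E1 < (1 + b0) * ∫ t, min t M ∂ν ∧ 0 ≤ M := by
    have h1 : Tendsto (fun n : ℕ => (1 + b0) * ∫ t, min t (n : ℝ) ∂ν) atTop
        (𝓝 ((1 + b0) * m)) := (tendsto_integral_min hν hνi).const_mul _
    obtain ⟨n, hn⟩ := (h1.eventually (lt_mem_nhds hbm)).exists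
    exact ⟨n, hn, by positivity⟩
  set m' := ∫ t, min t M ∂ν with hm'
  have hm'm : m' ≤ m := by
    apply integral_mono_ae (min_integrable hν hM0) hνi
    filter_upwards with t
    exact min_le_left _ _
  have hEm' : 0 < E1 - m' := by linarith
  set δ := (m' - (E1 - m') / b0) / 2 with hδ
  have hδ0 : 0 < δ := by
    rw [hδ]
    have : (E1 - m') / b0 < m' := by
      rw [div_lt_iff₀ hb]; linarith
    linarith
  -- choose R
  set R := (E2 + M ^ 2 + 1) / (2 * b0 * δ) with hR
  have hR0 : 0 < R := by positivity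
  have hRδ : (E2 + M ^ 2) / (2 * b0 * R) ≤ δ := by
    rw [div_le_iff₀ (by positivity), hR]
    have : δ * (2 * b0 * ((E2 + M ^ 2 + 1) / (2 * b0 * δ))) = E2 + M ^ 2 + 1 := by
      field_simp
    rw [this]; linarith
  have hincr : ∀ q : ℝ, 0 ≤ q → q ≤ 1 →
      ∫ p : ℝ × ℝ, incr b0 R M q p.1 p.2 ∂(μ.prod ν) ≤ -δ := by
    intro q hq0 hq1
    have hint := (integral_incr (ν := ν) ha0 hμ hν hM0 b0 R q).2
    rw [hint]
    have h5 : q / b0 * (E1 - m') ≤ 1 / b0 * (E1 - m') := by gcongr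
    have h6 : -m' + 1 / b0 * (E1 - m') = -(2 * δ) := by rw [hδ]; ring
    linarith
  -- choose L
  have hb2 : 0 < 1 - b0 ^ 2 := by nlinarith
  set L := M + R / (1 - b0 ^ 2) with hL
  have hLM : M ≤ L := by
    have : 0 < R / (1 - b0 ^ 2) := by positivity
    rw [hL]; linarith
  have hL0 : 0 ≤ L := hM0.trans hLM
  have hcond : ∀ v, L - M ≤ v → b0 ^ 2 * (v ^ 2 + R ^ 2) ≤ v ^ 2 := by
    intro v hv
    have h0 : R / (1 - b0 ^ 2) ≤ v := by rw [hL] at hv; linarith
    have h1 : R ≤ (1 - b0 ^ 2) * v := by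
      rw [div_le_iff₀ hb2] at h0
      linarith
    have hv0 : 0 < v := lt_of_lt_of_le (by positivity) h0
    have h2 : R ^ 2 ≤ ((1 - b0 ^ 2) * v) ^ 2 := by gcongr
    nlinarith [sq_nonneg (b0 * v), mul_pos hb2 (by positivity : 0 < v ^ 2)]
  set I := ∫ s, (M + (s + M) / b0) ^ 2 * Real.exp (s ^ a / 2) ∂μ with hI
  have hI0 : 0 ≤ I := integral_nonneg fun s => by positivity
  refine ⟨δ / (2 * (1 + 1 / b0)), by positivity, ?_⟩
  intro K hK
  set K0 := K / (1 + 1 / b0) with hK0
  have hK00 : 0 < K0 := by positivity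
  have hK0K : K0 * (1 + 1 / b0) = K := by
    rw [hK0]; field_simp
  -- choose b1
  set b1 := (b0 / (2 * K0)) ^ (1 / (1 - a)) with hb1def
  have h1a : 0 < 1 - a := by linarith
  have hb1pow : b1 ^ (1 - a) = b0 / (2 * K0) := by
    rw [hb1def, ← Real.rpow_mul (by positivity)]
    have : 1 / (1 - a) * (1 - a) = 1 := by field_simp
    rw [this, Real.rpow_one]
  -- choose x0
  set S := 2 * I / δ + M * (1 + 1 / b0) + δ / 2 + 1 with hS
  have hS0 : 0 < S := by positivity
  have hrp : Tendsto (fun x : ℝ => x ^ (a - 1)) atTop (𝓝 0) := by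
    have := tendsto_rpow_neg_atTop (y := 1 - a) (by linarith)
    simpa using this
  obtain ⟨x0, hx0⟩ := ((hrp.eventually (ge_mem_nhds
    (show 0 < 1 / (K0 * S) by positivity)))).exists_forall_of_atTop
  set C := 2 * Real.exp (L + (L + R) / b0) + Real.exp (R / b0) with hC
  refine ⟨b1, C, max x0 1, by positivity, by positivity, by positivity, ?_⟩
  intro b hb' hbb1 x hx v hv0 hv1 n
  have hx1 : 1 ≤ x := (le_max_right _ _).trans hx
  have hx0' : 0 < x := by linarith
  set θ := K0 * x ^ (a - 1) with hθdef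
  have hθ0 : 0 < θ := by positivity
  have hθS : θ * S ≤ 1 := by
    have h1 := hx0 x ((le_max_left _ _).trans hx)
    calc θ * S = K0 * S * x ^ (a - 1) := by rw [hθdef]; ring
      _ ≤ K0 * S * (1 / (K0 * S)) := by gcongr
      _ = 1 := by field_simp
  have hpos1 : 0 ≤ 2 * I / δ := by positivity
  have hpos2 : 0 ≤ M * (1 + 1 / b0) := by positivity
  have hs1 : θ * (M * (1 + 1 / b0)) ≤ 1 := by
    refine le_trans ?_ hθS
    gcongr
    rw [hS]; linarith
  have hs3 : θ * (δ / 2) ≤ 1 := by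
    refine le_trans ?_ hθS
    gcongr
    rw [hS]; linarith
  have hθ1 : θ ≤ 1 := by
    refine le_trans ?_ hθS
    have : θ * 1 ≤ θ * S := by
      gcongr
      rw [hS]; linarith
    linarith
  have hs2 : θ * I ≤ δ / 2 := by
    have h1 : θ * (2 * I / δ) ≤ 1 := by
      refine le_trans ?_ hθS
      gcongr
      rw [hS]; linarith
    have h2 : θ * (2 * I / δ) = (θ * I) * (2 / δ) := by ring
    rw [h2, ← le_div_iff₀ (by positivity)] at h1
    refine h1.trans (le_of_eq ?_)
    field_simp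
  have hθB : ∀ s, 0 < s → s ≤ b * x → θ * (s / b0) ≤ s ^ a / 2 := by
    intro s hs hsB
    have h1 : s / x ≤ b := by rw [div_le_iff₀ hx0']; exact hsB
    have h2 : x ^ (a - 1) * s = s ^ a * (s / x) ^ (1 - a) := by
      rw [Real.div_rpow hs.le hx0'.le]
      have e1 : s = s ^ a * s ^ (1 - a) := by
        rw [← Real.rpow_add hs]; simp
      have e2 : x ^ (a - 1) = (x ^ (1 - a))⁻¹ := by
        rw [← Real.rpow_neg hx0'.le]; congr 1; ring
      rw [e2]
      conv_lhs => rw [e1]
      field_simp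
    have h3 : (s / x) ^ (1 - a) ≤ b1 ^ (1 - a) := by
      have : s / x ≤ b1 := h1.trans hbb1
      gcongr
    rw [hb1pow] at h3
    calc θ * (s / b0) = K0 / b0 * (x ^ (a - 1) * s) := by rw [hθdef]; ring
      _ = K0 / b0 * (s ^ a * (s / x) ^ (1 - a)) := by rw [h2]
      _ ≤ K0 / b0 * (s ^ a * (b0 / (2 * K0))) := by gcongr
      _ = s ^ a / 2 := by field_simp
  -- the potential
  set Φ : ℝ × ℝ → ℝ≥0∞ := fun w => ENNReal.ofReal (Real.exp (θ * bigA b0 R w)) with hΦ
  have hΦm : Measurable Φ := by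
    rw [hΦ]
    unfold bigA
    fun_prop
  have hρ : ENNReal.ofReal (1 - θ * (δ / 2)) ≤ 1 := by
    rw [← ENNReal.ofReal_one]
    apply ENNReal.ofReal_le_ofReal
    have : 0 ≤ θ * (δ / 2) := by positivity
    linarith
  have hiter := lp_iter (μ := μ) (ν := ν) hΦm hρ (B := b * x)
    (fun w hw0 hw1 => lp_drift ha0 ha1 hμ hν hb hb1 hR0 hM0 hincr hLM hcond hθ0.le hθ1 hθB hs1
      hs2 hs3 hw0 hw1) n v hv0 hv1
  -- Markov
  have hmark : (noise μ ν) (allLe (b * x) n ∩ {z | x < (pIter v z n).1}) ≤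
      ENNReal.ofReal (Real.exp (-(K * x ^ a))) *
        ∫⁻ z, (allLe (b * x) n).indicator (fun z => Φ (pIter v z n)) z ∂(noise μ ν) := by
    have hms : MeasurableSet (allLe (b * x) n ∩ {z | x < (pIter v z n).1}) := by
      apply (measurableSet_allLe _ _).inter
      apply measurableSet_lt measurable_const
      exact measurable_fst.comp ((measurable_pIter n).comp (measurable_const.prodMk measurable_id))
    have hmi : Measurable fun z : ℕ → ℝ × ℝ =>
        (allLe (b * x) n).indicator (fun z => Φ (pIter v z n)) z :=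
      (hΦm.comp ((measurable_pIter n).comp (measurable_const.prodMk measurable_id))).indicator
        (measurableSet_allLe _ _)
    rw [← lintegral_const_mul _ hmi, ← lintegral_indicator_one hms]
    apply lintegral_mono
    intro z
    beta_reduce
    by_cases hz : z ∈ allLe (b * x) n ∩ {z | x < (pIter v z n).1}
    · rw [Set.indicator_of_mem hz, Set.indicator_of_mem hz.1]
      have h1 : x < (pIter v z n).1 := hz.2
      have h2 := (pIter_ordered hv0 hv1 z n).2
      have h3 : (1 + 1 / b0) * x ≤ bigA b0 R (pIter v z n) := by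
        unfold bigA
        have e1 : x ≤ √((pIter v z n).1 ^ 2 + R ^ 2) := by
          apply Real.le_sqrt_of_sq_le
          nlinarith [sq_nonneg R]
        have e2 : x / b0 ≤ √((pIter v z n).1 ^ 2 + R ^ 2) / b0 := by gcongr
        have e3 : (1 + 1 / b0) * x = x + x / b0 := by ring
        rw [e3]
        linarith
      have h4 : K * x ^ a ≤ θ * bigA b0 R (pIter v z n) := by
        calc K * x ^ a = θ * ((1 + 1 / b0) * x) := by
              rw [hθdef, ← hK0K]
              have : x ^ a = x ^ (a - 1) * x := by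
                rw [Real.rpow_sub_one hx0'.ne']; field_simp
              rw [this]
              ring
          _ ≤ _ := by gcongr
      rw [hΦ, ← ENNReal.ofReal_mul (Real.exp_pos _).le, ← Real.exp_add]
      change (1 : ℝ≥0∞) ≤ _
      rw [ENNReal.one_le_ofReal]
      apply Real.one_le_exp
      linarith
    · rw [Set.indicator_of_notMem hz]
      exact zero_le
  refine hmark.trans ?_
  -- final computation
  have hΦv : Real.exp (θ * bigA b0 R v) ≤ Real.exp (K * x ^ (a - 1) * v.2) * Real.exp (R / b0) := by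
    rw [← Real.exp_add]
    apply Real.exp_le_exp.mpr
    have e1 : bigA b0 R v ≤ (1 + 1 / b0) * v.2 + R / b0 := by
      unfold bigA
      have : √(v.1 ^ 2 + R ^ 2) ≤ v.2 + R := by
        apply Real.sqrt_le_iff.mpr
        constructor
        · linarith
        · nlinarith
      have e2 : √(v.1 ^ 2 + R ^ 2) / b0 ≤ (v.2 + R) / b0 := by gcongr
      have e3 : (1 + 1 / b0) * v.2 + R / b0 = v.2 + (v.2 + R) / b0 := by ring
      rw [e3]
      linarith
    calc θ * bigA b0 R v ≤ θ * ((1 + 1 / b0) * v.2 + R / b0) := by gcongr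
      _ = K * x ^ (a - 1) * v.2 + θ * (R / b0) := by
        rw [hθdef, ← hK0K]; ring
      _ ≤ K * x ^ (a - 1) * v.2 + 1 * (R / b0) := by gcongr
      _ = _ := by ring
  have hpow : (1 - θ * (δ / 2)) ^ n ≤ Real.exp (-(K * x ^ (a - 1) * (δ / (2 * (1 + 1 / b0)) * n))) := by
    have e1 : 1 - θ * (δ / 2) ≤ Real.exp (-(θ * (δ / 2))) := by
      have := Real.add_one_le_exp (-(θ * (δ / 2)))
      linarith
    calc (1 - θ * (δ / 2)) ^ n ≤ (Real.exp (-(θ * (δ / 2)))) ^ n := by
          apply pow_le_pow_left₀ (by linarith) e1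
      _ = Real.exp (-(K * x ^ (a - 1) * (δ / (2 * (1 + 1 / b0)) * n))) := by
          rw [← Real.exp_nat_mul]
          congr 1
          rw [hθdef, hK0]
          field_simp
  calc ENNReal.ofReal (Real.exp (-(K * x ^ a))) *
        ∫⁻ z, (allLe (b * x) n).indicator (fun z => Φ (pIter v z n)) z ∂(noise μ ν)
      ≤ ENNReal.ofReal (Real.exp (-(K * x ^ a))) *
        (ENNReal.ofReal (1 - θ * (δ / 2)) ^ n * Φ v +
          n * ENNReal.ofReal (2 * Real.exp (L + (L + R) / b0))) := by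
        gcongr
    _ = ENNReal.ofReal (Real.exp (-(K * x ^ a)) *
        ((1 - θ * (δ / 2)) ^ n * Real.exp (θ * bigA b0 R v) +
          n * (2 * Real.exp (L + (L + R) / b0)))) := by
        have hn1 : 0 ≤ (1 - θ * (δ / 2)) ^ n := pow_nonneg (by linarith) n
        rw [hΦ, ← ENNReal.ofReal_pow (by linarith), ← ENNReal.ofReal_mul hn1,
          ← ENNReal.ofReal_natCast n, ← ENNReal.ofReal_mul (by positivity),
          ← ENNReal.ofReal_add (by positivity) (by positivity),
          ← ENNReal.ofReal_mul (by positivity)]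
    _ ≤ _ := by
        apply ENNReal.ofReal_le_ofReal
        have e1 : (1 - θ * (δ / 2)) ^ n * Real.exp (θ * bigA b0 R v) ≤
            Real.exp (R / b0) *
              Real.exp (K * x ^ (a - 1) * (v.2 - δ / (2 * (1 + 1 / b0)) * n)) := by
          calc (1 - θ * (δ / 2)) ^ n * Real.exp (θ * bigA b0 R v)
              ≤ Real.exp (-(K * x ^ (a - 1) * (δ / (2 * (1 + 1 / b0)) * n))) *
                (Real.exp (K * x ^ (a - 1) * v.2) * Real.exp (R / b0)) := by
                gcongr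
            _ = _ := by
                rw [← Real.exp_add, ← Real.exp_add, ← Real.exp_add]
                congr 1
                ring
        have e2 : Real.exp (R / b0) *
              Real.exp (K * x ^ (a - 1) * (v.2 - δ / (2 * (1 + 1 / b0)) * n)) ≤
            C * Real.exp (K * x ^ (a - 1) * (v.2 - δ / (2 * (1 + 1 / b0)) * n)) := by
          gcongr
          rw [hC]
          have := Real.exp_pos (L + (L + R) / b0)
          linarith
        have e3 : n * (2 * Real.exp (L + (L + R) / b0)) ≤ C * n := by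
          rw [mul_comm]
          gcongr
          rw [hC]
          have := Real.exp_pos (R / b0)
          linarith
        calc Real.exp (-(K * x ^ a)) *
              ((1 - θ * (δ / 2)) ^ n * Real.exp (θ * bigA b0 R v) +
                n * (2 * Real.exp (L + (L + R) / b0)))
            ≤ Real.exp (-(K * x ^ a)) *
              (C * Real.exp (K * x ^ (a - 1) * (v.2 - δ / (2 * (1 + 1 / b0)) * n)) + C * n) := by
              apply mul_le_mul_of_nonneg_left _ (Real.exp_pos _).le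
              linarith
          _ = _ := by ring

end stoch

end Pool.Agent.Lib.MP_04add8_pr
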