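import Mathlib
import Pool.Agent.Lib.MP_04add8_pr.One.LinPot

open MeasureTheory ProbabilityTheory Filter Topology
open scoped ENNReal

set_option linter.unusedSectionVars false

namespace Pool.Agent.Lib.MP_04add8_pr

section stoch

variable {a : ℝ} {μ ν : Measure ℝ} [IsProbabilityMeasure μ] [IsProbabilityMeasure ν]

lemma Ret_cat (x B y : ℝ) (v : ℝ × ℝ) (k m : ℕ) {Q : ℝ≥0∞}
    (hQ : ∀ z : ℕ → ℝ × ℝ, (pIter v z k).2 ≤ y →
      (noise μ ν) (allLe B m ∩ {z' | x < (pIter (pIter v z k) z' m).1}) ≤ Q) :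
    (noise μ ν) (allLe B (k + m) ∩ {z | (pIter v z k).2 ≤ y ∧ x < (pIter v z (k + m)).1}) ≤
      Q := by
  have hmp : ∀ j : ℕ, Measurable (fun z : ℕ → ℝ × ℝ => pIter v z j) := fun j =>
    (measurable_pIter j).comp (measurable_const.prodMk measurable_id)
  have hset : MeasurableSet (allLe B (k + m) ∩
      {z | (pIter v z k).2 ≤ y ∧ x < (pIter v z (k + m)).1}) := by
    refine (measurableSet_allLe B (k + m)).inter (MeasurableSet.inter ?_ ?_)
    · exact measurableSet_le (measurable_snd.comp (hmp k)) measurable_const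
    · exact measurableSet_lt measurable_const (measurable_fst.comp (hmp (k + m)))
  rw [← lintegral_indicator_one hset,
    lintegral_noise_cat k (measurable_one.indicator hset)]
  calc ∫⁻ z, ∫⁻ z', (allLe B (k + m) ∩
        {z | (pIter v z k).2 ≤ y ∧ x < (pIter v z (k + m)).1}).indicator 1 (cat k z z')
          ∂(noise μ ν) ∂(noise μ ν) ≤ ∫⁻ _z, Q ∂(noise μ ν) := by
        refine lintegral_mono fun z => ?_
        by_cases hz : (pIter v z k).2 ≤ y
        · refine le_trans ?_ (hQ z hz)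
          have hset2 : MeasurableSet (allLe B m ∩ {z' | x < (pIter (pIter v z k) z' m).1}) := by
            refine (measurableSet_allLe B m).inter ?_
            exact measurableSet_lt measurable_const (measurable_fst.comp
              ((measurable_pIter m).comp (measurable_const.prodMk measurable_id)))
          rw [← lintegral_indicator_one hset2]
          refine lintegral_mono fun z' => ?_
          by_cases hmem : cat k z z' ∈ allLe B (k + m) ∩
              {z | (pIter v z k).2 ≤ y ∧ x < (pIter v z (k + m)).1}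
          · have h1 : z' ∈ allLe B m ∩ {z' | x < (pIter (pIter v z k) z' m).1} := by
              refine ⟨fun i hi => ?_, ?_⟩
              · have := hmem.1 (k + i) (by omega)
                rwa [cat_add] at this
              · have := hmem.2.2
                rwa [pIter_cat] at this
            rw [Set.indicator_of_mem hmem, Set.indicator_of_mem h1]
            exact le_refl (1 : ℝ≥0∞)
          · rw [Set.indicator_of_notMem hmem]
            exact zero_le
        · have h0 : ∀ z' : ℕ → ℝ × ℝ, (allLe B (k + m) ∩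
              {z | (pIter v z k).2 ≤ y ∧ x < (pIter v z (k + m)).1}).indicator
                (1 : (ℕ → ℝ × ℝ) → ℝ≥0∞) (cat k z z') = 0 := by
            intro z'
            refine Set.indicator_of_notMem ?_ _
            intro hmem
            apply hz
            have := hmem.2.1
            rwa [pIter_congr v (fun j hj => cat_lt z z' hj)] at this
          simp only [h0, lintegral_zero]
          exact zero_le
    _ = Q := by rw [lintegral_const, measure_univ, mul_one]

theorem return_small (ha0 : 0 < a) (ha1 : a < 1)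
    (hμ : ∀ x, 0 ≤ x → μ (Set.Ioi x) = ENNReal.ofReal (Real.exp (-(x ^ a))))
    (hν : ν (Set.Iio 0) = 0) (hνi : Integrable (fun t : ℝ => t) ν)
    (hm : 0 < ∫ t, t ∂ν)
    (hgt : (∫ t, t ∂ν) < ∫ s, s ∂μ) (hlt : (∫ s, s ∂μ) < 2 * ∫ t, t ∂ν)
    {K : ℝ} (hK : 0 < K) :
    ∃ b1 C x0 : ℝ, 0 < b1 ∧ 0 ≤ C ∧ 0 < x0 ∧
      ∀ b : ℝ, 0 < b → b ≤ b1 → ∀ x, x0 ≤ x → ∀ e : ℝ, 0 ≤ e → ∀ v : ℝ × ℝ, 0 ≤ v.1 →
        v.1 ≤ v.2 → ∀ n : ℕ,
        (noise μ ν) (allLe (b * x) n ∩ {z | (∃ k ≤ n, (pIter v z k).2 ≤ e * x) ∧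
          x < (pIter v z n).1}) ≤
          ENNReal.ofReal (C * (n + 1) ^ 2 * Real.exp (-(K * (1 - e) * x ^ a))) := by
  obtain ⟨δ', hδ', hso⟩ := small_only ha0 ha1 hμ hν hνi hm hgt hlt
  obtain ⟨b1, C, x0, hb1, hC, hx0, hmain⟩ := hso K hK
  refine ⟨b1, C, x0, hb1, hC, hx0, fun b hb hbb x hx e he v hv0 hv1 n => ?_⟩
  have hxpos : 0 < x := lt_of_lt_of_le hx0 hx
  have hxa : 0 < x ^ a := Real.rpow_pos_of_pos hxpos a
  have hsub : allLe (b * x) n ∩ {z | (∃ k ≤ n, (pIter v z k).2 ≤ e * x) ∧
      x < (pIter v z n).1} ⊆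
      ⋃ k ∈ Finset.range (n + 1), (allLe (b * x) n ∩
        {z | (pIter v z k).2 ≤ e * x ∧ x < (pIter v z n).1}) := by
    rintro z ⟨hz1, ⟨k, hk, hz2⟩, hz3⟩
    rw [Set.mem_iUnion₂]
    exact ⟨k, Finset.mem_range.2 (by omega), hz1, hz2, hz3⟩
  refine (measure_mono hsub).trans ((measure_biUnion_finset_le _ _).trans ?_)
  have hterm : ∀ k ∈ Finset.range (n + 1), (noise μ ν) (allLe (b * x) n ∩
        {z | (pIter v z k).2 ≤ e * x ∧ x < (pIter v z n).1}) ≤
      ENNReal.ofReal (C * (n + 1) * Real.exp (-(K * (1 - e) * x ^ a))) := by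
    intro k hk
    have hk' : k ≤ n := by have := Finset.mem_range.1 hk; omega
    obtain ⟨m, rfl⟩ := Nat.exists_eq_add_of_le hk'
    refine Ret_cat x (b * x) (e * x) v k m fun z hz => ?_
    have hord := pIter_ordered hv0 hv1 z k
    refine (hmain b hb hbb x hx (pIter v z k) hord.1 hord.2 m).trans ?_
    refine ENNReal.ofReal_le_ofReal ?_
    have hxa1 : x ^ (a - 1) * x = x ^ a := by
      rw [← Real.rpow_add_one hxpos.ne']
      congr 1
      ring
    have hxa1pos : 0 < x ^ (a - 1) := Real.rpow_pos_of_pos hxpos _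
    have h1 : K * x ^ (a - 1) * ((pIter v z k).2 - δ' * m) ≤ K * e * x ^ a := by
      have h2 : (pIter v z k).2 - δ' * m ≤ e * x := by
        have : 0 ≤ δ' * (m : ℝ) := by positivity
        linarith
      calc K * x ^ (a - 1) * ((pIter v z k).2 - δ' * m) ≤ K * x ^ (a - 1) * (e * x) :=
            mul_le_mul_of_nonneg_left h2 (by positivity)
        _ = K * e * (x ^ (a - 1) * x) := by ring
        _ = K * e * x ^ a := by rw [hxa1]
    have h3 : Real.exp (K * x ^ (a - 1) * ((pIter v z k).2 - δ' * m)) ≤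
        Real.exp (K * e * x ^ a) := Real.exp_le_exp.2 h1
    have h4 : (1 : ℝ) ≤ Real.exp (K * e * x ^ a) := Real.one_le_exp (by positivity)
    have h5 : (m : ℝ) + Real.exp (K * x ^ (a - 1) * ((pIter v z k).2 - δ' * m)) ≤
        ((k + m : ℕ) + 1 : ℝ) * Real.exp (K * e * x ^ a) := by
      have h6 : (m : ℝ) ≤ ((k + m : ℕ) : ℝ) := by exact_mod_cast Nat.le_add_left m k
      have h7 : (0 : ℝ) ≤ ((k + m : ℕ) : ℝ) := by positivity
      calc (m : ℝ) + Real.exp (K * x ^ (a - 1) * ((pIter v z k).2 - δ' * m))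
          ≤ ((k + m : ℕ) : ℝ) * Real.exp (K * e * x ^ a) + Real.exp (K * e * x ^ a) := by
            refine add_le_add ?_ h3
            calc (m : ℝ) ≤ ((k + m : ℕ) : ℝ) * 1 := by linarith
              _ ≤ _ := mul_le_mul_of_nonneg_left h4 h7
        _ = _ := by ring
    calc C * Real.exp (-(K * x ^ a)) *
          ((m : ℝ) + Real.exp (K * x ^ (a - 1) * ((pIter v z k).2 - δ' * m)))
        ≤ C * Real.exp (-(K * x ^ a)) *
          (((k + m : ℕ) + 1 : ℝ) * Real.exp (K * e * x ^ a)) :=
          mul_le_mul_of_nonneg_left h5 (by positivity)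
      _ = C * ((k + m : ℕ) + 1 : ℝ) * (Real.exp (-(K * x ^ a)) * Real.exp (K * e * x ^ a)) := by
          ring
      _ = C * ((k + m : ℕ) + 1 : ℝ) * Real.exp (-(K * (1 - e) * x ^ a)) := by
          rw [← Real.exp_add]
          congr 2
          ring
  refine (Finset.sum_le_sum hterm).trans ?_
  rw [Finset.sum_const, Finset.card_range, nsmul_eq_mul, ← ENNReal.ofReal_natCast,
    ← ENNReal.ofReal_mul (by positivity)]
  refine ENNReal.ofReal_le_ofReal (le_of_eq ?_)
  push_cast
  ring

end stoch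

end Pool.Agent.Lib.MP_04add8_pr
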